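import Pool.Agent.H18.FC2.Defs
import Pool.Agent.H92.FC.Main

/-!
# Rates and binomial coefficients
-/

namespace FC

open Finset

theorem rt_zero : rt 0 = 0 := by unfold rt; simp

theorem rt_nonneg {x : ℝ} (hx : 0 ≤ x) : 0 ≤ rt x := by
  unfold rt
  have := Real.exp_le_one_iff.2 (by linarith : -x ≤ 0)
  linarith

theorem rt_lt_one (x : ℝ) : rt x < 1 := by
  unfold rt
  have := Real.exp_pos (-x)
  linarith

theorem rt_mono {x y : ℝ} (h : x ≤ y) : rt x ≤ rt y := by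
  unfold rt
  have := Real.exp_le_exp.2 (by linarith : -y ≤ -x)
  linarith

theorem rt_le (x : ℝ) : rt x ≤ x := by
  unfold rt
  have := Real.add_one_le_exp (-x)
  linarith

theorem le_rt {x : ℝ} (hx : 0 ≤ x) : x - x ^ 2 / 2 ≤ rt x := by
  unfold rt
  have h1 : Real.exp (-x) ≤ 1 - x + x ^ 2 / 2 := by
    have h2 := Real.exp_pos x
    have h3 : 1 + x + x ^ 2 / 2 ≤ Real.exp x := Real.quadratic_le_exp_of_nonneg hx
    have h4 : Real.exp (-x) * Real.exp x = 1 := by rw [← Real.exp_add]; simp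
    have h5 : 0 < 1 + x + x ^ 2 / 2 := by positivity
    have h6 : Real.exp (-x) ≤ 1 / (1 + x + x ^ 2 / 2) := by
      rw [le_div_iff₀ h5]
      calc Real.exp (-x) * (1 + x + x ^ 2 / 2) ≤ Real.exp (-x) * Real.exp x :=
            mul_le_mul_of_nonneg_left h3 (Real.exp_pos _).le
        _ = 1 := h4
    refine h6.trans ?_
    rw [div_le_iff₀ h5]
    nlinarith [pow_nonneg hx 3, pow_nonneg hx 4]
  linarith

theorem choose_mul (d n : ℕ) (hn : d ≤ n) :
    (n.choose (d + 1) : ℝ) * ((d : ℝ) + 1) = (n.choose d : ℝ) * ((n : ℝ) - d) := by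
  have h := Nat.choose_succ_right_eq n d
  have h2 : ((n - d : ℕ) : ℝ) = (n : ℝ) - d := by rw [Nat.cast_sub hn]
  rw [← h2]
  exact_mod_cast h

/-- lower bound for the number of ridges -/
theorem choose_low (d n : ℕ) (hd : 1 ≤ d) (hn : 2 * d ≤ n) :
    (n : ℝ) ^ d / (2 ^ d * (d.factorial : ℝ)) ≤ (n.choose d : ℝ) := by
  obtain ⟨k, rfl⟩ : ∃ k, d = k + 1 := ⟨d - 1, by omega⟩
  exact choose_lower k n hn


end FC
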