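import Pool.Agent.H18.FC2.Ev
import Pool.Agent.H18.FC2.Rt

/-!
# First emerging cycle: `Af ≤ Wf` by double counting
-/

namespace FC

open Finset

variable {d : ℕ}

theorem h15_dn0 {q p : ℝ} (hq : 0 ≤ q) (hp : 0 ≤ p) (τ : Finset ℕ) : 0 ≤ dn d q p τ := by
  unfold dn; split_ifs <;> assumption

theorem h15_dn1 {q p : ℝ} (hq : q ≤ 1) (hp : p ≤ 1) (τ : Finset ℕ) : dn d q p τ ≤ 1 := by
  unfold dn; split_ifs <;> assumption

open Classical in
/-- Double counting of the pairs (face, vertex of the face). -/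
theorem h15_dc (d n : ℕ) (hn : d ≤ n) (W : Finset (Finset ℕ)) (hW : W ⊆ rg d n) :
    ((d : ℝ) + 1) * (((fc d n).filter (fun σ => ∀ x ∈ σ, σ.erase x ∈ W)).card : ℝ) ≤
      ((n : ℝ) - d) * (W.card : ℝ) := by
  set F := (fc d n).filter (fun σ => ∀ x ∈ σ, σ.erase x ∈ W) with hF
  have h1 : (F.sigma (fun σ => σ)).card = (d + 1) * F.card := by
    have h0 : ∀ σ ∈ F, σ.card = d + 1 := fun σ hσ =>
      (mem_powersetCard.1 (mem_filter.1 hσ).1).2
    rw [card_sigma, sum_congr rfl h0, sum_const, smul_eq_mul, mul_comm]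
  have h2 : (W.sigma (fun f => range n \ f)).card = (n - d) * W.card := by
    rw [card_sigma]
    have : ∀ f ∈ W, (range n \ f).card = n - d := by
      intro f hf
      have h3 := mem_powersetCard.1 (hW hf)
      rw [card_sdiff_of_subset h3.1, card_range, h3.2]
    rw [sum_congr rfl this, sum_const, smul_eq_mul, mul_comm]
  have h3 : (F.sigma (fun σ => σ)).card ≤ (W.sigma (fun f => range n \ f)).card := by
    refine card_le_card_of_injOn (fun z => ⟨z.1.erase z.2, z.2⟩) ?_ ?_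
    · intro z hz
      have hz' := mem_sigma.1 (mem_coe.1 hz)
      obtain ⟨ha, hb⟩ := hz'
      have hc := mem_filter.1 ha
      have hr := (mem_powersetCard.1 hc.1).1
      refine mem_coe.2 (mem_sigma.2 ⟨hc.2 _ hb, ?_⟩)
      exact mem_sdiff.2 ⟨hr hb, notMem_erase _ _⟩
    · rintro ⟨σ, x⟩ hz ⟨σ', x'⟩ hz' h
      have hx := (mem_sigma.1 (mem_coe.1 hz)).2
      have hx' := (mem_sigma.1 (mem_coe.1 hz')).2
      simp only [Sigma.mk.injEq, heq_eq_eq] at h hx hx'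
      obtain ⟨ha, rfl⟩ := h
      have : σ = σ' := by rw [← insert_erase hx, ← insert_erase hx', ha]
      rw [this]
  rw [h1, h2] at h3
  have h4 : ((n - d : ℕ) : ℝ) = (n : ℝ) - d := by rw [Nat.cast_sub hn]
  rw [← h4]
  exact_mod_cast h3

/-- The deterministic inequality behind `Af_le_Wf`. -/
theorem h15_det (d n : ℕ) (hn : d ≤ n) (F W : ℝ) (h : ((d : ℝ) + 1) * F ≤ ((n : ℝ) - d) * W) :
    (n.choose d : ℝ) * F ≤ (n.choose (d + 1) : ℝ) * W := by
  have h1 := choose_mul d n hn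
  have h2 : (0 : ℝ) < (d : ℝ) + 1 := by positivity
  have h3 : (0 : ℝ) ≤ (n.choose d : ℝ) := Nat.cast_nonneg _
  have h4 := mul_le_mul_of_nonneg_left h h3
  refine le_of_mul_le_mul_left ?_ h2
  calc ((d : ℝ) + 1) * ((n.choose d : ℝ) * F) = (n.choose d : ℝ) * (((d : ℝ) + 1) * F) := by ring
    _ ≤ (n.choose d : ℝ) * (((n : ℝ) - d) * W) := h4
    _ = ((n.choose d : ℝ) * ((n : ℝ) - d)) * W := by ring
    _ = ((n.choose (d + 1) : ℝ) * ((d : ℝ) + 1)) * W := by rw [h1]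
    _ = _ := by ring

theorem Af_le_Wf (Q : ERank d) (n : ℕ) (hn : d + 1 ≤ n) (q p : ℝ) (hq0 : 0 ≤ q) (hq1 : q ≤ 1)
    (hp0 : 0 ≤ p) (hp1 : p ≤ 1) : Af Q n q p ≤ Wf Q n q p := by
  classical
  have h0 : (0 : ℝ) < (n.choose d : ℝ) := by exact_mod_cast Nat.choose_pos (by omega)
  have h1 : (0 : ℝ) < (n.choose (d + 1) : ℝ) := by exact_mod_cast Nat.choose_pos hn
  unfold Af Wf E2
  rw [div_le_div_iff₀ h1 h0, mul_comm _ (n.choose d : ℝ), mul_comm _ (n.choose (d + 1) : ℝ),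
    ← Ev_mul, ← Ev_mul]
  refine Ev_mono _ _ (fun i _ => h15_dn0 hq0 hp0 i) (fun i _ => h15_dn1 hq1 hp1 i) _ _ ?_
  intro X _
  refine h15_det d n (by omega) _ _ ?_
  have := h15_dc d n (by omega) (wset Q.toRankFn (rg d n) X) (filter_subset _ _)
  convert this

end FC
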