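import Pool.Agent.H92.FC.FF6

set_option autoImplicit false
open Finset

/-! The threshold gap for blocks of size `n ^ η`, for all `n`, from a lower bound for the
increase of `beta` in the number of vertices. -/

namespace FC

variable {d : ℕ}

/-- `beta` increases by the order `J * n ^ (d - 1)` when `J` vertices are added. -/
def KP (R : CRank d) : Prop :=
  ∀ e0 : ℝ, 0 < e0 → ∃ ζ > (0:ℝ), ∃ J ≥ 1, ∃ n0 : ℕ, ∀ n ≥ n0, ∀ q : ℝ, 0 < q →
    q ≤ ((d : ℝ) + 3) / n → (n : ℝ) ^ ((d : ℝ) / 2 + e0) ≤ beta R n q →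
    beta R n q ≤ (n : ℝ) ^ ((d : ℝ) - 1 / 4) →
    ζ * (J : ℕ) * (n : ℝ) ^ (d - 1) ≤ beta R (n + J) q - beta R n q

theorem h92_convseq (f : ℕ → ℝ) (hf : ∀ i, 2 * f (i + 1) ≤ f i + f (i + 2)) (J K : ℕ)
    (hJK : J ≤ K) : (K : ℝ) * (f J - f 0) ≤ J * (f K - f 0) := by
  have hm : ∀ i j, i ≤ j → f (i + 1) - f i ≤ f (j + 1) - f j := by
    intro i j hij
    induction hij with
    | refl => exact le_rfl
    | @step m _ ih =>
      have := hf m
      have e1 : f (m + 1 + 1) = f (m + 2) := rfl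
      show f (i + 1) - f i ≤ f (m + 1 + 1) - f (m + 1)
      rw [e1]; linarith
  have hs : ∀ J K, J ≤ K → f J - f 0 ≤ (J : ℝ) * (f (K + 1) - f K) := by
    intro J
    induction J with
    | zero => intro K _; simp
    | succ J ih =>
      intro K hK
      have h1 := ih K (by omega)
      have h2 := hm J K (by omega)
      push_cast
      linarith
  induction hJK with
  | refl => exact le_rfl
  | @step m hm' ih =>
    have h1 := hs J m hm'
    show ((m + 1 : ℕ) : ℝ) * (f J - f 0) ≤ J * (f (m + 1) - f 0)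
    push_cast
    have e : (J : ℝ) * (f (m + 1) - f 0) = J * (f m - f 0) + J * (f (m + 1) - f m) := by ring
    rw [e]
    linarith

theorem ff_all (hd : 2 ≤ d) (R : CRank d) (hKP : KP R) (η : ℝ) (hη : 0 < η) (hη1 : η ≤ 1 / 4)
    (ε : ℝ) (hε : 0 < ε) : ∃ n0 : ℕ, ∀ n ≥ n0, ∃ (I : ℕ) (q1 q2 : ℝ),
        (n : ℝ) ^ η / 2 ≤ (2:ℝ) ^ I ∧ (2:ℝ) ^ I ≤ (n : ℝ) ^ η ∧ 0 ≤ q1 ∧ q1 ≤ q2 ∧
        q2 ≤ ((d : ℝ) + 3) / n ∧
        32 * ((fc d n).card * q2) + 16 ≤ ((fc d n).card * (q2 - q1)) ^ 2 ∧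
        Ex (fc d n) q1 (fun X => ind ((R.nul X : ℝ) < (n : ℝ) ^ ((d : ℝ) / 2))) ≤ ε ∧
        Ex (fc d n) q2 (fun X => ind (BadIn R (range n \ blk (2 ^ I) 0) X)) ≤ ε := by
  classical
  have hdR : (2:ℝ) ≤ d := by exact_mod_cast hd
  set e0 : ℝ := η / 32 with he0
  set e1 : ℝ := η / 16 with he1
  set δ : ℝ := η / 32 with hδ
  set κ : ℝ := η / 8 with hκ
  have he0' : 0 < e0 := by positivity
  have he1' : 0 < e1 := by positivity
  have hδ' : 0 < δ := by positivity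
  have hκ' : 0 < κ := by positivity
  obtain ⟨m0, s, c, hAN⟩ := h63_ANe_of hd e0 he0' R
  obtain ⟨M0, hM0⟩ := h63e_range hd he0' (by rw [he0, he1]; linarith : e0 < e1)
    (by rw [he1]; linarith) hAN 2 (by norm_num)
  obtain ⟨ζ, hζ, J, hJ, k0, hk0⟩ := hKP e0 he0'
  set C1 : ℝ := 1 + 2 ^ (d - 1) / ζ with hC1def
  have hC1 : 1 ≤ C1 := by
    have : 0 ≤ (2:ℝ) ^ (d - 1) / ζ := by positivity
    rw [hC1def]; linarith
  obtain ⟨n1, hn1⟩ := prob_main d hd R δ ε hδ' hε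
  set D : ℝ := (d : ℝ) + 3 with hD
  have hD0 : 0 < D := by positivity
  set c' : ℝ := 1 / (2 ^ (d + 1) * ((d + 1).factorial : ℝ)) with hc'
  have hc'0 : 0 < c' := by positivity
  have hN : Filter.Tendsto (fun n : ℕ => (n : ℝ)) Filter.atTop Filter.atTop :=
    tendsto_natCast_atTop_atTop
  have ev : ∀ (t : ℝ) (A : ℝ), 0 < t → ∀ᶠ n : ℕ in Filter.atTop, A ≤ (n : ℝ) ^ t := by
    intro t A ht
    exact ((tendsto_rpow_atTop ht).comp hN).eventually_ge_atTop A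
  have hall := (ev (e1 - δ) (2 ^ ((d : ℝ) / 2 + e1)) (by rw [he1, hδ]; linarith)).and
    ((ev (η - e1 - δ - κ) (2 * C1) (by rw [he1, hδ, hκ]; linarith)).and
    ((ev (η - 2 * δ - 2 * κ) (2 * C1 ^ 2) (by rw [hδ, hκ]; linarith)).and
    ((ev δ 2 hδ').and ((ev (2 * δ) (-Real.log ε * (16 * D)) (by positivity)).and
    ((ev (2 * δ) ((32 * D + 16) * 4 / c' ^ 2) (by positivity)).and
    ((Filter.eventually_ge_atTop (max (max n1 (2 * (d + 1))) (max (2 * M0 + 2) (2 * k0)))).and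
    ((ev η (2 * J) hη).and ((ev (1 - η) D (by linarith)).and
    (ev ((d : ℝ) / 2 - 1 / 4 - e1) (2 ^ ((d : ℝ) - 1 / 4)) (by rw [he1]; linarith))))))))))
  obtain ⟨n0, hn0⟩ := hall.exists_forall_of_atTop
  refine ⟨n0, fun n hn => ?_⟩
  obtain ⟨c1, c2, c3, c4, c5, c6, c7, c8, c9, c10⟩ := hn0 n hn
  have hnn1 : n1 ≤ n := (le_max_left _ _).trans ((le_max_left _ _).trans c7)
  have hnd : 2 * (d + 1) ≤ n := (le_max_right _ _).trans ((le_max_left _ _).trans c7)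
  have hnM0 : 2 * M0 + 2 ≤ n := (le_max_left _ _).trans ((le_max_right _ _).trans c7)
  have hnk0 : 2 * k0 ≤ n := (le_max_right _ _).trans ((le_max_right _ _).trans c7)
  set I := h63_I η n with hI
  set K : ℕ := 2 ^ I with hK
  have hK1 : 1 ≤ K := Nat.one_le_two_pow
  have hn1' : 1 ≤ n := by omega
  have hnR : (0:ℝ) < n := by exact_mod_cast (by omega : 0 < n)
  have hnR1 : (1:ℝ) ≤ n := by exact_mod_cast hn1'
  have hKR : (n : ℝ) ^ η / 2 ≤ (K : ℝ) := by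
    rw [hK]; push_cast; exact h63_le_I
  have hKR' : (K : ℝ) ≤ (n : ℝ) ^ η := by
    rw [hK]; push_cast; exact h63_I_le hη hn1'
  have hDK : D * K ≤ n := by
    calc D * K ≤ (n : ℝ) ^ (1 - η) * (n : ℝ) ^ η :=
          mul_le_mul c9 hKR' (by positivity) (by positivity)
      _ = n := by rw [← Real.rpow_add hnR]; simp
  have hDKn : (d + 3) * K ≤ n := by
    have : (((d + 3) * K : ℕ) : ℝ) ≤ (n : ℝ) := by push_cast; rw [← hD]; exact hDK
    exact_mod_cast this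
  have hK2 : 2 * K ≤ n := by
    have h1 : 2 * K ≤ (d + 3) * K := Nat.mul_le_mul_right K (by omega)
    omega
  have hKn : K < n := by omega
  have hJK : J ≤ K := by
    have : (J : ℝ) ≤ K := by linarith
    exact_mod_cast this
  set m : ℕ := n - K with hm
  have hmK : m + K = n := by omega
  have hm2 : n ≤ 2 * m := by omega
  have hmn : m ≤ n := by omega
  have hmpos : 0 < m := by omega
  have hmR : (0:ℝ) < m := by exact_mod_cast hmpos
  have hmnR : (n:ℝ) ≤ 2 * m := by exact_mod_cast hm2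
  set θ : ℝ := (n : ℝ) ^ ((d : ℝ) / 2 + e1) with hθ
  have gn : h63e_G d (beta R) m0 c e0 θ n := hM0 n (by omega) n (by omega) (by omega)
  have gm : h63e_G d (beta R) m0 c e0 θ m := hM0 n (by omega) m hm2 (by omega)
  set q1 : ℝ := h63_q (beta R) θ n with hq1
  set q2 : ℝ := h63_q (beta R) θ m with hq2
  have b1 : 0 < q1 := gn.qpos hAN
  have b4 : beta R n q1 = θ := gn.val hAN
  have b5 : beta R m q2 = θ := gm.val hAN
  have hq2pos : 0 < q2 := gm.qpos hAN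
  have hq2m : q2 ≤ ((d : ℝ) + 2) / m := gm.qle
  have hq2m' : q2 ≤ ((d : ℝ) + 3) / m :=
    hq2m.trans (div_le_div_of_nonneg_right (by linarith) hmR.le)
  have b3 : q2 ≤ D / n := by
    refine hq2m.trans ?_
    rw [div_le_div_iff₀ hmR hnR, hD]
    have e : (n : ℝ) = m + K := by exact_mod_cast hmK.symm
    have e' : (m : ℝ) = n - K := by linarith
    rw [e']
    rw [hD] at hDK
    nlinarith
  have hq21' : q2 ≤ 1 := h63_q_le_one _ _ _
  -- the increase of `beta`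
  have hinc : ζ * J * (m : ℝ) ^ (d - 1) ≤ beta R (m + J) q2 - beta R m q2 := by
    refine hk0 m (by omega) q2 hq2pos hq2m' ?_ ?_
    · rw [b5]; exact gm.lo.le
    · rw [b5, hθ]
      have h1 : (n : ℝ) ^ ((d : ℝ) / 2 + e1) * 2 ^ ((d : ℝ) - 1 / 4) ≤
          (m : ℝ) ^ ((d : ℝ) - 1 / 4) * 2 ^ ((d : ℝ) - 1 / 4) := by
        calc _ ≤ (n : ℝ) ^ ((d : ℝ) / 2 + e1) * (n : ℝ) ^ ((d : ℝ) / 2 - 1 / 4 - e1) :=
              mul_le_mul_of_nonneg_left c10 (by positivity)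
          _ = (n : ℝ) ^ ((d : ℝ) - 1 / 4) := by
              rw [← Real.rpow_add hnR]; congr 1; ring
          _ ≤ ((m : ℝ) * 2) ^ ((d : ℝ) - 1 / 4) :=
              Real.rpow_le_rpow hnR.le (by linarith) (by linarith)
          _ = _ := Real.mul_rpow hmR.le (by norm_num)
      exact le_of_mul_le_mul_right h1 (by positivity)
  have hcv : (K : ℝ) * (beta R (m + J) q2 - beta R m q2) ≤
      J * (beta R (m + K) q2 - beta R m q2) := by
    have := h92_convseq (fun i => beta R (m + i) q2)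
      (fun i => hAN.conv (m + i) q2 hq2pos.le hq21') J K hJK
    simpa using this
  have hJ0 : (0:ℝ) < J := by exact_mod_cast hJ
  have hup := gn.up hAN hmn
  rw [← hq1, ← hq2] at hup
  have hW1 : ζ * K * (m : ℝ) ^ (d - 1) ≤ (n : ℝ) ^ (d + 1) * (q2 - q1) := by
    rw [hmK, b5] at hcv
    refine le_trans ?_ hup
    have h2 : (J : ℝ) * (ζ * K * (m : ℝ) ^ (d - 1)) ≤ J * (beta R n q2 - θ) := by
      calc _ = (K : ℝ) * (ζ * J * (m : ℝ) ^ (d - 1)) := by ring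
        _ ≤ K * (beta R (m + J) q2 - beta R m q2) :=
            mul_le_mul_of_nonneg_left hinc (Nat.cast_nonneg _)
        _ ≤ _ := by rw [b5]; exact hcv
    exact le_of_mul_le_mul_left h2 hJ0
  have hKpos : (0:ℝ) < K := by exact_mod_cast hK1
  have b2 : q1 < q2 := by
    have h1 : 0 < ζ * K * (m : ℝ) ^ (d - 1) := by positivity
    have h2 : 0 < (n : ℝ) ^ (d + 1) * (q2 - q1) := lt_of_lt_of_le h1 hW1
    have h3 := (mul_pos_iff_of_pos_left (by positivity : (0:ℝ) < (n : ℝ) ^ (d + 1))).1 h2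
    linarith
  set W : ℝ := (n : ℝ) ^ (d + 1) * (q2 - q1) with hW
  have hWl : (n : ℝ) ^ (d + 1) * (K * (n : ℝ) ^ (-(2 + κ))) ≤ C1 * W := by
    have h1 : (n : ℝ) ^ (d + 1) * (n : ℝ) ^ (-(2 + κ)) ≤ (n : ℝ) ^ (d - 1) := by
      rw [← Real.rpow_natCast, ← Real.rpow_natCast, ← Real.rpow_add hnR]
      refine Real.rpow_le_rpow_of_exponent_le hnR1 ?_
      rw [Nat.cast_sub (by omega)]
      push_cast
      linarith
    have h2 : (n : ℝ) ^ (d - 1) ≤ 2 ^ (d - 1) * (m : ℝ) ^ (d - 1) := by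
      rw [← mul_pow]; exact pow_le_pow_left₀ hnR.le hmnR _
    have hW0 : 0 ≤ W := le_trans (by positivity) hW1
    calc (n : ℝ) ^ (d + 1) * (K * (n : ℝ) ^ (-(2 + κ)))
        = K * ((n : ℝ) ^ (d + 1) * (n : ℝ) ^ (-(2 + κ))) := by ring
      _ ≤ K * (2 ^ (d - 1) * (m : ℝ) ^ (d - 1)) :=
          mul_le_mul_of_nonneg_left (h1.trans h2) hKpos.le
      _ = 2 ^ (d - 1) / ζ * (ζ * K * (m : ℝ) ^ (d - 1)) := by field_simp
      _ ≤ 2 ^ (d - 1) / ζ * W := mul_le_mul_of_nonneg_left hW1 (by positivity)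
      _ ≤ C1 * W := by
          rw [hC1def, add_mul, one_mul]
          linarith
  obtain ⟨w1, w2, w3⟩ := h63_num d n n K hd η e1 δ κ C1 θ W hκ' hδ' he1' hC1 hn1' le_rfl
    (by omega) hθ hKR hWl c1 c2 c3
  obtain ⟨_, p2⟩ := hn1 n hnn1 K q1 q2 θ hK1 hKn b1 b2 b3 b4 b5 w1 w2 w3
  have hq2' : q1 ≤ (q1 + q2) / 2 := by linarith
  have hq2le : (q1 + q2) / 2 ≤ D / n := by linarith
  have hDn1 : D / n ≤ 1 := by
    rw [div_le_one hnR, hD]
    have : d + 3 ≤ n := by omega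
    exact_mod_cast this
  have hq11 : q1 ≤ 1 := by linarith
  have hq21 : (q1 + q2) / 2 ≤ 1 := by linarith
  refine ⟨I, q1, (q1 + q2) / 2, h63_le_I, h63_I_le hη hn1', b1.le, hq2', hq2le, ?_, ?_, ?_⟩
  · exact h63_gap n δ D c' W q1 q2 (Real.sqrt K) hD0 hc' hc'0 hnd hnR hnR1 b1 b2 hq2le hW
      (Real.one_le_sqrt.2 (by exact_mod_cast hK1)) w3 c6
  · exact h63_nul R n δ ε D θ q1 hD0 hε hnR b1 hq11 (hq2'.trans hq2le) gn.pos b4 w1 c4 c5
  · -- no bad set avoids the block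
    refine le_trans ?_ p2
    refine Ex_mono _ _ (by linarith) hq21 _ _ fun X _ => ind_mono ?_
    rintro ⟨C, hC, hcyc, hb⟩
    refine ⟨blk K 0, ?_, card_blk K 0, C, hC.trans Finset.inter_subset_left,
      hC.trans Finset.inter_subset_right, hcyc, hb⟩
    intro y hy
    unfold blk at hy
    rw [Finset.mem_Ico] at hy
    rw [Finset.mem_range]
    omega

end FC
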