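import Pool.Agent.H18.FC2.Ev

/-!
# First emerging cycle: the complex without faces (`base_R`, `base_W`, `base_T`)
-/

namespace FC

open Finset

variable {d : ℕ}

theorem h29_rg_card {n : ℕ} {e : Finset ℕ} (he : e ∈ rg d n) : e.card = d :=
  (mem_powersetCard.1 he).2

theorem h29_rg_sub (d n : ℕ) : rg d n ⊆ gd d n := subset_union_right

theorem h29_card_rg (d n : ℕ) : (rg d n).card = n.choose d := by
  rw [rg, card_powersetCard, card_range]

theorem h29_card_fc (d n : ℕ) : (fc d n).card = n.choose (d + 1) := by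
  rw [fc, faces, card_powersetCard, card_range]

/-- without faces only the ridges matter -/
theorem h29_E2_zero (d n : ℕ) (p : ℝ) (f : Finset (Finset ℕ) → ℝ) :
    E2 d n 0 p f = Ev (rg d n) (fun _ => p) f := by
  unfold E2
  rw [Ev_zero (gd d n) (rg d n) (h29_rg_sub d n) (dn d 0 p) ?_ f]
  · refine Ev_congr_dens _ _ _ _ ?_
    intro e he
    have := h29_rg_card he
    unfold dn
    rw [if_neg (by omega)]
  · intro e he hne
    rcases mem_union.1 he with h | h
    · unfold dn
      rw [if_pos (mem_powersetCard.1 h).2]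
    · exact absurd h hne

/-- sets of ridges are free -/
theorem h29_free (Q : ERank d) {S : Finset (Finset ℕ)} (hS : ∀ τ ∈ S, τ.card = d)
    {e : Finset ℕ} (he : e.card = d) (heS : e ∉ S) : Q.r (insert e S) = Q.r S + 1 := by
  refine Q.free S e he heS (fun τ hτ => Or.inl (hS τ hτ)) ?_
  intro τ hτ h
  have := hS τ hτ
  omega

theorem h29_r_card (Q : ERank d) (S : Finset (Finset ℕ)) : (∀ τ ∈ S, τ.card = d) →
    Q.r S = S.card := by
  induction S using Finset.induction_on with
  | empty => intro _; rw [Q.empty, card_empty]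
  | insert e S heS ih =>
    intro h
    rw [h29_free Q (fun τ hτ => h τ (mem_insert_of_mem hτ)) (h e (mem_insert_self e S)) heS,
      ih (fun τ hτ => h τ (mem_insert_of_mem hτ)), card_insert_of_notMem heS]

theorem h29_sub_card {n : ℕ} {X : Finset (Finset ℕ)} (hX : X ⊆ rg d n) : ∀ τ ∈ X, τ.card = d :=
  fun _ hτ => h29_rg_card (hX hτ)

theorem h29_Ev_card (d n : ℕ) (p : ℝ) :
    Ev (rg d n) (fun _ => p) (fun X => (X.card : ℝ)) = p * (n.choose d : ℝ) := by
  rw [Ev_card, sum_const, h29_card_rg, nsmul_eq_mul, mul_comm]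

theorem base_R (Q : ERank d) (hd : 1 ≤ d) (n : ℕ) (p : ℝ) :
    Rf Q n 0 p = p * (n.choose d : ℝ) := by
  unfold Rf
  rw [h29_E2_zero, ← h29_Ev_card]
  refine Ev_congr _ _ _ _ ?_
  intro X hX
  rw [h29_r_card Q X (h29_sub_card hX)]

theorem base_W (Q : ERank d) (hd : 1 ≤ d) (n : ℕ) (hn : d ≤ n) (p : ℝ) : Wf Q n 0 p = p := by
  unfold Wf
  have hpos : (0 : ℝ) < (n.choose d : ℝ) := by exact_mod_cast Nat.choose_pos hn
  rw [h29_E2_zero, div_eq_iff hpos.ne', ← h29_Ev_card]
  refine Ev_congr _ _ _ _ ?_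
  intro X hX
  have : wset Q.toRankFn (rg d n) X = X := by
    classical
    unfold wset
    ext e
    rw [mem_filter]
    constructor
    · rintro ⟨he, hcl⟩
      by_contra hne
      have h1 := h29_free Q (h29_sub_card hX) (h29_rg_card he) hne
      unfold RankFn.Cl at hcl
      omega
    · intro he
      refine ⟨hX he, ?_⟩
      unfold RankFn.Cl
      rw [insert_eq_self.2 he]
  rw [this]

/-- the ridges of a face -/
theorem h29_ridges {n : ℕ} {σ : Finset ℕ} (hσ : σ ∈ fc d n) :
    σ.image (fun x => σ.erase x) ⊆ rg d n ∧ (σ.image (fun x => σ.erase x)).card = d + 1 := by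
  have h := mem_powersetCard.1 hσ
  constructor
  · intro e he
    obtain ⟨x, hx, rfl⟩ := mem_image.1 he
    refine mem_powersetCard.2 ⟨(erase_subset x σ).trans h.1, ?_⟩
    rw [card_erase_of_mem hx, h.2]
    rfl
  · rw [card_image_of_injOn, h.2]
    intro x hx y hy hxy
    by_contra hne
    have h1 : y ∈ σ.erase x := mem_erase.2 ⟨fun h => hne h.symm, hy⟩
    simp only at hxy
    rw [hxy] at h1
    exact (notMem_erase y σ) h1

theorem base_T (Q : ERank d) (hd : 1 ≤ d) (n : ℕ) (hn : d + 1 ≤ n) (p : ℝ) (hp0 : 0 ≤ p)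
    (hp1 : p ≤ 1) : p ^ (d + 1) ≤ Tf Q n 0 p := by
  unfold Tf
  have hpos : (0 : ℝ) < (n.choose (d + 1) : ℝ) := by exact_mod_cast Nat.choose_pos hn
  rw [h29_E2_zero, le_div_iff₀ hpos]
  have h1 : Ev (rg d n) (fun _ => p) (fun X => ∑ σ ∈ fc d n,
      ind (σ.image (fun x => σ.erase x) ⊆ X)) = p ^ (d + 1) * (n.choose (d + 1) : ℝ) := by
    rw [Ev_sum (fc d n) (rg d n) (fun _ => p)
      (fun σ X => ind (σ.image (fun x => σ.erase x) ⊆ X))]
    rw [sum_congr rfl (fun σ hσ => by
      rw [Ev_subset (rg d n) _ (h29_ridges hσ).1, prod_const, (h29_ridges hσ).2])]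
    rw [sum_const, h29_card_fc, nsmul_eq_mul, mul_comm]
  rw [← h1]
  refine Ev_mono _ _ (fun _ _ => hp0) (fun _ _ => hp1) _ _ ?_
  intro X hX
  unfold wset
  rw [card_filter]
  push_cast
  refine sum_le_sum ?_
  intro σ hσ
  unfold ind
  split_ifs with h2 h3 h3
  · exact le_refl _
  · exfalso
    apply h3
    unfold RankFn.Cl
    refine Q.face X σ (mem_powersetCard.1 hσ).2 ?_
    intro x hx
    exact h2 (mem_image_of_mem _ hx)
  · exact zero_le_one
  · exact le_refl _

end FC
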