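import Pool.Agent.H18.FC2.Defs

/-!
# Calculus of `E v = v + (1 - v) log (1 - v)` (module Calc)
-/

namespace FC

open Set

/-- `G v = v E' v - (d + 1) E v` -/
noncomputable def h40_G (d : ℕ) (v : ℝ) : ℝ :=
  -(v * Real.log (1 - v)) - ((d : ℝ) + 1) * (v + (1 - v) * Real.log (1 - v))

/-- the derivative of `G` -/
noncomputable def h40_G1 (d : ℕ) (v : ℝ) : ℝ := d * Real.log (1 - v) + v / (1 - v)

theorem h40_log1 {v : ℝ} (hv : v < 1) :
    HasDerivAt (fun x => Real.log (1 - x)) (-(1 - v)⁻¹) v := by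
  have h1 : HasDerivAt (fun x : ℝ => 1 - x) (-1) v := by
    simpa using (hasDerivAt_id v).const_sub 1
  have h2 := h1.log (by linarith : (1 : ℝ) - v ≠ 0)
  convert h2 using 1
  rw [neg_div, one_div]

theorem h40_dE {v : ℝ} (hv : v < 1) : HasDerivAt Ef (-Real.log (1 - v)) v := by
  have h1 : HasDerivAt (fun x : ℝ => 1 - x) (-1) v := by
    simpa using (hasDerivAt_id v).const_sub 1
  have h2 : HasDerivAt (fun x => x + (1 - x) * Real.log (1 - x)) _ v :=
    (hasDerivAt_id' v).add (h1.mul (h40_log1 hv))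
  refine h2.congr_deriv ?_
  have h3 : (1 : ℝ) - v ≠ 0 := by linarith
  field_simp
  ring

theorem h40_dG (d : ℕ) {v : ℝ} (hv : v < 1) : HasDerivAt (h40_G d) (h40_G1 d v) v := by
  have h2 : HasDerivAt (fun x => -(x * Real.log (1 - x)) - ((d : ℝ) + 1) * Ef x) _ v :=
    (((hasDerivAt_id' v).mul (h40_log1 hv)).neg).sub
    ((h40_dE hv).const_mul ((d : ℝ) + 1))
  refine h2.congr_deriv ?_
  have h3 : (1 : ℝ) - v ≠ 0 := by linarith
  simp only [h40_G1]
  field_simp
  ring

theorem h40_dG1 (d : ℕ) {v : ℝ} (hv : v < 1) :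
    HasDerivAt (h40_G1 d) ((1 - d * (1 - v)) / (1 - v) ^ 2) v := by
  have h1 : HasDerivAt (fun x : ℝ => 1 - x) (-1) v := by
    simpa using (hasDerivAt_id v).const_sub 1
  have h3 : (1 : ℝ) - v ≠ 0 := by linarith
  have h2 : HasDerivAt (fun x => (d : ℝ) * Real.log (1 - x) + x / (1 - x)) _ v :=
    ((h40_log1 hv).const_mul (d : ℝ)).add ((hasDerivAt_id' v).div h1 h3)
  refine h2.congr_deriv ?_
  field_simp
  ring

/-- single crossing of an antiderivative -/
theorem h40_cross {f f' : ℝ → ℝ} {a b : ℝ} (h0 : f 0 = 0)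
    (hf : ∀ v, v < 1 → HasDerivAt f (f' v) v) (ha0 : 0 < a) (ha1 : a < 1)
    (hneg : ∀ v, 0 < v → v < a → f' v < 0) (hpos : ∀ v, a < v → v < 1 → 0 < f' v)
    (hb0 : 0 < b) (hb1 : b < 1) (hfb : 0 < f b) :
    ∃ w, a < w ∧ w < b ∧ f w = 0 ∧ (∀ v, 0 < v → v < w → f v < 0) ∧
      ∀ v, w < v → v < 1 → 0 < f v := by
  have cont : ∀ v, v < 1 → ContinuousAt f v := fun v hv => (hf v hv).continuousAt
  have anti : StrictAntiOn f (Icc 0 a) := by
    apply strictAntiOn_of_deriv_neg (convex_Icc 0 a)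
    · intro v hv
      exact (cont v (lt_of_le_of_lt hv.2 ha1)).continuousWithinAt
    · intro v hv
      rw [interior_Icc] at hv
      rw [(hf v (hv.2.trans ha1)).deriv]
      exact hneg v hv.1 hv.2
  have mono : StrictMonoOn f (Ico a 1) := by
    apply strictMonoOn_of_deriv_pos (convex_Ico a 1)
    · intro v hv
      exact (cont v hv.2).continuousWithinAt
    · intro v hv
      rw [interior_Ico] at hv
      rw [(hf v hv.2).deriv]
      exact hpos v hv.1 hv.2
  have lt0 : ∀ v, 0 < v → v ≤ a → f v < 0 := by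
    intro v hv hva
    have := anti (left_mem_Icc.2 ha0.le) ⟨hv.le, hva⟩ hv
    rwa [h0] at this
  have hab : a < b := by
    by_contra hc
    rw [not_lt] at hc
    exact absurd (lt0 b hb0 hc) (not_lt.2 hfb.le)
  have hc : ContinuousOn f (Icc a b) := by
    intro v hv
    exact (cont v (lt_of_le_of_lt hv.2 hb1)).continuousWithinAt
  obtain ⟨w, hw, hfw⟩ := intermediate_value_Icc hab.le hc (⟨(lt0 a ha0 le_rfl).le, hfb.le⟩ :
    (0 : ℝ) ∈ Icc (f a) (f b))
  have haw : a < w := by
    rcases hw.1.eq_or_lt with h | h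
    · rw [← h] at hfw
      exact absurd hfw (lt0 a ha0 le_rfl).ne
    · exact h
  have hwb : w < b := by
    rcases hw.2.eq_or_lt with h | h
    · rw [h] at hfw
      exact absurd hfw hfb.ne'
    · exact h
  refine ⟨w, haw, hwb, hfw, ?_, ?_⟩
  · intro v hv hvw
    rcases le_or_gt v a with h | h
    · exact lt0 v hv h
    · have := mono ⟨h.le, hvw.trans (hwb.trans hb1)⟩ ⟨haw.le, hwb.trans hb1⟩ hvw
      rwa [hfw] at this
  · intro v hwv hv
    have := mono ⟨haw.le, hwb.trans hb1⟩ ⟨(haw.trans hwv).le, hv⟩ hwv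
    rwa [hfw] at this

/-- the critical density `w*` -/
theorem h40_wst (d : ℕ) (hd : 2 ≤ d) : ∃ w : ℝ, 0 < w ∧ w < 1 ∧ h40_G d w = 0 ∧
    (∀ v, 0 < v → v < w → h40_G d v < 0) ∧ ∀ v, w < v → v < 1 → 0 < h40_G d v := by
  have hd' : (2 : ℝ) ≤ d := by exact_mod_cast hd
  have hdi : (1 : ℝ) / d ≤ 1 / 2 := by
    apply one_div_le_one_div_of_le (by norm_num) hd'
  have hdp : (0 : ℝ) < 1 / d := by positivity
  obtain ⟨v1, h1, h2, -, h3, h4⟩ := h40_cross (f := h40_G1 d)
    (f' := fun v => (1 - d * (1 - v)) / (1 - v) ^ 2) (a := 1 - 1 / d)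
    (b := 1 - Real.exp (-(2 * d))) (by simp [h40_G1]) (fun v hv => h40_dG1 d hv)
    (by linarith) (by linarith)
    (by
      intro v hv hv'
      apply div_neg_of_neg_of_pos
      · have : (1 : ℝ) < d * (1 - v) := by
          have h5 : (1 : ℝ) / d < 1 - v := by linarith
          rw [div_lt_iff₀ (by positivity)] at h5
          linarith
        linarith
      · have : 0 < 1 - v := by linarith
        positivity)
    (by
      intro v hv hv'
      have h6 : 0 < 1 - v := by linarith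
      apply div_pos
      · have : d * (1 - v) < (1 : ℝ) := by
          have h5 : 1 - v < (1 : ℝ) / d := by linarith
          rw [lt_div_iff₀ (by positivity)] at h5
          linarith
        linarith
      · positivity)
    (by
      have : Real.exp (-(2 * d)) < 1 := by
        rw [Real.exp_lt_one_iff]
        linarith
      linarith)
    (by
      have := Real.exp_pos (-(2 * (d : ℝ)))
      linarith)
    (by
      unfold h40_G1
      rw [sub_sub_cancel, Real.log_exp]
      have h5 : (1 - Real.exp (-(2 * (d : ℝ)))) / Real.exp (-(2 * d)) = Real.exp (2 * d) - 1 := by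
        rw [Real.exp_neg]
        have := Real.exp_pos (2 * (d : ℝ))
        field_simp
      rw [h5]
      have h6 := Real.quadratic_le_exp_of_nonneg (by positivity : (0 : ℝ) ≤ 2 * d)
      nlinarith)
  obtain ⟨w, h5, h6, h7, h8, h9⟩ := h40_cross (f := h40_G d) (f' := h40_G1 d) (a := v1)
    (b := 1 - Real.exp (-(d + 1))) (by simp [h40_G]) (fun v hv => h40_dG d hv)
    (by linarith) (by
      have := Real.exp_pos (-(2 * (d : ℝ)))
      linarith) h3 h4
    (by
      have : Real.exp (-(d + 1)) < 1 := by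
        rw [Real.exp_lt_one_iff]
        linarith
      linarith)
    (by
      have := Real.exp_pos (-((d : ℝ) + 1))
      linarith)
    (by
      unfold h40_G
      rw [sub_sub_cancel, Real.log_exp]
      have := Real.exp_pos (-((d : ℝ) + 1))
      have h10 : -((1 - Real.exp (-((d : ℝ) + 1))) * -((d : ℝ) + 1)) -
          ((d : ℝ) + 1) * (1 - Real.exp (-((d : ℝ) + 1)) +
          Real.exp (-((d : ℝ) + 1)) * -((d : ℝ) + 1)) =
          ((d : ℝ) + 1) ^ 2 * Real.exp (-((d : ℝ) + 1)) := by ring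
      rw [h10]
      positivity)
  exact ⟨w, by linarith, h6.trans (by
    have := Real.exp_pos (-((d : ℝ) + 1))
    linarith), h7, h8, h9⟩

/-- the ratio `E x / x ^ (d + 1)` -/
noncomputable def h40_phi (d : ℕ) (x : ℝ) : ℝ := Ef x / x ^ (d + 1)

theorem h40_dphi (d : ℕ) {x : ℝ} (h0 : 0 < x) (h1 : x < 1) :
    HasDerivAt (h40_phi d) (x ^ d * h40_G d x / (x ^ (d + 1)) ^ 2) x := by
  have h2 : HasDerivAt (fun x => Ef x / x ^ (d + 1)) _ x :=
    (h40_dE h1).div (hasDerivAt_pow (d + 1) x) (by positivity)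
  refine h2.congr_deriv ?_
  congr 1
  unfold h40_G Ef
  rw [Nat.add_sub_cancel]
  push_cast
  ring

theorem h40_anti (d : ℕ) {v : ℝ} (hv1 : v < 1) (hG : ∀ x, 0 < x → x < v → h40_G d x < 0) :
    StrictAntiOn (h40_phi d) (Ioc 0 v) := by
  apply strictAntiOn_of_deriv_neg (convex_Ioc 0 v)
  · intro x hx
    exact (h40_dphi d hx.1 (lt_of_le_of_lt hx.2 hv1)).continuousAt.continuousWithinAt
  · intro x hx
    rw [interior_Ioc] at hx
    have hx0 : 0 < x := hx.1
    rw [(h40_dphi d hx.1 (hx.2.trans hv1)).deriv]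
    apply div_neg_of_neg_of_pos
    · exact mul_neg_of_pos_of_neg (by positivity) (hG x hx.1 hx.2)
    · positivity

theorem h40_mono (d : ℕ) {v : ℝ} (hv0 : 0 < v) (hG : ∀ x, v < x → x < 1 → 0 < h40_G d x) :
    StrictMonoOn (h40_phi d) (Ico v 1) := by
  apply strictMonoOn_of_deriv_pos (convex_Ico v 1)
  · intro x hx
    exact (h40_dphi d (lt_of_lt_of_le hv0 hx.1) hx.2).continuousAt.continuousWithinAt
  · intro x hx
    rw [interior_Ico] at hx
    have hx0 : 0 < x := hv0.trans hx.1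
    rw [(h40_dphi d hx0 hx.2).deriv]
    have := hG x hx.1 hx.2
    positivity

theorem h40_sq {x : ℝ} (h0 : 0 ≤ x) (h1 : x < 1) : x ^ 2 / 2 ≤ Ef x := by
  have hm : MonotoneOn (fun x => Ef x - x ^ 2 / 2) (Ico 0 1) := by
    have hd : ∀ y, y < 1 → HasDerivAt (fun x => Ef x - x ^ 2 / 2) (-Real.log (1 - y) - y) y := by
      intro y hy
      have h2 : HasDerivAt (fun x => Ef x - x ^ 2 / 2) _ y :=
        (h40_dE hy).sub ((hasDerivAt_pow 2 y).div_const 2)
      refine h2.congr_deriv ?_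
      norm_num
    apply monotoneOn_of_deriv_nonneg (convex_Ico 0 1)
    · intro y hy
      exact (hd y hy.2).continuousAt.continuousWithinAt
    · intro y hy
      rw [interior_Ico] at hy
      exact (hd y hy.2).differentiableAt.differentiableWithinAt
    · intro y hy
      rw [interior_Ico] at hy
      rw [(hd y hy.2).deriv]
      have := Real.log_le_sub_one_of_pos (by linarith [hy.2] : 0 < 1 - y)
      linarith
  have := hm ⟨le_rfl, zero_lt_one⟩ ⟨h0, h1⟩ h0
  simp [Ef] at this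
  unfold Ef
  linarith

theorem fstar (d : ℕ) (hd : 2 ≤ d) : ∃ c v : ℝ, 0 < c ∧ 0 < v ∧ v < 1 ∧ 0 < Ef v ∧
    c * v ^ (d + 1) = ((d : ℝ) + 1) * Ef v ∧
    (∀ x, 0 ≤ x → x < 1 → c * x ^ (d + 1) / ((d : ℝ) + 1) ≤ Ef x) ∧
    (∀ η > (0:ℝ), ∃ κ > (0:ℝ), ∀ x, 0 ≤ x → x ≤ v - η →
      c * x ^ (d + 1) / ((d : ℝ) + 1) ≤ Ef x - κ * x ^ 2) ∧
    (∀ η > (0:ℝ), ∀ ρ > (0:ℝ), ∃ κ > (0:ℝ), ∀ x, ρ ≤ x → x < 1 → η ≤ |x - v| →
      c * x ^ (d + 1) / ((d : ℝ) + 1) ≤ Ef x - κ) := by
  obtain ⟨v, v0, v1, -, hneg, hpos⟩ := h40_wst d hd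
  have anti := h40_anti d v1 hneg
  have mono := h40_mono d v0 hpos
  have Ev : 0 < Ef v := lt_of_lt_of_le (by positivity) (h40_sq v0.le v1)
  have hd1 : (0 : ℝ) < (d : ℝ) + 1 := by positivity
  set c : ℝ := ((d : ℝ) + 1) * Ef v / v ^ (d + 1) with hc
  have c0 : 0 < c := by positivity
  have hF : ∀ x, 0 < x → Ef x - c * x ^ (d + 1) / ((d : ℝ) + 1) =
      x ^ (d + 1) * (h40_phi d x - h40_phi d v) := by
    intro x hx
    rw [hc]
    unfold h40_phi
    field_simp
  have hmin : ∀ x, 0 < x → x < 1 → h40_phi d v ≤ h40_phi d x := by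
    intro x hx hx1
    rcases le_total x v with h | h
    · exact anti.antitoneOn ⟨hx, h⟩ ⟨v0, le_rfl⟩ h
    · exact mono.monotoneOn ⟨le_rfl, v1⟩ ⟨h, hx1⟩ h
  refine ⟨c, v, c0, v0, v1, Ev, ?_, ?_, ?_, ?_⟩
  · rw [hc, div_mul_cancel₀]
    positivity
  · intro x hx hx1
    rcases hx.eq_or_lt with h | h
    · rw [← h]
      simp [Ef]
    · have h1 := hF x h
      have h2 : 0 ≤ x ^ (d + 1) * (h40_phi d x - h40_phi d v) :=
        mul_nonneg (by positivity) (sub_nonneg.2 (hmin x h hx1))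
      linarith
  · intro η hη
    rcases le_or_gt v η with h | h
    · refine ⟨1, one_pos, ?_⟩
      intro x hx hx'
      have : x = 0 := le_antisymm (by linarith) hx
      rw [this]
      simp [Ef]
    · set a := v - η with ha
      have a0 : 0 < a := by linarith
      have av : a < v := by linarith
      set δ := h40_phi d a - h40_phi d v with hδ
      have δ0 : 0 < δ := sub_pos.2 (anti ⟨a0, av.le⟩ ⟨v0, le_rfl⟩ av)
      set x0 := min 1 (((d : ℝ) + 1) / (4 * c)) with hx0
      have x00 : 0 < x0 := lt_min one_pos (by positivity)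
      refine ⟨min (1 / 4) (x0 ^ (d - 1) * δ), lt_min (by norm_num) (by positivity), ?_⟩
      intro x hx hxa
      rcases hx.eq_or_lt with h0 | h0
      · rw [← h0]
        simp [Ef]
      have hx1 : x < 1 := by linarith
      obtain ⟨e, rfl⟩ : ∃ e, d = e + 1 := ⟨d - 1, by omega⟩
      have he : 1 ≤ e := by omega
      rw [Nat.add_sub_cancel] at *
      rcases le_total x x0 with h1 | h1
      · have h2 := h40_sq hx hx1
        have h3 : x ^ e ≤ (((e + 1 : ℕ) : ℝ) + 1) / (4 * c) := by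
          calc x ^ e ≤ x ^ 1 := pow_le_pow_of_le_one hx hx1.le he
            _ = x := pow_one x
            _ ≤ _ := h1.trans (min_le_right _ _)
        have h4 : c * x ^ (e + 1 + 1) / (((e + 1 : ℕ) : ℝ) + 1) ≤ x ^ 2 / 4 := by
          rw [le_div_iff₀ (by positivity)] at h3
          rw [div_le_iff₀ hd1]
          have h5 : x ^ (e + 1 + 1) = x ^ e * x ^ 2 := by ring
          rw [h5]
          nlinarith [sq_nonneg x]
        have h6 : min (1 / 4) (x0 ^ e * δ) * x ^ 2 ≤ 1 / 4 * x ^ 2 := by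
          gcongr
          exact min_le_left _ _
        linarith
      · have h2 := hF x h0
        have h3 : δ ≤ h40_phi (e + 1) x - h40_phi (e + 1) v := by
          rw [hδ]
          have := anti.antitoneOn ⟨h0, hxa.trans av.le⟩ ⟨a0, av.le⟩ hxa
          linarith
        have h4 : x ^ (e + 1 + 1) = x ^ e * x ^ 2 := by ring
        have h5 : min (1 / 4) (x0 ^ e * δ) * x ^ 2 ≤ x ^ (e + 1 + 1) *
            (h40_phi (e + 1) x - h40_phi (e + 1) v) := by
          calc min (1 / 4) (x0 ^ e * δ) * x ^ 2 ≤ (x0 ^ e * δ) * x ^ 2 := by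
                gcongr
                exact min_le_right _ _
            _ ≤ (x ^ e * δ) * x ^ 2 := by gcongr
            _ = x ^ (e + 1 + 1) * δ := by rw [h4]; ring
            _ ≤ _ := by gcongr
        linarith
  · intro η hη ρ hρ
    -- left part
    obtain ⟨κ1, k10, hk1⟩ : ∃ κ > (0:ℝ), ∀ x, ρ ≤ x → x ≤ v - η →
        κ ≤ x ^ (d + 1) * (h40_phi d x - h40_phi d v) := by
      rcases lt_or_ge (v - η) ρ with h | h
      · exact ⟨1, one_pos, fun x hx hx' => absurd (hx.trans hx') (not_le.2 h)⟩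
      · have a0 : 0 < v - η := lt_of_lt_of_le hρ h
        have av : v - η < v := by linarith
        have δ0 : 0 < h40_phi d (v - η) - h40_phi d v :=
          sub_pos.2 (anti ⟨a0, av.le⟩ ⟨v0, le_rfl⟩ av)
        refine ⟨ρ ^ (d + 1) * (h40_phi d (v - η) - h40_phi d v), by positivity, ?_⟩
        intro x hx hx'
        have h3 := anti.antitoneOn ⟨lt_of_lt_of_le hρ hx, hx'.trans av.le⟩ ⟨a0, av.le⟩ hx'
        have hx0 : 0 < x := lt_of_lt_of_le hρ hx
        gcongr
    obtain ⟨κ2, k20, hk2⟩ : ∃ κ > (0:ℝ), ∀ x, v + η ≤ x → x < 1 →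
        κ ≤ x ^ (d + 1) * (h40_phi d x - h40_phi d v) := by
      rcases le_or_gt 1 (v + η) with h | h
      · exact ⟨1, one_pos, fun x hx hx' => absurd (h.trans hx) (not_le.2 hx')⟩
      · have δ0 : 0 < h40_phi d (v + η) - h40_phi d v :=
          sub_pos.2 (mono ⟨le_rfl, v1⟩ ⟨by linarith, h⟩ (by linarith))
        refine ⟨v ^ (d + 1) * (h40_phi d (v + η) - h40_phi d v), by positivity, ?_⟩
        intro x hx hx'
        have h3 := mono.monotoneOn ⟨by linarith, h⟩ ⟨by linarith, hx'⟩ hx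
        have h4 : v ≤ x := by linarith
        have hx0 : 0 < x := lt_of_lt_of_le v0 h4
        gcongr
    refine ⟨min κ1 κ2, lt_min k10 k20, ?_⟩
    intro x hx hx1 hxv
    have h1 := hF x (lt_of_lt_of_le hρ hx)
    rcases le_total x v with h | h
    · rw [abs_of_nonpos (by linarith)] at hxv
      have := hk1 x hx (by linarith)
      linarith [min_le_left κ1 κ2]
    · rw [abs_of_nonneg (by linarith)] at hxv
      have := hk2 x (by linarith) hx1
      linarith [min_le_right κ1 κ2]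

end FC
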