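import Pool.Agent.H18.FC2.Defs

/-!
# Counting tuples
-/

set_option autoImplicit false

namespace FC

open Finset

theorem h72_card_tset (k n : ℕ) (T : Finset ℕ) (hT : T ⊆ range n) (hk : T.card = k) :
    ((univ : Finset (Fin k → Fin n)).filter (fun x => tset x = T)).card = k.factorial := by
  classical
  have h1 : (univ : Finset (Fin k ≃ T)).card = k.factorial := by
    have e : Fin k ≃ T := Fintype.equivOfCardEq (by rw [Fintype.card_fin, Fintype.card_coe, hk])
    rw [card_univ, Fintype.card_equiv e, Fintype.card_fin]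
  rw [← h1]
  symm
  apply Finset.card_bij (fun (e : Fin k ≃ T) _ =>
    (fun j => (⟨(e j : ℕ), mem_range.mp (hT (e j).2)⟩ : Fin n) : Fin k → Fin n))
  · intro e _
    rw [mem_filter]
    refine ⟨mem_univ _, ?_⟩
    ext y
    unfold tset
    rw [mem_image]
    constructor
    · rintro ⟨j, -, rfl⟩
      exact (e j).2
    · intro hy
      exact ⟨e.symm ⟨y, hy⟩, mem_univ _, by simp⟩
  · intro e _ e' _ h
    ext j
    have := congrFun h j
    exact congrArg Fin.val this
  · intro x hx
    rw [mem_filter] at hx
    have hmem : ∀ j, ((x j : Fin n) : ℕ) ∈ T := by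
      intro j
      rw [← hx.2]
      exact mem_image_of_mem _ (mem_univ j)
    have hsurj : Function.Surjective (fun j => (⟨((x j : Fin n) : ℕ), hmem j⟩ : T)) := by
      rintro ⟨y, hy⟩
      have hy' := hy
      rw [← hx.2] at hy'
      obtain ⟨j, -, hj⟩ := mem_image.mp hy'
      exact ⟨j, Subtype.ext hj⟩
    have hbij := (Fintype.bijective_iff_surjective_and_card
      (fun j => (⟨((x j : Fin n) : ℕ), hmem j⟩ : T))).mpr
      ⟨hsurj, by rw [Fintype.card_fin, Fintype.card_coe, hk]⟩
    exact ⟨Equiv.ofBijective _ hbij, mem_univ _, rfl⟩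

theorem cnt1 (k n : ℕ) (W : Finset (Finset ℕ)) (hW : W ⊆ rg k n) :
    ∑ x : Fin k → Fin n, bf n W x = (k.factorial : ℝ) * W.card := by
  classical
  have h1 : ∀ x : Fin k → Fin n, bf n W x = ∑ T ∈ W, (if tset x = T then (1 : ℝ) else 0) := by
    intro x
    rw [Finset.sum_ite_eq]
    unfold bf ind
    split_ifs <;> rfl
  rw [Finset.sum_congr rfl (fun x _ => h1 x), Finset.sum_comm]
  have h2 : ∀ T ∈ W, ∑ x : Fin k → Fin n, (if tset x = T then (1 : ℝ) else 0) =
      (k.factorial : ℝ) := by
    intro T hT
    have h3 := hW hT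
    unfold rg at h3
    rw [mem_powersetCard] at h3
    rw [← h72_card_tset k n T h3.1 h3.2, Finset.card_filter]
    push_cast
    rfl
  rw [Finset.sum_congr rfl h2, Finset.sum_const, nsmul_eq_mul, mul_comm]

theorem h72_tset_card_lt {k n : ℕ} (x : Fin k → Fin n) (i j : Fin k) (hij : i ≠ j)
    (h : x i = x j) : (tset x).card < k := by
  classical
  have h1 : tset x ⊆ (univ.erase i).image (fun l => ((x l : Fin n) : ℕ)) := by
    intro y hy
    obtain ⟨l, -, hl⟩ := mem_image.mp hy
    rw [mem_image]
    by_cases hli : l = i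
    · refine ⟨j, mem_erase.mpr ⟨hij.symm, mem_univ _⟩, ?_⟩
      rw [← hl, hli]
      exact congrArg Fin.val h.symm
    · exact ⟨l, mem_erase.mpr ⟨hli, mem_univ _⟩, hl⟩
  calc (tset x).card ≤ ((univ.erase i).image (fun l => ((x l : Fin n) : ℕ))).card :=
        card_le_card h1
    _ ≤ (univ.erase i).card := card_image_le
    _ < (univ : Finset (Fin k)).card := card_erase_lt_of_mem (mem_univ i)
    _ = k := by rw [card_univ, Fintype.card_fin]

theorem h72_tset_del {k n : ℕ} (x : Fin (k + 1) → Fin n) (hx : Function.Injective x)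
    (i : Fin (k + 1)) : tset (del x i) = (tset x).erase ((x i : Fin n) : ℕ) := by
  classical
  ext y
  unfold tset del
  rw [mem_image, mem_erase, mem_image]
  constructor
  · rintro ⟨j, -, rfl⟩
    refine ⟨?_, i.succAbove j, mem_univ _, rfl⟩
    intro h
    exact Fin.succAbove_ne i j (hx (Fin.ext h))
  · rintro ⟨h1, l, -, hl⟩
    have hli : l ≠ i := by
      rintro rfl
      exact h1 hl.symm
    obtain ⟨j, hj⟩ := Fin.exists_succAbove_eq hli
    exact ⟨j, mem_univ _, by rw [hj]; exact hl⟩

open Classical in
theorem h72_prod_bf (k n : ℕ) (hk : 2 ≤ k) (W : Finset (Finset ℕ)) (hW : W ⊆ rg k n)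
    (x : Fin (k + 1) → Fin n) : ∏ i, bf n W (del x i) =
      bf n ((fc k n).filter (fun σ => ∀ y ∈ σ, σ.erase y ∈ W)) x := by
  by_cases hx : Function.Injective x
  · have hcard : (tset x).card = k + 1 := by
      unfold tset
      rw [card_image_of_injective, card_univ, Fintype.card_fin]
      intro a b hab
      exact hx (Fin.ext hab)
    have hsub : tset x ⊆ range n := by
      intro y hy
      obtain ⟨l, -, hl⟩ := mem_image.mp hy
      rw [mem_range, ← hl]
      exact (x l).2
    have hfc : tset x ∈ fc k n := by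
      unfold fc faces
      rw [mem_powersetCard]
      exact ⟨hsub, hcard⟩
    by_cases hall : ∀ y ∈ tset x, (tset x).erase y ∈ W
    · have h1 : bf n ((fc k n).filter (fun σ => ∀ y ∈ σ, σ.erase y ∈ W)) x = 1 := by
        unfold bf
        apply ind_pos
        rw [mem_filter]
        exact ⟨hfc, hall⟩
      rw [h1]
      apply Finset.prod_eq_one
      intro i _
      unfold bf
      apply ind_pos
      rw [h72_tset_del x hx i]
      exact hall _ (mem_image_of_mem _ (mem_univ i))
    · have h1 : bf n ((fc k n).filter (fun σ => ∀ y ∈ σ, σ.erase y ∈ W)) x = 0 := by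
        unfold bf
        apply ind_neg
        rw [mem_filter]
        exact fun h => hall h.2
      rw [h1]
      push Not at hall
      obtain ⟨y, hy, hyW⟩ := hall
      obtain ⟨i, -, hi⟩ := mem_image.mp hy
      apply Finset.prod_eq_zero (mem_univ i)
      unfold bf
      apply ind_neg
      rw [h72_tset_del x hx i, hi]
      exact hyW
  · have h1 : bf n ((fc k n).filter (fun σ => ∀ y ∈ σ, σ.erase y ∈ W)) x = 0 := by
      unfold bf
      apply ind_neg
      rw [mem_filter]
      rintro ⟨h, -⟩
      unfold fc faces at h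
      rw [mem_powersetCard] at h
      unfold Function.Injective at hx
      push Not at hx
      obtain ⟨a, b, hab, hne⟩ := hx
      have := h72_tset_card_lt x a b hne hab
      omega
    rw [h1]
    unfold Function.Injective at hx
    push Not at hx
    obtain ⟨a, b, hab, hne⟩ := hx
    obtain ⟨l, hla, hlb⟩ : ∃ l : Fin (k + 1), l ≠ a ∧ l ≠ b := by
      have h2 : (({a, b} : Finset (Fin (k + 1)))ᶜ).Nonempty := by
        rw [← card_pos, card_compl, Fintype.card_fin]
        have : ({a, b} : Finset (Fin (k + 1))).card ≤ 2 := card_le_two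
        omega
      obtain ⟨l, hl⟩ := h2
      rw [mem_compl, mem_insert, mem_singleton] at hl
      push Not at hl
      exact ⟨l, hl.1, hl.2⟩
    apply Finset.prod_eq_zero (mem_univ l)
    unfold bf
    apply ind_neg
    intro h
    have h3 := hW h
    unfold rg at h3
    rw [mem_powersetCard] at h3
    obtain ⟨a', ha'⟩ := Fin.exists_succAbove_eq hla.symm
    obtain ⟨b', hb'⟩ := Fin.exists_succAbove_eq hlb.symm
    have hne' : a' ≠ b' := by
      rintro rfl
      exact hne (ha'.symm.trans hb')
    have h4 : del x l a' = del x l b' := by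
      unfold del
      rw [ha', hb']
      exact hab
    have := h72_tset_card_lt (del x l) a' b' hne' h4
    omega

open Classical in
theorem cnt2 (k n : ℕ) (hk : 2 ≤ k) (W : Finset (Finset ℕ)) (hW : W ⊆ rg k n) :
    ∑ x : Fin (k + 1) → Fin n, ∏ i, bf n W (del x i) = ((k + 1).factorial : ℝ) *
      ((fc k n).filter (fun σ => ∀ y ∈ σ, σ.erase y ∈ W)).card := by
  rw [Finset.sum_congr rfl (fun x _ => h72_prod_bf k n hk W hW x)]
  apply cnt1
  intro σ hσ
  rw [mem_filter] at hσ
  exact hσ.1

end FC
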