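import Pool.Agent.H18.FC2.Defs
import Pool.Agent.H92.FC.Conc

/-!
# Concentration for independent random subsets with varying densities
-/

namespace FC

open Finset

variable {α : Type*} [DecidableEq α]

theorem h63_Ev_empty (ρ : α → ℝ) (f : Finset α → ℝ) : Ev ∅ ρ f = f ∅ := by
  simp [Ev]

theorem h63_Ev_insert (G : Finset α) (a : α) (ha : a ∉ G) (ρ : α → ℝ)
    (f : Finset α → ℝ) :
    Ev (insert a G) ρ f = (1 - ρ a) * Ev G ρ f + ρ a * Ev G ρ (fun X => f (insert a X)) := by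
  unfold Ev
  rw [Finset.sum_powerset_insert ha, Finset.mul_sum, Finset.mul_sum]
  congr 1
  · refine Finset.sum_congr rfl fun X hX => ?_
    have hXG := Finset.mem_powerset.1 hX
    have haX : a ∉ X := fun h => ha (hXG h)
    have : (insert a G) \ X = insert a (G \ X) := by
      ext y; simp only [mem_sdiff, mem_insert]
      constructor
      · rintro ⟨h1 | h1, h2⟩
        · exact Or.inl h1
        · exact Or.inr ⟨h1, h2⟩
      · rintro (h1 | h1)
        · exact ⟨Or.inl h1, h1 ▸ haX⟩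
        · exact ⟨Or.inr h1.1, h1.2⟩
    rw [this, Finset.prod_insert (by simp [ha])]
    ring
  · refine Finset.sum_congr rfl fun X hX => ?_
    have hXG := Finset.mem_powerset.1 hX
    have haX : a ∉ X := fun h => ha (hXG h)
    have : (insert a G) \ (insert a X) = G \ X := by
      ext y; simp only [mem_sdiff, mem_insert, not_or]
      constructor
      · rintro ⟨h1 | h1, h2, h3⟩
        · exact absurd h1 h2
        · exact ⟨h1, h3⟩
      · rintro ⟨h1, h2⟩
        exact ⟨Or.inr h1, fun h => ha (h ▸ h1), h2⟩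
    rw [this, Finset.prod_insert haX]
    ring

theorem h63_Ev_mono (G : Finset α) (ρ : α → ℝ) (h0 : ∀ i ∈ G, 0 ≤ ρ i)
    (h1 : ∀ i ∈ G, ρ i ≤ 1) (f g : Finset α → ℝ) (h : ∀ X ⊆ G, f X ≤ g X) :
    Ev G ρ f ≤ Ev G ρ g := by
  unfold Ev
  refine Finset.sum_le_sum fun X hX => ?_
  have hXG := Finset.mem_powerset.1 hX
  exact mul_le_mul_of_nonneg_left (h X hXG)
    (mul_nonneg (Finset.prod_nonneg fun i hi => h0 i (hXG hi))
      (Finset.prod_nonneg fun i hi => sub_nonneg.2 (h1 i (Finset.mem_sdiff.1 hi).1)))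

theorem h63_Ev_add (G : Finset α) (ρ : α → ℝ) (f g : Finset α → ℝ) :
    Ev G ρ (fun X => f X + g X) = Ev G ρ f + Ev G ρ g := by
  unfold Ev
  rw [← Finset.sum_add_distrib]
  exact Finset.sum_congr rfl fun X _ => by ring

theorem h63_Ev_mul (G : Finset α) (ρ : α → ℝ) (c : ℝ) (f : Finset α → ℝ) :
    Ev G ρ (fun X => c * f X) = c * Ev G ρ f := by
  unfold Ev
  rw [Finset.mul_sum]
  exact Finset.sum_congr rfl fun X _ => by ring

/-- The moment generating function of a function with the Lipschitz property. -/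
theorem h63_mgf (G : Finset α) (ρ : α → ℝ) (l : ℝ) (h0 : ∀ i ∈ G, 0 ≤ ρ i)
    (h1 : ∀ i ∈ G, ρ i ≤ 1) (hl : |l| ≤ 1) (f : Finset α → ℝ)
    (hf : ∀ X ⊆ G, ∀ a ∈ G, a ∉ X → f X ≤ f (insert a X) ∧ f (insert a X) ≤ f X + 1) :
    Ev G ρ (fun X => Real.exp (l * f X)) ≤
      Real.exp ((∑ i ∈ G, ρ i) * l ^ 2) * Real.exp (l * Ev G ρ f) := by
  induction G using Finset.induction_on generalizing f with
  | empty => simp [h63_Ev_empty]
  | insert a G ha ih =>
    have h0' : ∀ i ∈ G, 0 ≤ ρ i := fun i hi => h0 i (Finset.mem_insert_of_mem hi)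
    have h1' : ∀ i ∈ G, ρ i ≤ 1 := fun i hi => h1 i (Finset.mem_insert_of_mem hi)
    have hq0 : 0 ≤ ρ a := h0 a (Finset.mem_insert_self a G)
    have hq1 : ρ a ≤ 1 := h1 a (Finset.mem_insert_self a G)
    rw [h63_Ev_insert G a ha, h63_Ev_insert G a ha, Finset.sum_insert ha]
    set q : ℝ := ρ a with hqdef
    set g : Finset α → ℝ := fun X => (1 - q) * f X + q * f (insert a X) with hg
    have hgE : Ev G ρ g = (1 - q) * Ev G ρ f + q * Ev G ρ (fun X => f (insert a X)) := by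
      rw [hg, h63_Ev_add, h63_Ev_mul, h63_Ev_mul]
    have hgl : ∀ X ⊆ G, ∀ b ∈ G, b ∉ X → g X ≤ g (insert b X) ∧ g (insert b X) ≤ g X + 1 := by
      intro X hX b hb hbX
      have hab : b ≠ a := fun h => ha (h ▸ hb)
      have h1 := hf X (hX.trans (Finset.subset_insert a G)) b (Finset.mem_insert_of_mem hb) hbX
      have h2 := hf (insert a X) (Finset.insert_subset_insert a hX) b
        (Finset.mem_insert_of_mem hb) (by simp [hab, hbX])
      rw [Finset.insert_comm] at h2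
      simp only [hg]
      constructor
      · nlinarith [mul_le_mul_of_nonneg_left h1.1 (by linarith : 0 ≤ 1 - q),
          mul_le_mul_of_nonneg_left h2.1 hq0]
      · nlinarith [mul_le_mul_of_nonneg_left h1.2 (by linarith : 0 ≤ 1 - q),
          mul_le_mul_of_nonneg_left h2.2 hq0]
    have h1 := ih h0' h1' g hgl
    rw [hgE] at h1
    have h2 : (1 - q) * Ev G ρ (fun X => Real.exp (l * f X)) +
        q * Ev G ρ (fun X => Real.exp (l * f (insert a X))) ≤
        Real.exp (q * l ^ 2) * Ev G ρ (fun X => Real.exp (l * g X)) := by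
      rw [← h63_Ev_mul, ← h63_Ev_mul, ← h63_Ev_mul, ← h63_Ev_add]
      refine h63_Ev_mono G ρ h0' h1' _ _ fun X hX => ?_
      have h3 := hf X (hX.trans (Finset.subset_insert a G)) a (Finset.mem_insert_self a G)
        (fun h => ha (hX h))
      have h4 := mgf_step q (f (insert a X) - f X) l hq0 hq1 (by linarith) (by linarith) hl (f X)
      have e1 : f X + (f (insert a X) - f X) = f (insert a X) := by ring
      have e2 : f X + q * (f (insert a X) - f X) = g X := by simp only [hg]; ring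
      rw [e1, e2] at h4
      exact h4
    refine h2.trans ?_
    refine (mul_le_mul_of_nonneg_left h1 (Real.exp_pos _).le).trans (le_of_eq ?_)
    rw [← mul_assoc, ← Real.exp_add]
    congr 2
    ring

theorem Ev_conc_up (G : Finset α) (ρ : α → ℝ) (l x : ℝ) (h0 : ∀ i ∈ G, 0 ≤ ρ i)
    (h1 : ∀ i ∈ G, ρ i ≤ 1) (hl0 : 0 ≤ l) (hl1 : l ≤ 1) (f : Finset α → ℝ)
    (hf : ∀ X ⊆ G, ∀ a ∈ G, a ∉ X → f X ≤ f (insert a X) ∧ f (insert a X) ≤ f X + 1) :
    Ev G ρ (fun X => ind (Ev G ρ f + x ≤ f X)) ≤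
      Real.exp (-(l * x) + (∑ i ∈ G, ρ i) * l ^ 2) := by
  have hm := h63_mgf G ρ l h0 h1 (by rw [abs_of_nonneg hl0]; exact hl1) f hf
  have h2 : Ev G ρ (fun X => ind (Ev G ρ f + x ≤ f X)) ≤
      Ev G ρ (fun X => Real.exp (-(l * (Ev G ρ f + x))) * Real.exp (l * f X)) := by
    refine h63_Ev_mono G ρ h0 h1 _ _ fun X _ => ?_
    by_cases h : Ev G ρ f + x ≤ f X
    · rw [ind_pos h, ← Real.exp_add]
      refine Real.one_le_exp ?_
      nlinarith [mul_le_mul_of_nonneg_left h hl0]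
    · rw [ind_neg h]; positivity
  rw [h63_Ev_mul] at h2
  refine h2.trans ((mul_le_mul_of_nonneg_left hm (Real.exp_pos _).le).trans (le_of_eq ?_))
  rw [← Real.exp_add, ← Real.exp_add]; congr 1; ring

theorem Ev_conc_dn (G : Finset α) (ρ : α → ℝ) (l x : ℝ) (h0 : ∀ i ∈ G, 0 ≤ ρ i)
    (h1 : ∀ i ∈ G, ρ i ≤ 1) (hl0 : 0 ≤ l) (hl1 : l ≤ 1) (f : Finset α → ℝ)
    (hf : ∀ X ⊆ G, ∀ a ∈ G, a ∉ X → f X ≤ f (insert a X) ∧ f (insert a X) ≤ f X + 1) :
    Ev G ρ (fun X => ind (f X ≤ Ev G ρ f - x)) ≤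
      Real.exp (-(l * x) + (∑ i ∈ G, ρ i) * l ^ 2) := by
  have hm := h63_mgf G ρ (-l) h0 h1 (by rw [abs_neg, abs_of_nonneg hl0]; exact hl1) f hf
  have h2 : Ev G ρ (fun X => ind (f X ≤ Ev G ρ f - x)) ≤
      Ev G ρ (fun X => Real.exp (l * (Ev G ρ f - x)) * Real.exp (-l * f X)) := by
    refine h63_Ev_mono G ρ h0 h1 _ _ fun X _ => ?_
    by_cases h : f X ≤ Ev G ρ f - x
    · rw [ind_pos h, ← Real.exp_add]
      refine Real.one_le_exp ?_
      nlinarith [mul_le_mul_of_nonneg_left h hl0]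
    · rw [ind_neg h]; positivity
  rw [h63_Ev_mul] at h2
  refine h2.trans ((mul_le_mul_of_nonneg_left hm (Real.exp_pos _).le).trans (le_of_eq ?_))
  rw [← Real.exp_add, ← Real.exp_add]; congr 1; ring

end FC
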