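import Pool.Agent.H18.FC2.Defs

/-!
# All ridges have the same probability of being in the closure
-/

namespace FC

open Finset

section perm

variable {α : Type*} [DecidableEq α]

/-- invariance of the expectation under an involution preserving the densities -/
theorem h10_Ev_invol (G : Finset α) (φ : α → α) (hφ : ∀ x, φ (φ x) = x)
    (hG : ∀ x ∈ G, φ x ∈ G) (ρ : α → ℝ) (hρ : ∀ x ∈ G, ρ (φ x) = ρ x) (f : Finset α → ℝ) :
    Ev G ρ (fun X => f (X.image φ)) = Ev G ρ f := by
  have hinj : Function.Injective φ := Function.LeftInverse.injective hφ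
  have himm : ∀ X : Finset α, (X.image φ).image φ = X := by
    intro X
    rw [image_image]
    have h1 : φ ∘ φ = id := funext hφ
    rw [h1, image_id]
  have hsub : ∀ X : Finset α, X ⊆ G → X.image φ ⊆ G := by
    intro X hX y hy
    obtain ⟨x, hx, rfl⟩ := mem_image.1 hy
    exact hG x (hX hx)
  unfold Ev
  refine Finset.sum_nbij' (fun X => X.image φ) (fun X => X.image φ) ?_ ?_ ?_ ?_ ?_
  · intro X hX
    exact mem_powerset.2 (hsub X (mem_powerset.1 hX))
  · intro X hX
    exact mem_powerset.2 (hsub X (mem_powerset.1 hX))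
  · intro X _
    exact himm X
  · intro X _
    exact himm X
  · intro X hX
    have hXG := mem_powerset.1 hX
    have h1 : ∏ i ∈ X.image φ, ρ i = ∏ i ∈ X, ρ i := by
      rw [prod_image (fun x _ y _ h => hinj h)]
      exact prod_congr rfl fun i hi => hρ i (hXG hi)
    have h2 : G \ X.image φ = (G \ X).image φ := by
      ext y
      rw [mem_sdiff]
      constructor
      · rintro ⟨h3, h4⟩
        refine mem_image.2 ⟨φ y, mem_sdiff.2 ⟨hG y h3, fun h5 => h4 ?_⟩, hφ y⟩
        exact mem_image.2 ⟨φ y, h5, hφ y⟩
      · intro hy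
        obtain ⟨x, hx, rfl⟩ := mem_image.1 hy
        rw [mem_sdiff] at hx
        refine ⟨hG x hx.1, fun h5 => hx.2 ?_⟩
        obtain ⟨z, hz, hzx⟩ := mem_image.1 h5
        rwa [← hinj hzx]
    have h3 : ∏ i ∈ G \ X.image φ, (1 - ρ i) = ∏ i ∈ G \ X, (1 - ρ i) := by
      rw [h2, prod_image (fun x _ y _ h => hinj h)]
      exact prod_congr rfl fun i hi => by rw [hρ i (mem_sdiff.1 hi).1]
    rw [h1, h3]

end perm

variable {d : ℕ}

theorem h10_swap_swap (a : ℕ) (τ : Finset ℕ) :
    (τ.image (Equiv.swap a (a + 1))).image (Equiv.swap a (a + 1)) = τ := by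
  rw [image_image]
  conv_rhs => rw [← image_id (s := τ)]
  refine image_congr (fun x _ => ?_)
  simp

theorem h10_swap_range (a n : ℕ) (ha : a + 1 < n) (τ : Finset ℕ) (hτ : τ ⊆ range n) :
    τ.image (Equiv.swap a (a + 1)) ⊆ range n := by
  intro y hy
  obtain ⟨x, hx, rfl⟩ := mem_image.1 hy
  have h1 := mem_range.1 (hτ hx)
  rw [mem_range, Equiv.swap_apply_def]
  split_ifs <;> omega

theorem h10_swap_card (a : ℕ) (τ : Finset ℕ) :
    (τ.image (Equiv.swap a (a + 1))).card = τ.card :=
  card_image_of_injective _ (Equiv.swap a (a + 1)).injective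

/-- invariance of `E2` under adjacent transpositions of the vertices -/
theorem h10_E2_swap (a n : ℕ) (ha : a + 1 < n) (q p : ℝ) (f : Finset (Finset ℕ) → ℝ) :
    E2 d n q p (fun A => f (A.image (fun s => s.image (Equiv.swap a (a + 1))))) =
      E2 d n q p f := by
  unfold E2
  refine h10_Ev_invol (gd d n) (fun s => s.image (Equiv.swap a (a + 1))) (h10_swap_swap a) ?_
    (dn d q p) ?_ f
  · intro τ hτ
    unfold gd fc faces rg at hτ ⊢
    rw [mem_union, mem_powersetCard, mem_powersetCard] at hτ ⊢
    rcases hτ with h | h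
    · exact Or.inl ⟨h10_swap_range a n ha τ h.1, by rw [h10_swap_card]; exact h.2⟩
    · exact Or.inr ⟨h10_swap_range a n ha τ h.1, by rw [h10_swap_card]; exact h.2⟩
  · intro τ _
    unfold dn
    rw [h10_swap_card]

/-- swapping does not change the probability of being in the closure -/
theorem h10_sym_step (Q : ERank d) (n : ℕ) (q p : ℝ) (a : ℕ) (ha : a + 1 < n) (e : Finset ℕ) :
    E2 d n q p (fun A => ind (Q.Cl A (e.image (Equiv.swap a (a + 1))))) =
      E2 d n q p (fun A => ind (Q.Cl A e)) := by
  rw [← h10_E2_swap a n ha q p (fun A => ind (Q.Cl A (e.image (Equiv.swap a (a + 1)))))]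
  congr 1
  funext A
  apply ind_congr
  unfold RankFn.Cl
  have h1 : insert (e.image (Equiv.swap a (a + 1)))
      (A.image (fun s => s.image (Equiv.swap a (a + 1)))) =
      (insert e A).image (fun s => s.image (Equiv.swap a (a + 1))) := by
    rw [image_insert]
  rw [h1, Q.swap, Q.swap]

/-- a finite set of naturals closed under predecessors is an initial segment -/
theorem h10_initial (e : Finset ℕ) (h : ∀ a, a + 1 ∈ e → a ∈ e) : e = range e.card := by
  have h1 : ∀ x ∈ e, ∀ y ≤ x, y ∈ e := by
    intro x
    induction x with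
    | zero =>
      intro hx y hy
      rwa [Nat.le_zero.1 hy]
    | succ x ih =>
      intro hx y hy
      rcases Nat.lt_or_ge y (x + 1) with h2 | h2
      · exact ih (h x hx) y (by omega)
      · rwa [le_antisymm hy h2]
  refine eq_of_subset_of_card_le ?_ (by rw [card_range])
  intro x hx
  rw [mem_range]
  have h2 : range (x + 1) ⊆ e := by
    intro y hy
    exact h1 x hx y (by have := mem_range.1 hy; omega)
  have h3 := card_le_card h2
  rw [card_range] at h3
  omega

theorem h10_sym_range (Q : ERank d) (n : ℕ) (q p : ℝ) : ∀ (m : ℕ) (e : Finset ℕ),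
    ∑ x ∈ e, x = m → e ∈ rg d n →
    E2 d n q p (fun A => ind (Q.Cl A e)) = E2 d n q p (fun A => ind (Q.Cl A (range d))) := by
  intro m
  induction m using Nat.strong_induction_on with
  | _ m ih =>
    intro e hm he
    have he' := mem_powersetCard.1 he
    by_cases h : ∀ a, a + 1 ∈ e → a ∈ e
    · have h1 := h10_initial e h
      rw [he'.2] at h1
      rw [h1]
    · push Not at h
      obtain ⟨a, ha, hna⟩ := h
      have han : a + 1 < n := mem_range.1 (he'.1 ha)
      set e' := e.image (Equiv.swap a (a + 1)) with he''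
      have h2 : e' = insert a (e.erase (a + 1)) := by
        ext x
        rw [he'', mem_image, mem_insert, mem_erase]
        constructor
        · rintro ⟨y, hy, rfl⟩
          rw [Equiv.swap_apply_def]
          split_ifs with h3 h4
          · exact absurd (h3 ▸ hy) hna
          · exact Or.inl rfl
          · exact Or.inr ⟨h4, hy⟩
        · rintro (rfl | ⟨h3, h4⟩)
          · exact ⟨x + 1, ha, Equiv.swap_apply_right x (x + 1)⟩
          · refine ⟨x, h4, Equiv.swap_apply_of_ne_of_ne ?_ h3⟩
            rintro rfl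
            exact hna h4
      have h3 : ∑ x ∈ e', x + (a + 1) = ∑ x ∈ e, x + a := by
        rw [h2, sum_insert (fun h4 => hna (mem_of_mem_erase h4)), ← add_sum_erase e _ ha]
        ring
      have h4 : e' ∈ rg d n := by
        refine mem_powersetCard.2 ⟨h10_swap_range a n han e he'.1, ?_⟩
        rw [he'', h10_swap_card]
        exact he'.2
      rw [← h10_sym_step Q n q p a han e]
      exact ih (∑ x ∈ e', x) (by omega) e' rfl h4

theorem E2_sym (Q : ERank d) (n : ℕ) (q p : ℝ) (e : Finset ℕ) (he : e ∈ rg d n) :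
    E2 d n q p (fun A => ind (Q.Cl A e)) = Wf Q n q p := by
  classical
  have hcard : (rg d n).card = n.choose d := by
    unfold rg
    rw [card_powersetCard, card_range]
  have hpos : (0 : ℝ) < (n.choose d : ℝ) := by
    have h1 : 0 < (rg d n).card := card_pos.2 ⟨e, he⟩
    rw [hcard] at h1
    exact_mod_cast h1
  have h1 : E2 d n q p (fun A => ((wset Q.toRankFn (rg d n) A).card : ℝ)) =
      ∑ e' ∈ rg d n, E2 d n q p (fun A => ind (Q.Cl A e')) := by
    unfold E2 Ev
    rw [sum_comm]
    refine sum_congr rfl fun X _ => ?_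
    rw [← mul_sum]
    congr 1
    beta_reduce
    unfold wset
    rw [card_filter]
    push_cast
    refine sum_congr rfl fun e' _ => ?_
    unfold ind
    rfl
  have h2 : ∀ e' ∈ rg d n, E2 d n q p (fun A => ind (Q.Cl A e')) =
      E2 d n q p (fun A => ind (Q.Cl A e)) := by
    intro e' he'
    rw [h10_sym_range Q n q p _ e' rfl he', h10_sym_range Q n q p _ e rfl he]
  unfold Wf
  rw [h1, sum_congr rfl h2, sum_const, hcard, nsmul_eq_mul, mul_div_cancel_left₀ _ hpos.ne']

end FC
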