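import Pool.Agent.H18.FC2.Ev
import Pool.Agent.H18.FC2.Sym

/-!
# Increments of the rank when pins are added
-/

namespace FC

open Finset

section gen

variable {α : Type*} [DecidableEq α]

theorem h98_cl_mono (R : RankFn α) {S T : Finset α} (h : S ⊆ T) {i : α} (hi : R.Cl S i) :
    R.Cl T i := by
  unfold RankFn.Cl at hi ⊢
  have h1 := R.submod (insert i S) T
  have h2 : insert i S ∪ T = insert i T := by
    rw [insert_union, union_eq_right.2 h]
  have h3 : R.r S ≤ R.r (insert i S ∩ T) :=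
    R.mono _ _ (subset_inter (subset_insert _ _) h)
  have h4 : R.r T ≤ R.r (insert i T) := R.mono _ _ (subset_insert _ _)
  rw [h2] at h1
  omega

theorem h98_one_sub (R : RankFn α) (S : Finset α) (i : α) :
    1 - ind (R.Cl S i) = (R.r (insert i S) : ℝ) - R.r S := by
  by_cases h : R.Cl S i
  · rw [ind_pos h]
    unfold RankFn.Cl at h
    rw [h]
    ring
  · rw [ind_neg h]
    unfold RankFn.Cl at h
    have h1 := R.ins i S
    have h2 : R.r S ≤ R.r (insert i S) := R.mono _ _ (subset_insert _ _)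
    have h3 : R.r (insert i S) = R.r S + 1 := by omega
    rw [h3]
    push_cast
    ring

theorem h98_incr_det (R : RankFn α) (A P : Finset α) :
    ∑ e ∈ P, (1 - ind (R.Cl (A ∪ P.erase e) e)) ≤ (R.r (A ∪ P) : ℝ) - R.r A := by
  induction P using Finset.induction_on with
  | empty => simp
  | insert a P ha ih =>
    rw [sum_insert ha, erase_insert ha]
    have h1 : ∑ e ∈ P, (1 - ind (R.Cl (A ∪ (insert a P).erase e) e)) ≤
        ∑ e ∈ P, (1 - ind (R.Cl (A ∪ P.erase e) e)) := by
      apply sum_le_sum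
      intro e _
      have h2 : ind (R.Cl (A ∪ P.erase e) e) ≤ ind (R.Cl (A ∪ (insert a P).erase e) e) :=
        ind_mono fun h => h98_cl_mono R
          (union_subset_union_right (erase_subset_erase e (subset_insert a P))) h
      linarith
    have h3 : (R.r (A ∪ insert a P) : ℝ) = R.r (insert a (A ∪ P)) := by rw [union_insert]
    rw [h98_one_sub, h3]
    linarith

end gen

variable {d : ℕ}

/-- `incr` with its two prerequisites as hypotheses -/
theorem incr_of (Q : ERank d) (n : ℕ) (q p y : ℝ)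
    (hsym : ∀ p' : ℝ, ∀ e ∈ rg d n, E2 d n q p' (fun A => ind (Q.Cl A e)) = Wf Q n q p')
    (hunion : ∀ f : Finset (Finset ℕ) → ℝ,
      E2 d n q p (fun A => Ev (rg d n) (fun _ => y) (fun P => f (A ∪ P))) =
        E2 d n q (p + y - p * y) f)
    (wt : Finset ℕ → ℝ) (hq0 : 0 ≤ q) (hq1 : q ≤ 1)
    (hp0 : 0 ≤ p) (hp1 : p ≤ 1) (hw0 : ∀ e ∈ rg d n, 0 ≤ wt e) (hwy : ∀ e ∈ rg d n, wt e ≤ y)
    (hy1 : y ≤ 1) :
    (1 - Wf Q n q (p + y - p * y)) * ∑ e ∈ rg d n, wt e ≤
      E2 d n q p (fun A => Ev (rg d n) wt (fun P => (Q.r (A ∪ P) : ℝ) - Q.r A)) := by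
  have hd0 : ∀ i ∈ gd d n, 0 ≤ dn d q p i := by
    intro i _
    unfold dn
    split_ifs
    · exact hq0
    · exact hp0
  have hd1 : ∀ i ∈ gd d n, dn d q p i ≤ 1 := by
    intro i _
    unfold dn
    split_ifs
    · exact hq1
    · exact hp1
  have hw1 : ∀ e ∈ rg d n, wt e ≤ 1 := fun e he => (hwy e he).trans hy1
  -- the inner expectation
  have inner : ∀ A : Finset (Finset ℕ),
      ∑ e ∈ rg d n, wt e * Ev (rg d n) (fun _ => y) (fun P => 1 - ind (Q.Cl (A ∪ P) e)) ≤
        Ev (rg d n) wt (fun P => (Q.r (A ∪ P) : ℝ) - Q.r A) := by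
    intro A
    calc ∑ e ∈ rg d n, wt e * Ev (rg d n) (fun _ => y) (fun P => 1 - ind (Q.Cl (A ∪ P) e))
        ≤ ∑ e ∈ rg d n, wt e * Ev ((rg d n).erase e) wt (fun P => 1 - ind (Q.Cl (A ∪ P) e)) := by
          apply sum_le_sum
          intro e he
          apply mul_le_mul_of_nonneg_left _ (hw0 e he)
          rw [Ev_erase]
          have h1 : Ev (rg d n) wt (fun P => -(1 - ind (Q.Cl (A ∪ P) e))) ≤
              Ev (rg d n) (fun _ => y) (fun P => -(1 - ind (Q.Cl (A ∪ P) e))) := by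
            apply Ev_mono_dens (rg d n) wt (fun _ => y) hw0 hwy (fun _ _ => hy1)
            intro X _ Y _ hXY
            have h2 : ind (Q.Cl (A ∪ X) e) ≤ ind (Q.Cl (A ∪ Y) e) := ind_mono fun h =>
              h98_cl_mono Q.toRankFn (union_subset_union_right hXY) h
            linarith
          have h3 : ∀ ρ : Finset ℕ → ℝ, Ev (rg d n) ρ (fun P => -(1 - ind (Q.Cl (A ∪ P) e))) =
              -Ev (rg d n) ρ (fun P => 1 - ind (Q.Cl (A ∪ P) e)) := by
            intro ρ
            have h4 := Ev_mul (rg d n) ρ (-1) (fun P => 1 - ind (Q.Cl (A ∪ P) e))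
            rw [neg_one_mul] at h4
            rw [← h4]
            exact Ev_congr _ _ _ _ fun X _ => by ring
          rw [h3, h3] at h1
          have h5 : Ev (rg d n) wt (fun P => 1 - ind (Q.Cl (A ∪ P) e)) ≤
              Ev (rg d n) wt (fun X => 1 - ind (Q.Cl (A ∪ X.erase e) e)) := by
            apply Ev_mono (rg d n) wt hw0 hw1
            intro X _
            have h2 : ind (Q.Cl (A ∪ X.erase e) e) ≤ ind (Q.Cl (A ∪ X) e) := ind_mono fun h =>
              h98_cl_mono Q.toRankFn (union_subset_union_right (erase_subset _ _)) h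
            linarith
          linarith
      _ = ∑ e ∈ rg d n, Ev (rg d n) wt
            (fun X => ind (e ∈ X) * (1 - ind (Q.Cl (A ∪ X.erase e) e))) :=
          sum_congr rfl fun e he => Ev_erase_in (rg d n) e he wt _
      _ = Ev (rg d n) wt (fun X => ∑ e ∈ rg d n,
            ind (e ∈ X) * (1 - ind (Q.Cl (A ∪ X.erase e) e))) := (Ev_sum _ _ _ _).symm
      _ = Ev (rg d n) wt (fun X => ∑ e ∈ X, (1 - ind (Q.Cl (A ∪ X.erase e) e))) := by
          apply Ev_congr
          intro X hX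
          rw [← sum_subset hX]
          · exact sum_congr rfl fun e he => by rw [ind_pos he, one_mul]
          · intro e _ he
            rw [ind_neg he, zero_mul]
      _ ≤ Ev (rg d n) wt (fun P => (Q.r (A ∪ P) : ℝ) - Q.r A) :=
          Ev_mono (rg d n) wt hw0 hw1 _ _ fun X _ => h98_incr_det Q.toRankFn A X
  -- the outer expectation
  calc (1 - Wf Q n q (p + y - p * y)) * ∑ e ∈ rg d n, wt e
      = ∑ e ∈ rg d n, wt e * E2 d n q p (fun A => Ev (rg d n) (fun _ => y)
          (fun P => 1 - ind (Q.Cl (A ∪ P) e))) := by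
        rw [mul_sum]
        apply sum_congr rfl
        intro e he
        rw [hunion (fun A => 1 - ind (Q.Cl A e))]
        have h1 : E2 d n q (p + y - p * y) (fun A => 1 - ind (Q.Cl A e)) =
            1 - E2 d n q (p + y - p * y) (fun A => ind (Q.Cl A e)) := by
          unfold E2
          rw [Ev_sub, Ev_const]
        rw [h1, hsym _ e he, mul_comm]
    _ = E2 d n q p (fun A => ∑ e ∈ rg d n, wt e * Ev (rg d n) (fun _ => y)
          (fun P => 1 - ind (Q.Cl (A ∪ P) e))) := by
        unfold E2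
        rw [Ev_sum]
        exact sum_congr rfl fun e _ => (Ev_mul _ _ _ _).symm
    _ ≤ E2 d n q p (fun A => Ev (rg d n) wt (fun P => (Q.r (A ∪ P) : ℝ) - Q.r A)) := by
        unfold E2
        exact Ev_mono _ _ hd0 hd1 _ _ fun A _ => inner A

theorem h98_E2_union (d n : ℕ) (q p y : ℝ) (f : Finset (Finset ℕ) → ℝ) :
    E2 d n q p (fun A => Ev (rg d n) (fun _ => y) (fun P => f (A ∪ P))) =
      E2 d n q (p + y - p * y) f := by
  unfold E2
  rw [Ev_union_sub (gd d n) (rg d n) subset_union_right]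
  apply Ev_congr_dens
  intro i hi
  unfold dn
  by_cases h : i ∈ rg d n
  · have hc : i.card = d := (mem_powersetCard.1 h).2
    rw [if_pos h, if_neg (by omega), if_neg (by omega)]
  · rw [if_neg h]
    have h1 : i ∈ fc d n := (mem_union.1 hi).resolve_right h
    have hc : i.card = d + 1 := (mem_powersetCard.1 h1).2
    rw [if_pos hc, if_pos hc]

theorem incr (Q : ERank d) (n : ℕ) (q p y : ℝ) (wt : Finset ℕ → ℝ) (hq0 : 0 ≤ q) (hq1 : q ≤ 1)
    (hp0 : 0 ≤ p) (hp1 : p ≤ 1) (hw0 : ∀ e ∈ rg d n, 0 ≤ wt e) (hwy : ∀ e ∈ rg d n, wt e ≤ y)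
    (hy1 : y ≤ 1) :
    (1 - Wf Q n q (p + y - p * y)) * ∑ e ∈ rg d n, wt e ≤
      E2 d n q p (fun A => Ev (rg d n) wt (fun P => (Q.r (A ∪ P) : ℝ) - Q.r A)) :=
  incr_of Q n q p y (fun p' e he => E2_sym Q n q p' e he) (fun f => h98_E2_union d n q p y f) wt
    hq0 hq1 hp0 hp1 hw0 hwy hy1

end FC
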