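import Pool.Agent.H18.FC2.Ev
import Pool.Agent.H18.FC2.EvConc
import Pool.Agent.H18.FC2.Incr

/-!
# Concentration of the weight of the closure
-/

namespace FC

open Finset

section Rank

variable {α : Type*} [DecidableEq α]

theorem h32_cl_union (R : RankFn α) (A P : Finset α) (a : α) (h : R.Cl A a) :
    R.r (insert a (A ∪ P)) ≤ R.r (A ∪ P) := by
  have h1 := R.submod (insert a A) (A ∪ P)
  have h2 : R.r A ≤ R.r (insert a A ∩ (A ∪ P)) := by
    apply R.mono
    intro x hx
    rw [mem_inter]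
    exact ⟨mem_insert_of_mem hx, mem_union_left _ hx⟩
  have h3 : R.r (insert a (A ∪ P)) ≤ R.r (insert a A ∪ (A ∪ P)) := by
    apply R.mono
    intro x hx
    rw [mem_insert] at hx
    rcases hx with rfl | hx
    · exact mem_union_left _ (mem_insert_self _ _)
    · exact mem_union_right _ hx
  have h4 : R.r (insert a A) = R.r A := h
  omega

open Classical in
theorem h32_rank_union (R : RankFn α) (A P : Finset α) :
    R.r (A ∪ P) ≤ R.r A + (P.filter (fun e => ¬ R.Cl A e)).card := by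
  induction P using Finset.induction_on with
  | empty => simp
  | insert a P ha ih =>
    have h1 : A ∪ insert a P = insert a (A ∪ P) := by
      ext x
      simp only [mem_union, mem_insert]
      tauto
    rw [h1, filter_insert]
    by_cases hc : R.Cl A a
    · have h2 := h32_cl_union R A P a hc
      rw [if_neg (by simpa using hc)]
      omega
    · have h2 := R.ins a (A ∪ P)
      rw [if_pos hc, card_insert_of_notMem (by
        intro h
        exact ha (mem_filter.mp h).1)]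
      omega

theorem h32_ind_nonneg (p : Prop) : 0 ≤ ind p := by
  unfold ind
  split_ifs <;> norm_num

theorem h32_ind_true {p : Prop} (h : p) : ind p = 1 := by
  unfold ind
  rw [if_pos h]

theorem h32_ind_false {p : Prop} (h : ¬ p) : ind p = 0 := by
  unfold ind
  rw [if_neg h]

end Rank

variable {d : ℕ}

theorem h32_fc_card {n : ℕ} {τ : Finset ℕ} (h : τ ∈ fc d n) : τ.card = d + 1 := by
  unfold fc faces at h
  exact (mem_powersetCard.mp h).2

theorem h32_rg_card {n : ℕ} {τ : Finset ℕ} (h : τ ∈ rg d n) : τ.card = d := by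
  unfold rg at h
  exact (mem_powersetCard.mp h).2

theorem h32_disj (d n : ℕ) : Disjoint (fc d n) (rg d n) := by
  rw [Finset.disjoint_left]
  intro τ h1 h2
  have := h32_fc_card h1
  have := h32_rg_card h2
  omega

theorem h32_sum_dn (d n : ℕ) (g : Finset ℕ → ℝ) :
    ∑ i ∈ gd d n, g i = ∑ i ∈ fc d n, g i + ∑ i ∈ rg d n, g i := by
  unfold gd
  exact sum_union (h32_disj d n)

theorem h32_card_fc (d n : ℕ) : (fc d n).card = n.choose (d + 1) := by
  unfold fc faces
  rw [card_powersetCard, card_range]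

theorem h32_card_rg (d n : ℕ) : (rg d n).card = n.choose d := by
  unfold rg
  rw [card_powersetCard, card_range]

theorem h32_exp_bound (s x S : ℝ) (hS0 : 0 ≤ S) (hs : s ≤ S) :
    Real.exp (-(x / (2 * S) * x) + s * (x / (2 * S)) ^ 2) ≤ Real.exp (-(x ^ 2 / (4 * S))) := by
  apply Real.exp_le_exp.mpr
  rcases hS0.eq_or_lt with h | h
  · subst h
    simp
  · have h1 : s * (x / (2 * S)) ^ 2 ≤ S * (x / (2 * S)) ^ 2 :=
      mul_le_mul_of_nonneg_right hs (sq_nonneg _)
    have h2 : -(x / (2 * S) * x) + S * (x / (2 * S)) ^ 2 = -(x ^ 2 / (4 * S)) := by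
      field_simp
      ring
    linarith

theorem conc_w (Q : ERank d) (n : ℕ) (q p y : ℝ) (wt : Finset ℕ → ℝ) (hq0 : 0 ≤ q) (hq1 : q ≤ 1)
    (hp0 : 0 ≤ p) (hp1 : p ≤ 1) (hw0 : ∀ e ∈ rg d n, 0 ≤ wt e) (hwy : ∀ e ∈ rg d n, wt e ≤ y)
    (hy1 : y ≤ 1) (x S : ℝ)
    (hS : (n.choose (d + 1) : ℝ) * q + (n.choose d : ℝ) * (p + y) ≤ S) (hx0 : 0 ≤ x)
    (hx : x ≤ 2 * S) :
    E2 d n q p (fun A => ind (Wf Q n q (p + y - p * y) * ∑ e ∈ rg d n, wt e + 3 * x ≤
      ∑ e ∈ wset Q.toRankFn (rg d n) A, wt e)) ≤ 3 * Real.exp (-(x ^ 2 / (4 * S))) := by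
  classical
  have hincr := incr Q n q p y wt hq0 hq1 hp0 hp1 hw0 hwy hy1
  set w' : ℝ := Wf Q n q (p + y - p * y) with hw'
  set sw : ℝ := ∑ e ∈ rg d n, wt e with hsw
  unfold E2 at hincr ⊢
  have hHG : rg d n ⊆ gd d n := by
    unfold gd
    exact subset_union_right
  have hρ0 : ∀ i ∈ gd d n, 0 ≤ dn d q p i := by
    intro i _
    unfold dn
    split_ifs <;> assumption
  have hρ1 : ∀ i ∈ gd d n, dn d q p i ≤ 1 := by
    intro i _
    unfold dn
    split_ifs <;> assumption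
  have hw1 : ∀ e ∈ rg d n, wt e ≤ 1 := fun e he => (hwy e he).trans hy1
  -- the densities of the union
  set ρ2 : Finset ℕ → ℝ := fun i => if i ∈ rg d n then dn d q p i + wt i - dn d q p i * wt i
    else dn d q p i with hρ2
  have hρ20 : ∀ i ∈ gd d n, 0 ≤ ρ2 i := by
    intro i hi
    rw [hρ2]
    dsimp only
    split_ifs with h
    · have h1 := hρ0 i hi
      have h2 := hρ1 i hi
      have h3 := hw0 i h
      nlinarith
    · exact hρ0 i hi
  have hρ21 : ∀ i ∈ gd d n, ρ2 i ≤ 1 := by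
    intro i hi
    rw [hρ2]
    dsimp only
    split_ifs with h
    · have h1 := hρ0 i hi
      have h2 := hρ1 i hi
      have h3 := hw1 i h
      nlinarith
    · exact hρ1 i hi
  -- sums of densities
  have hdnf : ∀ i ∈ fc d n, dn d q p i = q := by
    intro i hi
    unfold dn
    rw [if_pos (h32_fc_card hi)]
  have hdnr : ∀ i ∈ rg d n, dn d q p i = p := by
    intro i hi
    unfold dn
    rw [if_neg (by rw [h32_rg_card hi]; omega)]
  have hfr : ∀ i ∈ fc d n, i ∉ rg d n := fun i hi => Finset.disjoint_left.mp (h32_disj d n) hi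
  have hSq : ∑ i ∈ fc d n, dn d q p i = (n.choose (d + 1) : ℝ) * q := by
    rw [sum_congr rfl hdnf, sum_const, h32_card_fc, nsmul_eq_mul]
  have hM0 : (0 : ℝ) ≤ (n.choose d : ℝ) := Nat.cast_nonneg _
  have hwS : sw ≤ (n.choose d : ℝ) * y := by
    rw [hsw, ← h32_card_rg d n, ← nsmul_eq_mul]
    exact sum_le_card_nsmul _ _ _ hwy
  have hwS0 : 0 ≤ sw := sum_nonneg hw0
  have hSp : ∑ i ∈ rg d n, dn d q p i = (n.choose d : ℝ) * p := by
    rw [sum_congr rfl hdnr, sum_const, h32_card_rg, nsmul_eq_mul]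
  have hs1 : ∑ i ∈ gd d n, dn d q p i ≤ S := by
    rw [h32_sum_dn, hSq, hSp]
    nlinarith
  have hs2 : ∑ i ∈ gd d n, ρ2 i ≤ S := by
    rw [h32_sum_dn]
    have e1 : ∑ i ∈ fc d n, ρ2 i = (n.choose (d + 1) : ℝ) * q := by
      rw [← hSq]
      apply sum_congr rfl
      intro i hi
      rw [hρ2]
      dsimp only
      rw [if_neg (hfr i hi)]
    have e2 : ∑ i ∈ rg d n, ρ2 i ≤ ∑ i ∈ rg d n, (p + wt i) := by
      apply sum_le_sum
      intro i hi
      rw [hρ2]
      dsimp only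
      rw [if_pos hi, hdnr i hi]
      have := hw0 i hi
      nlinarith
    rw [sum_add_distrib, sum_const, h32_card_rg, nsmul_eq_mul] at e2
    rw [e1]
    have e3 : (n.choose d : ℝ) * p + sw ≤ (n.choose d : ℝ) * (p + y) := by
      nlinarith
    linarith
  have hs3 : ∑ i ∈ rg d n, wt i ≤ S := by
    have : 0 ≤ (n.choose (d + 1) : ℝ) * q := mul_nonneg (Nat.cast_nonneg _) hq0
    nlinarith
  have hS0 : 0 ≤ S := hwS0.trans hs3
  -- the parameter of the exponential moments
  set l : ℝ := x / (2 * S) with hl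
  have hl0 : 0 ≤ l := div_nonneg hx0 (by linarith)
  have hl1 : l ≤ 1 := div_le_one_of_le₀ hx (by linarith)
  set B : ℝ := Real.exp (-(x ^ 2 / (4 * S))) with hB
  -- expectations of the ranks
  set m0 : ℝ := Ev (gd d n) (dn d q p) (fun A => (Q.r A : ℝ)) with hm0
  set m1 : ℝ := Ev (gd d n) ρ2 (fun A => (Q.r A : ℝ)) with hm1
  have hlip : ∀ G : Finset (Finset ℕ), ∀ X ⊆ G, ∀ a ∈ G, a ∉ X →
      (Q.r X : ℝ) ≤ (Q.r (insert a X) : ℝ) ∧ (Q.r (insert a X) : ℝ) ≤ (Q.r X : ℝ) + 1 := by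
    intro G X _ a _ _
    refine ⟨?_, ?_⟩
    · exact_mod_cast Q.mono _ _ (subset_insert a X)
    · exact_mod_cast Q.ins a X
  have hmm : (1 - w') * sw ≤ m1 - m0 := by
    have e1 : m1 = Ev (gd d n) (dn d q p) (fun A => Ev (rg d n) wt
        (fun P => (Q.r (A ∪ P) : ℝ))) := by
      rw [hm1, Ev_union_sub (gd d n) (rg d n) hHG (dn d q p) wt (fun A => (Q.r A : ℝ))]
    rw [e1, hm0, ← Ev_sub]
    refine hincr.trans (le_of_eq ?_)
    apply Ev_congr
    intro A _
    rw [Ev_sub, Ev_const]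
  -- the three bad events
  have hb2 : Ev (gd d n) (dn d q p) (fun A => ind (m0 + x ≤ (Q.r A : ℝ))) ≤ B :=
    (Ev_conc_up (gd d n) (dn d q p) l x hρ0 hρ1 hl0 hl1 (fun A => (Q.r A : ℝ))
      (hlip _)).trans (h32_exp_bound _ x S hS0 hs1)
  have hb1 : Ev (gd d n) (dn d q p) (fun A => Ev (rg d n) wt
      (fun P => ind ((Q.r (A ∪ P) : ℝ) ≤ m1 - x))) ≤ B := by
    rw [Ev_union_sub (gd d n) (rg d n) hHG (dn d q p) wt
      (fun A => ind ((Q.r A : ℝ) ≤ m1 - x))]
    exact (Ev_conc_dn (gd d n) ρ2 l x hρ20 hρ21 hl0 hl1 (fun A => (Q.r A : ℝ))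
      (hlip _)).trans (h32_exp_bound _ x S hS0 hs2)
  have hb3 : ∀ A, Ev (rg d n) wt (fun P => ind
      ((∑ e ∈ (rg d n).filter (fun e => ¬ Q.toRankFn.Cl A e), wt e) + x ≤
        ((P.filter (fun e => ¬ Q.toRankFn.Cl A e)).card : ℝ))) ≤ B := by
    intro A
    have h1 : Ev (rg d n) wt (fun P => ((P.filter (fun e => ¬ Q.toRankFn.Cl A e)).card : ℝ)) =
        ∑ e ∈ (rg d n).filter (fun e => ¬ Q.toRankFn.Cl A e), wt e := by
      have h2 : ∀ P ⊆ rg d n, ((P.filter (fun e => ¬ Q.toRankFn.Cl A e)).card : ℝ) =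
          (((P ∩ (rg d n).filter (fun e => ¬ Q.toRankFn.Cl A e)).card : ℕ) : ℝ) := by
        intro P hP
        congr 2
        ext e
        simp only [mem_filter, mem_inter]
        constructor
        · rintro ⟨h3, h4⟩
          exact ⟨h3, hP h3, h4⟩
        · rintro ⟨h3, _, h4⟩
          exact ⟨h3, h4⟩
      rw [Ev_congr _ _ _ _ h2]
      rw [Ev_restrict (rg d n) ((rg d n).filter (fun e => ¬ Q.toRankFn.Cl A e))
        (filter_subset _ _) wt (fun X => ((X.card : ℕ) : ℝ))]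
      exact Ev_card _ _
    have h5 := Ev_conc_up (rg d n) wt l x hw0 hw1 hl0 hl1
      (fun P => ((P.filter (fun e => ¬ Q.toRankFn.Cl A e)).card : ℝ)) (by
        intro X _ a _ haX
        rw [filter_insert]
        by_cases h6 : Q.toRankFn.Cl A a
        · rw [if_neg (not_not.mpr h6)]
          constructor <;> linarith
        · rw [if_pos h6, card_insert_of_notMem (fun h7 => haX (mem_filter.mp h7).1)]
          push_cast
          constructor <;> linarith)
    rw [h1] at h5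
    exact h5.trans (h32_exp_bound _ x S hS0 hs3)
  -- pointwise comparison
  have hpt : ∀ A ⊆ gd d n, ind (w' * sw + 3 * x ≤ ∑ e ∈ wset Q.toRankFn (rg d n) A, wt e) ≤
      Ev (rg d n) wt (fun P => ind ((Q.r (A ∪ P) : ℝ) ≤ m1 - x)) +
        (ind (m0 + x ≤ (Q.r A : ℝ)) + B) := by
    intro A _
    by_cases hA : w' * sw + 3 * x ≤ ∑ e ∈ wset Q.toRankFn (rg d n) A, wt e
    · rw [h32_ind_true hA]
      have h1 : (1 : ℝ) ≤ Ev (rg d n) wt (fun P => ind ((Q.r (A ∪ P) : ℝ) ≤ m1 - x)) +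
          (ind (m0 + x ≤ (Q.r A : ℝ)) + Ev (rg d n) wt (fun P => ind
      ((∑ e ∈ (rg d n).filter (fun e => ¬ Q.toRankFn.Cl A e), wt e) + x ≤
        ((P.filter (fun e => ¬ Q.toRankFn.Cl A e)).card : ℝ)))) := by
        have h2 : Ev (rg d n) wt (fun P => ind ((Q.r (A ∪ P) : ℝ) ≤ m1 - x)) +
            (ind (m0 + x ≤ (Q.r A : ℝ)) + Ev (rg d n) wt (fun P => ind
        ((∑ e ∈ (rg d n).filter (fun e => ¬ Q.toRankFn.Cl A e), wt e) + x ≤
          ((P.filter (fun e => ¬ Q.toRankFn.Cl A e)).card : ℝ)))) =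
            Ev (rg d n) wt (fun P => ind ((Q.r (A ∪ P) : ℝ) ≤ m1 - x) +
              (ind (m0 + x ≤ (Q.r A : ℝ)) + ind
        ((∑ e ∈ (rg d n).filter (fun e => ¬ Q.toRankFn.Cl A e), wt e) + x ≤
          ((P.filter (fun e => ¬ Q.toRankFn.Cl A e)).card : ℝ)))) := by
          rw [Ev_add, Ev_add, Ev_const]
        rw [h2, ← Ev_const (rg d n) wt (1 : ℝ)]
        apply Ev_mono _ _ hw0 hw1
        intro P hP
        by_cases c1 : (Q.r (A ∪ P) : ℝ) ≤ m1 - x
        · rw [h32_ind_true c1]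
          have := h32_ind_nonneg (m0 + x ≤ (Q.r A : ℝ))
          have := h32_ind_nonneg ((∑ e ∈ (rg d n).filter (fun e => ¬ Q.toRankFn.Cl A e), wt e) + x ≤
          ((P.filter (fun e => ¬ Q.toRankFn.Cl A e)).card : ℝ))
          linarith
        · by_cases c2 : m0 + x ≤ (Q.r A : ℝ)
          · rw [h32_ind_true c2]
            have := h32_ind_nonneg ((Q.r (A ∪ P) : ℝ) ≤ m1 - x)
            have := h32_ind_nonneg ((∑ e ∈ (rg d n).filter (fun e => ¬ Q.toRankFn.Cl A e), wt e) +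
              x ≤ ((P.filter (fun e => ¬ Q.toRankFn.Cl A e)).card : ℝ))
            linarith
          · have c3 : (∑ e ∈ (rg d n).filter (fun e => ¬ Q.toRankFn.Cl A e), wt e) + x ≤
                ((P.filter (fun e => ¬ Q.toRankFn.Cl A e)).card : ℝ) := by
              have hr : (Q.r (A ∪ P) : ℝ) ≤ (Q.r A : ℝ) +
                  ((P.filter (fun e => ¬ Q.toRankFn.Cl A e)).card : ℝ) := by
                exact_mod_cast h32_rank_union Q.toRankFn A P
              have hsplit : ∑ e ∈ wset Q.toRankFn (rg d n) A, wt e +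
                  ∑ e ∈ (rg d n).filter (fun e => ¬ Q.toRankFn.Cl A e), wt e = sw := by
                rw [hsw]
                unfold wset
                exact sum_filter_add_sum_filter_not _ _ _
              push Not at c1 c2
              nlinarith
            rw [h32_ind_true c3]
            have := h32_ind_nonneg ((Q.r (A ∪ P) : ℝ) ≤ m1 - x)
            have := h32_ind_nonneg (m0 + x ≤ (Q.r A : ℝ))
            linarith
      linarith [hb3 A]
    · rw [h32_ind_false hA]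
      have h1 : 0 ≤ Ev (rg d n) wt (fun P => ind ((Q.r (A ∪ P) : ℝ) ≤ m1 - x)) :=
        Ev_nonneg _ _ hw0 hw1 _ (fun _ _ => h32_ind_nonneg _)
      have h2 := h32_ind_nonneg (m0 + x ≤ (Q.r A : ℝ))
      have h3 : 0 ≤ B := (Real.exp_pos _).le
      linarith
  refine (Ev_mono _ _ hρ0 hρ1 _ _ hpt).trans ?_
  rw [Ev_add, Ev_add, Ev_const]
  linarith

end FC
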