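import Pool.Agent.H18.FC2.Defs
import Pool.Agent.H92.FC.Conc

/-!
# Concavity of the expected rank in the Poisson rates
-/

namespace FC

open Finset

variable {α : Type*} [DecidableEq α]

theorem h79_Ev_empty (p : α → ℝ) (f : Finset α → ℝ) : Ev ∅ p f = f ∅ := by
  simp [Ev]

theorem h79_Ev_insert (G : Finset α) (a : α) (ha : a ∉ G) (p : α → ℝ) (f : Finset α → ℝ) :
    Ev (insert a G) p f = (1 - p a) * Ev G p f + p a * Ev G p (fun X => f (insert a X)) := by
  unfold Ev
  rw [Finset.sum_powerset_insert ha]
  congr 1
  · rw [Finset.mul_sum]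
    refine Finset.sum_congr rfl fun X hX => ?_
    have hXG := Finset.mem_powerset.1 hX
    have haX : a ∉ X := fun h => ha (hXG h)
    rw [Finset.insert_sdiff_of_notMem _ haX, Finset.prod_insert (by simp [ha])]
    ring
  · rw [Finset.mul_sum]
    refine Finset.sum_congr rfl fun X hX => ?_
    have hXG := Finset.mem_powerset.1 hX
    have haX : a ∉ X := fun h => ha (hXG h)
    have : insert a G \ insert a X = G \ X := by
      ext b
      simp only [Finset.mem_sdiff, Finset.mem_insert, not_or]
      constructor
      · rintro ⟨h1, h2, h3⟩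
        exact ⟨h1.resolve_left h2, h3⟩
      · rintro ⟨h1, h2⟩
        exact ⟨Or.inr h1, fun h => ha (h ▸ h1), h2⟩
    rw [this, Finset.prod_insert haX]
    ring

theorem h79_Ev_add (G : Finset α) (p : α → ℝ) (f g : Finset α → ℝ) :
    Ev G p (fun X => f X + g X) = Ev G p f + Ev G p g := by
  unfold Ev
  rw [← Finset.sum_add_distrib]
  exact Finset.sum_congr rfl fun X _ => by ring

theorem h79_Ev_sub (G : Finset α) (p : α → ℝ) (f g : Finset α → ℝ) :
    Ev G p (fun X => f X - g X) = Ev G p f - Ev G p g := by
  unfold Ev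
  rw [← Finset.sum_sub_distrib]
  exact Finset.sum_congr rfl fun X _ => by ring

theorem h79_Ev_mul (G : Finset α) (p : α → ℝ) (c : ℝ) (f : Finset α → ℝ) :
    Ev G p (fun X => c * f X) = c * Ev G p f := by
  unfold Ev
  rw [Finset.mul_sum]
  exact Finset.sum_congr rfl fun X _ => by ring

theorem h79_Ev_sum {ι : Type*} (s : Finset ι) (G : Finset α) (p : α → ℝ) (f : ι → Finset α → ℝ) :
    Ev G p (fun X => ∑ i ∈ s, f i X) = ∑ i ∈ s, Ev G p (f i) := by
  unfold Ev
  rw [Finset.sum_comm]
  refine Finset.sum_congr rfl fun X _ => ?_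
  rw [Finset.mul_sum]

theorem h79_Ev_mono (G : Finset α) (p : α → ℝ) (hp0 : ∀ i ∈ G, 0 ≤ p i) (hp1 : ∀ i ∈ G, p i ≤ 1)
    (f g : Finset α → ℝ) (h : ∀ X ⊆ G, f X ≤ g X) : Ev G p f ≤ Ev G p g := by
  unfold Ev
  refine Finset.sum_le_sum fun X hX => ?_
  have hXG := Finset.mem_powerset.1 hX
  refine mul_le_mul_of_nonneg_left (h X hXG) (mul_nonneg ?_ ?_)
  · exact Finset.prod_nonneg fun i hi => hp0 i (hXG hi)
  · exact Finset.prod_nonneg fun i hi => by linarith [hp1 i (Finset.mem_sdiff.1 hi).1]

/-- Generator: derivative of the expectation along a line of rates. -/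
theorem h79_Ev_hasDeriv (G : Finset α) (l v : α → ℝ) (f : Finset α → ℝ) (s : ℝ) :
    HasDerivAt (fun s => Ev G (fun i => 1 - Real.exp (-(l i + s * v i))) f)
      (Ev G (fun i => 1 - Real.exp (-(l i + s * v i)))
        (fun A => ∑ i ∈ G, v i * (f (insert i A) - f A))) s := by
  induction G using Finset.induction_on generalizing f with
  | empty =>
    simp only [h79_Ev_empty, Finset.sum_empty]
    exact hasDerivAt_const _ _
  | insert a G ha ih =>
    have hE : HasDerivAt (fun s => Real.exp (-(l a + s * v a)))
        (Real.exp (-(l a + s * v a)) * (-(v a))) s := by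
      have h1 : HasDerivAt (fun s : ℝ => -(l a + s * v a)) (-(v a)) s := by
        have h2 := (((hasDerivAt_id s).mul_const (v a)).const_add (l a)).neg
        simp only [one_mul, id] at h2
        exact h2
      exact h1.exp
    have h0 := ih f
    have h1 := ih (fun X => f (insert a X))
    have hfun : (fun s => Ev (insert a G) (fun i => 1 - Real.exp (-(l i + s * v i))) f) =
        fun s => Real.exp (-(l a + s * v a)) * Ev G (fun i => 1 - Real.exp (-(l i + s * v i))) f +
          (1 - Real.exp (-(l a + s * v a))) *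
            Ev G (fun i => 1 - Real.exp (-(l i + s * v i))) (fun X => f (insert a X)) := by
      funext s
      rw [h79_Ev_insert G a ha]
      ring
    rw [hfun]
    have hd := (hE.mul h0).add ((hE.const_sub 1).mul h1)
    refine hd.congr_deriv ?_
    rw [h79_Ev_insert G a ha]
    set p : α → ℝ := fun i => 1 - Real.exp (-(l i + s * v i)) with hp
    set E := Real.exp (-(l a + s * v a)) with hEE
    have hpa : (1 - Real.exp (-(l a + s * v a))) = 1 - E := rfl
    have e1 : Ev G p (fun A => ∑ i ∈ insert a G, v i * (f (insert i A) - f A)) =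
        v a * (Ev G p (fun X => f (insert a X)) - Ev G p f) +
          Ev G p (fun A => ∑ i ∈ G, v i * (f (insert i A) - f A)) := by
      rw [← h79_Ev_sub, ← h79_Ev_mul, ← h79_Ev_add]
      congr 1
      funext A
      rw [Finset.sum_insert ha]
    have e2 : Ev G p (fun X => ∑ i ∈ insert a G,
          v i * (f (insert i (insert a X)) - f (insert a X))) =
          Ev G p (fun A => ∑ i ∈ G, v i * (f (insert a (insert i A)) - f (insert a A))) := by
      congr 1
      funext A
      rw [Finset.sum_insert ha, Finset.insert_idem, sub_self, mul_zero, zero_add]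
      refine Finset.sum_congr rfl fun i _ => ?_
      rw [Finset.insert_comm]
    rw [e1, e2]
    ring

theorem h79_rank_D_zero (R : RankFn α) (A : Finset α) (i j : α) (h : R.r (insert i A) = R.r A) :
    R.r (insert j (insert i A)) = R.r (insert j A) := by
  have h1 := R.cl_mono (S := A) (T := insert j A) (Finset.subset_insert _ _) i h
  rw [Finset.insert_comm]
  exact h1

omit [DecidableEq α] in
theorem h79_sum_sq_fiber {β : Type*} [DecidableEq β] (N : Finset α) (c : α → β) (v : α → ℝ) :
    0 ≤ ∑ i ∈ N, ∑ j ∈ N, (if c i = c j then v i * v j else 0) := by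
  have h := Finset.sum_fiberwise_of_maps_to (s := N) (t := N.image c) (g := c)
    (fun i hi => Finset.mem_image_of_mem c hi)
    (fun i => ∑ j ∈ N, (if c i = c j then v i * v j else 0))
  rw [← h]
  refine Finset.sum_nonneg fun b _ => ?_
  have : ∑ i ∈ N.filter (fun i => c i = b), ∑ j ∈ N, (if c i = c j then v i * v j else 0) =
      (∑ i ∈ N.filter (fun i => c i = b), v i) ^ 2 := by
    rw [sq, Finset.sum_mul_sum]
    refine Finset.sum_congr rfl fun i hi => ?_
    rw [Finset.mem_filter] at hi
    rw [Finset.sum_filter]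
    refine Finset.sum_congr rfl fun j _ => ?_
    rw [hi.2]
    by_cases hj : b = c j
    · rw [if_pos hj, if_pos hj.symm]
    · rw [if_neg hj, if_neg (fun h => hj h.symm)]
  rw [this]
  positivity

/-- Quadratic form of the second differences of a rank function. -/
theorem h79_rank_hess (R : RankFn α) (G A : Finset α) (v : α → ℝ) :
    ∑ i ∈ G, ∑ j ∈ G, v i * v j * (((R.r (insert j (insert i A)) : ℝ) - R.r (insert j A)) -
      ((R.r (insert i A) : ℝ) - R.r A)) ≤ 0 := by
  classical
  set NL := G.filter (fun i => R.r (insert i A) = R.r A + 1) with hNL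
  set c : α → Finset α := fun i => NL.filter (fun j => R.r (insert j (insert i A)) = R.r A + 1)
    with hc
  have hor : ∀ (S : Finset α) (i : α), R.r (insert i S) = R.r S ∨ R.r (insert i S) = R.r S + 1 := by
    intro S i
    have h1 := R.mono S (insert i S) (Finset.subset_insert _ _)
    have h2 := R.ins i S
    omega
  have hclE : ∀ i ∈ NL, ∀ j ∈ NL, (c i = c j ↔ R.r (insert j (insert i A)) = R.r A + 1) := by
    intro i hi j hj
    have hi' := (Finset.mem_filter.1 hi).2
    have hj' := (Finset.mem_filter.1 hj).2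
    constructor
    · intro h
      have hjc : j ∈ c j := by
        rw [hc]
        simp only [Finset.mem_filter]
        exact ⟨hj, by rw [Finset.insert_idem]; exact hj'⟩
      rw [← h] at hjc
      exact (Finset.mem_filter.1 hjc).2
    · intro h
      have hji : R.r (insert i (insert j A)) = R.r A + 1 := by
        rw [Finset.insert_comm]; exact h
      have tr : ∀ a b k : α, R.r (insert a A) = R.r A + 1 → R.r (insert b A) = R.r A + 1 →
          R.r (insert k A) = R.r A + 1 →
          R.r (insert b (insert a A)) = R.r A + 1 → R.r (insert k (insert a A)) = R.r A + 1 →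
          R.r (insert k (insert b A)) = R.r A + 1 := by
        intro a b k ha hb hk hab hak
        have h1 : R.r (insert b (insert a A)) = R.r (insert a A) := by rw [hab, ha]
        have h2 := R.cl_mono (S := insert a A) (T := insert k (insert a A))
          (Finset.subset_insert _ _) b h1
        have h3 : R.r (insert k (insert b A)) ≤ R.r (insert b (insert k (insert a A))) := by
          refine R.mono _ _ ?_
          intro z hz
          simp only [Finset.mem_insert] at hz ⊢
          tauto
        have h4 : R.r (insert b A) ≤ R.r (insert k (insert b A)) :=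
          R.mono _ _ (Finset.subset_insert _ _)
        omega
      ext k
      rw [hc]
      simp only [Finset.mem_filter]
      constructor
      · rintro ⟨hk, hk2⟩
        exact ⟨hk, tr i j k hi' hj' (Finset.mem_filter.1 hk).2 h hk2⟩
      · rintro ⟨hk, hk2⟩
        exact ⟨hk, tr j i k hj' hi' (Finset.mem_filter.1 hk).2 hji hk2⟩
  have hD : ∀ i ∈ G, ∀ j ∈ G, (((R.r (insert j (insert i A)) : ℝ) - R.r (insert j A)) -
      ((R.r (insert i A) : ℝ) - R.r A)) =
      -(if i ∈ NL then (if j ∈ NL then (if c i = c j then (1 : ℝ) else 0) else 0) else 0) := by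
    intro i hiG j hjG
    by_cases hi : i ∈ NL
    · by_cases hj : j ∈ NL
      · rw [if_pos hi, if_pos hj]
        have hi' := (Finset.mem_filter.1 hi).2
        have hj' := (Finset.mem_filter.1 hj).2
        by_cases hcc : c i = c j
        · rw [if_pos hcc]
          have := (hclE i hi j hj).1 hcc
          rw [this, hi', hj']
          push_cast
          ring
        · rw [if_neg hcc]
          have h1 : R.r (insert j (insert i A)) ≠ R.r A + 1 := fun h => hcc ((hclE i hi j hj).2 h)
          have h2 : R.r (insert j (insert i A)) = R.r A + 2 := by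
            rcases hor (insert i A) j with h | h
            · exact absurd (h.trans hi') h1
            · rw [h, hi']
          rw [h2, hi', hj']
          push_cast
          ring
      · rw [if_pos hi, if_neg hj]
        have hj0 : R.r (insert j A) = R.r A := by
          rcases hor A j with h | h
          · exact h
          · exact absurd (Finset.mem_filter.2 ⟨hjG, h⟩) hj
        have h1 := h79_rank_D_zero R A j i hj0
        rw [Finset.insert_comm] at h1
        rw [h1, hj0]
        ring
    · rw [if_neg hi]
      have hi0 : R.r (insert i A) = R.r A := by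
        rcases hor A i with h | h
        · exact h
        · exact absurd (Finset.mem_filter.2 ⟨hiG, h⟩) hi
      have h1 := h79_rank_D_zero R A i j hi0
      rw [h1, hi0]
      ring
  have hsum : ∑ i ∈ G, ∑ j ∈ G, v i * v j * (((R.r (insert j (insert i A)) : ℝ) -
      R.r (insert j A)) - ((R.r (insert i A) : ℝ) - R.r A)) =
      -∑ i ∈ NL, ∑ j ∈ NL, (if c i = c j then v i * v j else 0) := by
    have e1 : ∑ i ∈ NL, ∑ j ∈ NL, (if c i = c j then v i * v j else 0) =
        ∑ i ∈ G, ∑ j ∈ G, v i * v j * (if i ∈ NL then (if j ∈ NL then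
          (if c i = c j then (1 : ℝ) else 0) else 0) else 0) := by
      rw [hNL, Finset.sum_filter]
      refine Finset.sum_congr rfl fun i hi => ?_
      by_cases h : R.r (insert i A) = R.r A + 1
      · rw [if_pos h, Finset.sum_filter]
        refine Finset.sum_congr rfl fun j hj => ?_
        rw [if_pos (Finset.mem_filter.2 ⟨hi, h⟩)]
        by_cases h2 : R.r (insert j A) = R.r A + 1
        · rw [if_pos h2, if_pos (Finset.mem_filter.2 ⟨hj, h2⟩)]
          by_cases hcc : c i = c j
          · rw [if_pos hcc, if_pos hcc, mul_one]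
          · rw [if_neg hcc, if_neg hcc, mul_zero]
        · have hjn : j ∉ G.filter (fun i => R.r (insert i A) = R.r A + 1) :=
            fun hh => h2 (Finset.mem_filter.1 hh).2
          rw [if_neg h2, if_neg hjn, mul_zero]
      · rw [if_neg h]
        symm
        refine Finset.sum_eq_zero fun j _ => ?_
        have hin : i ∉ G.filter (fun i => R.r (insert i A) = R.r A + 1) :=
          fun hh => h (Finset.mem_filter.1 hh).2
        rw [if_neg hin, mul_zero]
    rw [e1, ← Finset.sum_neg_distrib]
    refine Finset.sum_congr rfl fun i hi => ?_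
    rw [← Finset.sum_neg_distrib]
    refine Finset.sum_congr rfl fun j hj => ?_
    rw [hD i hi j hj]
    ring
  rw [hsum]
  have := h79_sum_sq_fiber NL c v
  linarith

/-- First order inequality for the expected rank in the Poisson rates. -/
theorem h79_rank_le (R : RankFn α) (G : Finset α) (l l' : α → ℝ) (hl : ∀ i ∈ G, 0 ≤ l i)
    (hl' : ∀ i ∈ G, 0 ≤ l' i) :
    Ev G (fun i => 1 - Real.exp (-l' i)) (fun A => (R.r A : ℝ)) ≤
      Ev G (fun i => 1 - Real.exp (-l i)) (fun A => (R.r A : ℝ)) +
        ∑ i ∈ G, (l' i - l i) *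
          Ev G (fun i => 1 - Real.exp (-l i)) (fun A => (R.r (insert i A) : ℝ) - R.r A) := by
  set v : α → ℝ := fun i => l' i - l i with hv
  set φ : ℝ → ℝ := fun s => Ev G (fun i => 1 - Real.exp (-(l i + s * v i)))
    (fun A => (R.r A : ℝ)) with hφ
  set φ1 : ℝ → ℝ := fun s => Ev G (fun i => 1 - Real.exp (-(l i + s * v i)))
    (fun A => ∑ i ∈ G, v i * ((R.r (insert i A) : ℝ) - R.r A)) with hφ1
  have hd1 : ∀ s, HasDerivAt φ (φ1 s) s := fun s => h79_Ev_hasDeriv G l v _ s
  have hd2 : ∀ s, HasDerivAt φ1 (Ev G (fun i => 1 - Real.exp (-(l i + s * v i)))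
    (fun A => ∑ j ∈ G, v j * ((∑ i ∈ G, v i * ((R.r (insert i (insert j A)) : ℝ) -
      R.r (insert j A))) - ∑ i ∈ G, v i * ((R.r (insert i A) : ℝ) - R.r A)))) s :=
    fun s => h79_Ev_hasDeriv G l v _ s
  have hneg : ∀ s, 0 ≤ s → s ≤ 1 → Ev G (fun i => 1 - Real.exp (-(l i + s * v i)))
    (fun A => ∑ j ∈ G, v j * ((∑ i ∈ G, v i * ((R.r (insert i (insert j A)) : ℝ) -
      R.r (insert j A))) - ∑ i ∈ G, v i * ((R.r (insert i A) : ℝ) - R.r A))) ≤ 0 := by
    intro s h0 h1
    have hrate : ∀ i ∈ G, 0 ≤ l i + s * v i := by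
      intro i hi
      have : l i + s * v i = (1 - s) * l i + s * l' i := by rw [hv]; ring
      rw [this]
      have := hl i hi
      have := hl' i hi
      have : 0 ≤ 1 - s := by linarith
      positivity
    have hp0 : ∀ i ∈ G, 0 ≤ 1 - Real.exp (-(l i + s * v i)) := by
      intro i hi
      have := Real.exp_le_one_iff.2 (show -(l i + s * v i) ≤ 0 by linarith [hrate i hi])
      linarith
    have hp1 : ∀ i ∈ G, 1 - Real.exp (-(l i + s * v i)) ≤ 1 := by
      intro i hi
      have := Real.exp_pos (-(l i + s * v i))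
      linarith
    refine le_trans (h79_Ev_mono G _ hp0 hp1 _ (fun _ => 0 * 0) ?_) ?_
    · intro A _
      have h := h79_rank_hess R G A v
      rw [zero_mul]
      refine le_trans (le_of_eq ?_) h
      refine Finset.sum_congr rfl fun i _ => ?_
      rw [← Finset.sum_sub_distrib, Finset.mul_sum]
      refine Finset.sum_congr rfl fun j _ => ?_
      ring
    · rw [h79_Ev_mul]
      simp
  -- concavity on [0,1]
  have hconc : φ 1 ≤ φ 0 + φ1 0 := by
    have hanti : AntitoneOn φ1 (Set.Icc 0 1) := by
      refine antitoneOn_of_deriv_nonpos (convex_Icc 0 1)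
        (fun s _ => (hd2 s).continuousAt.continuousWithinAt)
        (fun s _ => (hd2 s).differentiableAt.differentiableWithinAt) ?_
      intro s hs
      rw [interior_Icc] at hs
      rw [(hd2 s).deriv]
      exact hneg s hs.1.le hs.2.le
    obtain ⟨ξ, hξ, hξ2⟩ := exists_hasDerivAt_eq_slope φ φ1 (show (0 : ℝ) < 1 by norm_num)
      (fun s _ => (hd1 s).continuousAt.continuousWithinAt) (fun s _ => hd1 s)
    have h3 := hanti (Set.left_mem_Icc.2 zero_le_one) ⟨hξ.1.le, hξ.2.le⟩ hξ.1.le
    rw [hξ2] at h3
    simp only [sub_zero, div_one] at h3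
    linarith
  have e1 : φ 1 = Ev G (fun i => 1 - Real.exp (-l' i)) (fun A => (R.r A : ℝ)) := by
    rw [hφ]
    simp only [hv]
    congr 1
    funext i
    rw [one_mul]
    congr 3
    ring
  have e0 : φ 0 = Ev G (fun i => 1 - Real.exp (-l i)) (fun A => (R.r A : ℝ)) := by
    rw [hφ]
    simp only [zero_mul, add_zero]
  have e2 : φ1 0 = ∑ i ∈ G, (l' i - l i) *
          Ev G (fun i => 1 - Real.exp (-l i)) (fun A => (R.r (insert i A) : ℝ) - R.r A) := by
    rw [hφ1]
    simp only [zero_mul, add_zero]
    rw [h79_Ev_sum]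
    refine Finset.sum_congr rfl fun i _ => ?_
    rw [h79_Ev_mul]
  rw [← e1, ← e0, ← e2]
  exact hconc

/-- The expected rank is concave in the rates. -/
theorem rank_concave (R : RankFn α) (G : Finset α) (a b : α → ℝ) (ha : ∀ i, 0 ≤ a i)
    (hb : ∀ i, 0 ≤ b i) :
    Ev G (fun i => rt (b i)) (fun X => (R.r X : ℝ)) ≤
      Ev G (fun i => rt (a i)) (fun X => (R.r X : ℝ)) +
      ∑ i ∈ G, (b i - a i) * Ev G (fun i => rt (a i)) (fun X => 1 - ind (R.Cl X i)) := by
  have h := h79_rank_le R G a b (fun i _ => ha i) (fun i _ => hb i)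
  unfold rt
  refine h.trans (le_of_eq ?_)
  congr 1
  refine Finset.sum_congr rfl fun i _ => ?_
  congr 2
  funext X
  unfold RankFn.Cl
  by_cases hc : R.r (insert i X) = R.r X
  · rw [ind_pos hc, hc]; ring
  · rw [ind_neg hc]
    have h1 := R.mono X (insert i X) (Finset.subset_insert _ _)
    have h2 := R.ins i X
    have h3 : R.r (insert i X) = R.r X + 1 := by omega
    rw [h3]; push_cast; ring

end FC
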