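import Pool.Agent.H92.FC.LinRank
import Pool.Agent.H92.FC.ExLib

/-!
# First emerging cycle: definitions for the argument with pinned ridges
-/

namespace FC

open Finset

section Ev

variable {α : Type*} [DecidableEq α]

/-- Expectation over the random subset of `G` which contains every `i` with probability `ρ i`,
independently. -/
noncomputable def Ev (G : Finset α) (ρ : α → ℝ) (f : Finset α → ℝ) : ℝ :=
  ∑ X ∈ G.powerset, (∏ i ∈ X, ρ i) * (∏ i ∈ G \ X, (1 - ρ i)) * f X

/-- `i` lies in the closure of `S`. -/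
def RankFn.Cl (R : RankFn α) (S : Finset α) (i : α) : Prop := R.r (insert i S) = R.r S

end Ev

/-- Density belonging to the rate `x`. -/
noncomputable def rt (x : ℝ) : ℝ := 1 - Real.exp (-x)

/-- Properties used of the rank of the incidence vectors of the `d`-faces (sets with `d+1`
elements) together with the unit vectors of the ridges (sets with `d` elements). -/
structure ERank (d : ℕ) extends RankFn (Finset ℕ) where
  swap : ∀ (a : ℕ) (S : Finset (Finset ℕ)),
    r (S.image (fun s => s.image (Equiv.swap a (a + 1)))) = r S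
  free : ∀ (S : Finset (Finset ℕ)) (e : Finset ℕ), e.card = d → e ∉ S →
    (∀ τ ∈ S, τ.card = d ∨ τ.card = d + 1) → (∀ τ ∈ S, τ.card = d + 1 → ¬ e ⊆ τ) →
    r (insert e S) = r S + 1
  face : ∀ (S : Finset (Finset ℕ)) (σ : Finset ℕ), σ.card = d + 1 →
    (∀ x ∈ σ, σ.erase x ∈ S) → r (insert σ S) = r S
  ridge : ∀ (S : Finset (Finset ℕ)) (σ : Finset ℕ) (x : ℕ), σ.card = d + 1 → x ∈ σ → σ ∈ S →
    (∀ y ∈ σ, y ≠ x → σ.erase y ∈ S) → r (insert (σ.erase x) S) = r S

/-- The ridges on the vertex set `{0, …, n-1}`. -/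
def rg (d n : ℕ) : Finset (Finset ℕ) := (range n).powersetCard d

/-- Faces and ridges. -/
def gd (d n : ℕ) : Finset (Finset ℕ) := fc d n ∪ rg d n

/-- Density `q` for faces, `p` for ridges. -/
def dn (d : ℕ) (q p : ℝ) (τ : Finset ℕ) : ℝ := if τ.card = d + 1 then q else p

/-- Expectation over a random set of faces (density `q`) and ridges (density `p`). -/
noncomputable def E2 (d n : ℕ) (q p : ℝ) (f : Finset (Finset ℕ) → ℝ) : ℝ :=
  Ev (gd d n) (dn d q p) f

open Classical in
/-- The elements of `G` in the closure of `A`. -/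
noncomputable def wset {α : Type*} [DecidableEq α] (R : RankFn α) (G A : Finset α) : Finset α :=
  G.filter (fun e => R.Cl A e)

variable {d : ℕ}

/-- Probability that a ridge is in the closure. -/
noncomputable def Wf (Q : ERank d) (n : ℕ) (q p : ℝ) : ℝ :=
  E2 d n q p (fun A => ((wset Q.toRankFn (rg d n) A).card : ℝ)) / (n.choose d : ℝ)

/-- Probability that a face is in the closure. -/
noncomputable def Tf (Q : ERank d) (n : ℕ) (q p : ℝ) : ℝ :=
  E2 d n q p (fun A => ((wset Q.toRankFn (fc d n) A).card : ℝ)) / (n.choose (d + 1) : ℝ)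

/-- Expected rank. -/
noncomputable def Rf (Q : ERank d) (n : ℕ) (q p : ℝ) : ℝ :=
  E2 d n q p (fun A => (Q.r A : ℝ))

open Classical in
/-- Probability that all ridges of a face are in the closure. -/
noncomputable def Af (Q : ERank d) (n : ℕ) (q p : ℝ) : ℝ :=
  E2 d n q p (fun A => (((fc d n).filter (fun σ => ∀ x ∈ σ,
    σ.erase x ∈ wset Q.toRankFn (rg d n) A)).card : ℝ)) / (n.choose (d + 1) : ℝ)

/-- Normalised expected nullity, `c` and `l` are rates (faces: `c / (n - d)`). -/
noncomputable def uf (Q : ERank d) (n : ℕ) (c l : ℝ) : ℝ :=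
  c / ((d : ℝ) + 1) + l - Rf Q n (rt (c / ((n : ℝ) - d))) (rt l) / (n.choose d : ℝ)

/-- The entropy function. -/
noncomputable def Ef (v : ℝ) : ℝ := v + (1 - v) * Real.log (1 - v)

/-- The set of the entries of a tuple. -/
def tset {k n : ℕ} (x : Fin k → Fin n) : Finset ℕ := univ.image (fun i => ((x i : Fin n) : ℕ))

/-- Delete the coordinate `i`. -/
def del {k n : ℕ} (x : Fin (k + 1) → Fin n) (i : Fin (k + 1)) : Fin k → Fin n :=
  fun j => x (i.succAbove j)

/-- Zero-one valued functions of tuples which do not depend on the coordinate `i`. -/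
def Cyl {k n : ℕ} (i : Fin k) (u : (Fin k → Fin n) → ℝ) : Prop :=
  (∀ x, u x = 0 ∨ u x = 1) ∧ ∀ x z, u (Function.update x i z) = u x

/-- Quasi-randomness of `b` with density `w`. -/
def Disc (n k : ℕ) (b : (Fin k → Fin n) → ℝ) (w ε : ℝ) : Prop :=
  ∀ u : Fin k → (Fin k → Fin n) → ℝ, (∀ i, Cyl i (u i)) →
    |∑ x, (b x - w) * ∏ i, u i x| ≤ ε * (n : ℝ) ^ k

/-- The indicator of a set of ridges as a function of tuples. -/
noncomputable def bf {k : ℕ} (n : ℕ) (W : Finset (Finset ℕ)) (x : Fin k → Fin n) : ℝ :=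
  ind (tset x ∈ W)

end FC
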