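import Pool.Agent.H18.FC2.Tele

/-!
# First emerging cycle: the dichotomy
-/

namespace FC

open Finset

private lemma h86_sum_cons {m n : ℕ} (F : (Fin (m + 1) → Fin n) → ℝ) :
    ∑ x, F x = ∑ z : Fin n, ∑ τ : Fin m → Fin n, F (Fin.cons z τ) := by
  rw [← (Fin.consEquiv (fun _ => Fin n)).sum_comp, Fintype.sum_prod_type]
  rfl

private lemma h86_es {n : ℕ} : ∀ (m : ℕ) (g : (Fin m → Fin n) → ℝ), (∀ x, g x = 0 ∨ g x = 1) →
    (n : ℝ) * ∑ σ, ∑ σ', g σ * (1 - g σ') ≤
      (n : ℝ) ^ m * ∑ j : Fin m, ∑ σ, ∑ z : Fin n, g σ * (1 - g (Function.update σ j z)) := by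
  intro m
  induction m with
  | zero =>
    intro g hg
    have h0 : ∑ σ : Fin 0 → Fin n, ∑ σ' : Fin 0 → Fin n, g σ * (1 - g σ') = 0 := by
      refine Finset.sum_eq_zero fun σ _ => Finset.sum_eq_zero fun σ' _ => ?_
      have : σ' = σ := Subsingleton.elim _ _
      rw [this]
      rcases hg σ with h | h <;> rw [h] <;> norm_num
    rw [h0]
    simp
  | succ m ih =>
    intro g hg
    have hn : (0 : ℝ) ≤ n := Nat.cast_nonneg n
    set V : (Fin n) → ℝ := fun z => ∑ τ, ∑ τ', g (Fin.cons z τ) * (1 - g (Fin.cons z τ')) with hV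
    set D0 : ℝ := ∑ z : Fin n, ∑ τ : Fin m → Fin n, ∑ z' : Fin n,
      g (Fin.cons z τ) * (1 - g (Fin.cons z' τ)) with hD0
    have h1 : ∑ σ : Fin (m + 1) → Fin n, ∑ σ', g σ * (1 - g σ') ≤
        (n : ℝ) ^ m * D0 + (n : ℝ) * ∑ z, V z := by
      have e1 : ∑ σ : Fin (m + 1) → Fin n, ∑ σ', g σ * (1 - g σ') =
          ∑ z : Fin n, ∑ τ : Fin m → Fin n, ∑ z' : Fin n, ∑ τ' : Fin m → Fin n,
            g (Fin.cons z τ) * (1 - g (Fin.cons z' τ')) := by
        rw [h86_sum_cons]
        refine Finset.sum_congr rfl fun z _ => Finset.sum_congr rfl fun τ _ => ?_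
        rw [h86_sum_cons]
      have e2 : (n : ℝ) ^ m * D0 + (n : ℝ) * ∑ z, V z =
          ∑ z : Fin n, ∑ τ : Fin m → Fin n, ∑ z' : Fin n, ∑ τ' : Fin m → Fin n,
            (g (Fin.cons z τ) * (1 - g (Fin.cons z' τ)) +
              g (Fin.cons z' τ) * (1 - g (Fin.cons z' τ'))) := by
        simp only [Finset.sum_add_distrib]
        congr 1
        · rw [hD0, Finset.mul_sum]
          refine Finset.sum_congr rfl fun z _ => ?_
          rw [Finset.mul_sum]
          refine Finset.sum_congr rfl fun τ _ => ?_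
          rw [Finset.mul_sum]
          refine Finset.sum_congr rfl fun z' _ => ?_
          rw [Finset.sum_const, nsmul_eq_mul]
          simp
        · rw [Finset.sum_const, nsmul_eq_mul]
          simp only [Finset.card_univ, Fintype.card_fin]
          congr 1
          rw [Finset.sum_comm]
      rw [e1, e2]
      refine Finset.sum_le_sum fun z _ => Finset.sum_le_sum fun τ _ =>
        Finset.sum_le_sum fun z' _ => Finset.sum_le_sum fun τ' _ => ?_
      rcases hg (Fin.cons z τ) with h | h <;> rcases hg (Fin.cons z' τ) with h' | h' <;>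
        rcases hg (Fin.cons z' τ') with h'' | h'' <;> rw [h, h', h''] <;> norm_num
    have h2 : (n : ℝ) * ∑ z, V z ≤ (n : ℝ) ^ m * ∑ z : Fin n, ∑ j : Fin m, ∑ τ, ∑ z' : Fin n,
        g (Fin.cons z τ) * (1 - g (Fin.cons z (Function.update τ j z'))) := by
      rw [Finset.mul_sum, Finset.mul_sum]
      exact Finset.sum_le_sum fun z _ => ih (fun τ => g (Fin.cons z τ)) (fun x => hg _)
    have h3 : ∑ j : Fin (m + 1), ∑ σ, ∑ z : Fin n, g σ * (1 - g (Function.update σ j z)) =
        D0 + ∑ z : Fin n, ∑ j : Fin m, ∑ τ, ∑ z' : Fin n,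
        g (Fin.cons z τ) * (1 - g (Fin.cons z (Function.update τ j z'))) := by
      rw [Fin.sum_univ_succ]
      congr 1
      · rw [h86_sum_cons]
        simp only [Fin.update_cons_zero]
        rfl
      · rw [Finset.sum_comm (s := univ (α := Fin n))]
        refine Finset.sum_congr rfl fun j _ => ?_
        rw [h86_sum_cons]
        simp only [Fin.cons_update]
    rw [h3]
    calc (n : ℝ) * ∑ σ : Fin (m + 1) → Fin n, ∑ σ', g σ * (1 - g σ') ≤
        (n : ℝ) * ((n : ℝ) ^ m * D0 + (n : ℝ) * ∑ z, V z) := mul_le_mul_of_nonneg_left h1 hn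
      _ ≤ (n : ℝ) * ((n : ℝ) ^ m * D0 + (n : ℝ) ^ m * ∑ z : Fin n, ∑ j : Fin m, ∑ τ,
          ∑ z' : Fin n, g (Fin.cons z τ) * (1 - g (Fin.cons z (Function.update τ j z')))) :=
          mul_le_mul_of_nonneg_left (add_le_add le_rfl h2) hn
      _ = _ := by ring


private lemma h86_del0 {m n : ℕ} (z : Fin n) (y : Fin m → Fin n) :
    del (Fin.cons z y : Fin (m + 1) → Fin n) 0 = y := by
  funext j
  simp [del]

private lemma h86_del1 {m n : ℕ} (z z' : Fin n) (τ : Fin m → Fin n) :
    del (Fin.cons z (Fin.cons z' τ : Fin (m + 1) → Fin n) : Fin (m + 2) → Fin n) 1 =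
      Fin.cons z τ := by
  funext j
  refine Fin.cases ?_ (fun i => ?_) j
  · simp [del]
  · have : (1 : Fin (m + 2)).succAbove i.succ = i.succ.succ := by
      rw [← Fin.succ_zero_eq_one, Fin.succ_succAbove_succ, Fin.zero_succAbove]
    simp only [del, this, Fin.cons_succ]

private lemma h86_pair {m n : ℕ} (a c : (Fin (m + 1) → Fin n) → ℝ) :
    ∑ x : Fin (m + 2) → Fin n, a (del x 0) * c (del x 1) =
      ∑ τ : Fin m → Fin n, (∑ z, a (Fin.cons z τ)) * ∑ z, c (Fin.cons z τ) := by
  rw [h86_sum_cons]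
  have e : ∀ z : Fin n, ∑ y : Fin (m + 1) → Fin n,
      a (del (Fin.cons z y : Fin (m + 2) → Fin n) 0) *
        c (del (Fin.cons z y : Fin (m + 2) → Fin n) 1) =
      ∑ τ : Fin m → Fin n, ∑ z' : Fin n, a (Fin.cons z' τ) * c (Fin.cons z τ) := by
    intro z
    rw [h86_sum_cons, Finset.sum_comm]
    refine Finset.sum_congr rfl fun τ _ => Finset.sum_congr rfl fun z' _ => ?_
    rw [h86_del0, h86_del1]
  rw [Finset.sum_congr rfl fun z _ => e z, Finset.sum_comm]
  refine Finset.sum_congr rfl fun τ _ => ?_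
  rw [Finset.sum_mul_sum, Finset.sum_comm]

private lemma h86_tail {m n : ℕ} (c : (Fin (m + 1) → Fin n) → ℝ) (h : (Fin m → Fin n) → ℝ) :
    ∑ y : Fin (m + 1) → Fin n, c y * h (Fin.tail y) = ∑ τ, (∑ z, c (Fin.cons z τ)) * h τ := by
  rw [h86_sum_cons, Finset.sum_comm]
  refine Finset.sum_congr rfl fun τ _ => ?_
  rw [Finset.sum_mul]
  refine Finset.sum_congr rfl fun z _ => ?_
  rw [Fin.tail_cons]

private lemma h86_disc1 {m n : ℕ} (b : (Fin (m + 1) → Fin n) → ℝ) (w δ : ℝ)
    (hD : Disc n (m + 1) b w δ) (h : (Fin m → Fin n) → ℝ) (hh : ∀ x, h x = 0 ∨ h x = 1) :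
    |∑ τ, ((∑ z, b (Fin.cons z τ)) - w * n) * h τ| ≤ δ * (n : ℝ) ^ (m + 1) := by
  have := hD (fun i y => if i = 0 then h (Fin.tail y) else 1) (by
    intro i
    by_cases hi : i = 0
    · subst hi
      refine ⟨fun x => by simpa using hh _, fun x z => ?_⟩
      simp only [if_true, Fin.tail_update_zero]
    · refine ⟨fun x => by simp [hi], fun x z => by simp [hi]⟩)
  have e : ∑ x, (b x - w) * ∏ i : Fin (m + 1), (if i = 0 then h (Fin.tail x) else 1) =
      ∑ τ, ((∑ z, b (Fin.cons z τ)) - w * n) * h τ := by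
    have e1 : ∀ x : Fin (m + 1) → Fin n,
        ∏ i : Fin (m + 1), (if i = 0 then h (Fin.tail x) else 1) = h (Fin.tail x) := by
      intro x
      rw [Finset.prod_ite_eq' univ (0 : Fin (m + 1)) (fun _ => h (Fin.tail x))]
      simp
    rw [Finset.sum_congr rfl fun x _ => by rw [e1 x], h86_tail]
    refine Finset.sum_congr rfl fun τ _ => ?_
    rw [Finset.sum_sub_distrib, Finset.sum_const, nsmul_eq_mul]
    simp only [Finset.card_univ, Fintype.card_fin]
    ring
  rw [e] at this
  exact this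

private lemma h86_upd {m n : ℕ} (j : Fin m) (y : Fin (m + 1) → Fin n) :
    Fin.tail (y ∘ Equiv.swap 0 j.succ) = Function.update (Fin.tail y) j (y 0) := by
  funext i
  by_cases hi : i = j
  · subst hi
    simp [Fin.tail]
  · have h1 : Equiv.swap (0 : Fin (m + 1)) j.succ i.succ = i.succ :=
      Equiv.swap_apply_of_ne_of_ne (Fin.succ_ne_zero i) (fun h => hi (Fin.succ_injective _ h))
    simp only [Fin.tail, Function.comp, h1, Function.update, hi, dif_neg, not_false_iff]

private lemma h86_swap {m n : ℕ} (a : (Fin (m + 1) → Fin n) → ℝ)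
    (hsym : ∀ (π : Equiv.Perm (Fin (m + 1))) x, a (x ∘ π) = a x) (j : Fin m)
    (h : (Fin m → Fin n) → ℝ) :
    ∑ y, a y * h (Function.update (Fin.tail y) j (y 0)) = ∑ y, a y * h (Fin.tail y) := by
  have := (Equiv.arrowCongr (Equiv.swap (0 : Fin (m + 1)) j.succ) (Equiv.refl (Fin n))).sum_comp
    (fun y => a y * h (Fin.tail y))
  rw [← this]
  refine Finset.sum_congr rfl fun y _ => ?_
  have e : (Equiv.arrowCongr (Equiv.swap (0 : Fin (m + 1)) j.succ) (Equiv.refl (Fin n))) y =
      y ∘ Equiv.swap (0 : Fin (m + 1)) j.succ := by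
    funext i
    simp [Equiv.arrowCongr]
  rw [e, hsym, h86_upd]

private lemma h86_disc2 {m n : ℕ} (b : (Fin (m + 1) → Fin n) → ℝ) (w δ : ℝ)
    (hD : Disc n (m + 1) b w δ) (g : (Fin m → Fin n) → ℝ) (hg : ∀ x, g x = 0 ∨ g x = 1)
    (j : Fin m) :
    |∑ y, (b y - w) * (g (Fin.tail y) * (1 - g (Function.update (Fin.tail y) j (y 0))))| ≤
      δ * (n : ℝ) ^ (m + 1) := by
  have := hD (fun i y => if i = 0 then g (Fin.tail y) else
      if i = j.succ then 1 - g (Function.update (Fin.tail y) j (y 0)) else 1) (by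
    intro i
    refine Fin.cases ?_ (fun i => ?_) i
    · refine ⟨fun x => by simpa using hg _, fun x z => ?_⟩
      simp only [if_true, Fin.tail_update_zero]
    · by_cases hi : i = j
      · subst hi
        refine ⟨fun x => ?_, fun x z => ?_⟩
        · simp only [Fin.succ_ne_zero, if_false, if_true]
          rcases hg (Function.update (Fin.tail x) i (x 0)) with h | h <;> rw [h] <;> norm_num
        · simp only [Fin.succ_ne_zero, if_false, if_true, Fin.tail_update_succ]
          rw [Function.update_of_ne (Fin.succ_ne_zero i).symm, Function.update_idem]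
      · have hi' : i.succ ≠ j.succ := fun h => hi (Fin.succ_injective _ h)
        refine ⟨fun x => by simp [hi'], fun x z => by simp [hi']⟩)
  have e : ∀ y : Fin (m + 1) → Fin n, ∏ i : Fin (m + 1), (if i = 0 then g (Fin.tail y) else
      if i = j.succ then 1 - g (Function.update (Fin.tail y) j (y 0)) else 1) =
      g (Fin.tail y) * (1 - g (Function.update (Fin.tail y) j (y 0))) := by
    intro y
    rw [Fin.prod_univ_succ]
    simp only [if_true, Fin.succ_ne_zero, if_false, Fin.succ_inj]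
    rw [Finset.prod_ite_eq' univ j (fun _ => 1 - g (Function.update (Fin.tail y) j (y 0)))]
    simp
  simp only [e] at this
  exact this


private lemma h86_core (m n : ℕ) (hm : 1 ≤ m) (hn : 1 ≤ n) (a b : (Fin (m + 1) → Fin n) → ℝ)
    (w δ η δ2 δ3 : ℝ) (hw0 : 0 < w) (hδ : 0 ≤ δ) (hη : 0 ≤ η)
    (ha : ∀ x, a x = 0 ∨ a x = 1) (hb : ∀ x, b x = 0 ∨ b x = 1) (hab : ∀ x, a x ≤ b x)
    (hsym : ∀ (π : Equiv.Perm (Fin (m + 1))) x, a (x ∘ π) = a x) (hD : Disc n (m + 1) b w δ)
    (h1 : ∑ x : Fin (m + 2) → Fin n, a (del x 0) * (b (del x 1) - a (del x 1)) ≤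
      η * (n : ℝ) ^ (m + 2)) (hδ2 : δ2 = 2 / w * (η + 2 * δ)) (hδ3 : δ3 = (2 * δ2 + δ) / w) :
    ∑ x, a x ≤ (2 * m * δ3 + δ2) * (n : ℝ) ^ (m + 1) ∨
      (w - δ - δ2 - 2 * m * δ3) * (n : ℝ) ^ (m + 1) ≤ ∑ x, a x := by
  have hN : (0 : ℝ) < n := by exact_mod_cast hn
  have hmR : (1 : ℝ) ≤ m := by exact_mod_cast hm
  set N : ℝ := (n : ℝ) with hNdef
  set A : (Fin m → Fin n) → ℝ := fun τ => ∑ z, a (Fin.cons z τ) with hA
  set B : (Fin m → Fin n) → ℝ := fun τ => ∑ z, b (Fin.cons z τ) with hB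
  have ha0 : ∀ x, 0 ≤ a x := fun x => by rcases ha x with h | h <;> rw [h] <;> norm_num
  have ha1 : ∀ x, a x ≤ 1 := fun x => by rcases ha x with h | h <;> rw [h] <;> norm_num
  have hA0 : ∀ τ, 0 ≤ A τ := fun τ => Finset.sum_nonneg fun z _ => ha0 _
  have hAB : ∀ τ, A τ ≤ B τ := fun τ => Finset.sum_le_sum fun z _ => hab _
  have hAn : ∀ τ, A τ ≤ N := fun τ => by
    calc A τ ≤ ∑ z : Fin n, (1 : ℝ) := Finset.sum_le_sum fun z _ => ha1 _
      _ = N := by simp [hNdef]
  -- the pair inequality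
  have h2 : ∑ τ, A τ * (B τ - A τ) ≤ η * N ^ (m + 2) := by
    refine le_of_eq_of_le ?_ h1
    rw [h86_pair a (fun y => b y - a y)]
    refine Finset.sum_congr rfl fun τ _ => ?_
    rw [Finset.sum_sub_distrib]
  -- degrees of b
  have hdev : ∑ τ, |B τ - w * N| ≤ 2 * δ * N ^ (m + 1) := by
    have k1 := h86_disc1 b w δ hD (fun τ => if w * N ≤ B τ then 1 else 0) (fun τ => by
      by_cases h : w * N ≤ B τ <;> simp [h])
    have k2 := h86_disc1 b w δ hD (fun τ => if w * N ≤ B τ then 0 else 1) (fun τ => by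
      by_cases h : w * N ≤ B τ <;> simp [h])
    have e : ∑ τ, |B τ - w * N| = ∑ τ, (B τ - w * N) * (if w * N ≤ B τ then 1 else 0) -
        ∑ τ, (B τ - w * N) * (if w * N ≤ B τ then 0 else 1) := by
      rw [← Finset.sum_sub_distrib]
      refine Finset.sum_congr rfl fun τ _ => ?_
      by_cases h : w * N ≤ B τ
      · rw [if_pos h, if_pos h, abs_of_nonneg (by linarith)]
        ring
      · rw [if_neg h, if_neg h, abs_of_neg (by linarith [not_le.1 h])]
        ring
    rw [e]
    have k1' := (abs_le.1 k1).2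
    have k2' := (abs_le.1 k2).1
    simp only [hB] at *
    linarith
  -- the set of large degrees
  set g : (Fin m → Fin n) → ℝ := fun τ => if w * N / 2 ≤ A τ then 1 else 0 with hg
  have hg01 : ∀ τ, g τ = 0 ∨ g τ = 1 := fun τ => by
    by_cases h : w * N / 2 ≤ A τ <;> simp [hg, h]
  have hwN : 0 < w * N := by positivity
  have h3 : ∑ τ, A τ * (1 - g τ) ≤ δ2 * N ^ (m + 1) := by
    have k : w * N / 2 * ∑ τ, A τ * (1 - g τ) ≤ (η + 2 * δ) * N ^ (m + 2) := by
      rw [Finset.mul_sum]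
      calc ∑ τ, w * N / 2 * (A τ * (1 - g τ)) ≤
          ∑ τ, (A τ * (B τ - A τ) + N * |B τ - w * N|) := by
            refine Finset.sum_le_sum fun τ _ => ?_
            by_cases h : w * N / 2 ≤ A τ
            · have hg1 : g τ = 1 := by simp [hg, h]
              rw [hg1]
              have := mul_nonneg (hA0 τ) (sub_nonneg.2 (hAB τ))
              have := mul_nonneg hN.le (abs_nonneg (B τ - w * N))
              linarith
            · have hg0 : g τ = 0 := by simp [hg, h]
              rw [hg0]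
              have h' := (not_le.1 h).le
              have q1 : A τ * (w * N / 2) ≤ A τ * (w * N - A τ) :=
                mul_le_mul_of_nonneg_left (by linarith) (hA0 τ)
              have q2 : A τ * (w * N - B τ) ≤ N * |B τ - w * N| := by
                have r1 : w * N - B τ ≤ |B τ - w * N| := by
                  rw [abs_sub_comm]
                  exact le_abs_self _
                calc A τ * (w * N - B τ) ≤ A τ * |B τ - w * N| :=
                      mul_le_mul_of_nonneg_left r1 (hA0 τ)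
                  _ ≤ N * |B τ - w * N| := mul_le_mul_of_nonneg_right (hAn τ) (abs_nonneg _)
              nlinarith
        _ = ∑ τ, A τ * (B τ - A τ) + N * ∑ τ, |B τ - w * N| := by
            rw [Finset.sum_add_distrib, Finset.mul_sum]
        _ ≤ η * N ^ (m + 2) + N * (2 * δ * N ^ (m + 1)) :=
            add_le_add h2 (mul_le_mul_of_nonneg_left hdev hN.le)
        _ = (η + 2 * δ) * N ^ (m + 2) := by ring
    have e : δ2 * N ^ (m + 1) = ((η + 2 * δ) * N ^ (m + 2)) / (w * N / 2) := by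
      rw [hδ2]
      field_simp
      ring
    rw [e, le_div_iff₀ (by positivity)]
    linarith
  have h4 : ∑ τ, (B τ - A τ) * g τ ≤ δ2 * N ^ (m + 1) := by
    have k : w * N / 2 * ∑ τ, (B τ - A τ) * g τ ≤ (η + 2 * δ) * N ^ (m + 2) := by
      rw [Finset.mul_sum]
      calc ∑ τ, w * N / 2 * ((B τ - A τ) * g τ) ≤ ∑ τ, A τ * (B τ - A τ) := by
            refine Finset.sum_le_sum fun τ _ => ?_
            by_cases h : w * N / 2 ≤ A τ
            · have hg1 : g τ = 1 := by simp [hg, h]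
              rw [hg1, mul_one]
              exact mul_le_mul_of_nonneg_right h (sub_nonneg.2 (hAB τ))
            · have hg0 : g τ = 0 := by simp [hg, h]
              rw [hg0, mul_zero, mul_zero]
              exact mul_nonneg (hA0 τ) (sub_nonneg.2 (hAB τ))
        _ ≤ η * N ^ (m + 2) := h2
        _ ≤ (η + 2 * δ) * N ^ (m + 2) :=
            mul_le_mul_of_nonneg_right (by linarith) (by positivity)
    have e : δ2 * N ^ (m + 1) = ((η + 2 * δ) * N ^ (m + 2)) / (w * N / 2) := by
      rw [hδ2]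
      field_simp
      ring
    rw [e, le_div_iff₀ (by positivity)]
    linarith
  -- resampling one coordinate
  have h5 : ∀ j : Fin m, ∑ σ, ∑ z : Fin n, g σ * (1 - g (Function.update σ j z)) ≤
      δ3 * N ^ (m + 1) := by
    intro j
    have e1 : ∑ σ, ∑ z : Fin n, g σ * (1 - g (Function.update σ j z)) =
        ∑ y : Fin (m + 1) → Fin n,
          g (Fin.tail y) * (1 - g (Function.update (Fin.tail y) j (y 0))) := by
      rw [h86_sum_cons, Finset.sum_comm]
      refine Finset.sum_congr rfl fun z _ => Finset.sum_congr rfl fun σ _ => ?_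
      rw [Fin.tail_cons, Fin.cons_zero]
    have k1 := (abs_le.1 (h86_disc2 b w δ hD g hg01 j)).1
    have k2 : ∑ y, b y * (g (Fin.tail y) * (1 - g (Function.update (Fin.tail y) j (y 0)))) ≤
        2 * δ2 * N ^ (m + 1) := by
      calc ∑ y, b y * (g (Fin.tail y) * (1 - g (Function.update (Fin.tail y) j (y 0)))) ≤
          ∑ y, (a y * (1 - g (Function.update (Fin.tail y) j (y 0))) +
            (b y - a y) * g (Fin.tail y)) := by
            refine Finset.sum_le_sum fun y _ => ?_
            have hy := hab y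
            rcases ha y with h | h <;> rcases hb y with h' | h' <;>
              rcases hg01 (Fin.tail y) with h'' | h'' <;>
              rcases hg01 (Function.update (Fin.tail y) j (y 0)) with h3 | h3 <;>
              rw [h, h'] at hy <;> rw [h, h', h'', h3] <;>
              first
              | (norm_num; done)
              | (exfalso; linarith)
        _ = ∑ y, a y * (1 - g (Fin.tail y)) + ∑ y, (b y - a y) * g (Fin.tail y) := by
            rw [Finset.sum_add_distrib]
            congr 1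
            exact h86_swap a hsym j (fun τ => 1 - g τ)
        _ = ∑ τ, A τ * (1 - g τ) + ∑ τ, (B τ - A τ) * g τ := by
            rw [h86_tail a (fun τ => 1 - g τ), h86_tail (fun y => b y - a y) g]
            congr 1
            refine Finset.sum_congr rfl fun τ _ => ?_
            rw [Finset.sum_sub_distrib]
        _ ≤ 2 * δ2 * N ^ (m + 1) := by linarith
    have e2 : ∑ y, (b y - w) * (g (Fin.tail y) * (1 - g (Function.update (Fin.tail y) j (y 0)))) =
        ∑ y, b y * (g (Fin.tail y) * (1 - g (Function.update (Fin.tail y) j (y 0)))) -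
        w * ∑ y : Fin (m + 1) → Fin n,
          g (Fin.tail y) * (1 - g (Function.update (Fin.tail y) j (y 0))) := by
      rw [Finset.mul_sum, ← Finset.sum_sub_distrib]
      refine Finset.sum_congr rfl fun y _ => ?_
      ring
    rw [e2] at k1
    rw [e1]
    have e3 : δ3 * N ^ (m + 1) = ((2 * δ2 + δ) * N ^ (m + 1)) / w := by
      rw [hδ3]
      ring
    rw [e3, le_div_iff₀ hw0]
    nlinarith
  -- all coordinates
  have h6 := h86_es m g hg01
  set N1 : ℝ := ∑ σ, g σ with hN1
  set N0 : ℝ := ∑ σ, (1 - g σ) with hN0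
  have hsum : N1 + N0 = N ^ m := by
    rw [hN1, hN0, ← Finset.sum_add_distrib]
    simp [hNdef]
  have hN1n : 0 ≤ N1 := Finset.sum_nonneg fun σ _ => by
    rcases hg01 σ with h | h <;> rw [h] <;> norm_num
  have hN0n : 0 ≤ N0 := Finset.sum_nonneg fun σ _ => by
    rcases hg01 σ with h | h <;> rw [h] <;> norm_num
  have h7 : N1 * N0 ≤ m * δ3 * (N ^ m * N ^ m) := by
    have e1 : ∑ σ, ∑ σ', g σ * (1 - g σ') = N1 * N0 := by
      rw [hN1, hN0, Finset.sum_mul_sum]
    rw [e1] at h6
    have h8 : ∑ j : Fin m, ∑ σ, ∑ z : Fin n, g σ * (1 - g (Function.update σ j z)) ≤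
        m * (δ3 * N ^ (m + 1)) := by
      calc _ ≤ ∑ j : Fin m, δ3 * N ^ (m + 1) := Finset.sum_le_sum fun j _ => h5 j
        _ = _ := by simp
    have h9 : N * (N1 * N0) ≤ N * (m * δ3 * (N ^ m * N ^ m)) := by
      calc N * (N1 * N0) ≤ N ^ m * (m * (δ3 * N ^ (m + 1))) :=
            h6.trans (mul_le_mul_of_nonneg_left h8 (by positivity))
        _ = _ := by ring
    exact le_of_mul_le_mul_left h9 hN
  have hδ2n : 0 ≤ δ2 := by rw [hδ2]; positivity
  have hδ3n : 0 ≤ δ3 := by rw [hδ3]; positivity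
  have hNm : 0 < N ^ m := by positivity
  have hsa : ∑ x, a x = ∑ τ, A τ := by
    rw [h86_sum_cons, Finset.sum_comm]
  rcases le_total (N ^ m / 2) N0 with hc | hc
  · left
    have q1 : N1 ≤ 2 * m * δ3 * N ^ m := by
      have : N1 * (N ^ m / 2) ≤ m * δ3 * (N ^ m * N ^ m) :=
        (mul_le_mul_of_nonneg_left hc hN1n).trans h7
      by_contra hh
      push Not at hh
      nlinarith
    calc ∑ x, a x = ∑ τ, A τ := hsa
      _ = ∑ τ, A τ * g τ + ∑ τ, A τ * (1 - g τ) := by
          rw [← Finset.sum_add_distrib]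
          refine Finset.sum_congr rfl fun τ _ => ?_
          ring
      _ ≤ N * N1 + δ2 * N ^ (m + 1) := by
          refine add_le_add ?_ h3
          rw [hN1, Finset.mul_sum]
          refine Finset.sum_le_sum fun τ _ => mul_le_mul_of_nonneg_right (hAn τ) ?_
          rcases hg01 τ with h | h <;> rw [h] <;> norm_num
      _ ≤ N * (2 * m * δ3 * N ^ m) + δ2 * N ^ (m + 1) :=
          add_le_add (mul_le_mul_of_nonneg_left q1 hN.le) le_rfl
      _ = (2 * m * δ3 + δ2) * N ^ (m + 1) := by ring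
  · right
    have hN1' : N ^ m / 2 ≤ N1 := by linarith
    have q1 : N0 ≤ 2 * m * δ3 * N ^ m := by
      have : N ^ m / 2 * N0 ≤ m * δ3 * (N ^ m * N ^ m) :=
        (mul_le_mul_of_nonneg_right hN1' hN0n).trans h7
      by_contra hh
      push Not at hh
      nlinarith
    have k1 := (abs_le.1 (h86_disc1 b w δ hD (fun _ => 1) (fun _ => Or.inr rfl))).1
    have e1 : ∑ τ : Fin m → Fin n, ((∑ z, b (Fin.cons z τ)) - w * n) * 1 =
        ∑ τ, B τ - w * N ^ (m + 1) := by
      simp only [mul_one]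
      rw [Finset.sum_sub_distrib, Finset.sum_const, nsmul_eq_mul]
      simp [hNdef, hB]
      ring
    rw [e1] at k1
    have hBn : ∀ τ, B τ - A τ ≤ N := fun τ => by
      have : B τ - A τ = ∑ z, (b (Fin.cons z τ) - a (Fin.cons z τ)) := by
        rw [Finset.sum_sub_distrib]
      rw [this]
      calc ∑ z, (b (Fin.cons z τ) - a (Fin.cons z τ)) ≤ ∑ z : Fin n, (1 : ℝ) := by
            refine Finset.sum_le_sum fun z _ => ?_
            have := ha0 (Fin.cons z τ)
            rcases hb (Fin.cons z τ) with h | h <;> rw [h] <;> linarith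
        _ = N := by simp [hNdef]
    have q2 : ∑ τ, (B τ - A τ) ≤ δ2 * N ^ (m + 1) + N * N0 := by
      calc ∑ τ, (B τ - A τ) = ∑ τ, (B τ - A τ) * g τ + ∑ τ, (B τ - A τ) * (1 - g τ) := by
            rw [← Finset.sum_add_distrib]
            refine Finset.sum_congr rfl fun τ _ => ?_
            ring
        _ ≤ δ2 * N ^ (m + 1) + N * N0 := by
            refine add_le_add h4 ?_
            rw [hN0, Finset.mul_sum]
            refine Finset.sum_le_sum fun τ _ => mul_le_mul_of_nonneg_right (hBn τ) ?_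
            rcases hg01 τ with h | h <;> rw [h] <;> norm_num
    rw [Finset.sum_sub_distrib] at q2
    have q3 : N * N0 ≤ N * (2 * m * δ3 * N ^ m) := mul_le_mul_of_nonneg_left q1 hN.le
    have e4 : N * (2 * m * δ3 * N ^ m) = 2 * m * δ3 * N ^ (m + 1) := by ring
    rw [hsa]
    nlinarith


/-- The dichotomy, from the telescoping estimate. -/
theorem dich_of (htele : ∀ (n k : ℕ) (b : (Fin k → Fin n) → ℝ) (w ε : ℝ),
    (∀ x, b x = 0 ∨ b x = 1) → 0 ≤ w → w ≤ 1 → Disc n k b w ε → ∀ (S : Finset (Fin (k + 1)))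
    (ψ : Fin (k + 1) → (Fin k → Fin n) → ℝ), (∀ i x, ψ i x = 0 ∨ ψ i x = 1) →
    |∑ x : Fin (k + 1) → Fin n, (∏ i ∈ S, b (del x i)) * (∏ i ∈ Sᶜ, ψ i (del x i)) -
      w ^ S.card * ∑ x : Fin (k + 1) → Fin n, ∏ i ∈ Sᶜ, ψ i (del x i)| ≤
    S.card * ε * (n : ℝ) ^ (k + 1)) (k : ℕ) (hk : 2 ≤ k) (s ε : ℝ) (hs : 0 < s) (hε : 0 < ε) :
    ∃ δ > (0:ℝ), ∀ n ≥ 1,
    ∀ (a b : (Fin k → Fin n) → ℝ) (w : ℝ), s ≤ w → w ≤ 1 → (∀ x, a x = 0 ∨ a x = 1) →
      (∀ x, b x = 0 ∨ b x = 1) → (∀ x, a x ≤ b x) →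
      (∀ (π : Equiv.Perm (Fin k)) x, a (x ∘ π) = a x) → Disc n k b w δ →
      (∑ x : Fin (k + 1) → Fin n, a (del x 0) * ∏ i ∈ univ.erase 0, b (del x i) ≤
        ∑ x : Fin (k + 1) → Fin n, ∏ i, a (del x i) + δ * (n : ℝ) ^ (k + 1)) →
      ∑ x, a x ≤ ε * (n : ℝ) ^ k ∨ (w - ε) * (n : ℝ) ^ k ≤ ∑ x, a x := by
  obtain ⟨m, rfl⟩ : ∃ m, k = m + 1 := ⟨k - 1, by omega⟩
  have hm : 1 ≤ m := by omega
  have hmR : (1 : ℝ) ≤ m := by exact_mod_cast hm
  -- the constants
  set c1 : ℝ := (m + 1) / s ^ m with hc1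
  set c2 : ℝ := 2 / s * (c1 + 2) with hc2
  set c3 : ℝ := (2 * c2 + 1) / s with hc3
  have h1p : 0 < c1 := by positivity
  have h2p : 0 < c2 := by positivity
  have h3p : 0 < c3 := by positivity
  set K : ℝ := 1 + c2 + 2 * m * c3 with hK
  have hKp : 0 < K := by positivity
  refine ⟨ε / K, by positivity, ?_⟩
  set δ : ℝ := ε / K with hδ
  have hδp : 0 < δ := by positivity
  have hKδ : K * δ = ε := by
    rw [hδ]
    field_simp
  intro n hn a b w hsw hw1 ha hb hab hsym hD hyp
  have hw0 : 0 < w := hs.trans_le hsw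
  have hN : (0 : ℝ) < n := by exact_mod_cast hn
  have hb0 : ∀ x, 0 ≤ b x := fun x => by rcases hb x with h | h <;> rw [h] <;> norm_num
  have ha0 : ∀ x, 0 ≤ a x := fun x => by rcases ha x with h | h <;> rw [h] <;> norm_num
  set S : Finset (Fin (m + 2)) := {0, 1}ᶜ with hS
  have h01 : (0 : Fin (m + 2)) ≠ 1 := by
    intro h
    have := congrArg Fin.val h
    simp at this
  have hcard : S.card = m := by
    rw [hS, Finset.card_compl, Finset.card_pair h01, Fintype.card_fin]
    rfl
  have hSc : Sᶜ = {0, 1} := by rw [hS, compl_compl]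
  have h1S : (1 : Fin (m + 2)) ∉ S := by simp [hS]
  have herase : (univ : Finset (Fin (m + 2))).erase 0 = insert 1 S := by
    ext i
    simp only [hS, Finset.mem_erase, Finset.mem_univ, and_true, Finset.mem_insert,
      Finset.mem_compl, Finset.mem_singleton, not_or]
    constructor
    · intro h
      by_cases h1 : i = 1
      · exact Or.inl h1
      · exact Or.inr ⟨h, h1⟩
    · rintro (h | h)
      · rw [h]
        exact h01.symm
      · exact h.1
  have h0S : (0 : Fin (m + 2)) ∉ insert 1 S := by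
    rw [← herase]
    simp
  have huniv : (univ : Finset (Fin (m + 2))) = insert 0 (insert 1 S) := by
    rw [← herase, Finset.insert_erase (Finset.mem_univ _)]
  have key : ∑ x : Fin (m + 2) → Fin n, (∏ i ∈ S, b (del x i)) *
      (a (del x 0) * (b (del x 1) - a (del x 1))) ≤ δ * (n : ℝ) ^ (m + 2) := by
    have e : ∀ x : Fin (m + 2) → Fin n, (∏ i ∈ S, b (del x i)) *
      (a (del x 0) * (b (del x 1) - a (del x 1))) ≤
        a (del x 0) * ∏ i ∈ univ.erase 0, b (del x i) - ∏ i, a (del x i) := by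
      intro x
      rw [herase, Finset.prod_insert h1S, huniv, Finset.prod_insert h0S, Finset.prod_insert h1S]
      have : ∏ i ∈ S, a (del x i) ≤ ∏ i ∈ S, b (del x i) :=
        Finset.prod_le_prod (fun i _ => ha0 _) (fun i _ => hab _)
      have := mul_le_mul_of_nonneg_left this (mul_nonneg (ha0 (del x 0)) (ha0 (del x 1)))
      linarith
    calc _ ≤ ∑ x : Fin (m + 2) → Fin n, (a (del x 0) * ∏ i ∈ univ.erase 0, b (del x i) -
          ∏ i, a (del x i)) := Finset.sum_le_sum fun x _ => e x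
      _ ≤ δ * (n : ℝ) ^ (m + 2) := by
          rw [Finset.sum_sub_distrib]
          linarith
  have htl := htele n (m + 1) b w δ hb hw0.le hw1 hD S
    (fun i y => if i = 0 then a y else b y - a y) (by
      intro i x
      by_cases hi : i = 0
      · simp only [hi, if_true]
        exact ha x
      · simp only [hi, if_false]
        have hx := hab x
        rcases ha x with h | h <;> rcases hb x with h' | h' <;> rw [h, h'] at hx ⊢ <;>
          first
          | (norm_num; done)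
          | (exfalso; linarith))
  rw [hcard, hSc] at htl
  simp only [Finset.prod_pair h01, if_true, h01.symm, if_false] at htl
  have htl1 := (abs_le.1 htl).1
  have hX0 : 0 ≤ ∑ x : Fin (m + 2) → Fin n, a (del x 0) * (b (del x 1) - a (del x 1)) :=
    Finset.sum_nonneg fun x _ => mul_nonneg (ha0 _) (sub_nonneg.2 (hab _))
  have hX : ∑ x : Fin (m + 2) → Fin n, a (del x 0) * (b (del x 1) - a (del x 1)) ≤
      c1 * δ * (n : ℝ) ^ (m + 2) := by
    have q1 : w ^ m * ∑ x : Fin (m + 2) → Fin n, a (del x 0) * (b (del x 1) - a (del x 1)) ≤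
        (m + 1) * δ * (n : ℝ) ^ (m + 2) := by linarith
    have q2 : s ^ m ≤ w ^ m := pow_le_pow_left₀ hs.le hsw m
    have q3 := (mul_le_mul_of_nonneg_right q2 hX0).trans q1
    have e : c1 * δ * (n : ℝ) ^ (m + 2) = ((m + 1) * δ * (n : ℝ) ^ (m + 2)) / s ^ m := by
      rw [hc1]
      ring
    rw [e, le_div_iff₀ (by positivity)]
    linarith
  have hcore := h86_core m n hm hn a b w δ (c1 * δ) (2 / w * (c1 * δ + 2 * δ))
    ((2 * (2 / w * (c1 * δ + 2 * δ)) + δ) / w) hw0 hδp.le (by positivity) ha hb hab hsym hD hX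
    rfl rfl
  have hd2 : 2 / w * (c1 * δ + 2 * δ) ≤ c2 * δ := by
    have : 2 / w ≤ 2 / s := div_le_div_of_nonneg_left (by norm_num) hs hsw
    calc 2 / w * (c1 * δ + 2 * δ) ≤ 2 / s * (c1 * δ + 2 * δ) :=
          mul_le_mul_of_nonneg_right this (by positivity)
      _ = c2 * δ := by rw [hc2]; ring
  have hd3 : (2 * (2 / w * (c1 * δ + 2 * δ)) + δ) / w ≤ c3 * δ := by
    calc (2 * (2 / w * (c1 * δ + 2 * δ)) + δ) / w ≤ (2 * (c2 * δ) + δ) / w := by
          apply div_le_div_of_nonneg_right _ hw0.le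
          linarith
      _ ≤ (2 * (c2 * δ) + δ) / s := div_le_div_of_nonneg_left (by positivity) hs hsw
      _ = c3 * δ := by rw [hc3]; ring
  have hP : (0 : ℝ) < (n : ℝ) ^ (m + 1) := by positivity
  have hd4 : 2 * (m : ℝ) * ((2 * (2 / w * (c1 * δ + 2 * δ)) + δ) / w) ≤ 2 * m * (c3 * δ) :=
    mul_le_mul_of_nonneg_left hd3 (by positivity)
  have hKe : K * δ = δ + c2 * δ + 2 * m * (c3 * δ) := by rw [hK]; ring
  rcases hcore with h | h
  · left
    refine h.trans (mul_le_mul_of_nonneg_right ?_ hP.le)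
    linarith
  · right
    refine le_trans (mul_le_mul_of_nonneg_right ?_ hP.le) h
    linarith

/-- The dichotomy. -/
theorem dich (k : ℕ) (hk : 2 ≤ k) (s ε : ℝ) (hs : 0 < s) (hε : 0 < ε) : ∃ δ > (0:ℝ), ∀ n ≥ 1,
    ∀ (a b : (Fin k → Fin n) → ℝ) (w : ℝ), s ≤ w → w ≤ 1 → (∀ x, a x = 0 ∨ a x = 1) →
      (∀ x, b x = 0 ∨ b x = 1) → (∀ x, a x ≤ b x) →
      (∀ (π : Equiv.Perm (Fin k)) x, a (x ∘ π) = a x) → Disc n k b w δ →
      (∑ x : Fin (k + 1) → Fin n, a (del x 0) * ∏ i ∈ univ.erase 0, b (del x i) ≤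
        ∑ x : Fin (k + 1) → Fin n, ∏ i, a (del x i) + δ * (n : ℝ) ^ (k + 1)) →
      ∑ x, a x ≤ ε * (n : ℝ) ^ k ∨ (w - ε) * (n : ℝ) ^ k ≤ ∑ x, a x :=
  dich_of tele k hk s ε hs hε

end FC
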