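import Pool.Agent.H18.FC2.DiscOf
import Pool.Agent.H18.FC2.ConcW

/-!
# Quasi-randomness of the set of ridges in the closure
-/

namespace FC

open Finset

theorem disc (d : ℕ) (hd : 2 ≤ d) (C ε : ℝ) (hC : 1 ≤ C) (hε : 0 < ε) : ∃ ε1 > (0:ℝ),
    ∀ η > (0:ℝ), ∃ n0 : ℕ, ∀ n ≥ n0, ∀ (Q : ERank d) (q p y : ℝ), 0 ≤ q → q ≤ C / n → 0 ≤ p →
      p ≤ 1 → η ≤ y → y ≤ 1 → Wf Q n q (p + y - p * y) ≤ Wf Q n q p + ε1 →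
      E2 d n q p (fun A => ind (¬ Disc n d (bf n (wset Q.toRankFn (rg d n) A))
        (Wf Q n q p) ε)) ≤ ε :=
  disc_of (fun d Q n q p y wt hq0 hq1 hp0 hp1 hw0 hwy hy1 x S hS hx0 hx =>
    conc_w Q n q p y wt hq0 hq1 hp0 hp1 hw0 hwy hy1 x S hS hx0 hx) d hd C ε hC hε

end FC
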