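import Pool.Agent.H18.FC2.Ev
import Pool.Agent.H18.FC2.Cnt

/-!
# Quasi-randomness of the set of ridges in the closure
-/

namespace FC

open Finset

/-- The statement of `conc_w`. -/
def h37_CW : Prop := ∀ (d : ℕ) (Q : ERank d) (n : ℕ) (q p y : ℝ) (wt : Finset ℕ → ℝ),
    0 ≤ q → q ≤ 1 → 0 ≤ p → p ≤ 1 → (∀ e ∈ rg d n, 0 ≤ wt e) → (∀ e ∈ rg d n, wt e ≤ y) →
    y ≤ 1 → ∀ (x S : ℝ), (n.choose (d + 1) : ℝ) * q + (n.choose d : ℝ) * (p + y) ≤ S →
    0 ≤ x → x ≤ 2 * S →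
    E2 d n q p (fun A => ind (Wf Q n q (p + y - p * y) * ∑ e ∈ rg d n, wt e + 3 * x ≤
      ∑ e ∈ wset Q.toRankFn (rg d n) A, wt e)) ≤ 3 * Real.exp (-(x ^ 2 / (4 * S)))

/-- The weight of a ridge. -/
noncomputable def h37_wt (d n : ℕ) (y : ℝ) (φ : (Fin d → Fin n) → ℝ) (e : Finset ℕ) : ℝ :=
  y / (d.factorial : ℝ) * ∑ x : Fin d → Fin n, ind (tset x = e) * φ x

theorem h37_sum_ind (W : Finset (Finset ℕ)) (t : Finset ℕ) :
    ∑ e ∈ W, ind (t = e) = ind (t ∈ W) := by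
  by_cases h : t ∈ W
  · rw [ind_pos h, Finset.sum_eq_single t]
    · exact ind_pos rfl
    · intro b _ hb
      exact ind_neg (fun h' => hb h'.symm)
    · intro h'
      exact absurd h h'
  · rw [ind_neg h]
    exact Finset.sum_eq_zero fun b hb => ind_neg fun h' => h (h' ▸ hb)

theorem h37_wt_sum (d n : ℕ) (y : ℝ) (φ : (Fin d → Fin n) → ℝ) (W : Finset (Finset ℕ)) :
    ∑ e ∈ W, h37_wt d n y φ e = y / (d.factorial : ℝ) * ∑ x, bf n W x * φ x := by
  unfold h37_wt bf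
  rw [← Finset.mul_sum, Finset.sum_comm]
  congr 1
  refine Finset.sum_congr rfl fun x _ => ?_
  rw [← Finset.sum_mul, h37_sum_ind]

theorem h37_wt_nonneg (d n : ℕ) (y : ℝ) (φ : (Fin d → Fin n) → ℝ) (e : Finset ℕ) (hy : 0 ≤ y)
    (hφ : ∀ x, 0 ≤ φ x) : 0 ≤ h37_wt d n y φ e := by
  unfold h37_wt
  refine mul_nonneg (by positivity) (Finset.sum_nonneg fun x _ => ?_)
  exact mul_nonneg (ind_nonneg _) (hφ x)

theorem h37_wt_le (d n : ℕ) (y : ℝ) (φ : (Fin d → Fin n) → ℝ) (e : Finset ℕ) (he : e ∈ rg d n)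
    (hy : 0 ≤ y) (hφ : ∀ x, φ x ≤ 1) : h37_wt d n y φ e ≤ y := by
  have h1 := cnt1 d n {e} (by simpa using he)
  have h2 : ∑ x : Fin d → Fin n, ind (tset x = e) * φ x ≤ (d.factorial : ℝ) := by
    calc ∑ x : Fin d → Fin n, ind (tset x = e) * φ x ≤ ∑ x : Fin d → Fin n, bf n {e} x := by
          refine Finset.sum_le_sum fun x _ => ?_
          unfold bf
          rw [ind_congr (show tset x ∈ ({e} : Finset (Finset ℕ)) ↔ tset x = e from
            Finset.mem_singleton)]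
          exact mul_le_of_le_one_right (ind_nonneg _) (hφ x)
      _ = (d.factorial : ℝ) := by rw [h1]; simp
  have h3 : (0 : ℝ) < d.factorial := by exact_mod_cast d.factorial_pos
  unfold h37_wt
  calc y / (d.factorial : ℝ) * ∑ x : Fin d → Fin n, ind (tset x = e) * φ x
      ≤ y / (d.factorial : ℝ) * d.factorial := mul_le_mul_of_nonneg_left h2 (by positivity)
    _ = y := by field_simp

theorem h37_dn_nonneg (d : ℕ) (q p : ℝ) (hq0 : 0 ≤ q) (hp0 : 0 ≤ p) (τ : Finset ℕ) :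
    0 ≤ dn d q p τ := by unfold dn; split_ifs <;> assumption

theorem h37_dn_le (d : ℕ) (q p : ℝ) (hq1 : q ≤ 1) (hp1 : p ≤ 1) (τ : Finset ℕ) :
    dn d q p τ ≤ 1 := by unfold dn; split_ifs <;> assumption

theorem h37_E2_mono (d n : ℕ) (q p : ℝ) (hq0 : 0 ≤ q) (hq1 : q ≤ 1) (hp0 : 0 ≤ p)
    (hp1 : p ≤ 1) (f g : Finset (Finset ℕ) → ℝ) (h : ∀ A, f A ≤ g A) :
    E2 d n q p f ≤ E2 d n q p g :=
  Ev_mono _ _ (fun i _ => h37_dn_nonneg d q p hq0 hp0 i) (fun i _ => h37_dn_le d q p hq1 hp1 i)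
    _ _ (fun A _ => h A)

/-- The deviation of a weight function. -/
noncomputable def h37_bad {d : ℕ} (Q : ERank d) (n : ℕ) (w' r : ℝ) (φ : (Fin d → Fin n) → ℝ)
    (A : Finset (Finset ℕ)) : Prop :=
  w' * ∑ x : Fin d → Fin n, bf n (rg d n) x * φ x + r ≤
    ∑ x : Fin d → Fin n, bf n (wset Q.toRankFn (rg d n) A) x * φ x

variable {d : ℕ}

theorem h37_conc (hcw : h37_CW) (Q : ERank d) (n : ℕ) (q p y : ℝ) (hq0 : 0 ≤ q) (hq1 : q ≤ 1)
    (hp0 : 0 ≤ p) (hp1 : p ≤ 1) (hy0 : 0 < y) (hy1 : y ≤ 1) (z S : ℝ)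
    (hS : (n.choose (d + 1) : ℝ) * q + (n.choose d : ℝ) * (p + y) ≤ S) (hz0 : 0 ≤ z)
    (hz : z ≤ 2 * S) (φ : (Fin d → Fin n) → ℝ) (hφ0 : ∀ x, 0 ≤ φ x) (hφ1 : ∀ x, φ x ≤ 1)
    (r : ℝ) (hr : 3 * z * d.factorial / y ≤ r) :
    E2 d n q p (fun A => ind (h37_bad Q n (Wf Q n q (p + y - p * y)) r φ A)) ≤
      3 * Real.exp (-(z ^ 2 / (4 * S))) := by
  refine le_trans ?_ (hcw d Q n q p y (h37_wt d n y φ) hq0 hq1 hp0 hp1
    (fun e _ => h37_wt_nonneg d n y φ e hy0.le hφ0)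
    (fun e he => h37_wt_le d n y φ e he hy0.le hφ1) hy1 z S hS hz0 hz)
  refine h37_E2_mono d n q p hq0 hq1 hp0 hp1 _ _ fun A => ind_mono ?_
  intro h
  unfold h37_bad at h
  rw [h37_wt_sum, h37_wt_sum]
  have hf : (0 : ℝ) < d.factorial := by exact_mod_cast d.factorial_pos
  have h2 : 0 < y / (d.factorial : ℝ) := by positivity
  have h3 := mul_le_mul_of_nonneg_left h h2.le
  have h4 : 3 * z ≤ y / (d.factorial : ℝ) * r := by
    calc 3 * z = y / (d.factorial : ℝ) * (3 * z * d.factorial / y) := by field_simp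
      _ ≤ y / (d.factorial : ℝ) * r := mul_le_mul_of_nonneg_left hr h2.le
  rw [mul_add] at h3
  calc Wf Q n q (p + y - p * y) * (y / (d.factorial : ℝ) * ∑ x, bf n (rg d n) x * φ x) + 3 * z
      ≤ y / (d.factorial : ℝ) * (Wf Q n q (p + y - p * y) * ∑ x, bf n (rg d n) x * φ x) +
        y / (d.factorial : ℝ) * r := by
        refine add_le_add (le_of_eq (by ring)) h4
    _ ≤ _ := h3

/-! ### The families of cylinder functions -/

open Classical in
/-- The cylinder functions given by a family of sets. -/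
noncomputable def h37_cy {k n : ℕ} (B : Fin (k + 1) → (Fin k → Fin n) → Bool)
    (i : Fin (k + 1)) (x : Fin (k + 1) → Fin n) : ℝ := if B i (i.removeNth x) = true then 1 else 0

theorem h37_cyl {k n : ℕ} (hn : 0 < n) (u : Fin (k + 1) → (Fin (k + 1) → Fin n) → ℝ)
    (hu : ∀ i, Cyl i (u i)) : ∃ B : Fin (k + 1) → (Fin k → Fin n) → Bool, u = h37_cy B := by
  classical
  refine ⟨fun i z => decide (u i (i.insertNth ⟨0, hn⟩ z) = 1), ?_⟩
  funext i x
  unfold h37_cy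
  have h1 : u i (i.insertNth ⟨0, hn⟩ (i.removeNth x)) = u i x := by
    rw [Fin.insertNth_removeNth]
    exact (hu i).2 x _
  have h2 : (decide (u i (i.insertNth ⟨0, hn⟩ (i.removeNth x)) = 1) = true) ↔ u i x = 1 := by
    rw [decide_eq_true_eq, h1]
  rcases (hu i).1 x with h | h
  · rw [h]
    refine (if_neg fun h' => ?_).symm
    have h3 := h2.1 h'
    rw [h] at h3
    norm_num at h3
  · rw [h]
    exact (if_pos (h2.2 h)).symm

theorem h37_cy_mem {k n : ℕ} (B : Fin (k + 1) → (Fin k → Fin n) → Bool) (i : Fin (k + 1))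
    (x : Fin (k + 1) → Fin n) : 0 ≤ h37_cy B i x ∧ h37_cy B i x ≤ 1 := by
  unfold h37_cy
  split_ifs <;> norm_num

theorem h37_prod_mem {k n : ℕ} (B : Fin (k + 1) → (Fin k → Fin n) → Bool)
    (x : Fin (k + 1) → Fin n) : 0 ≤ ∏ i, h37_cy B i x ∧ ∏ i, h37_cy B i x ≤ 1 :=
  ⟨Finset.prod_nonneg fun i _ => (h37_cy_mem B i x).1,
    Finset.prod_le_one (fun i _ => (h37_cy_mem B i x).1) fun i _ => (h37_cy_mem B i x).2⟩

theorem h37_card (k n : ℕ) : Fintype.card (Fin (k + 1) → (Fin k → Fin n) → Bool) =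
    2 ^ ((k + 1) * n ^ k) := by
  simp only [Fintype.card_fun, Fintype.card_bool, Fintype.card_fin]
  rw [← pow_mul, mul_comm]

theorem h37_tuples (n : ℕ) (hn : 1 ≤ n) (hdn : d ≤ n) :
    (n : ℝ) ^ d - (d : ℝ) ^ 2 / n * (n : ℝ) ^ d ≤ ∑ x : Fin d → Fin n, bf n (rg d n) x := by
  rw [cnt1 d n (rg d n) subset_rfl]
  have h1 : (rg d n).card = n.choose d := by
    unfold rg
    rw [Finset.card_powersetCard, Finset.card_range]
  rw [h1]
  have h2 : ((d.factorial : ℝ) * (n.choose d : ℝ)) = (n.descFactorial d : ℝ) := by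
    rw [Nat.descFactorial_eq_factorial_mul_choose]
    push_cast
    ring
  rw [h2]
  have h3 : (n - d) ^ d ≤ n.descFactorial d :=
    (Nat.pow_le_pow_left (by omega) d).trans (Nat.pow_sub_le_descFactorial n d)
  have h4 : ((n : ℝ) - d) ^ d ≤ (n.descFactorial d : ℝ) := by
    have h5 : (((n - d) ^ d : ℕ) : ℝ) ≤ (n.descFactorial d : ℝ) := by exact_mod_cast h3
    rw [Nat.cast_pow, Nat.cast_sub hdn] at h5
    exact h5
  refine le_trans ?_ h4
  have hn0 : (0 : ℝ) < n := by exact_mod_cast hn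
  have hd1 : (d : ℝ) / n ≤ 1 := by
    rw [div_le_one hn0]
    exact_mod_cast hdn
  have h5 := one_add_mul_le_pow (a := -((d : ℝ) / n)) (by linarith) d
  have h6 : ((n : ℝ) - d) ^ d = (1 + -((d : ℝ) / n)) ^ d * (n : ℝ) ^ d := by
    rw [← mul_pow]
    congr 1
    field_simp
    ring
  rw [h6]
  have h7 : (0 : ℝ) ≤ (n : ℝ) ^ d := by positivity
  calc (n : ℝ) ^ d - (d : ℝ) ^ 2 / n * (n : ℝ) ^ d = (1 + d * -((d : ℝ) / n)) * (n : ℝ) ^ d := by
        ring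
    _ ≤ _ := mul_le_mul_of_nonneg_right h5 h7

theorem h37_bf_nonneg {k n : ℕ} (W : Finset (Finset ℕ)) (x : Fin k → Fin n) : 0 ≤ bf n W x :=
  ind_nonneg _

theorem h37_bf_le_one {k n : ℕ} (W : Finset (Finset ℕ)) (x : Fin k → Fin n) : bf n W x ≤ 1 :=
  ind_le_one _

theorem h37_sum_le {k n : ℕ} (f : (Fin k → Fin n) → ℝ) (h : ∀ x, f x ≤ 1) :
    ∑ x, f x ≤ (n : ℝ) ^ k := by
  calc ∑ x, f x ≤ ∑ _x : Fin k → Fin n, (1 : ℝ) := Finset.sum_le_sum fun x _ => h x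
    _ = (n : ℝ) ^ k := by simp

theorem h37_wset_subset (Q : ERank d) (n : ℕ) (A : Finset (Finset ℕ)) :
    wset Q.toRankFn (rg d n) A ⊆ rg d n := by
  classical
  unfold wset
  exact Finset.filter_subset _ _

theorem h37_Wf (Q : ERank d) (n : ℕ) (q p : ℝ) (hq0 : 0 ≤ q) (hq1 : q ≤ 1) (hp0 : 0 ≤ p)
    (hp1 : p ≤ 1) (hdn : d ≤ n) : 0 ≤ Wf Q n q p ∧ Wf Q n q p ≤ 1 ∧
      E2 d n q p (fun A => ((wset Q.toRankFn (rg d n) A).card : ℝ)) =
        Wf Q n q p * (n.choose d : ℝ) := by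
  have hc : (0 : ℝ) < n.choose d := by exact_mod_cast Nat.choose_pos hdn
  have h1 : (rg d n).card = n.choose d := by
    unfold rg
    rw [Finset.card_powersetCard, Finset.card_range]
  have h0 : 0 ≤ E2 d n q p (fun A => ((wset Q.toRankFn (rg d n) A).card : ℝ)) := by
    have h2 := h37_E2_mono d n q p hq0 hq1 hp0 hp1 (fun _ => 0)
      (fun A => ((wset Q.toRankFn (rg d n) A).card : ℝ)) (fun A => Nat.cast_nonneg _)
    unfold E2 at h2 ⊢
    rwa [Ev_const] at h2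
  have h2 : E2 d n q p (fun A => ((wset Q.toRankFn (rg d n) A).card : ℝ)) ≤ n.choose d := by
    have h3 := h37_E2_mono d n q p hq0 hq1 hp0 hp1
      (fun A => ((wset Q.toRankFn (rg d n) A).card : ℝ)) (fun _ => (n.choose d : ℝ)) (fun A => by
        rw [← h1]
        exact_mod_cast Finset.card_le_card (h37_wset_subset Q n A))
    unfold E2 at h3 ⊢
    rwa [Ev_const] at h3
  unfold Wf
  refine ⟨div_nonneg h0 hc.le, (div_le_one hc).2 h2, ?_⟩
  field_simp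

theorem h37_zsum (Q : ERank d) (n : ℕ) (A : Finset (Finset ℕ)) :
    ∑ x : Fin d → Fin n, bf n (wset Q.toRankFn (rg d n) A) x =
      (d.factorial : ℝ) * ((wset Q.toRankFn (rg d n) A).card : ℝ) :=
  cnt1 d n _ (h37_wset_subset Q n A)

theorem h37_good (Q : ERank d) (n : ℕ) (w w' ε1 r : ℝ) (hw : 0 ≤ w) (hw' : w' ≤ w + ε1)
    (hε1 : 0 ≤ ε1) (φ : (Fin d → Fin n) → ℝ) (hφ0 : ∀ x, 0 ≤ φ x) (hφ1 : ∀ x, φ x ≤ 1)
    (A : Finset (Finset ℕ)) (h : ¬ h37_bad Q n w' r φ A) :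
    ∑ x, (bf n (wset Q.toRankFn (rg d n) A) x - w) * φ x ≤ ε1 * (n : ℝ) ^ d + r := by
  unfold h37_bad at h
  push Not at h
  have h1 : 0 ≤ ∑ x : Fin d → Fin n, bf n (rg d n) x * φ x :=
    Finset.sum_nonneg fun x _ => mul_nonneg (h37_bf_nonneg _ x) (hφ0 x)
  have h2 : ∑ x : Fin d → Fin n, bf n (rg d n) x * φ x ≤ ∑ x, φ x :=
    Finset.sum_le_sum fun x _ => mul_le_of_le_one_left (hφ0 x) (h37_bf_le_one _ x)
  have h3 : ∑ x : Fin d → Fin n, bf n (rg d n) x * φ x ≤ (n : ℝ) ^ d :=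
    h37_sum_le _ fun x => mul_le_one₀ (h37_bf_le_one _ x) (hφ0 x) (hφ1 x)
  have h4 : w' * ∑ x : Fin d → Fin n, bf n (rg d n) x * φ x ≤
      w * ∑ x, φ x + ε1 * (n : ℝ) ^ d := by
    calc w' * ∑ x : Fin d → Fin n, bf n (rg d n) x * φ x
        ≤ (w + ε1) * ∑ x : Fin d → Fin n, bf n (rg d n) x * φ x :=
          mul_le_mul_of_nonneg_right hw' h1
      _ = w * (∑ x : Fin d → Fin n, bf n (rg d n) x * φ x) +
          ε1 * ∑ x : Fin d → Fin n, bf n (rg d n) x * φ x := by ring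
      _ ≤ w * ∑ x, φ x + ε1 * (n : ℝ) ^ d :=
          add_le_add (mul_le_mul_of_nonneg_left h2 hw) (mul_le_mul_of_nonneg_left h3 hε1)
  have h5 : ∑ x, (bf n (wset Q.toRankFn (rg d n) A) x - w) * φ x =
      ∑ x, bf n (wset Q.toRankFn (rg d n) A) x * φ x - w * ∑ x, φ x := by
    rw [Finset.mul_sum, ← Finset.sum_sub_distrib]
    exact Finset.sum_congr rfl fun x _ => by ring
  linarith

/-- Few ridges in the closure. -/
def h37_low (Q : ERank d) (n : ℕ) (w a : ℝ) (A : Finset (Finset ℕ)) : Prop :=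
  ∑ x : Fin d → Fin n, bf n (wset Q.toRankFn (rg d n) A) x ≤
    w * (∑ x : Fin d → Fin n, bf n (rg d n) x) - a * (n : ℝ) ^ d

theorem h37_low_prob (Q : ERank d) (n : ℕ) (q p w' ε1 r a τ θ : ℝ) (hq0 : 0 ≤ q) (hq1 : q ≤ 1)
    (hp0 : 0 ≤ p) (hp1 : p ≤ 1) (hdn : d ≤ n) (hn : 1 ≤ n) (hw' : w' ≤ Wf Q n q p + ε1)
    (hε1 : 0 ≤ ε1) (hr : 0 ≤ r)
    (hM : (n : ℝ) ^ d - θ * (n : ℝ) ^ d ≤ ∑ x : Fin d → Fin n, bf n (rg d n) x)
    (hτ : E2 d n q p (fun A => ind (h37_bad Q n w' (r * (n : ℝ) ^ d) (fun _ => 1) A)) ≤ τ) :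
    a * E2 d n q p (fun A => ind (h37_low Q n (Wf Q n q p) a A)) ≤ ε1 + r + θ + τ := by
  obtain ⟨hw0, hw1, hw2⟩ := h37_Wf Q n q p hq0 hq1 hp0 hp1 hdn
  set w : ℝ := Wf Q n q p with hw
  set N : ℝ := (n : ℝ) ^ d with hN
  have hN0 : 0 < N := by
    have : (0 : ℝ) < n := by exact_mod_cast hn
    positivity
  set Mi : ℝ := ∑ x : Fin d → Fin n, bf n (rg d n) x with hMi
  have hMi1 : Mi ≤ N := h37_sum_le _ fun x => h37_bf_le_one _ x
  -- pointwise
  have key : ∀ A : Finset (Finset ℕ), a * N * ind (h37_low Q n w a A) ≤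
      ((w + ε1 + r) * N + N * ind (h37_bad Q n w' (r * N) (fun _ => 1) A)) -
      ∑ x : Fin d → Fin n, bf n (wset Q.toRankFn (rg d n) A) x := by
    intro A
    have hz1 : ∑ x : Fin d → Fin n, bf n (wset Q.toRankFn (rg d n) A) x ≤ N :=
      h37_sum_le _ fun x => h37_bf_le_one _ x
    by_cases hb : h37_bad Q n w' (r * N) (fun _ => 1) A
    · rw [ind_pos hb]
      by_cases hl : h37_low Q n w a A
      · rw [ind_pos hl]
        unfold h37_low at hl
        have h1 : w * Mi ≤ w * N := mul_le_mul_of_nonneg_left hMi1 hw0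
        have h2 : 0 ≤ (ε1 + r) * N := by positivity
        rw [← hN, ← hMi] at hl
        nlinarith
      · rw [ind_neg hl]
        have h2 : 0 ≤ (w + ε1 + r) * N := by positivity
        linarith
    · rw [ind_neg hb]
      have h1 := h37_good Q n w w' ε1 (r * N) hw0 hw' hε1 (fun _ => 1) (fun _ => by norm_num)
        (fun _ => le_rfl) A hb
      simp only [mul_one, Finset.sum_sub_distrib, Finset.sum_const, Finset.card_univ,
        Fintype.card_fun, Fintype.card_fin, nsmul_eq_mul, Nat.cast_pow] at h1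
      rw [← hN] at h1
      by_cases hl : h37_low Q n w a A
      · rw [ind_pos hl]
        unfold h37_low at hl
        have h1 : w * Mi ≤ w * N := mul_le_mul_of_nonneg_left hMi1 hw0
        have h2 : 0 ≤ (ε1 + r) * N := by positivity
        rw [← hN, ← hMi] at hl
        nlinarith
      · rw [ind_neg hl]
        linarith
  have h1 := h37_E2_mono d n q p hq0 hq1 hp0 hp1 _ _ key
  unfold E2 at h1 hτ hw2 ⊢
  rw [Ev_mul, Ev_sub, Ev_add, Ev_const, Ev_mul] at h1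
  have h2 : Ev (gd d n) (dn d q p) (fun A => ∑ x : Fin d → Fin n,
      bf n (wset Q.toRankFn (rg d n) A) x) = w * Mi := by
    have h3 : (fun A => ∑ x : Fin d → Fin n, bf n (wset Q.toRankFn (rg d n) A) x) =
        fun A => (d.factorial : ℝ) * ((wset Q.toRankFn (rg d n) A).card : ℝ) := by
      funext A
      exact h37_zsum Q n A
    have h4 : Mi = (d.factorial : ℝ) * (n.choose d : ℝ) := by
      rw [hMi, cnt1 d n (rg d n) subset_rfl]
      unfold rg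
      rw [Finset.card_powersetCard, Finset.card_range]
    rw [h3, Ev_mul, hw2, h4]
    ring
  rw [h2] at h1
  have h3 : w * N - w * Mi ≤ θ * N := by
    have h4 : w * (N - Mi) ≤ 1 * (N - Mi) :=
      mul_le_mul_of_nonneg_right hw1 (by linarith)
    linarith
  have h5 : N * Ev (gd d n) (dn d q p) (fun X => ind (h37_bad Q n w' (r * N) (fun _ => 1) X)) ≤
      N * τ := mul_le_mul_of_nonneg_left hτ hN0.le
  have h6 : N * (a * Ev (gd d n) (dn d q p) (fun X => ind (h37_low Q n w a X))) ≤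
      N * (ε1 + r + θ + τ) := by
    linarith
  exact le_of_mul_le_mul_left h6 hN0

/-- The deterministic part. -/
theorem h37_disc_of (k : ℕ) (Q : ERank (k + 1)) (n : ℕ) (w w' ε1 r a θ ε : ℝ) (hn : 1 ≤ n)
    (hw0 : 0 ≤ w) (hw1 : w ≤ 1) (hw' : w' ≤ w + ε1) (hε1 : 0 ≤ ε1)
    (hM : (n : ℝ) ^ (k + 1) - θ * (n : ℝ) ^ (k + 1) ≤
      ∑ x : Fin (k + 1) → Fin n, bf n (rg (k + 1) n) x)
    (hε : ε1 + r + θ + a ≤ ε) (hθa : 0 ≤ θ + a) (A : Finset (Finset ℕ))
    (h1 : ∀ B : Fin (k + 1) → (Fin k → Fin n) → Bool,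
      ¬ h37_bad Q n w' (r * (n : ℝ) ^ (k + 1)) (fun x => ∏ i, h37_cy B i x) A)
    (h2 : ∀ B : Fin (k + 1) → (Fin k → Fin n) → Bool,
      ¬ h37_bad Q n w' (r * (n : ℝ) ^ (k + 1)) (fun x => 1 - ∏ i, h37_cy B i x) A)
    (h3 : ¬ h37_low Q n w a A) :
    Disc n (k + 1) (bf n (wset Q.toRankFn (rg (k + 1) n) A)) w ε := by
  intro u hu
  obtain ⟨B, rfl⟩ := h37_cyl (by omega) u hu
  set N : ℝ := (n : ℝ) ^ (k + 1) with hN
  have hN0 : 0 < N := by
    have : (0 : ℝ) < n := by exact_mod_cast hn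
    positivity
  have g1 := h37_good Q n w w' ε1 (r * N) hw0 hw' hε1 (fun x => ∏ i, h37_cy B i x)
    (fun x => (h37_prod_mem B x).1) (fun x => (h37_prod_mem B x).2) A (h1 B)
  have g2 := h37_good Q n w w' ε1 (r * N) hw0 hw' hε1 (fun x => 1 - ∏ i, h37_cy B i x)
    (fun x => by have := (h37_prod_mem B x).2; linarith)
    (fun x => by have := (h37_prod_mem B x).1; linarith) A (h2 B)
  unfold h37_low at h3
  push Not at h3
  have e1 : ∑ x, (bf n (wset Q.toRankFn (rg (k + 1) n) A) x - w) * (1 - ∏ i, h37_cy B i x) =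
      (∑ x : Fin (k + 1) → Fin n, bf n (wset Q.toRankFn (rg (k + 1) n) A) x - w * N) -
      ∑ x, (bf n (wset Q.toRankFn (rg (k + 1) n) A) x - w) * ∏ i, h37_cy B i x := by
    have e2 : ∑ x : Fin (k + 1) → Fin n, (bf n (wset Q.toRankFn (rg (k + 1) n) A) x - w) =
        ∑ x : Fin (k + 1) → Fin n, bf n (wset Q.toRankFn (rg (k + 1) n) A) x - w * N := by
      rw [Finset.sum_sub_distrib]
      simp [hN, mul_comm]
    rw [← e2, ← Finset.sum_sub_distrib]
    exact Finset.sum_congr rfl fun x _ => by ring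
  rw [e1] at g2
  rw [← hN] at g1 g2 h3
  have h5 : w * N - w * ∑ x : Fin (k + 1) → Fin n, bf n (rg (k + 1) n) x ≤ θ * N := by
    have h6 : ∑ x : Fin (k + 1) → Fin n, bf n (rg (k + 1) n) x ≤ N :=
      h37_sum_le _ fun x => h37_bf_le_one _ x
    have h4 : w * (N - ∑ x : Fin (k + 1) → Fin n, bf n (rg (k + 1) n) x) ≤
        1 * (N - ∑ x : Fin (k + 1) → Fin n, bf n (rg (k + 1) n) x) :=
      mul_le_mul_of_nonneg_right hw1 (by linarith)
    linarith
  have h7 : (ε1 + r + θ + a) * N ≤ ε * N := mul_le_mul_of_nonneg_right hε hN0.le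
  have h8 : 0 ≤ (θ + a) * N := mul_nonneg hθa hN0.le
  rw [abs_le]
  constructor <;> nlinarith

/-- The exponential bound beats the number of families. -/
theorem h37_num (k n : ℕ) (c : ℝ) (hk : 1 ≤ k) (hn : 1 ≤ n) (hc : (k : ℝ) + 2 ≤ c * n) :
    (2 : ℝ) ^ ((k + 1) * n ^ k) * (3 * Real.exp (-(c * (n : ℝ) ^ (k + 1)))) ≤
      3 * Real.exp (-(n : ℝ)) := by
  have hnR : (1 : ℝ) ≤ n := by exact_mod_cast hn
  have h1 : (2 : ℝ) ^ ((k + 1) * n ^ k) ≤ Real.exp (((k : ℝ) + 1) * (n : ℝ) ^ k) := by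
    have h2 : (2 : ℝ) ≤ Real.exp 1 := by
      have := Real.add_one_le_exp (1 : ℝ)
      linarith
    calc (2 : ℝ) ^ ((k + 1) * n ^ k) ≤ Real.exp 1 ^ ((k + 1) * n ^ k) :=
          pow_le_pow_left₀ (by norm_num) h2 _
      _ = Real.exp (((k : ℝ) + 1) * (n : ℝ) ^ k) := by
          rw [← Real.exp_nat_mul]
          push_cast
          ring_nf
  have h3 : (n : ℝ) ≤ (n : ℝ) ^ k := by
    calc (n : ℝ) = (n : ℝ) ^ 1 := (pow_one _).symm
      _ ≤ (n : ℝ) ^ k := pow_le_pow_right₀ hnR hk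
  calc (2 : ℝ) ^ ((k + 1) * n ^ k) * (3 * Real.exp (-(c * (n : ℝ) ^ (k + 1))))
      ≤ Real.exp (((k : ℝ) + 1) * (n : ℝ) ^ k) * (3 * Real.exp (-(c * (n : ℝ) ^ (k + 1)))) :=
        mul_le_mul_of_nonneg_right h1 (by positivity)
    _ = 3 * Real.exp (((k : ℝ) + 1) * (n : ℝ) ^ k - c * (n : ℝ) ^ (k + 1)) := by
        rw [sub_eq_add_neg, Real.exp_add]; ring
    _ ≤ 3 * Real.exp (-(n : ℝ)) := by
        refine mul_le_mul_of_nonneg_left (Real.exp_le_exp.2 ?_) (by norm_num)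
        have h4 : ((k : ℝ) + 2) * (n : ℝ) ^ k ≤ c * n * (n : ℝ) ^ k :=
          mul_le_mul_of_nonneg_right hc (by positivity)
        have h5 : c * (n : ℝ) ^ (k + 1) = c * n * (n : ℝ) ^ k := by ring
        rw [h5]
        linarith

theorem h37_choose_le (n m : ℕ) : (n.choose m : ℝ) ≤ (n : ℝ) ^ m := by
  exact_mod_cast Nat.choose_le_pow n m

theorem disc_of (hcw : h37_CW) (d : ℕ) (hd : 2 ≤ d) (C ε : ℝ) (hC : 1 ≤ C) (hε : 0 < ε) : ∃ ε1 > (0:ℝ),
    ∀ η > (0:ℝ), ∃ n0 : ℕ, ∀ n ≥ n0, ∀ (Q : ERank d) (q p y : ℝ), 0 ≤ q → q ≤ C / n → 0 ≤ p →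
      p ≤ 1 → η ≤ y → y ≤ 1 → Wf Q n q (p + y - p * y) ≤ Wf Q n q p + ε1 →
      E2 d n q p (fun A => ind (¬ Disc n d (bf n (wset Q.toRankFn (rg d n) A))
        (Wf Q n q p) ε)) ≤ ε := by
  classical
  obtain ⟨k, rfl⟩ : ∃ k, d = k + 1 := ⟨d - 1, by omega⟩
  have hk : 1 ≤ k := by omega
  set e : ℝ := min ε 1 with he
  have he0 : 0 < e := lt_min hε one_pos
  have he1 : e ≤ 1 := min_le_right _ _
  have heε : e ≤ ε := min_le_left _ _
  refine ⟨e ^ 2 / 64, by positivity, fun η hη => ?_⟩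
  set η' : ℝ := min η 1 with hη'
  have hη0 : 0 < η' := lt_min hη one_pos
  have hη1 : η' ≤ 1 := min_le_right _ _
  set D : ℝ := ((k + 1).factorial : ℝ) with hD
  have hD1 : 1 ≤ D := by
    rw [hD]
    exact_mod_cast Nat.one_le_iff_ne_zero.2 (Nat.factorial_ne_zero _)
  have hD0 : 0 < D := by linarith
  set δ : ℝ := e ^ 2 * η' / (192 * D) with hδ
  have hδ0 : 0 < δ := by positivity
  have hδ1 : δ ≤ 1 := by
    rw [hδ, div_le_one (by positivity)]
    have h1 : e ^ 2 ≤ 1 := pow_le_one₀ he0.le he1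
    nlinarith
  set c : ℝ := δ ^ 2 / (4 * (C + 2)) with hc
  have hc0 : 0 < c := by positivity
  -- large n
  have hN : Filter.Tendsto (fun n : ℕ => (n : ℝ)) Filter.atTop Filter.atTop :=
    tendsto_natCast_atTop_atTop
  have l1 : ∀ᶠ n : ℕ in Filter.atTop, C ≤ (n : ℝ) := hN.eventually_ge_atTop C
  have l2 : ∀ᶠ n : ℕ in Filter.atTop, 64 * ((k : ℝ) + 1) ^ 2 / e ^ 2 ≤ (n : ℝ) :=
    hN.eventually_ge_atTop _
  have l3 : ∀ᶠ n : ℕ in Filter.atTop, ((k : ℝ) + 2) / c ≤ (n : ℝ) := hN.eventually_ge_atTop _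
  have l4 : ∀ᶠ n : ℕ in Filter.atTop, 384 / e ^ 2 ≤ (n : ℝ) := hN.eventually_ge_atTop _
  obtain ⟨n0, hn0⟩ := (l1.and (l2.and (l3.and (l4.and
    (Filter.eventually_ge_atTop (k + 1)))))).exists_forall_of_atTop
  refine ⟨n0, fun n hn Q q p y hq0 hq hp0 hp1 hηy hy1 hw' => ?_⟩
  obtain ⟨c1, c2, c3, c4, c5⟩ := hn0 n hn
  have hn1 : 1 ≤ n := by omega
  have hnR : (0 : ℝ) < n := by exact_mod_cast hn1
  have hq1 : q ≤ 1 := hq.trans ((div_le_one hnR).2 c1)
  have hy0 : 0 < y := hη.trans_le hηy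
  have hηy' : η' ≤ y := (min_le_left _ _).trans hηy
  obtain ⟨hw0, hw1, -⟩ := h37_Wf Q n q p hq0 hq1 hp0 hp1 c5
  set w : ℝ := Wf Q n q p with hw
  set w' : ℝ := Wf Q n q (p + y - p * y) with hw'd
  set N : ℝ := (n : ℝ) ^ (k + 1) with hNd
  have hN0 : 0 < N := by positivity
  -- the parameters
  have hexp : 3 * Real.exp (-(n : ℝ)) ≤ e ^ 2 / 128 := by
    have h1 : Real.exp (-(n : ℝ)) ≤ 1 / n := by
      rw [Real.exp_neg, ← one_div]
      have h2 := Real.add_one_le_exp (n : ℝ)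
      exact one_div_le_one_div_of_le hnR (by linarith)
    have h3 : (3 : ℝ) * (1 / n) ≤ e ^ 2 / 128 := by
      rw [mul_one_div, div_le_div_iff₀ hnR (by norm_num)]
      rw [div_le_iff₀ (by positivity)] at c4
      linarith
    calc 3 * Real.exp (-(n : ℝ)) ≤ 3 * (1 / n) := by linarith
      _ ≤ _ := h3
  have hnum := h37_num k n c hk hn1 (by rw [div_le_iff₀ hc0] at c3; linarith)
  set τ : ℝ := 3 * Real.exp (-(c * N)) with hτ
  have hτ0 : 0 < τ := by positivity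
  have hτ1 : τ ≤ 3 * Real.exp (-(n : ℝ)) := by
    refine le_trans ?_ hnum
    have h1 : (1 : ℝ) ≤ (2 : ℝ) ^ ((k + 1) * n ^ k) := one_le_pow₀ (by norm_num)
    exact le_mul_of_one_le_left hτ0.le h1
  set S : ℝ := (C + 2) * N with hS
  have hS0 : 0 < S := by positivity
  -- concentration for every weight function
  have hconc : ∀ φ : (Fin (k + 1) → Fin n) → ℝ, (∀ x, 0 ≤ φ x) → (∀ x, φ x ≤ 1) →
      E2 (k + 1) n q p (fun A => ind (h37_bad Q n w' (e ^ 2 / 64 * N) φ A)) ≤ τ := by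
    intro φ hφ0 hφ1
    have h1 : (n.choose (k + 1 + 1) : ℝ) * q + (n.choose (k + 1) : ℝ) * (p + y) ≤ S := by
      have h2 : (n.choose (k + 1 + 1) : ℝ) * q ≤ C * N := by
        calc (n.choose (k + 1 + 1) : ℝ) * q ≤ (n : ℝ) ^ (k + 1 + 1) * (C / n) :=
              mul_le_mul (h37_choose_le _ _) hq hq0 (by positivity)
          _ = C * N := by rw [hNd]; field_simp; ring
      have h3 : (n.choose (k + 1) : ℝ) * (p + y) ≤ N * 2 :=
        mul_le_mul (h37_choose_le _ _) (by linarith) (by positivity) hN0.le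
      rw [hS]
      linarith
    have h2 := h37_conc hcw Q n q p y hq0 hq1 hp0 hp1 hy0 hy1 (δ * N) S h1 (by positivity)
      (by
        rw [hS]
        have : δ * N ≤ 1 * N := mul_le_mul_of_nonneg_right hδ1 hN0.le
        nlinarith) φ hφ0 hφ1 (e ^ 2 / 64 * N) (by
        rw [div_le_iff₀ hy0, ← hD]
        have h3 : 3 * (δ * N) * D = e ^ 2 / 64 * N * η' := by
          rw [hδ]
          field_simp
          ring
        rw [h3]
        exact mul_le_mul_of_nonneg_left hηy' (by positivity))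
    refine h2.trans (le_of_eq ?_)
    rw [hτ, hS, hc]
    congr 2
    field_simp
  -- the exceptional event
  have hM := h37_tuples (d := k + 1) n hn1 c5
  set θ : ℝ := (((k + 1 : ℕ) : ℝ)) ^ 2 / n with hθ
  have hθ0 : 0 ≤ θ := by positivity
  have hθ1 : θ ≤ e ^ 2 / 64 := by
    rw [hθ, div_le_div_iff₀ hnR (by norm_num)]
    rw [div_le_iff₀ (by positivity)] at c2
    push_cast
    linarith
  have hlow := h37_low_prob Q n q p w' (e ^ 2 / 64) (e ^ 2 / 64) (e / 4) τ θ hq0 hq1 hp0 hp1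
    c5 hn1 hw' (by positivity) (by positivity) hM
    (hconc (fun _ => 1) (fun _ => by norm_num) (fun _ => le_rfl))
  have he2 : e ^ 2 ≤ e := by nlinarith
  have hlow' : E2 (k + 1) n q p (fun A => ind (h37_low Q n w (e / 4) A)) ≤ e / 4 := by
    have h1 : e / 4 * E2 (k + 1) n q p (fun A => ind (h37_low Q n w (e / 4) A)) ≤
        e / 4 * (e / 4) := by
      linarith
    exact le_of_mul_le_mul_left h1 (by positivity)
  -- the union bound
  have key : ∀ A : Finset (Finset ℕ), ind (¬ Disc n (k + 1)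
      (bf n (wset Q.toRankFn (rg (k + 1) n) A)) w ε) ≤
      (∑ B : Fin (k + 1) → (Fin k → Fin n) → Bool,
        ind (h37_bad Q n w' (e ^ 2 / 64 * N) (fun x => ∏ i, h37_cy B i x) A) +
      ∑ B : Fin (k + 1) → (Fin k → Fin n) → Bool,
        ind (h37_bad Q n w' (e ^ 2 / 64 * N) (fun x => 1 - ∏ i, h37_cy B i x) A)) +
      ind (h37_low Q n w (e / 4) A) := by
    intro A
    have p1 : 0 ≤ ∑ B : Fin (k + 1) → (Fin k → Fin n) → Bool,
        ind (h37_bad Q n w' (e ^ 2 / 64 * N) (fun x => ∏ i, h37_cy B i x) A) :=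
      Finset.sum_nonneg fun _ _ => ind_nonneg _
    have p2 : 0 ≤ ∑ B : Fin (k + 1) → (Fin k → Fin n) → Bool,
        ind (h37_bad Q n w' (e ^ 2 / 64 * N) (fun x => 1 - ∏ i, h37_cy B i x) A) :=
      Finset.sum_nonneg fun _ _ => ind_nonneg _
    have p3 := ind_nonneg (h37_low Q n w (e / 4) A)
    by_cases h1 : ∃ B, h37_bad Q n w' (e ^ 2 / 64 * N) (fun x => ∏ i, h37_cy B i x) A
    · obtain ⟨B, hB⟩ := h1
      have h2 : ind (h37_bad Q n w' (e ^ 2 / 64 * N) (fun x => ∏ i, h37_cy B i x) A) ≤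
          ∑ B : Fin (k + 1) → (Fin k → Fin n) → Bool,
            ind (h37_bad Q n w' (e ^ 2 / 64 * N) (fun x => ∏ i, h37_cy B i x) A) :=
        Finset.single_le_sum (f := fun B => ind (h37_bad Q n w' (e ^ 2 / 64 * N)
          (fun x => ∏ i, h37_cy B i x) A)) (fun _ _ => ind_nonneg _) (Finset.mem_univ B)
      rw [ind_pos hB] at h2
      have h3 := ind_le_one (¬ Disc n (k + 1) (bf n (wset Q.toRankFn (rg (k + 1) n) A)) w ε)
      linarith
    by_cases h2 : ∃ B, h37_bad Q n w' (e ^ 2 / 64 * N) (fun x => 1 - ∏ i, h37_cy B i x) A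
    · obtain ⟨B, hB⟩ := h2
      have h2 : ind (h37_bad Q n w' (e ^ 2 / 64 * N) (fun x => 1 - ∏ i, h37_cy B i x) A) ≤
          ∑ B : Fin (k + 1) → (Fin k → Fin n) → Bool,
            ind (h37_bad Q n w' (e ^ 2 / 64 * N) (fun x => 1 - ∏ i, h37_cy B i x) A) :=
        Finset.single_le_sum (f := fun B => ind (h37_bad Q n w' (e ^ 2 / 64 * N)
          (fun x => 1 - ∏ i, h37_cy B i x) A)) (fun _ _ => ind_nonneg _) (Finset.mem_univ B)
      rw [ind_pos hB] at h2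
      have h3 := ind_le_one (¬ Disc n (k + 1) (bf n (wset Q.toRankFn (rg (k + 1) n) A)) w ε)
      linarith
    by_cases h3 : h37_low Q n w (e / 4) A
    · rw [ind_pos h3]
      have h3 := ind_le_one (¬ Disc n (k + 1) (bf n (wset Q.toRankFn (rg (k + 1) n) A)) w ε)
      linarith
    have h4 := h37_disc_of k Q n w w' (e ^ 2 / 64) (e ^ 2 / 64) (e / 4) θ ε hn1 hw0 hw1 hw'
      (by positivity) hM (by linarith) (by positivity) A (fun B hB => h1 ⟨B, hB⟩)
      (fun B hB => h2 ⟨B, hB⟩) h3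
    rw [ind_neg (not_not.2 h4)]
    linarith
  have h1 := h37_E2_mono (k + 1) n q p hq0 hq1 hp0 hp1 _ _ key
  refine h1.trans ?_
  have hcard : ((Fintype.card (Fin (k + 1) → (Fin k → Fin n) → Bool) : ℕ) : ℝ) =
      (2 : ℝ) ^ ((k + 1) * n ^ k) := by
    rw [h37_card]
    push_cast
    ring
  have h2 : ∀ F : (Fin (k + 1) → (Fin k → Fin n) → Bool) → (Fin (k + 1) → Fin n) → ℝ,
      (∀ B x, 0 ≤ F B x) → (∀ B x, F B x ≤ 1) →
      E2 (k + 1) n q p (fun A => ∑ B, ind (h37_bad Q n w' (e ^ 2 / 64 * N) (F B) A)) ≤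
      e ^ 2 / 128 := by
    intro F hF0 hF1
    unfold E2
    rw [Ev_sum]
    calc ∑ B, Ev (gd (k + 1) n) (dn (k + 1) q p)
          (fun A => ind (h37_bad Q n w' (e ^ 2 / 64 * N) (F B) A))
        ≤ ∑ _B : Fin (k + 1) → (Fin k → Fin n) → Bool, τ :=
          Finset.sum_le_sum fun B _ => hconc (F B) (hF0 B) (hF1 B)
      _ = (2 : ℝ) ^ ((k + 1) * n ^ k) * τ := by
          rw [Finset.sum_const, nsmul_eq_mul, Finset.card_univ, hcard]
      _ ≤ e ^ 2 / 128 := hnum.trans hexp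
  have h3 := h2 (fun B x => ∏ i, h37_cy B i x) (fun B x => (h37_prod_mem B x).1)
    (fun B x => (h37_prod_mem B x).2)
  have h4 := h2 (fun B x => 1 - ∏ i, h37_cy B i x)
    (fun B x => by have := (h37_prod_mem B x).2; linarith)
    (fun B x => by have := (h37_prod_mem B x).1; linarith)
  unfold E2 at h3 h4 hlow' ⊢
  rw [Ev_add, Ev_add]
  linarith

end FC
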