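import Pool.Agent.H18.FC2.Defs

/-!
# First emerging cycle: the linear matroid of faces and ridges over a field
-/

namespace FC

open Finset

/-- Vector of a ridge (the unit vector) or of a face (the incidence vector). -/
noncomputable def h83_vec (F : Type*) [Field F] (d : ℕ) (τ : Finset ℕ) : Finset ℕ →₀ F :=
  if τ.card = d then Finsupp.single τ 1 else h23_bd F τ

/-- The span of the vectors. -/
noncomputable def h83_sp (F : Type*) [Field F] (d : ℕ) (S : Finset (Finset ℕ)) :
    Submodule F (Finset ℕ →₀ F) :=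
  Submodule.span F (h83_vec F d '' (S : Set (Finset ℕ)))

instance h83_fin (F : Type*) [Field F] (d : ℕ) (S : Finset (Finset ℕ)) :
    FiniteDimensional F (h83_sp F d S) :=
  FiniteDimensional.span_of_finite F (S.finite_toSet.image _)

theorem h83_sp_union (F : Type*) [Field F] (d : ℕ) (S T : Finset (Finset ℕ)) :
    h83_sp F d (S ∪ T) = h83_sp F d S ⊔ h83_sp F d T := by
  unfold h83_sp
  rw [coe_union, Set.image_union, Submodule.span_union]

theorem h83_sp_mono (F : Type*) [Field F] (d : ℕ) {S T : Finset (Finset ℕ)} (h : S ⊆ T) :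
    h83_sp F d S ≤ h83_sp F d T :=
  Submodule.span_mono (Set.image_mono (by exact_mod_cast h))

theorem h83_mem (F : Type*) [Field F] (d : ℕ) {S : Finset (Finset ℕ)} {σ : Finset ℕ}
    (h : σ ∈ S) : h83_vec F d σ ∈ h83_sp F d S :=
  Submodule.subset_span ⟨σ, by exact_mod_cast h, rfl⟩

theorem h83_sp_insert (F : Type*) [Field F] (d : ℕ) (a : Finset ℕ) (S : Finset (Finset ℕ)) :
    h83_sp F d (insert a S) = Submodule.span F {h83_vec F d a} ⊔ h83_sp F d S := by
  unfold h83_sp
  rw [coe_insert, Set.image_insert_eq, Submodule.span_insert]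

theorem h83_sp_insert_eq (F : Type*) [Field F] (d : ℕ) (a : Finset ℕ) (S : Finset (Finset ℕ))
    (h : h83_vec F d a ∈ h83_sp F d S) : h83_sp F d (insert a S) = h83_sp F d S := by
  rw [h83_sp_insert, sup_eq_right, Submodule.span_le, Set.singleton_subset_iff]
  exact h

/-- the value of an incidence vector at a ridge which is not in the face -/
theorem h83_bd_zero (F : Type*) [Field F] (σ ρ : Finset ℕ) (h : ¬ ρ ⊆ σ) :
    h23_bd F σ ρ = 0 := by
  rw [h23_bd_apply]
  refine sum_eq_zero (fun x _ => ?_)
  rw [if_neg]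
  intro h1
  exact h (h1 ▸ erase_subset x σ)

theorem h83_sp_free (F : Type*) [Field F] (d : ℕ) (S : Finset (Finset ℕ)) (e : Finset ℕ)
    (he : e.card = d) (heS : e ∉ S) (hS : ∀ τ ∈ S, τ.card = d ∨ τ.card = d + 1)
    (hS' : ∀ τ ∈ S, τ.card = d + 1 → ¬ e ⊆ τ) :
    Module.finrank F (h83_sp F d (insert e S)) = Module.finrank F (h83_sp F d S) + 1 := by
  have hker : ∀ v ∈ h83_sp F d S, v e = 0 := by
    intro v hv
    unfold h83_sp at hv
    induction hv using Submodule.span_induction with
    | mem v hv =>
      obtain ⟨τ, hτ, rfl⟩ := hv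
      have hτ' : τ ∈ S := by exact_mod_cast hτ
      unfold h83_vec
      split_ifs with h
      · rw [Finsupp.single_apply, if_neg]
        rintro rfl
        exact heS hτ'
      · refine h83_bd_zero F τ e (hS' τ hτ' ?_)
        rcases hS τ hτ' with h1 | h1
        · exact absurd h1 h
        · exact h1
    | zero => rfl
    | add u v _ _ hu hv => rw [Finsupp.add_apply, hu, hv, add_zero]
    | smul a v _ hv => rw [Finsupp.smul_apply, hv, smul_zero]
  have hval : h83_vec F d e e = 1 := by
    unfold h83_vec
    rw [if_pos he, Finsupp.single_eq_same]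
  have hne : h83_vec F d e ≠ 0 := by
    intro h
    rw [h] at hval
    exact zero_ne_one hval
  rw [h83_sp_insert]
  have h1 := Submodule.finrank_sup_add_finrank_inf_eq (Submodule.span F {h83_vec F d e})
    (h83_sp F d S)
  have h2 : Submodule.span F {h83_vec F d e} ⊓ h83_sp F d S = ⊥ := by
    rw [eq_bot_iff]
    rintro v ⟨hv1, hv2⟩
    obtain ⟨a, rfl⟩ := Submodule.mem_span_singleton.1 hv1
    have h3 := hker _ hv2
    rw [Finsupp.smul_apply, smul_eq_mul, hval, mul_one] at h3
    rw [h3, zero_smul]
    exact Submodule.zero_mem _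
  rw [h2, finrank_bot, finrank_span_singleton hne] at h1
  omega

theorem h83_vec_face (F : Type*) [Field F] (d : ℕ) (σ : Finset ℕ) (hσ : σ.card = d + 1) :
    h83_vec F d σ = ∑ x ∈ σ, ((sg (σ.erase x) x : ℤ) : F) • h83_vec F d (σ.erase x) := by
  have h1 : h83_vec F d σ = h23_bd F σ := by
    unfold h83_vec
    rw [if_neg]
    omega
  rw [h1]
  unfold h23_bd
  refine sum_congr rfl (fun x hx => ?_)
  unfold h83_vec
  rw [if_pos, Finsupp.smul_single, smul_eq_mul, mul_one]
  rw [card_erase_of_mem hx, hσ]
  rfl

theorem h83_sp_swap (F : Type*) [Field F] (d a : ℕ) (S : Finset (Finset ℕ)) :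
    Module.finrank F (h83_sp F d (S.image (fun σ => σ.image (Equiv.swap a (a + 1))))) =
      Module.finrank F (h83_sp F d S) := by
  have hinj : Function.Injective (h23_phi F a) :=
    Function.LeftInverse.injective (h23_phi_phi F a)
  have hu : ∀ σ : Finset ℕ, ((h23_eps a σ : ℤ) : F) * ((h23_eps a σ : ℤ) : F) = 1 := by
    intro σ
    rw [← Int.cast_mul, h23_eps_sq, Int.cast_one]
  have hv : ∀ σ : Finset ℕ, h83_vec F d (σ.image (Equiv.swap a (a + 1))) =
      ((h23_eps a σ : ℤ) : F) • h23_phi F a (h83_vec F d σ) := by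
    intro σ
    unfold h83_vec
    rw [card_image_of_injective _ (Equiv.swap a (a + 1)).injective]
    split_ifs with h
    · rw [h23_phi_single, Finsupp.smul_single, smul_eq_mul, one_mul, hu]
    · exact h23_bd_swap F a σ
  have h : h83_sp F d (S.image (fun σ => σ.image (Equiv.swap a (a + 1)))) =
      (h83_sp F d S).map (h23_phi F a) := by
    unfold h83_sp
    rw [Submodule.map_span, coe_image, Set.image_image, Set.image_image]
    apply le_antisymm
    · rw [Submodule.span_le]
      rintro _ ⟨σ, hσ, rfl⟩
      simp only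
      rw [hv]
      exact Submodule.smul_mem _ _ (Submodule.subset_span ⟨σ, hσ, rfl⟩)
    · rw [Submodule.span_le]
      rintro _ ⟨σ, hσ, rfl⟩
      simp only
      have h1 : h23_phi F a (h83_vec F d σ) =
          ((h23_eps a σ : ℤ) : F) • h83_vec F d (σ.image (Equiv.swap a (a + 1))) := by
        rw [hv, smul_smul, hu, one_smul]
      rw [h1]
      exact Submodule.smul_mem _ _ (Submodule.subset_span ⟨σ, hσ, rfl⟩)
  rw [h]
  exact (LinearEquiv.finrank_eq (Submodule.equivMapOfInjective _ hinj _)).symm

/-- The linear matroid of the faces and the ridges. -/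
noncomputable def h83_Q (F : Type*) [Field F] (d : ℕ) : ERank d where
  r S := Module.finrank F (h83_sp F d S)
  empty := by
    have : h83_sp F d ∅ = ⊥ := by
      unfold h83_sp
      simp
    rw [this, finrank_bot]
  mono S T h := Submodule.finrank_mono (h83_sp_mono F d h)
  ins a S := by
    rw [h83_sp_insert]
    have h1 := Submodule.finrank_add_le_finrank_add_finrank (Submodule.span F {h83_vec F d a})
      (h83_sp F d S)
    have h2 : Module.finrank F (Submodule.span F {h83_vec F d a}) ≤ 1 := by
      have h3 := finrank_span_finset_le_card (R := F) ({h83_vec F d a} : Finset (Finset ℕ →₀ F))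
      rw [coe_singleton, card_singleton] at h3
      exact h3
    omega
  submod S T := by
    rw [h83_sp_union]
    have h1 := Submodule.finrank_sup_add_finrank_inf_eq (h83_sp F d S) (h83_sp F d T)
    have h2 : Module.finrank F (h83_sp F d (S ∩ T)) ≤
        Module.finrank F (h83_sp F d S ⊓ h83_sp F d T : Submodule F (Finset ℕ →₀ F)) :=
      Submodule.finrank_mono (le_inf (h83_sp_mono F d inter_subset_left)
        (h83_sp_mono F d inter_subset_right))
    omega
  swap a S := h83_sp_swap F d a S
  free S e he heS hS hS' := h83_sp_free F d S e he heS hS hS'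
  face S σ hσ h := by
    rw [h83_sp_insert_eq]
    rw [h83_vec_face F d σ hσ]
    exact Submodule.sum_mem _ (fun x hx => Submodule.smul_mem _ _ (h83_mem F d (h x hx)))
  ridge S σ x hσ hx hσS h := by
    rw [h83_sp_insert_eq]
    have h1 := h83_mem F d hσS
    rw [h83_vec_face F d σ hσ, ← add_sum_erase σ _ hx] at h1
    have h2 : ∑ y ∈ σ.erase x, ((sg (σ.erase y) y : ℤ) : F) • h83_vec F d (σ.erase y) ∈
        h83_sp F d S := by
      refine Submodule.sum_mem _ (fun y hy => Submodule.smul_mem _ _ (h83_mem F d (h y ?_ ?_)))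
      · exact (mem_erase.1 hy).2
      · exact (mem_erase.1 hy).1
    have h3 := (Submodule.add_mem_iff_left _ h2).1 h1
    exact (Submodule.smul_mem_iff _ (h23_sg_ne F _ _)).1 h3

theorem exists_erank (F : Type*) [Field F] (d : ℕ) : ∃ Q : ERank d,
    ∀ S : Finset (Finset ℕ), (∀ τ ∈ S, τ.card = d + 1) → Q.r S = (h23_R F d).r S := by
  refine ⟨h83_Q F d, fun S hS => ?_⟩
  have h : h83_sp F d S = h23_W F S := by
    unfold h83_sp h23_W
    congr 1
    refine Set.image_congr (fun τ hτ => ?_)
    have h1 := hS τ (by exact_mod_cast hτ)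
    unfold h83_vec
    rw [if_neg]
    omega
  change Module.finrank F (h83_sp F d S) = Module.finrank F (h23_W F S)
  rw [h]

end FC
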