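import Pool.Agent.H18.FC2.Defs

/-!
# Expectations over random subsets with a density vector
-/

namespace FC

open Finset

variable {α : Type*} [DecidableEq α]

theorem Ev_empty (ρ : α → ℝ) (f : Finset α → ℝ) : Ev ∅ ρ f = f ∅ := by
  simp [Ev]

theorem Ev_insert (G : Finset α) (a : α) (ha : a ∉ G) (ρ : α → ℝ) (f : Finset α → ℝ) :
    Ev (insert a G) ρ f = (1 - ρ a) * Ev G ρ f + ρ a * Ev G ρ (fun X => f (insert a X)) := by
  unfold Ev
  rw [Finset.sum_powerset_insert ha, Finset.mul_sum, Finset.mul_sum]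
  congr 1
  · refine Finset.sum_congr rfl fun X hX => ?_
    have hXG := Finset.mem_powerset.1 hX
    have haX : a ∉ X := fun h => ha (hXG h)
    have : (insert a G) \ X = insert a (G \ X) := by
      ext y; simp only [mem_sdiff, mem_insert]
      constructor
      · rintro ⟨h1 | h1, h2⟩
        · exact Or.inl h1
        · exact Or.inr ⟨h1, h2⟩
      · rintro (h1 | h1)
        · exact ⟨Or.inl h1, h1 ▸ haX⟩
        · exact ⟨Or.inr h1.1, h1.2⟩
    rw [this, Finset.prod_insert (by simp [ha])]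
    ring
  · refine Finset.sum_congr rfl fun X hX => ?_
    have hXG := Finset.mem_powerset.1 hX
    have haX : a ∉ X := fun h => ha (hXG h)
    have : (insert a G) \ (insert a X) = G \ X := by
      ext y; simp only [mem_sdiff, mem_insert, not_or]
      constructor
      · rintro ⟨h1 | h1, h2, h3⟩
        · exact absurd h1 h2
        · exact ⟨h1, h3⟩
      · rintro ⟨h1, h2⟩
        exact ⟨Or.inr h1, fun h => ha (h ▸ h1), h2⟩
    rw [this, Finset.prod_insert haX]
    ring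

theorem Ev_congr (G : Finset α) (ρ : α → ℝ) (f g : Finset α → ℝ) (h : ∀ X ⊆ G, f X = g X) :
    Ev G ρ f = Ev G ρ g := by
  unfold Ev
  exact Finset.sum_congr rfl fun X hX => by rw [h X (Finset.mem_powerset.1 hX)]

theorem Ev_congr_dens (G : Finset α) (ρ ρ' : α → ℝ) (f : Finset α → ℝ)
    (h : ∀ i ∈ G, ρ i = ρ' i) : Ev G ρ f = Ev G ρ' f := by
  unfold Ev
  refine Finset.sum_congr rfl fun X hX => ?_
  have hXG := Finset.mem_powerset.1 hX
  have e1 : ∏ i ∈ X, ρ i = ∏ i ∈ X, ρ' i := Finset.prod_congr rfl (fun i hi => h i (hXG hi))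
  have e2 : ∏ i ∈ G \ X, (1 - ρ i) = ∏ i ∈ G \ X, (1 - ρ' i) :=
    Finset.prod_congr rfl (fun i hi => by rw [h i (Finset.mem_sdiff.1 hi).1])
  rw [e1, e2]

theorem Ev_mono (G : Finset α) (ρ : α → ℝ) (h0 : ∀ i ∈ G, 0 ≤ ρ i) (h1 : ∀ i ∈ G, ρ i ≤ 1)
    (f g : Finset α → ℝ) (h : ∀ X ⊆ G, f X ≤ g X) : Ev G ρ f ≤ Ev G ρ g := by
  unfold Ev
  refine Finset.sum_le_sum fun X hX => ?_
  have hXG := Finset.mem_powerset.1 hX
  exact mul_le_mul_of_nonneg_left (h X hXG)
    (mul_nonneg (Finset.prod_nonneg fun i hi => h0 i (hXG hi))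
      (Finset.prod_nonneg fun i hi => by linarith [h1 i (Finset.mem_sdiff.1 hi).1]))

theorem Ev_add (G : Finset α) (ρ : α → ℝ) (f g : Finset α → ℝ) :
    Ev G ρ (fun X => f X + g X) = Ev G ρ f + Ev G ρ g := by
  unfold Ev
  rw [← Finset.sum_add_distrib]
  exact Finset.sum_congr rfl fun X _ => by ring

theorem Ev_sub (G : Finset α) (ρ : α → ℝ) (f g : Finset α → ℝ) :
    Ev G ρ (fun X => f X - g X) = Ev G ρ f - Ev G ρ g := by
  unfold Ev
  rw [← Finset.sum_sub_distrib]
  exact Finset.sum_congr rfl fun X _ => by ring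

theorem Ev_mul (G : Finset α) (ρ : α → ℝ) (c : ℝ) (f : Finset α → ℝ) :
    Ev G ρ (fun X => c * f X) = c * Ev G ρ f := by
  unfold Ev
  rw [Finset.mul_sum]
  exact Finset.sum_congr rfl fun X _ => by ring

theorem Ev_sum {ι : Type*} (s : Finset ι) (G : Finset α) (ρ : α → ℝ) (f : ι → Finset α → ℝ) :
    Ev G ρ (fun X => ∑ i ∈ s, f i X) = ∑ i ∈ s, Ev G ρ (f i) := by
  unfold Ev
  rw [Finset.sum_comm]
  exact Finset.sum_congr rfl fun X _ => by rw [Finset.mul_sum]

theorem Ev_const (G : Finset α) (ρ : α → ℝ) (c : ℝ) : Ev G ρ (fun _ => c) = c := by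
  induction G using Finset.induction_on with
  | empty => exact Ev_empty _ _
  | insert a G ha ih => rw [Ev_insert G a ha, ih]; ring

theorem Ev_nonneg (G : Finset α) (ρ : α → ℝ) (h0 : ∀ i ∈ G, 0 ≤ ρ i) (h1 : ∀ i ∈ G, ρ i ≤ 1)
    (f : Finset α → ℝ) (h : ∀ X ⊆ G, 0 ≤ f X) : 0 ≤ Ev G ρ f := by
  rw [← Ev_const G ρ 0]
  exact Ev_mono G ρ h0 h1 _ _ h

theorem Ev_le_const (G : Finset α) (ρ : α → ℝ) (h0 : ∀ i ∈ G, 0 ≤ ρ i) (h1 : ∀ i ∈ G, ρ i ≤ 1)
    (f : Finset α → ℝ) (c : ℝ) (h : ∀ X ⊆ G, f X ≤ c) : Ev G ρ f ≤ c := by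
  conv_rhs => rw [← Ev_const G ρ c]
  exact Ev_mono G ρ h0 h1 _ _ h

theorem Ev_eq_Ex (G : Finset α) (q : ℝ) (f : Finset α → ℝ) :
    Ev G (fun _ => q) f = Ex G q f := by
  unfold Ev Ex
  simp only [Finset.prod_const]

theorem Ev_disj (G H : Finset α) (hd : Disjoint G H) (ρ : α → ℝ) (f : Finset α → ℝ) :
    Ev (G ∪ H) ρ f = Ev G ρ (fun X => Ev H ρ (fun Y => f (X ∪ Y))) := by
  induction G using Finset.induction_on generalizing f with
  | empty => simp [Ev_empty]
  | insert a G ha ih =>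
    have hd' : Disjoint G H := hd.mono_left (Finset.subset_insert a G)
    have haH : a ∉ H := fun h => Finset.disjoint_left.1 hd (Finset.mem_insert_self a G) h
    have hau : a ∉ G ∪ H := by simp [ha, haH]
    rw [Finset.insert_union, Ev_insert _ a hau, Ev_insert G a ha, ih hd', ih hd']
    simp only [Finset.insert_union]

theorem Ev_union (G : Finset α) (ρ ρ' : α → ℝ) (f : Finset α → ℝ) :
    Ev G ρ (fun X => Ev G ρ' (fun Y => f (X ∪ Y))) =
      Ev G (fun i => ρ i + ρ' i - ρ i * ρ' i) f := by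
  induction G using Finset.induction_on generalizing f with
  | empty => simp [Ev_empty]
  | insert a G ha ih =>
    rw [Ev_insert G a ha, Ev_insert G a ha (fun i => ρ i + ρ' i - ρ i * ρ' i)]
    have e0 : ∀ X : Finset α, Ev (insert a G) ρ' (fun Y => f (X ∪ Y)) =
        (1 - ρ' a) * Ev G ρ' (fun Y => f (X ∪ Y)) +
          ρ' a * Ev G ρ' (fun Y => f (insert a (X ∪ Y))) := by
      intro X
      rw [Ev_insert G a ha]
      simp only [Finset.union_insert]
    have e1 : Ev G ρ (fun X => Ev (insert a G) ρ' (fun Y => f (X ∪ Y))) =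
        (1 - ρ' a) * Ev G (fun i => ρ i + ρ' i - ρ i * ρ' i) f +
          ρ' a * Ev G (fun i => ρ i + ρ' i - ρ i * ρ' i) (fun X => f (insert a X)) := by
      simp only [e0]
      rw [Ev_add, Ev_mul, Ev_mul, ih f, ih (fun X => f (insert a X))]
    have e3 : ∀ X : Finset α, Ev (insert a G) ρ' (fun Y => f (insert a X ∪ Y)) =
        Ev G ρ' (fun Y => f (insert a (X ∪ Y))) := by
      intro X
      rw [Ev_insert G a ha]
      simp only [Finset.insert_union, Finset.union_insert, Finset.insert_idem]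
      ring
    have e2 : Ev G ρ (fun X => Ev (insert a G) ρ' (fun Y => f (insert a X ∪ Y))) =
        Ev G (fun i => ρ i + ρ' i - ρ i * ρ' i) (fun X => f (insert a X)) := by
      simp only [e3]
      exact ih (fun X => f (insert a X))
    rw [e1, e2]; ring

theorem Ev_zero (G H : Finset α) (hH : H ⊆ G) (ρ : α → ℝ) (h : ∀ i ∈ G, i ∉ H → ρ i = 0)
    (f : Finset α → ℝ) : Ev G ρ f = Ev H ρ f := by
  induction G using Finset.induction_on generalizing H f with
  | empty =>
    have : H = ∅ := Finset.subset_empty.1 hH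
    rw [this]
  | insert a G ha ih =>
    rw [Ev_insert G a ha]
    by_cases haH : a ∈ H
    · have hH' : H.erase a ⊆ G := by
        intro y hy
        rcases Finset.mem_insert.1 (hH (Finset.mem_of_mem_erase hy)) with h | h
        · exact absurd h (Finset.ne_of_mem_erase hy)
        · exact h
      have hz : ∀ i ∈ G, i ∉ H.erase a → ρ i = 0 := by
        intro i hi hi2
        apply h i (Finset.mem_insert_of_mem hi)
        intro hiH
        exact hi2 (Finset.mem_erase.2 ⟨fun h' => ha (h' ▸ hi), hiH⟩)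
      rw [ih (H.erase a) hH' hz f, ih (H.erase a) hH' hz (fun X => f (insert a X))]
      conv_rhs => rw [← Finset.insert_erase haH]
      rw [Ev_insert (H.erase a) a (Finset.notMem_erase a H)]
    · have hH' : H ⊆ G := fun y hy =>
        (Finset.mem_insert.1 (hH hy)).resolve_left (fun h => haH (h ▸ hy))
      rw [h a (Finset.mem_insert_self a G) haH,
        ih H hH' (fun i hi hi2 => h i (Finset.mem_insert_of_mem hi) hi2) f]
      ring

theorem Ev_union_sub (G H : Finset α) (hH : H ⊆ G) (ρ ρ' : α → ℝ) (f : Finset α → ℝ) :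
    Ev G ρ (fun X => Ev H ρ' (fun Y => f (X ∪ Y))) =
      Ev G (fun i => if i ∈ H then ρ i + ρ' i - ρ i * ρ' i else ρ i) f := by
  have h1 : ∀ X : Finset α, Ev H ρ' (fun Y => f (X ∪ Y)) =
      Ev G (fun i => if i ∈ H then ρ' i else 0) (fun Y => f (X ∪ Y)) := by
    intro X
    rw [Ev_zero G H hH (fun i => if i ∈ H then ρ' i else 0)
      (fun i _ hi => by simp [hi])]
    exact Ev_congr_dens _ _ _ _ (fun i hi => by simp [hi])
  simp only [h1]
  rw [Ev_union]
  refine Ev_congr_dens _ _ _ _ (fun i _ => ?_)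
  by_cases hi : i ∈ H
  · simp [hi]
  · simp [hi]

theorem Ev_comm {β : Type*} [DecidableEq β] (G : Finset α) (H : Finset β) (ρ : α → ℝ)
    (ρ' : β → ℝ) (f : Finset α → Finset β → ℝ) :
    Ev G ρ (fun X => Ev H ρ' (fun Y => f X Y)) = Ev H ρ' (fun Y => Ev G ρ (fun X => f X Y)) := by
  unfold Ev
  simp only [Finset.mul_sum]
  rw [Finset.sum_comm]
  refine Finset.sum_congr rfl fun Y _ => Finset.sum_congr rfl fun X _ => ?_
  ring

theorem Ev_split (G : Finset α) (a : α) (ha : a ∈ G) (ρ : α → ℝ) (f : Finset α → ℝ) :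
    Ev G ρ f = (1 - ρ a) * Ev (G.erase a) ρ f +
      ρ a * Ev (G.erase a) ρ (fun X => f (insert a X)) := by
  conv_lhs => rw [← Finset.insert_erase ha]
  rw [Ev_insert _ a (Finset.notMem_erase a G)]

theorem Ev_erase_in (G : Finset α) (a : α) (ha : a ∈ G) (ρ : α → ℝ) (h : Finset α → ℝ) :
    ρ a * Ev (G.erase a) ρ h = Ev G ρ (fun X => ind (a ∈ X) * h (X.erase a)) := by
  rw [Ev_split G a ha ρ (fun X => ind (a ∈ X) * h (X.erase a))]
  have h1 : Ev (G.erase a) ρ (fun X => ind (a ∈ X) * h (X.erase a)) = 0 := by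
    rw [← Ev_const (G.erase a) ρ 0]
    refine Ev_congr _ _ _ _ fun X hX => ?_
    rw [ind_neg (fun h' => Finset.notMem_erase a G (hX h'))]; ring
  have h2 : Ev (G.erase a) ρ (fun X => ind (a ∈ insert a X) * h ((insert a X).erase a)) =
      Ev (G.erase a) ρ h := by
    refine Ev_congr _ _ _ _ fun X hX => ?_
    rw [ind_pos (Finset.mem_insert_self a X),
      Finset.erase_insert (fun h' => Finset.notMem_erase a G (hX h'))]; ring
  rw [h1, h2]; ring

theorem Ev_erase_out (G : Finset α) (a : α) (ha : a ∈ G) (ρ : α → ℝ) (h : Finset α → ℝ) :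
    (1 - ρ a) * Ev (G.erase a) ρ h = Ev G ρ (fun X => ind (a ∉ X) * h X) := by
  rw [Ev_split G a ha ρ (fun X => ind (a ∉ X) * h X)]
  have h2 : Ev (G.erase a) ρ (fun X => ind (a ∉ insert a X) * h (insert a X)) = 0 := by
    rw [← Ev_const (G.erase a) ρ 0]
    refine Ev_congr _ _ _ _ fun X hX => ?_
    rw [ind_neg (fun h' => h' (Finset.mem_insert_self a X))]; ring
  have h1 : Ev (G.erase a) ρ (fun X => ind (a ∉ X) * h X) = Ev (G.erase a) ρ h := by
    refine Ev_congr _ _ _ _ fun X hX => ?_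
    rw [ind_pos (fun h' => Finset.notMem_erase a G (hX h'))]; ring
  rw [h1, h2]; ring

theorem Ev_erase (G : Finset α) (a : α) (ρ : α → ℝ) (h : Finset α → ℝ) :
    Ev (G.erase a) ρ h = Ev G ρ (fun X => h (X.erase a)) := by
  by_cases ha : a ∈ G
  · rw [Ev_split G a ha ρ (fun X => h (X.erase a))]
    have h1 : Ev (G.erase a) ρ (fun X => h (X.erase a)) = Ev (G.erase a) ρ h := by
      refine Ev_congr _ _ _ _ fun X hX => ?_
      rw [Finset.erase_eq_of_notMem (fun h' => Finset.notMem_erase a G (hX h'))]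
    have h2 : Ev (G.erase a) ρ (fun X => h ((insert a X).erase a)) = Ev (G.erase a) ρ h := by
      refine Ev_congr _ _ _ _ fun X hX => ?_
      rw [Finset.erase_insert (fun h' => Finset.notMem_erase a G (hX h'))]
    rw [h1, h2]; ring
  · rw [Finset.erase_eq_of_notMem ha]
    refine Ev_congr _ _ _ _ fun X hX => ?_
    rw [Finset.erase_eq_of_notMem (fun h' => ha (hX h'))]

theorem Ev_restrict (G H : Finset α) (hH : H ⊆ G) (ρ : α → ℝ) (f : Finset α → ℝ) :
    Ev G ρ (fun X => f (X ∩ H)) = Ev H ρ f := by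
  have h1 : G = H ∪ (G \ H) := (Finset.union_sdiff_of_subset hH).symm
  conv_lhs => rw [h1]
  rw [Ev_disj H (G \ H) Finset.disjoint_sdiff]
  refine Ev_congr _ _ _ _ fun X hX => ?_
  have h2 : Ev (G \ H) ρ (fun Y => f ((X ∪ Y) ∩ H)) = Ev (G \ H) ρ (fun _ => f X) := by
    refine Ev_congr _ _ _ _ fun Y hY => ?_
    congr 1
    ext y
    simp only [mem_inter, mem_union]
    constructor
    · rintro ⟨h3 | h3, h4⟩
      · exact h3
      · exact absurd h4 (Finset.mem_sdiff.1 (hY h3)).2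
    · intro h3
      exact ⟨Or.inl h3, hX h3⟩
  rw [h2, Ev_const]

theorem Ev_subset (G H : Finset α) (hH : H ⊆ G) (ρ : α → ℝ) :
    Ev G ρ (fun X => ind (H ⊆ X)) = ∏ i ∈ H, ρ i := by
  have h1 : Ev G ρ (fun X => ind (H ⊆ X)) = Ev G ρ (fun X => ind (H ⊆ X ∩ H)) := by
    refine Ev_congr _ _ _ _ fun X _ => ind_congr ?_
    exact ⟨fun h => Finset.subset_inter h (Finset.Subset.refl H),
      fun h => h.trans Finset.inter_subset_left⟩
  rw [h1, Ev_restrict G H hH ρ (fun X => ind (H ⊆ X))]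
  unfold Ev
  rw [Finset.sum_eq_single H]
  · beta_reduce
    rw [ind_pos (Finset.Subset.refl H)]; simp
  · intro X hX hne
    beta_reduce
    rw [ind_neg (fun h => hne (Finset.Subset.antisymm (Finset.mem_powerset.1 hX) h))]; ring
  · intro h; exact absurd (Finset.mem_powerset_self H) h

theorem Ev_mem (G : Finset α) (ρ : α → ℝ) (a : α) (ha : a ∈ G) :
    Ev G ρ (fun X => ind (a ∈ X)) = ρ a := by
  have h1 := Ev_erase_in G a ha ρ (fun _ => 1)
  rw [Ev_const, mul_one] at h1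
  rw [h1]
  refine Ev_congr _ _ _ _ fun X _ => ?_
  rw [mul_one]

theorem Ev_card (G : Finset α) (ρ : α → ℝ) :
    Ev G ρ (fun X => (X.card : ℝ)) = ∑ i ∈ G, ρ i := by
  have h1 : Ev G ρ (fun X => (X.card : ℝ)) = Ev G ρ (fun X => ∑ i ∈ G, ind (i ∈ X)) := by
    refine Ev_congr _ _ _ _ fun X hX => ?_
    have h2 : (X.card : ℝ) = ∑ i ∈ X, (1 : ℝ) := by simp
    rw [h2, ← Finset.sum_subset hX (fun i _ hi => ind_neg hi)]
    exact Finset.sum_congr rfl fun i hi => (ind_pos hi).symm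
  rw [h1, Ev_sum]
  exact Finset.sum_congr rfl fun i hi => Ev_mem G ρ i hi

theorem Ev_eq_empty (G : Finset α) (ρ : α → ℝ) :
    Ev G ρ (fun X => ind (X = ∅)) = ∏ i ∈ G, (1 - ρ i) := by
  unfold Ev
  rw [Finset.sum_eq_single ∅]
  · beta_reduce
    rw [ind_pos rfl]; simp
  · intro X _ hne
    beta_reduce
    rw [ind_neg hne]; ring
  · intro h; exact absurd (Finset.empty_mem_powerset G) h

theorem Ev_mono_dens (G : Finset α) (ρ ρ' : α → ℝ) (h0 : ∀ i ∈ G, 0 ≤ ρ i)
    (h : ∀ i ∈ G, ρ i ≤ ρ' i) (h1 : ∀ i ∈ G, ρ' i ≤ 1) (f : Finset α → ℝ)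
    (hf : ∀ X ⊆ G, ∀ Y ⊆ G, X ⊆ Y → f X ≤ f Y) : Ev G ρ f ≤ Ev G ρ' f := by
  induction G using Finset.induction_on generalizing f with
  | empty => simp [Ev_empty]
  | insert a G ha ih =>
    rw [Ev_insert G a ha, Ev_insert G a ha]
    have hs := Finset.subset_insert a G
    have g0 : ∀ i ∈ G, 0 ≤ ρ i := fun i hi => h0 i (hs hi)
    have g1 : ∀ i ∈ G, ρ i ≤ ρ' i := fun i hi => h i (hs hi)
    have g2 : ∀ i ∈ G, ρ' i ≤ 1 := fun i hi => h1 i (hs hi)
    have g3 : ∀ i ∈ G, ρ i ≤ 1 := fun i hi => (g1 i hi).trans (g2 i hi)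
    have k1 := ih g0 g1 g2 f (fun X hX Y hY hXY => hf X (hX.trans hs) Y (hY.trans hs) hXY)
    have k2 := ih g0 g1 g2 (fun X => f (insert a X)) (fun X hX Y hY hXY =>
      hf _ (Finset.insert_subset_insert a hX) _ (Finset.insert_subset_insert a hY)
        (Finset.insert_subset_insert a hXY))
    have k3 : Ev G ρ f ≤ Ev G ρ (fun X => f (insert a X)) :=
      Ev_mono G ρ g0 g3 _ _ (fun X hX =>
        hf _ (hX.trans hs) _ (Finset.insert_subset_insert a hX) (Finset.subset_insert a X))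
    have a0 := h0 a (Finset.mem_insert_self a G)
    have a1 := h a (Finset.mem_insert_self a G)
    have a2 := h1 a (Finset.mem_insert_self a G)
    nlinarith [mul_le_mul_of_nonneg_left k1 (by linarith : (0:ℝ) ≤ 1 - ρ' a),
      mul_le_mul_of_nonneg_left k2 (by linarith : (0:ℝ) ≤ ρ' a),
      mul_le_mul_of_nonneg_left k3 (by linarith : (0:ℝ) ≤ ρ' a - ρ a)]

theorem Ev_image {β : Type*} [DecidableEq β] (G : Finset α) (φ : α → β)
    (hφ : Set.InjOn φ (G : Set α)) (ρ : β → ℝ) (f : Finset β → ℝ) :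
    Ev (G.image φ) ρ f = Ev G (fun i => ρ (φ i)) (fun X => f (X.image φ)) := by
  induction G using Finset.induction_on generalizing f with
  | empty => simp [Ev_empty]
  | insert a G ha ih =>
    have hinj : Set.InjOn φ (G : Set α) := hφ.mono (by simp)
    have hnot : φ a ∉ G.image φ := by
      intro h
      obtain ⟨b, hb, hab⟩ := Finset.mem_image.1 h
      have : b = a := hφ (by simp [hb]) (by simp) hab
      exact ha (this ▸ hb)
    rw [Finset.image_insert, Ev_insert _ _ hnot, Ev_insert G a ha, ih hinj, ih hinj]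
    simp only [Finset.image_insert]

theorem Ev_markov (G : Finset α) (ρ : α → ℝ) (h0 : ∀ i ∈ G, 0 ≤ ρ i) (h1 : ∀ i ∈ G, ρ i ≤ 1)
    (f : Finset α → ℝ) (hf : ∀ X ⊆ G, 0 ≤ f X) (x : ℝ) (hx : 0 < x) :
    Ev G ρ (fun X => ind (x ≤ f X)) ≤ Ev G ρ f / x := by
  rw [le_div_iff₀ hx, mul_comm, ← Ev_mul]
  refine Ev_mono G ρ h0 h1 _ _ fun X hX => ?_
  by_cases h : x ≤ f X
  · rw [ind_pos h]; linarith
  · rw [ind_neg h]; simpa using hf X hX

end FC
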