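import Pool.Agent.H18.FC2.Ev
import Pool.Agent.H18.FC2.Concave
import Pool.Agent.H92.FC.Beta

/-!
# Concavity of the expected rank in two rates; comparison with `beta` and `Tm`
-/

namespace FC

open Finset

variable {d : ℕ}

theorem h89_card_of_fc {d n : ℕ} {σ : Finset ℕ} (h : σ ∈ fc d n) : σ.card = d + 1 := by
  rw [fc, mem_faces] at h
  exact h.2

theorem h89_card_of_rg {d n : ℕ} {σ : Finset ℕ} (h : σ ∈ rg d n) : σ.card = d := by
  rw [rg, mem_powersetCard] at h
  exact h.2

theorem h89_disj (d n : ℕ) : Disjoint (fc d n) (rg d n) := by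
  rw [Finset.disjoint_left]
  intro σ h1 h2
  have e1 := h89_card_of_fc h1
  have e2 := h89_card_of_rg h2
  omega

theorem h89_card_rg (d n : ℕ) : (rg d n).card = n.choose d := by
  rw [rg, card_powersetCard, card_range]

theorem h89_wset_card {α : Type*} [DecidableEq α] (R : RankFn α) (G A : Finset α) :
    ((wset R G A).card : ℝ) = ∑ e ∈ G, ind (R.Cl A e) := by
  classical
  unfold wset ind
  rw [Finset.card_filter]
  push_cast
  rfl

/-- `C(n,d+1) * (1 - Tf)` is the sum over the faces of the probabilities of not being in the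
closure. -/
theorem h89_sum_T (Q : ERank d) (n : ℕ) (q p : ℝ) :
    ∑ σ ∈ fc d n, Ev (gd d n) (dn d q p) (fun X => 1 - ind (Q.Cl X σ)) =
      (n.choose (d + 1) : ℝ) * (1 - Tf Q n q p) := by
  have h1 : E2 d n q p (fun A => ((wset Q.toRankFn (fc d n) A).card : ℝ)) =
      ∑ σ ∈ fc d n, Ev (gd d n) (dn d q p) (fun X => ind (Q.Cl X σ)) := by
    unfold E2
    rw [← Ev_sum]
    apply Ev_congr
    intro X _
    exact h89_wset_card _ _ _
  have h2 : ∑ σ ∈ fc d n, Ev (gd d n) (dn d q p) (fun X => 1 - ind (Q.Cl X σ)) =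
      (n.choose (d + 1) : ℝ) - ∑ σ ∈ fc d n, Ev (gd d n) (dn d q p) (fun X => ind (Q.Cl X σ)) := by
    have : ∀ σ ∈ fc d n, Ev (gd d n) (dn d q p) (fun X => 1 - ind (Q.Cl X σ)) =
        1 - Ev (gd d n) (dn d q p) (fun X => ind (Q.Cl X σ)) := by
      intro σ _
      rw [Ev_sub, Ev_const]
    rw [Finset.sum_congr rfl this, Finset.sum_sub_distrib, Finset.sum_const, nsmul_eq_mul, mul_one,
      card_fc]
  rw [h2]
  unfold Tf
  rw [h1]
  by_cases hc : (n.choose (d + 1) : ℝ) = 0
  · have hfc : fc d n = ∅ := by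
      rw [← Finset.card_eq_zero, card_fc]
      exact_mod_cast hc
    rw [hfc, hc]
    simp
  · field_simp

theorem h89_sum_W (Q : ERank d) (n : ℕ) (q p : ℝ) :
    ∑ e ∈ rg d n, Ev (gd d n) (dn d q p) (fun X => 1 - ind (Q.Cl X e)) =
      (n.choose d : ℝ) * (1 - Wf Q n q p) := by
  have h1 : E2 d n q p (fun A => ((wset Q.toRankFn (rg d n) A).card : ℝ)) =
      ∑ e ∈ rg d n, Ev (gd d n) (dn d q p) (fun X => ind (Q.Cl X e)) := by
    unfold E2
    rw [← Ev_sum]
    apply Ev_congr
    intro X _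
    exact h89_wset_card _ _ _
  have h2 : ∑ e ∈ rg d n, Ev (gd d n) (dn d q p) (fun X => 1 - ind (Q.Cl X e)) =
      (n.choose d : ℝ) - ∑ e ∈ rg d n, Ev (gd d n) (dn d q p) (fun X => ind (Q.Cl X e)) := by
    have : ∀ e ∈ rg d n, Ev (gd d n) (dn d q p) (fun X => 1 - ind (Q.Cl X e)) =
        1 - Ev (gd d n) (dn d q p) (fun X => ind (Q.Cl X e)) := by
      intro e _
      rw [Ev_sub, Ev_const]
    rw [Finset.sum_congr rfl this, Finset.sum_sub_distrib, Finset.sum_const, nsmul_eq_mul, mul_one,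
      h89_card_rg]
  rw [h2]
  unfold Wf
  rw [h1]
  by_cases hc : (n.choose d : ℝ) = 0
  · have hrg : rg d n = ∅ := by
      rw [← Finset.card_eq_zero, h89_card_rg]
      exact_mod_cast hc
    rw [hrg, hc]
    simp
  · field_simp

theorem g2 (Q : ERank d) (n : ℕ) (μ l μ' l' : ℝ) (h1 : 0 ≤ μ) (h2 : 0 ≤ l) (h3 : 0 ≤ μ')
    (h4 : 0 ≤ l') :
    Rf Q n (rt μ') (rt l') ≤ Rf Q n (rt μ) (rt l) +
      (μ' - μ) * ((n.choose (d + 1) : ℝ) * (1 - Tf Q n (rt μ) (rt l))) +
      (l' - l) * ((n.choose d : ℝ) * (1 - Wf Q n (rt μ) (rt l))) := by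
  set a : Finset ℕ → ℝ := fun τ => if τ.card = d + 1 then μ else l with ha
  set b : Finset ℕ → ℝ := fun τ => if τ.card = d + 1 then μ' else l' with hb
  have ha0 : ∀ i, 0 ≤ a i := by
    intro i
    simp only [ha]
    split_ifs
    · exact h1
    · exact h2
  have hb0 : ∀ i, 0 ≤ b i := by
    intro i
    simp only [hb]
    split_ifs
    · exact h3
    · exact h4
  have hra : (fun i => rt (a i)) = dn d (rt μ) (rt l) := by
    funext i
    simp only [ha, dn]
    split_ifs <;> rfl
  have hrb : (fun i => rt (b i)) = dn d (rt μ') (rt l') := by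
    funext i
    simp only [hb, dn]
    split_ifs <;> rfl
  have key := rank_concave Q.toRankFn (gd d n) a b ha0 hb0
  rw [hra, hrb] at key
  have hsum : ∑ i ∈ gd d n, (b i - a i) * Ev (gd d n) (dn d (rt μ) (rt l))
        (fun X => 1 - ind (Q.Cl X i)) =
      (μ' - μ) * ((n.choose (d + 1) : ℝ) * (1 - Tf Q n (rt μ) (rt l))) +
      (l' - l) * ((n.choose d : ℝ) * (1 - Wf Q n (rt μ) (rt l))) := by
    rw [← h89_sum_T, ← h89_sum_W, Finset.mul_sum, Finset.mul_sum]
    conv_lhs => rw [gd]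
    rw [Finset.sum_union (h89_disj d n)]
    congr 1
    · apply Finset.sum_congr rfl
      intro σ hσ
      simp only [ha, hb, h89_card_of_fc hσ, if_true]
      rfl
    · apply Finset.sum_congr rfl
      intro e he
      have hne : ¬ (e.card = d + 1) := by
        rw [h89_card_of_rg he]
        omega
      simp only [ha, hb, hne, if_false]
      rfl
  rw [hsum] at key
  unfold Rf E2
  linarith [key]

/-- With no ridges, the expectation is the one over the faces. -/
theorem h89_E2_zero (d n : ℕ) (q : ℝ) (f : Finset (Finset ℕ) → ℝ) :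
    E2 d n q 0 f = Ex (fc d n) q f := by
  unfold E2
  rw [Ev_zero (gd d n) (fc d n) (by unfold gd; exact subset_union_left) (dn d q 0) _ f]
  · rw [← Ev_eq_Ex]
    apply Ev_congr_dens
    intro i hi
    simp only [dn, h89_card_of_fc hi, if_true]
  · intro i hi hn
    unfold gd at hi
    rw [mem_union] at hi
    rcases hi with hi | hi
    · exact absurd hi hn
    · have hne : ¬ (i.card = d + 1) := by
        rw [h89_card_of_rg hi]
        omega
      simp only [dn, hne, if_false]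

theorem beta_eq_Rf (Q : ERank d) (R : CRank d)
    (h : ∀ S : Finset (Finset ℕ), (∀ τ ∈ S, τ.card = d + 1) → Q.r S = R.r S) (n : ℕ) (q : ℝ) :
    beta R n q = (n.choose (d + 1) : ℝ) * q - Rf Q n q 0 := by
  unfold Rf beta
  rw [h89_E2_zero]
  have hle : ∀ X : Finset (Finset ℕ), R.r X ≤ X.card := by
    intro X
    induction X using Finset.induction_on with
    | empty => rw [R.empty]; exact Nat.zero_le _
    | insert a s ha ih =>
      have := R.ins a s
      rw [Finset.card_insert_of_notMem ha]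
      omega
  have e1 : Ex (fc d n) q (fun X => (R.nul X : ℝ)) =
      Ex (fc d n) q (fun X => (X.card : ℝ) - (Q.r X : ℝ)) := by
    apply Ex_congr
    intro X hX
    have hr : Q.r X = R.r X := h X (fun τ hτ => h89_card_of_fc (hX hτ))
    rw [hr]
    unfold RankFn.nul
    rw [Nat.cast_sub (hle X)]
  rw [e1, Ex_sub, Ex_card, card_fc]
  ring

theorem Tm_le_Tf (Q : ERank d) (R : CRank d)
    (h : ∀ S : Finset (Finset ℕ), (∀ τ ∈ S, τ.card = d + 1) → Q.r S = R.r S) (n : ℕ) (q : ℝ)
    (hq0 : 0 ≤ q) (hq1 : q ≤ 1) :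
    Tm R n q ≤ (n.choose (d + 1) : ℝ) * Tf Q n q 0 := by
  have hT : (n.choose (d + 1) : ℝ) * Tf Q n q 0 =
      ∑ σ ∈ fc d n, Ex (fc d n) q (fun X => ind (Q.Cl X σ)) := by
    have h1 := h89_sum_T Q n q 0
    have h2 : ∑ σ ∈ fc d n, Ev (gd d n) (dn d q 0) (fun X => 1 - ind (Q.Cl X σ)) =
        (n.choose (d + 1) : ℝ) - ∑ σ ∈ fc d n, Ex (fc d n) q (fun X => ind (Q.Cl X σ)) := by
      have : ∀ σ ∈ fc d n, Ev (gd d n) (dn d q 0) (fun X => 1 - ind (Q.Cl X σ)) =
          1 - Ex (fc d n) q (fun X => ind (Q.Cl X σ)) := by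
        intro σ _
        have h0 := h89_E2_zero d n q (fun X => ind (Q.Cl X σ))
        unfold E2 at h0
        rw [Ev_sub, Ev_const, h0]
      rw [Finset.sum_congr rfl this, Finset.sum_sub_distrib, Finset.sum_const, nsmul_eq_mul,
        mul_one, card_fc]
    rw [h2] at h1
    linarith
  rw [hT]
  unfold Tm
  apply Finset.sum_le_sum
  intro σ hσ
  have hX : ∀ X : Finset (Finset ℕ), X ⊆ (fc d n).erase σ →
      ind (R.r (insert σ X) = R.r X) = ind (Q.Cl X σ) := by
    intro X hX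
    apply ind_congr
    have hXc : ∀ τ ∈ X, τ.card = d + 1 := fun τ hτ =>
      h89_card_of_fc (Finset.mem_of_mem_erase (hX hτ))
    have hr : Q.r X = R.r X := h X hXc
    have hr' : Q.r (insert σ X) = R.r (insert σ X) := by
      apply h
      intro τ hτ
      rw [mem_insert] at hτ
      rcases hτ with rfl | hτ
      · exact h89_card_of_fc hσ
      · exact hXc τ hτ
    unfold RankFn.Cl
    rw [hr, hr']
  rw [Ex_congr _ _ _ _ hX]
  have hsplit := Ex_split (fc d n) σ hσ q (fun X => ind (Q.Cl X σ))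
  have hone : Ex ((fc d n).erase σ) q (fun X => ind (Q.Cl (insert σ X) σ)) = 1 := by
    have : ∀ X ⊆ (fc d n).erase σ, ind (Q.Cl (insert σ X) σ) = 1 := by
      intro X _
      apply ind_pos
      unfold RankFn.Cl
      rw [Finset.insert_idem]
    rw [Ex_congr _ _ _ (fun _ => 1) this, Ex_const]
  have hle : Ex ((fc d n).erase σ) q (fun X => ind (Q.Cl X σ)) ≤ 1 :=
    Ex_le_const _ _ hq0 hq1 _ _ (fun X _ => ind_le_one _)
  rw [hsplit, hone]
  nlinarith [hle, hq0]

end FC
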