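import Pool.Agent.H18.FC2.Ev
import Pool.Agent.H18.FC2.Concave
import Pool.Agent.H92.FC.Beta

/-!
# New vertices: the link inequality
-/

namespace FC

open Finset

section Con

variable {α : Type*} [DecidableEq α]

/-- The contraction of the elements of `W`. -/
def h44_con (R : RankFn α) (W : Finset α) : RankFn α where
  r S := R.r (S ∪ W) - R.r W
  empty := by simp
  mono S T h := by
    have := R.mono (S ∪ W) (T ∪ W) (union_subset_union h (Subset.refl W))
    omega
  ins a S := by
    have := R.ins a (S ∪ W)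
    rw [insert_union]
    omega
  submod S T := by
    have h1 := R.submod (S ∪ W) (T ∪ W)
    rw [← inter_union_distrib_right, union_union_union_comm, union_idempotent] at h1
    have h2 := R.mono W (S ∩ T ∪ W) subset_union_right
    have h3 := R.mono W (S ∪ T ∪ W) subset_union_right
    have h4 := R.mono W (S ∪ W) subset_union_right
    have h5 := R.mono W (T ∪ W) subset_union_right
    omega

theorem h44_con_add (R : RankFn α) (W S : Finset α) :
    (h44_con R W).r S + R.r W = R.r (S ∪ W) := by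
  have := R.mono W (S ∪ W) subset_union_right
  change R.r (S ∪ W) - R.r W + R.r W = R.r (S ∪ W)
  omega

/-- adding sets to a set containing `W` -/
theorem h44_add (R : RankFn α) (W T : Finset α) (hWT : W ⊆ T) {ι : Type*} [DecidableEq ι]
    (s : Finset ι) (Z : ι → Finset α) :
    R.r (T ∪ s.biUnion Z) ≤ R.r T + ∑ j ∈ s, (h44_con R W).r (Z j) := by
  induction s using Finset.induction_on with
  | empty => simp
  | insert j s hj ih =>
    rw [sum_insert hj, biUnion_insert]
    have h1 := R.submod (T ∪ s.biUnion Z) (Z j ∪ W)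
    have h2 : T ∪ s.biUnion Z ∪ (Z j ∪ W) = T ∪ (Z j ∪ s.biUnion Z) := by
      ext x
      simp only [mem_union]
      have := @hWT x
      tauto
    have h3 := R.mono W ((T ∪ s.biUnion Z) ∩ (Z j ∪ W))
      (subset_inter (hWT.trans subset_union_left) subset_union_right)
    have h4 := h44_con_add R W (Z j)
    rw [h2] at h1
    omega

/-- adding elements of the closure -/
theorem h44_cl (R : RankFn α) (A W : Finset α) (h : ∀ i ∈ W, R.Cl A i) : R.r (A ∪ W) = R.r A := by
  induction W using Finset.induction_on with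
  | empty => simp
  | insert i W hi ih =>
    rw [union_insert, R.cl_mono subset_union_left i (h i (mem_insert_self i W))]
    exact ih fun y hy => h y (mem_insert_of_mem hy)

theorem h44_union_card (R : RankFn α) (A P : Finset α) : R.r (A ∪ P) ≤ R.r A + P.card := by
  have h1 := R.submod A P
  have h2 := R.r_le_card P
  omega

end Con

variable {d : ℕ}

theorem h44_rt_log {v : ℝ} (hv1 : v < 1) : rt (-Real.log (1 - v)) = v := by
  unfold rt
  rw [neg_neg, Real.exp_log (by linarith)]
  ring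

theorem h44_rt_nonneg {x : ℝ} (hx : 0 ≤ x) : 0 ≤ rt x := by
  unfold rt
  have := Real.exp_le_one_iff.2 (neg_nonpos.2 hx)
  linarith

theorem h44_rt_le_one (x : ℝ) : rt x ≤ 1 := by
  unfold rt
  have := Real.exp_pos (-x)
  linarith

theorem h44_rt_le (x : ℝ) : rt x ≤ x := by
  unfold rt
  have := Real.add_one_le_exp (-x)
  linarith

theorem h44_mem_rg {n : ℕ} {e : Finset ℕ} : e ∈ rg d n ↔ e ⊆ range n ∧ e.card = d := by
  unfold rg
  exact mem_powersetCard

theorem h44_notMem {n a : ℕ} (ha : n ≤ a) {e : Finset ℕ} (he : e ⊆ range n) : a ∉ e := by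
  intro h
  have := mem_range.1 (he h)
  omega

theorem h44_insert_inj {a : ℕ} {e f : Finset ℕ} (he : a ∉ e) (hf : a ∉ f)
    (h : insert a e = insert a f) : e = f := by
  rw [← erase_insert he, ← erase_insert hf, h]

/-- The expected rank of the random faces through the new vertex over a fixed set of ridges. -/
theorem h44_bound (Q : ERank d) (hd : 1 ≤ d) (n a : ℕ) (ha : n ≤ a) (W : Finset (Finset ℕ))
    (hW : W ⊆ rg d n) (μ v : ℝ) (hμ : 0 ≤ μ) (hv0 : 0 ≤ v) (hv1 : v < 1) :
    Ev (W.image (insert a)) (fun _ => rt μ) (fun Y => ((h44_con Q.toRankFn W).r Y : ℝ)) ≤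
      (n.choose (d - 1) : ℝ) * Ef v + μ * (W.card : ℝ) * (1 - v ^ d) := by
  set R' := h44_con Q.toRankFn W with hR'
  set T := (range n).powersetCard (d - 1) with hT
  set Fa := W.image (insert a) with hFa
  set Sa := T.image (insert a) with hSa
  have hTa : ∀ s ∈ T, a ∉ s ∧ s.card = d - 1 ∧ s ⊆ range n := fun s hs => by
    rw [hT, mem_powersetCard] at hs
    exact ⟨h44_notMem ha hs.1, hs.2, hs.1⟩
  have hWa : ∀ f ∈ W, a ∉ f ∧ f.card = d ∧ f ⊆ range n := fun f hf => by
    have := h44_mem_rg.1 (hW hf)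
    exact ⟨h44_notMem ha this.1, this.2, this.1⟩
  have hFc : ∀ i ∈ Fa, i.card = d + 1 := fun i hi => by
    obtain ⟨f, hf, rfl⟩ := mem_image.1 hi
    obtain ⟨h1, h2, _⟩ := hWa f hf
    rw [card_insert_of_notMem h1, h2]
  have hSc : ∀ i ∈ Sa, i.card = d ∧ a ∈ i := fun i hi => by
    obtain ⟨s, hs, rfl⟩ := mem_image.1 hi
    obtain ⟨h1, h2, _⟩ := hTa s hs
    rw [card_insert_of_notMem h1, h2]
    exact ⟨by omega, mem_insert_self a s⟩
  have hdisj : Disjoint Fa Sa := by
    rw [disjoint_left]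
    intro i h1 h2
    have e1 := hFc i h1
    have e2 := (hSc i h2).1
    omega
  have hcardF : Fa.card = W.card := card_image_of_injOn fun e he f hf h =>
    h44_insert_inj (hWa e he).1 (hWa f hf).1 h
  have hcardS : Sa.card = n.choose (d - 1) := by
    rw [hSa, card_image_of_injOn fun e he f hf h => h44_insert_inj (hTa e he).1 (hTa f hf).1 h,
      hT, card_powersetCard, card_range]
  set l0 : ℝ := -Real.log (1 - v) with hl0
  have hl0n : 0 ≤ l0 := by
    rw [hl0, neg_nonneg]
    exact Real.log_nonpos (by linarith) (by linarith)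
  have hrl : rt l0 = v := h44_rt_log hv1
  have hr0 : rt 0 = 0 := by simp [rt]
  set A : Finset ℕ → ℝ := fun i => if i.card = d + 1 then 0 else l0 with hA
  set B : Finset ℕ → ℝ := fun i => if i.card = d + 1 then μ else 0 with hB
  have key := rank_concave R' (Fa ∪ Sa) A B
    (fun i => by simp only [hA]; split_ifs <;> first | exact le_rfl | exact hl0n)
    (fun i => by simp only [hB]; split_ifs <;> first | exact le_rfl | exact hμ)
  have hBF : ∀ f : Finset (Finset ℕ) → ℝ,
      Ev (Fa ∪ Sa) (fun i => rt (B i)) f = Ev Fa (fun _ => rt μ) f := by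
    intro f
    rw [Ev_zero (Fa ∪ Sa) Fa subset_union_left]
    · refine Ev_congr_dens _ _ _ _ fun i hi => ?_
      simp only [hB, if_pos (hFc i hi)]
    · intro i hi hi'
      have h1 : i ∈ Sa := (mem_union.1 hi).resolve_left hi'
      have h2 := (hSc i h1).1
      simp only [hB, if_neg (by omega : ¬ i.card = d + 1), hr0]
  have hAS : ∀ f : Finset (Finset ℕ) → ℝ,
      Ev (Fa ∪ Sa) (fun i => rt (A i)) f = Ev Sa (fun _ => v) f := by
    intro f
    rw [Ev_zero (Fa ∪ Sa) Sa subset_union_right]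
    · refine Ev_congr_dens _ _ _ _ fun i hi => ?_
      have h2 := (hSc i hi).1
      simp only [hA, if_neg (by omega : ¬ i.card = d + 1), hrl]
    · intro i hi hi'
      have h1 : i ∈ Fa := (mem_union.1 hi).resolve_right hi'
      simp only [hA, if_pos (hFc i h1), hr0]
  rw [hBF, hAS] at key
  simp only [hAS] at key
  rw [sum_union hdisj] at key
  -- the rank of the random ridges
  have k1 : Ev Sa (fun _ => v) (fun X => (R'.r X : ℝ)) ≤ v * (n.choose (d - 1) : ℝ) := by
    calc Ev Sa (fun _ => v) (fun X => (R'.r X : ℝ)) ≤ Ev Sa (fun _ => v) (fun X => (X.card : ℝ)) :=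
          Ev_mono _ _ (fun _ _ => hv0) (fun _ _ => hv1.le) _ _ fun X _ => by
            exact_mod_cast R'.r_le_card X
      _ = v * (n.choose (d - 1) : ℝ) := by
          rw [Ev_card, sum_const, nsmul_eq_mul, hcardS]
          ring
  have hXWc : ∀ X ⊆ Sa, ∀ τ ∈ X ∪ W, τ.card = d := by
    intro X hX τ hτ
    rcases mem_union.1 hτ with h | h
    · exact (hSc τ (hX h)).1
    · exact (hWa τ h).2.1
  have hcl : ∀ X i, R'.Cl X i ↔ Q.r (insert i (X ∪ W)) = Q.r (X ∪ W) := by
    intro X i
    have h1 := h44_con_add Q.toRankFn W (insert i X)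
    have h2 := h44_con_add Q.toRankFn W X
    rw [insert_union] at h1
    unfold RankFn.Cl
    rw [hR']
    omega
  -- ridges
  have k2 : ∀ i ∈ Sa, (B i - A i) * Ev Sa (fun _ => v) (fun X => 1 - ind (R'.Cl X i)) =
      (1 - v) * Real.log (1 - v) := by
    intro i hi
    have h1 : Ev Sa (fun _ => v) (fun X => 1 - ind (R'.Cl X i)) =
        Ev Sa (fun _ => v) (fun X => 1 - ind (i ∈ X)) := by
      refine Ev_congr _ _ _ _ fun X hX => ?_
      congr 1
      refine ind_congr ?_
      rw [hcl]
      constructor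
      · intro h
        by_contra hiX
        have h2 := Q.free (X ∪ W) i (hSc i hi).1 (by
          intro h3
          rcases mem_union.1 h3 with h3 | h3
          · exact hiX h3
          · exact (hWa i h3).1 (hSc i hi).2) (fun τ hτ => Or.inl (hXWc X hX τ hτ))
          (fun τ hτ h4 => by
            have := hXWc X hX τ hτ
            omega)
        omega
      · intro h
        rw [insert_eq_of_mem (mem_union_left W h)]
    rw [h1, Ev_sub, Ev_const, Ev_mem _ _ _ hi]
    have h2 := (hSc i hi).1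
    simp only [hA, hB, if_neg (by omega : ¬ i.card = d + 1), hl0]
    ring
  -- faces
  have k3 : ∀ i ∈ Fa, (B i - A i) * Ev Sa (fun _ => v) (fun X => 1 - ind (R'.Cl X i)) ≤
      μ * (1 - v ^ d) := by
    intro i hi
    have h0 := hFc i hi
    simp only [hA, hB, if_pos h0, sub_zero]
    refine mul_le_mul_of_nonneg_left ?_ hμ
    obtain ⟨f, hf, rfl⟩ := mem_image.1 hi
    obtain ⟨f1, f2, f3⟩ := hWa f hf
    set H := f.image (fun x => (insert a f).erase x) with hH
    have hHinj : Set.InjOn (fun x => (insert a f).erase x) (f : Set ℕ) := by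
      intro x hx y hy hxy
      by_contra hne
      have h1 : x ∈ (insert a f).erase y := mem_erase.2 ⟨hne, mem_insert_of_mem hx⟩
      simp only at hxy
      rw [← hxy] at h1
      exact (mem_erase.1 h1).1 rfl
    have hHc : H.card = d := by rw [hH, card_image_of_injOn hHinj, f2]
    have hHS : H ⊆ Sa := by
      intro e he
      obtain ⟨x, hx, rfl⟩ := mem_image.1 he
      have hax : a ≠ x := fun h => f1 (h ▸ hx)
      refine mem_image.2 ⟨f.erase x, ?_, ?_⟩
      · rw [hT, mem_powersetCard, card_erase_of_mem hx, f2]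
        exact ⟨(erase_subset x f).trans f3, rfl⟩
      · rw [erase_insert_of_ne hax]
    have h1 : Ev Sa (fun _ => v) (fun X => ind (H ⊆ X)) = v ^ d := by
      rw [Ev_subset Sa H hHS, prod_const, hHc]
    calc Ev Sa (fun _ => v) (fun X => 1 - ind (R'.Cl X (insert a f)))
        ≤ Ev Sa (fun _ => v) (fun X => 1 - ind (H ⊆ X)) := by
          refine Ev_mono _ _ (fun _ _ => hv0) (fun _ _ => hv1.le) _ _ fun X hX => ?_
          have : ind (H ⊆ X) ≤ ind (R'.Cl X (insert a f)) := ind_mono fun hHX => by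
            rw [hcl]
            refine Q.face (X ∪ W) (insert a f) h0 fun x hx => ?_
            rcases mem_insert.1 hx with rfl | hx
            · rw [erase_insert f1]
              exact mem_union_right X hf
            · exact mem_union_left W (hHX (mem_image.2 ⟨x, hx, rfl⟩))
          linarith
      _ = 1 - v ^ d := by rw [Ev_sub, Ev_const, h1]
  have k4 := sum_le_sum k3
  rw [sum_congr rfl k2] at key
  rw [sum_const, nsmul_eq_mul, hcardF] at k4
  rw [sum_const, nsmul_eq_mul, hcardS] at key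
  unfold Ef
  nlinarith

/-- All faces with exactly one new vertex. -/
def h44_Fs (d n J : ℕ) : Finset (Finset ℕ) :=
  (range J).biUnion (fun j => (rg d n).image (insert (n + j)))

theorem h44_Fs_sub (d n J : ℕ) : h44_Fs d n J ⊆ fc d (n + J) := by
  intro σ hσ
  obtain ⟨j, hj, hσ⟩ := mem_biUnion.1 hσ
  obtain ⟨f, hf, rfl⟩ := mem_image.1 hσ
  obtain ⟨h1, h2⟩ := h44_mem_rg.1 hf
  have hj' := mem_range.1 hj
  unfold fc
  rw [mem_faces, card_insert_of_notMem (h44_notMem (by omega) h1), h2]
  refine ⟨insert_subset (mem_range.2 (by omega)) (h1.trans ?_), rfl⟩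
  exact range_subset_range.2 (by omega)

theorem h44_Fs_disj (d n J : ℕ) : Disjoint (fc d n) (h44_Fs d n J) := by
  rw [disjoint_left]
  intro σ h1 h2
  obtain ⟨j, hj, h2⟩ := mem_biUnion.1 h2
  obtain ⟨f, hf, rfl⟩ := mem_image.1 h2
  unfold fc at h1
  rw [mem_faces] at h1
  have := mem_range.1 (h1.1 (mem_insert_self (n + j) f))
  omega

/-- The deterministic inequality. -/
theorem h44_det (Q : ERank d) (R : CRank d)
    (h : ∀ S : Finset (Finset ℕ), (∀ τ ∈ S, τ.card = d + 1) → Q.r S = R.r S) (n J : ℕ)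
    (X P Y W : Finset (Finset ℕ)) (hX : X ⊆ fc d n) (hY : Y ⊆ h44_Fs d n J)
    (hW : W ⊆ rg d n) (hcl : ∀ i ∈ W, Q.Cl (X ∪ P) i) :
    R.nul X + ∑ j ∈ range J, (Y ∩ W.image (insert (n + j))).card ≤
      R.nul (X ∪ Y) + ∑ j ∈ range J, (h44_con Q.toRankFn W).r (Y ∩ W.image (insert (n + j))) +
        P.card := by
  set Z : ℕ → Finset (Finset ℕ) := fun j => Y ∩ W.image (insert (n + j)) with hZ
  set Y' := (range J).biUnion Z with hY'
  have hY'Y : Y' ⊆ Y := biUnion_subset.2 fun j _ => inter_subset_left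
  have hcX : ∀ τ ∈ X, τ.card = d + 1 := fun τ hτ => by
    have := hX hτ
    unfold fc at this
    exact (mem_faces.1 this).2
  have hcY : ∀ τ ∈ Y', τ.card = d + 1 := fun τ hτ => by
    have := h44_Fs_sub d n J (hY (hY'Y hτ))
    unfold fc at this
    exact (mem_faces.1 this).2
  have e1 := R.nul_mono (union_subset_union (Subset.refl X) hY'Y)
  have e2 := R.nul_add X
  have e3 := R.nul_add (X ∪ Y')
  have hd1 : Disjoint X Y' :=
    (h44_Fs_disj d n J).mono hX (hY'Y.trans hY)
  rw [card_union_of_disjoint hd1] at e3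
  have hd2 : ∀ i ∈ range J, ∀ j ∈ range J, i ≠ j → Disjoint (Z i) (Z j) := by
    intro i _ j _ hij
    rw [disjoint_left]
    intro σ h1 h2
    obtain ⟨f, hf, hfσ⟩ := mem_image.1 (mem_inter.1 h1).2
    obtain ⟨g, hg, hgσ⟩ := mem_image.1 (mem_inter.1 h2).2
    have h3 : n + i ∈ insert (n + j) g := by
      rw [hgσ, ← hfσ]
      exact mem_insert_self _ _
    rcases mem_insert.1 h3 with h4 | h4
    · omega
    · exact h44_notMem (by omega : n ≤ n + i) (h44_mem_rg.1 (hW hg)).1 h4
  have e4 : Y'.card = ∑ j ∈ range J, (Z j).card := card_biUnion hd2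
  have e5 := h X hcX
  have e6 := h (X ∪ Y') (fun τ hτ => (mem_union.1 hτ).elim (hcX τ) (hcY τ))
  have e7 : Q.r (X ∪ Y') ≤ Q.r (X ∪ P ∪ W ∪ Y') := Q.mono _ _
    (union_subset_union (subset_union_left.trans subset_union_left) (Subset.refl _))
  have e8 : Q.r (X ∪ P ∪ W ∪ Y') ≤ Q.r (X ∪ P ∪ W) +
      ∑ j ∈ range J, (h44_con Q.toRankFn W).r (Z j) :=
    h44_add Q.toRankFn W (X ∪ P ∪ W) subset_union_right (range J) Z
  have e9 := h44_cl Q.toRankFn (X ∪ P) W hcl
  have e10 := h44_union_card Q.toRankFn X P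
  change R.nul X + ∑ j ∈ range J, (Z j).card ≤
      R.nul (X ∪ Y) + ∑ j ∈ range J, (h44_con Q.toRankFn W).r (Z j) + P.card
  omega

theorem h44_mem_wset (Q : ERank d) (G A : Finset (Finset ℕ)) (e : Finset ℕ) :
    e ∈ wset Q.toRankFn G A ↔ e ∈ G ∧ Q.Cl A e := by
  classical
  unfold wset
  exact mem_filter

theorem h44_wset_sub (Q : ERank d) (n : ℕ) (A : Finset (Finset ℕ)) :
    wset Q.toRankFn (rg d n) A ⊆ rg d n :=
  fun _ he => ((h44_mem_wset Q _ _ _).1 he).1

theorem h44_card_rg (d n : ℕ) : (rg d n).card = n.choose d := by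
  unfold rg
  rw [card_powersetCard, card_range]

theorem link (Q : ERank d) (R : CRank d) (hd : 2 ≤ d)
    (h : ∀ S : Finset (Finset ℕ), (∀ τ ∈ S, τ.card = d + 1) → Q.r S = R.r S) (n J : ℕ)
    (μ p v : ℝ) (hμ : 0 ≤ μ) (hp0 : 0 ≤ p) (hp1 : p ≤ 1) (hv0 : 0 ≤ v) (hv1 : v < 1) :
    (J : ℝ) * (μ * (Wf Q n (rt μ) p * (n.choose d : ℝ)) * v ^ d -
      (n.choose (d - 1) : ℝ) * Ef v - (μ - rt μ) * (n.choose d : ℝ)) - p * (n.choose d : ℝ) ≤
    beta R (n + J) (rt μ) - beta R n (rt μ) := by
  set q := rt μ with hq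
  have hq0 : 0 ≤ q := h44_rt_nonneg hμ
  have hq1 : q ≤ 1 := h44_rt_le_one μ
  have hqμ : q ≤ μ := h44_rt_le μ
  set M : ℝ := (n.choose d : ℝ) with hM
  set E : ℝ := (n.choose (d - 1) : ℝ) * Ef v with hE
  have hsub : fc d n ∪ h44_Fs d n J ⊆ fc d (n + J) := by
    refine union_subset ?_ (h44_Fs_sub d n J)
    unfold fc
    exact faces_mono (range_subset_range.2 (by omega))
  set w : Finset (Finset ℕ) → ℝ := fun A => ((wset Q.toRankFn (rg d n) A).card : ℝ) with hw
  -- the expectation of the number of ridges in the closure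
  have hE2 : ∀ f : Finset (Finset ℕ) → ℝ, E2 d n q p f =
      Ev (fc d n) (fun _ => q) (fun X => Ev (rg d n) (fun _ => p) (fun P => f (X ∪ P))) := by
    intro f
    have hdis : Disjoint (fc d n) (rg d n) := by
      rw [disjoint_left]
      intro σ h1 h2
      unfold fc at h1
      have e1 := (mem_faces.1 h1).2
      have e2 := (h44_mem_rg.1 h2).2
      omega
    unfold E2 gd
    rw [Ev_disj _ _ hdis]
    rw [Ev_congr_dens (fc d n) (dn d q p) (fun _ => q) _ (fun i hi => by
      unfold fc at hi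
      unfold dn
      rw [if_pos (mem_faces.1 hi).2])]
    refine Ev_congr _ _ _ _ fun X _ => ?_
    refine Ev_congr_dens _ _ _ _ fun i hi => ?_
    have e2 := (h44_mem_rg.1 hi).2
    unfold dn
    rw [if_neg (by omega)]
  have hWM : Wf Q n q p * M = E2 d n q p w := by
    unfold Wf
    by_cases hz : (n.choose d : ℝ) = 0
    · rw [hM, hz, mul_zero]
      symm
      have h1 : n.choose d = 0 := by exact_mod_cast hz
      have h2 : w = fun _ => 0 := by
        funext A
        simp only [hw]
        have h3 := card_le_card (h44_wset_sub Q n A)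
        rw [h44_card_rg] at h3
        have h4 : (wset Q.toRankFn (rg d n) A).card = 0 := by omega
        rw [h4, Nat.cast_zero]
      rw [h2]
      unfold E2
      exact Ev_const _ _ 0
    · rw [div_mul_cancel₀ _ hz]
  -- the inner inequality
  have hin : ∀ X ⊆ fc d n, ∀ P ⊆ rg d n,
      (R.nul X : ℝ) + J * (μ * w (X ∪ P) * v ^ d - E - (μ - q) * M) - (P.card : ℝ) ≤
        Ev (h44_Fs d n J) (fun _ => q) (fun Y => (R.nul (X ∪ Y) : ℝ)) := by
    intro X hX P hP
    set W := wset Q.toRankFn (rg d n) (X ∪ P) with hWdef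
    have hW : W ⊆ rg d n := h44_wset_sub Q n _
    have hcl : ∀ i ∈ W, Q.Cl (X ∪ P) i := fun i hi => ((h44_mem_wset Q _ _ _).1 hi).2
    have hWj : ∀ j ∈ range J, W.image (insert (n + j)) ⊆ h44_Fs d n J := fun j hj =>
      (image_subset_image hW).trans (subset_biUnion_of_mem
        (fun j => (rg d n).image (insert (n + j))) hj)
    have hcW : ∀ j, (W.image (insert (n + j))).card = W.card := fun j =>
      card_image_of_injOn fun e he f hf h =>
        h44_insert_inj (h44_notMem (by omega) (h44_mem_rg.1 (hW he)).1)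
          (h44_notMem (by omega) (h44_mem_rg.1 (hW hf)).1) h
    have hM' : (W.card : ℝ) ≤ M := by
      rw [hM, ← h44_card_rg d n]
      exact_mod_cast card_le_card hW
    have step : ∀ j ∈ range J, μ * (W.card : ℝ) * v ^ d - E - (μ - q) * M ≤
        Ev (h44_Fs d n J) (fun _ => q) (fun Y => ((Y ∩ W.image (insert (n + j))).card : ℝ)) -
        Ev (h44_Fs d n J) (fun _ => q)
          (fun Y => ((h44_con Q.toRankFn W).r (Y ∩ W.image (insert (n + j))) : ℝ)) := by
      intro j hj
      have s1 := Ev_restrict (h44_Fs d n J) _ (hWj j hj) (fun _ => q)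
        (fun Y => (Y.card : ℝ))
      have s2 := Ev_restrict (h44_Fs d n J) _ (hWj j hj) (fun _ => q)
        (fun Y => ((h44_con Q.toRankFn W).r Y : ℝ))
      have s3 := h44_bound Q (by omega) n (n + j) (by omega) W hW μ v hμ hv0 hv1
      rw [Ev_card, sum_const, nsmul_eq_mul, hcW] at s1
      rw [s1, s2]
      nlinarith [mul_nonneg (sub_nonneg.2 hqμ) (sub_nonneg.2 hM')]
    have hpt : ∀ Y ⊆ h44_Fs d n J,
        ((R.nul X : ℝ) + ∑ j ∈ range J, ((Y ∩ W.image (insert (n + j))).card : ℝ) -
          ∑ j ∈ range J, ((h44_con Q.toRankFn W).r (Y ∩ W.image (insert (n + j))) : ℝ)) -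
          (P.card : ℝ) ≤ (R.nul (X ∪ Y) : ℝ) := by
      intro Y hY
      have h1 := h44_det Q R h n J X P Y W hX hY hW hcl
      have h2 : ((R.nul X : ℕ) : ℝ) + ∑ j ∈ range J, ((Y ∩ W.image (insert (n + j))).card : ℝ) ≤
          ((R.nul (X ∪ Y) : ℕ) : ℝ) +
            ∑ j ∈ range J, ((h44_con Q.toRankFn W).r (Y ∩ W.image (insert (n + j))) : ℝ) +
            (P.card : ℝ) := by exact_mod_cast h1
      linarith
    have hmono := Ev_mono (h44_Fs d n J) (fun _ => q) (fun _ _ => hq0) (fun _ _ => hq1) _ _ hpt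
    rw [Ev_sub, Ev_sub, Ev_add, Ev_const, Ev_const, Ev_sum, Ev_sum] at hmono
    have hsum := sum_le_sum step
    rw [sum_const, card_range, nsmul_eq_mul, sum_sub_distrib] at hsum
    have hwX : w (X ∪ P) = (W.card : ℝ) := rfl
    rw [hwX]
    linarith
  have hbig : Ev (fc d n) (fun _ => q) (fun X => Ev (rg d n) (fun _ => p) (fun P =>
      (R.nul X : ℝ) + J * (μ * w (X ∪ P) * v ^ d - E - (μ - q) * M) - (P.card : ℝ))) ≤
      Ev (fc d n) (fun _ => q) (fun X =>
        Ev (h44_Fs d n J) (fun _ => q) (fun Y => (R.nul (X ∪ Y) : ℝ))) := by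
    refine Ev_mono _ _ (fun _ _ => hq0) (fun _ _ => hq1) _ _ fun X hX => ?_
    have h1 := Ev_mono (rg d n) (fun _ => p) (fun _ _ => hp0) (fun _ _ => hp1) _ _ (hin X hX)
    rwa [Ev_const] at h1
  have hL : Ev (fc d n) (fun _ => q) (fun X => Ev (rg d n) (fun _ => p) (fun P =>
      (R.nul X : ℝ) + J * (μ * w (X ∪ P) * v ^ d - E - (μ - q) * M) - (P.card : ℝ))) =
      beta R n q + J * (μ * (Wf Q n q p * M) * v ^ d - E - (μ - q) * M) - p * M := by
    have e1 : ∀ X : Finset (Finset ℕ), Ev (rg d n) (fun _ => p) (fun P =>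
        (R.nul X : ℝ) + J * (μ * w (X ∪ P) * v ^ d - E - (μ - q) * M) - (P.card : ℝ)) =
        (R.nul X : ℝ) + (J * μ * v ^ d) * Ev (rg d n) (fun _ => p) (fun P => w (X ∪ P)) -
          (J * (E + (μ - q) * M) + p * M) := by
      intro X
      have e2 : (fun P : Finset (Finset ℕ) =>
          (R.nul X : ℝ) + J * (μ * w (X ∪ P) * v ^ d - E - (μ - q) * M) - (P.card : ℝ)) =
          fun P => ((R.nul X : ℝ) - J * (E + (μ - q) * M)) + (J * μ * v ^ d) * w (X ∪ P) -
            (P.card : ℝ) := by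
        funext P
        ring
      rw [e2, Ev_sub, Ev_add, Ev_const, Ev_mul, Ev_card, sum_const, nsmul_eq_mul, h44_card_rg]
      ring
    simp only [e1]
    rw [Ev_sub, Ev_add, Ev_const, Ev_mul, ← hE2, ← hWM, Ev_eq_Ex]
    unfold beta
    ring
  have hR : Ev (fc d n) (fun _ => q) (fun X =>
      Ev (h44_Fs d n J) (fun _ => q) (fun Y => (R.nul (X ∪ Y) : ℝ))) ≤ beta R (n + J) q := by
    rw [← Ev_disj _ _ (h44_Fs_disj d n J) (fun _ => q) (fun X => (R.nul X : ℝ)), Ev_eq_Ex,
      ← Ex_restrict (fc d (n + J)) _ hsub q (fun X => (R.nul X : ℝ))]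
    unfold beta
    refine Ex_mono _ _ hq0 hq1 _ _ fun X _ => ?_
    exact_mod_cast R.nul_mono inter_subset_left
  rw [hL] at hbig
  linarith

end FC
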