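import Pool.Agent.H18.FC2.Ev

/-!
# First emerging cycle: bounds and monotonicity of the basic functions
-/

namespace FC

open Finset

variable {d : ℕ}

theorem h11_dn_nonneg (d : ℕ) (q p : ℝ) (hq0 : 0 ≤ q) (hp0 : 0 ≤ p) (τ : Finset ℕ) :
    0 ≤ dn d q p τ := by
  unfold dn; split_ifs <;> assumption

theorem h11_dn_le_one (d : ℕ) (q p : ℝ) (hq1 : q ≤ 1) (hp1 : p ≤ 1) (τ : Finset ℕ) :
    dn d q p τ ≤ 1 := by
  unfold dn; split_ifs <;> assumption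

theorem h11_dn_mono (d : ℕ) (q p q' p' : ℝ) (hq : q ≤ q') (hp : p ≤ p') (τ : Finset ℕ) :
    dn d q p τ ≤ dn d q' p' τ := by
  unfold dn; split_ifs <;> assumption

theorem h11_dn_rg (d n : ℕ) (q p : ℝ) (τ : Finset ℕ) (h : τ ∈ rg d n) : dn d q p τ = p := by
  unfold dn rg at *
  rw [if_neg]
  have := (mem_powersetCard.1 h).2
  omega

theorem h11_dn_fc (d n : ℕ) (q p : ℝ) (τ : Finset ℕ) (h : τ ∈ fc d n) : dn d q p τ = q := by
  unfold dn fc faces at *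
  rw [if_pos (mem_powersetCard.1 h).2]

theorem h11_disj (d n : ℕ) : Disjoint (fc d n) (rg d n) := by
  rw [Finset.disjoint_left]
  intro τ h1 h2
  unfold fc faces at h1
  unfold rg at h2
  have := (mem_powersetCard.1 h1).2
  have := (mem_powersetCard.1 h2).2
  omega

theorem h11_card_rg (d n : ℕ) : (rg d n).card = n.choose d := by
  unfold rg; rw [card_powersetCard, card_range]

theorem h11_card_fc (d n : ℕ) : (fc d n).card = n.choose (d + 1) := by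
  unfold fc faces; rw [card_powersetCard, card_range]

theorem h11_E2_nonneg (d n : ℕ) (q p : ℝ) (hq0 : 0 ≤ q) (hq1 : q ≤ 1) (hp0 : 0 ≤ p) (hp1 : p ≤ 1)
    (f : Finset (Finset ℕ) → ℝ) (hf : ∀ X, 0 ≤ f X) : 0 ≤ E2 d n q p f :=
  Ev_nonneg _ _ (fun i _ => h11_dn_nonneg d q p hq0 hp0 i)
    (fun i _ => h11_dn_le_one d q p hq1 hp1 i) _ (fun X _ => hf X)

theorem h11_E2_mono (d n : ℕ) (q p : ℝ) (hq0 : 0 ≤ q) (hq1 : q ≤ 1) (hp0 : 0 ≤ p) (hp1 : p ≤ 1)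
    (f g : Finset (Finset ℕ) → ℝ) (hf : ∀ X ⊆ gd d n, f X ≤ g X) : E2 d n q p f ≤ E2 d n q p g :=
  Ev_mono _ _ (fun i _ => h11_dn_nonneg d q p hq0 hp0 i)
    (fun i _ => h11_dn_le_one d q p hq1 hp1 i) _ _ hf

theorem h11_E2_mono_dens (d n : ℕ) (q p q' p' : ℝ) (hq0 : 0 ≤ q) (hq : q ≤ q') (hq1 : q' ≤ 1)
    (hp0 : 0 ≤ p) (hp : p ≤ p') (hp1 : p' ≤ 1) (f : Finset (Finset ℕ) → ℝ)
    (hf : ∀ X Y, X ⊆ Y → f X ≤ f Y) : E2 d n q p f ≤ E2 d n q' p' f :=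
  Ev_mono_dens _ _ _ (fun i _ => h11_dn_nonneg d q p hq0 hp0 i)
    (fun i _ => h11_dn_mono d q p q' p' hq hp i) (fun i _ => h11_dn_le_one d q' p' hq1 hp1 i) _
    (fun X _ Y _ h => hf X Y h)

theorem h11_cl_mono {α : Type*} [DecidableEq α] (R : RankFn α) {S T : Finset α} (h : S ⊆ T)
    (a : α) (hS : R.Cl S a) : R.Cl T a := by
  unfold RankFn.Cl at *
  refine le_antisymm ?_ (R.mono _ _ (Finset.subset_insert a T))
  have h1 := R.submod T (insert a S)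
  have h2 : T ∪ insert a S = insert a T := by
    rw [Finset.union_insert, Finset.union_eq_left.2 h]
  have h3 : S ⊆ T ∩ insert a S := Finset.subset_inter h (Finset.subset_insert a S)
  have h4 := R.mono _ _ h3
  rw [h2] at h1
  omega

theorem h11_wset_mono {α : Type*} [DecidableEq α] (R : RankFn α) (G : Finset α) {S T : Finset α}
    (h : S ⊆ T) : wset R G S ⊆ wset R G T := by
  classical
  intro x hx
  unfold wset at *
  rw [mem_filter] at *
  exact ⟨hx.1, h11_cl_mono R h x hx.2⟩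

theorem h11_wset_sub {α : Type*} [DecidableEq α] (R : RankFn α) (G S : Finset α) :
    wset R G S ⊆ G := by
  classical
  unfold wset; exact filter_subset _ _

theorem h11_r_le_card {α : Type*} [DecidableEq α] (R : RankFn α) (S : Finset α) :
    R.r S ≤ S.card := by
  induction S using Finset.induction_on with
  | empty => simp [R.empty]
  | insert a S ha ih =>
    rw [Finset.card_insert_of_notMem ha]
    exact (R.ins a S).trans (by omega)

theorem h11_E2_le_const (d n : ℕ) (q p : ℝ) (hq0 : 0 ≤ q) (hq1 : q ≤ 1) (hp0 : 0 ≤ p)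
    (hp1 : p ≤ 1) (f : Finset (Finset ℕ) → ℝ) (c : ℝ) (hf : ∀ X ⊆ gd d n, f X ≤ c) :
    E2 d n q p f ≤ c :=
  Ev_le_const _ _ (fun i _ => h11_dn_nonneg d q p hq0 hp0 i)
    (fun i _ => h11_dn_le_one d q p hq1 hp1 i) _ _ hf

theorem Wf_nonneg (Q : ERank d) (n : ℕ) (q p : ℝ) (hq0 : 0 ≤ q) (hq1 : q ≤ 1) (hp0 : 0 ≤ p)
    (hp1 : p ≤ 1) : 0 ≤ Wf Q n q p :=
  div_nonneg (h11_E2_nonneg d n q p hq0 hq1 hp0 hp1 _ (fun _ => Nat.cast_nonneg _))
    (Nat.cast_nonneg _)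

theorem Wf_le_one (Q : ERank d) (n : ℕ) (q p : ℝ) (hq0 : 0 ≤ q) (hq1 : q ≤ 1) (hp0 : 0 ≤ p)
    (hp1 : p ≤ 1) : Wf Q n q p ≤ 1 := by
  unfold Wf
  refine div_le_one_of_le₀ ?_ (Nat.cast_nonneg _)
  refine h11_E2_le_const d n q p hq0 hq1 hp0 hp1 _ _ fun X _ => ?_
  rw [← h11_card_rg d n]
  exact_mod_cast card_le_card (h11_wset_sub _ _ _)

theorem Tf_le_one (Q : ERank d) (n : ℕ) (q p : ℝ) (hq0 : 0 ≤ q) (hq1 : q ≤ 1) (hp0 : 0 ≤ p)
    (hp1 : p ≤ 1) : Tf Q n q p ≤ 1 := by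
  unfold Tf
  refine div_le_one_of_le₀ ?_ (Nat.cast_nonneg _)
  refine h11_E2_le_const d n q p hq0 hq1 hp0 hp1 _ _ fun X _ => ?_
  rw [← h11_card_fc d n]
  exact_mod_cast card_le_card (h11_wset_sub _ _ _)

theorem Wf_lt_one (Q : ERank d) (hd : 1 ≤ d) (n : ℕ) (q p : ℝ) (hq0 : 0 ≤ q) (hq1 : q < 1)
    (hp0 : 0 ≤ p) (hp1 : p < 1) : Wf Q n q p < 1 := by
  unfold Wf
  rcases Nat.eq_zero_or_pos (n.choose d) with h0 | hpos
  · rw [h0]; simp
  have hposR : (0 : ℝ) < (n.choose d : ℝ) := by exact_mod_cast hpos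
  rw [div_lt_one hposR]
  have hempty : wset Q.toRankFn (rg d n) ∅ = ∅ := by
    classical
    unfold wset
    rw [filter_eq_empty_iff]
    intro e he hcl
    unfold RankFn.Cl at hcl
    have hc : e.card = d := (mem_powersetCard.1 he).2
    have := Q.free ∅ e hc (by simp) (by simp) (by simp)
    omega
  have hcard : ∀ X ⊆ gd d n, ((wset Q.toRankFn (rg d n) X).card : ℝ) ≤
      (n.choose d : ℝ) - (n.choose d : ℝ) * ind (X = ∅) := by
    intro X _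
    by_cases hX : X = ∅
    · rw [ind_pos hX, hX, hempty]; simp
    · rw [ind_neg hX, mul_zero, sub_zero, ← h11_card_rg d n]
      exact_mod_cast card_le_card (h11_wset_sub _ _ _)
  have h1 := h11_E2_mono d n q p hq0 hq1.le hp0 hp1.le
    (fun A => ((wset Q.toRankFn (rg d n) A).card : ℝ))
    (fun A => (n.choose d : ℝ) - (n.choose d : ℝ) * ind (A = ∅)) hcard
  refine lt_of_le_of_lt h1 ?_
  unfold E2
  rw [Ev_sub, Ev_const, Ev_mul, Ev_eq_empty]
  have h2 : 0 < ∏ i ∈ gd d n, (1 - dn d q p i) := by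
    refine prod_pos fun i _ => ?_
    unfold dn; split_ifs <;> linarith
  have := mul_pos hposR h2
  linarith

theorem Wf_mono (Q : ERank d) (n : ℕ) (q p q' p' : ℝ) (hq0 : 0 ≤ q) (hq : q ≤ q') (hq1 : q' ≤ 1)
    (hp0 : 0 ≤ p) (hp : p ≤ p') (hp1 : p' ≤ 1) : Wf Q n q p ≤ Wf Q n q' p' := by
  unfold Wf
  refine div_le_div_of_nonneg_right ?_ (Nat.cast_nonneg _)
  refine h11_E2_mono_dens d n q p q' p' hq0 hq hq1 hp0 hp hp1 _ fun X Y h => ?_
  exact_mod_cast card_le_card (h11_wset_mono _ _ h)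

theorem Tf_mono (Q : ERank d) (n : ℕ) (q p q' p' : ℝ) (hq0 : 0 ≤ q) (hq : q ≤ q') (hq1 : q' ≤ 1)
    (hp0 : 0 ≤ p) (hp : p ≤ p') (hp1 : p' ≤ 1) : Tf Q n q p ≤ Tf Q n q' p' := by
  unfold Tf
  refine div_le_div_of_nonneg_right ?_ (Nat.cast_nonneg _)
  refine h11_E2_mono_dens d n q p q' p' hq0 hq hq1 hp0 hp hp1 _ fun X Y h => ?_
  exact_mod_cast card_le_card (h11_wset_mono _ _ h)

theorem Rf_le (Q : ERank d) (n : ℕ) (q p : ℝ) (hq0 : 0 ≤ q) (hq1 : q ≤ 1) (hp0 : 0 ≤ p)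
    (hp1 : p ≤ 1) : Rf Q n q p ≤ (n.choose (d + 1) : ℝ) * q + (n.choose d : ℝ) * p := by
  unfold Rf
  have h1 := h11_E2_mono d n q p hq0 hq1 hp0 hp1 (fun A => (Q.r A : ℝ)) (fun A => (A.card : ℝ))
    (fun X _ => by exact_mod_cast h11_r_le_card Q.toRankFn X)
  refine h1.trans (le_of_eq ?_)
  unfold E2
  rw [Ev_card]
  unfold gd
  rw [sum_union (h11_disj d n), sum_congr rfl (h11_dn_fc d n q p),
    sum_congr rfl (h11_dn_rg d n q p), sum_const, sum_const, h11_card_fc, h11_card_rg,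
    nsmul_eq_mul, nsmul_eq_mul]

theorem E2_union (d n : ℕ) (q p y : ℝ) (f : Finset (Finset ℕ) → ℝ) :
    E2 d n q p (fun A => Ev (rg d n) (fun _ => y) (fun P => f (A ∪ P))) =
      E2 d n q (p + y - p * y) f := by
  unfold E2
  rw [Ev_union_sub (gd d n) (rg d n) (by unfold gd; exact subset_union_right) (dn d q p)
    (fun _ => y) f]
  refine Ev_congr_dens _ _ _ _ fun i hi => ?_
  by_cases h : i ∈ rg d n
  · rw [if_pos h, h11_dn_rg d n q p i h, h11_dn_rg d n q _ i h]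
  · rw [if_neg h]
    have h2 : i ∈ fc d n := by
      unfold gd at hi
      exact (mem_union.1 hi).resolve_right h
    rw [h11_dn_fc d n q p i h2, h11_dn_fc d n q _ i h2]

end FC
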