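import Pool.Agent.H18.FC2.Ev
import Pool.Agent.H18.FC2.Incr

/-!
# Faces in the closure whose ridges are not all in the closure
-/

namespace FC

open Finset

section Rank

variable {α : Type*} [DecidableEq α]

theorem h55_cl_mono (R : RankFn α) (S T : Finset α) (hST : S ⊆ T) (i : α) (h : R.Cl S i) :
    R.Cl T i := by
  unfold RankFn.Cl at *
  have h1 := R.submod (insert i S) T
  have h2 : insert i S ∪ T = insert i T := by
    rw [Finset.insert_union, Finset.union_eq_right.2 hST]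
  rw [h2] at h1
  have h3 : R.r S ≤ R.r (insert i S ∩ T) :=
    R.mono _ _ (Finset.subset_inter (Finset.subset_insert _ _) hST)
  have h4 := R.mono T (insert i T) (Finset.subset_insert _ _)
  omega

open Classical in
theorem h55_rank_union (R : RankFn α) (S P : Finset α) :
    R.r (S ∪ P) ≤ R.r S + (P.filter (fun e => ¬ R.Cl S e)).card := by
  induction P using Finset.induction_on with
  | empty => simp
  | insert a P ha ih =>
    rw [Finset.union_insert, Finset.filter_insert]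
    by_cases h : R.Cl S a
    · rw [if_neg (not_not.2 h)]
      have h1 : R.Cl (S ∪ P) a := h55_cl_mono R S (S ∪ P) Finset.subset_union_left a h
      unfold RankFn.Cl at h1
      rw [h1]
      exact ih
    · rw [if_pos h, Finset.card_insert_of_notMem (by simp [ha])]
      have := R.ins a (S ∪ P)
      omega

theorem h55_rank_card (R : RankFn α) (S P : Finset α) : R.r (S ∪ P) ≤ R.r S + P.card := by
  classical
  exact (h55_rank_union R S P).trans (Nat.add_le_add_left (Finset.card_filter_le _ _) _)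

theorem h55_cl_trans (R : RankFn α) (S : Finset α) (i j : α) (hi : R.Cl S i)
    (hj : R.Cl (insert i S) j) : R.Cl S j := by
  unfold RankFn.Cl at *
  have h1 := R.mono (insert j S) (insert j (insert i S))
    (Finset.insert_subset_insert _ (Finset.subset_insert _ _))
  have h2 := R.mono S (insert j S) (Finset.subset_insert _ _)
  omega

end Rank

/-- The ridges of the vertex `x`. -/
def h55_star (d n x : ℕ) : Finset (Finset ℕ) := (rg d n).filter (fun e => x ∈ e)

theorem h55_star_card (d n x : ℕ) (hx : x < n) :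
    (h55_star d n x).card ≤ (n - 1).choose (d - 1) := by
  have h1 : (h55_star d n x).card ≤ (((range n).erase x).powersetCard (d - 1)).card := by
    refine Finset.card_le_card_of_injOn (fun e => e.erase x) ?_ ?_
    · intro e he
      have he1 := Finset.mem_coe.1 he
      unfold h55_star rg at he1
      rw [Finset.mem_filter, Finset.mem_powersetCard] at he1
      obtain ⟨⟨h2, h3⟩, h4⟩ := he1
      rw [Finset.mem_coe, Finset.mem_powersetCard]
      refine ⟨Finset.erase_subset_erase _ h2, ?_⟩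
      rw [Finset.card_erase_of_mem h4, h3]
    · intro e he f hf hef
      have he1 := Finset.mem_coe.1 he
      have hf1 := Finset.mem_coe.1 hf
      unfold h55_star at he1 hf1
      rw [Finset.mem_filter] at he1 hf1
      have h5 : insert x (e.erase x) = insert x (f.erase x) := by
        have : e.erase x = f.erase x := hef
        rw [this]
      rwa [Finset.insert_erase he1.2, Finset.insert_erase hf1.2] at h5
  rw [Finset.card_powersetCard, Finset.card_erase_of_mem (Finset.mem_range.2 hx),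
    Finset.card_range] at h1
  exact h1

/-- The ridges of the vertices of the tuple `xs`. -/
def h55_St (d n m : ℕ) (xs : Fin m → Fin n) : Finset (Finset ℕ) :=
  univ.biUnion (fun i => h55_star d n ((xs i : Fin n) : ℕ))

theorem h55_St_card (d n m : ℕ) (xs : Fin m → Fin n) :
    (h55_St d n m xs).card ≤ m * (n - 1).choose (d - 1) := by
  unfold h55_St
  refine Finset.card_biUnion_le.trans ?_
  refine (Finset.sum_le_sum (fun i _ => h55_star_card d n _ (xs i).2)).trans ?_
  simp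

theorem h55_choose (d n : ℕ) (hd : 1 ≤ d) (hn : 1 ≤ n) :
    (n : ℝ) * ((n - 1).choose (d - 1) : ℝ) = (d : ℝ) * (n.choose d : ℝ) := by
  obtain ⟨n', rfl⟩ : ∃ n', n = n' + 1 := ⟨n - 1, by omega⟩
  obtain ⟨d', rfl⟩ : ∃ d', d = d' + 1 := ⟨d - 1, by omega⟩
  have h := Nat.add_one_mul_choose_eq n' d'
  have h1 : ((n' : ℝ) + 1) * (n'.choose d' : ℝ) = ((n' + 1).choose (d' + 1) : ℝ) * ((d' : ℝ) + 1) := by
    exact_mod_cast h
  simp only [Nat.add_sub_cancel]
  push_cast
  linarith

/-- a face in the closure and a missing ridge -/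
theorem h55_star_cl {d : ℕ} (Q : ERank d) (n : ℕ) (A : Finset (Finset ℕ)) (σ : Finset ℕ)
    (hσ : σ ∈ fc d n) (hA : Q.Cl A σ) (x : ℕ) (hx : x ∈ σ) :
    Q.Cl (A ∪ h55_star d n x) (σ.erase x) := by
  have h1 : Q.Cl (A ∪ h55_star d n x) σ := h55_cl_mono Q.toRankFn _ _ subset_union_left _ hA
  refine h55_cl_trans Q.toRankFn _ σ _ h1 ?_
  unfold fc faces at hσ
  rw [mem_powersetCard] at hσ
  refine Q.ridge _ σ x hσ.2 hx (mem_insert_self _ _) ?_
  intro y hy hyx
  refine mem_insert_of_mem (mem_union_right _ ?_)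
  unfold h55_star rg
  rw [mem_filter, mem_powersetCard]
  refine ⟨⟨(erase_subset _ _).trans hσ.1, ?_⟩, mem_erase.2 ⟨fun h => hyx h.symm, hx⟩⟩
  rw [card_erase_of_mem hy, hσ.2]
  rfl

open Classical in
/-- the vertices whose star closes `e` -/
noncomputable def h55_Pi {d : ℕ} (Q : ERank d) (n : ℕ) (A : Finset (Finset ℕ)) (e : Finset ℕ) :
    Finset (Fin n) :=
  univ.filter (fun x => Q.Cl (A ∪ h55_star d n (x : ℕ)) e)

open Classical in
theorem h55_count {d : ℕ} (Q : ERank d) (n : ℕ) (A : Finset (Finset ℕ)) :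
    ((fc d n).filter (fun σ => Q.Cl A σ ∧ ¬ ∀ x ∈ σ, Q.Cl A (σ.erase x))).card ≤
      ∑ e ∈ (rg d n).filter (fun e => ¬ Q.Cl A e), (h55_Pi Q n A e).card := by
  rw [← Finset.card_sigma]
  have hsub : ((fc d n).filter (fun σ => Q.Cl A σ ∧ ¬ ∀ x ∈ σ, Q.Cl A (σ.erase x))) ⊆
      (((rg d n).filter (fun e => ¬ Q.Cl A e)).sigma (fun e => h55_Pi Q n A e)).image
        (fun z => insert ((z.2 : Fin n) : ℕ) z.1) := by
    intro σ hσ
    rw [mem_filter] at hσ
    obtain ⟨h1, h2, h3⟩ := hσ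
    push Not at h3
    obtain ⟨x, hx, hxc⟩ := h3
    have h1' := h1
    unfold fc faces at h1'
    rw [mem_powersetCard] at h1'
    have hxn : x < n := mem_range.1 (h1'.1 hx)
    rw [mem_image]
    refine ⟨⟨σ.erase x, ⟨x, hxn⟩⟩, ?_, ?_⟩
    · rw [mem_sigma, mem_filter]
      refine ⟨⟨?_, hxc⟩, ?_⟩
      · unfold rg
        rw [mem_powersetCard]
        refine ⟨(erase_subset _ _).trans h1'.1, ?_⟩
        rw [card_erase_of_mem hx, h1'.2]
        rfl
      · unfold h55_Pi
        rw [mem_filter]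
        exact ⟨mem_univ _, h55_star_cl Q n A σ h1 h2 x hx⟩
    · exact insert_erase hx
  exact (card_le_card hsub).trans card_image_le

/-- elementary inequality -/
theorem h55_pow (m : ℕ) (hm : 1 ≤ m) (t : ℝ) (ht0 : 0 ≤ t) (ht1 : t ≤ 1) :
    (1 - t) ^ m ≤ 1 - (t - 1 / m) / 2 := by
  have hmpos : (0:ℝ) < m := by exact_mod_cast hm
  by_cases h : t ≤ 1 / m
  · have h1 : (1 - t) ^ m ≤ 1 := pow_le_one₀ (by linarith) (by linarith)
    linarith
  · push Not at h
    have h1 : (1 - t) ^ m ≤ (1 / 2 : ℝ) := by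
      have h2 : (1 - t) ^ m ≤ (Real.exp (-(1 / m))) ^ m := by
        refine pow_le_pow_left₀ (by linarith) ?_ m
        have := Real.one_sub_le_exp_neg (1 / (m : ℝ))
        linarith
      have h3 : (Real.exp (-(1 / (m : ℝ)))) ^ m = Real.exp (-1) := by
        rw [← Real.exp_nat_mul]
        congr 1
        field_simp
      rw [h3] at h2
      have h4 := Real.exp_neg_one_lt_d9
      linarith
    have h5 : (0:ℝ) < 1 / m := by positivity
    linarith

open Classical in
theorem h55_tuples {d : ℕ} (Q : ERank d) (n m : ℕ) (hn : 1 ≤ n) (hm : 1 ≤ m)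
    (A : Finset (Finset ℕ)) (e : Finset ℕ) :
    ((univ.filter (fun xs : Fin m → Fin n => ¬ Q.Cl (A ∪ h55_St d n m xs) e)).card : ℝ) ≤
      (n : ℝ) ^ m * (1 - (((h55_Pi Q n A e).card : ℝ) / n - 1 / m) / 2) := by
  have hnpos : (0:ℝ) < n := by exact_mod_cast hn
  have hsub : univ.filter (fun xs : Fin m → Fin n => ¬ Q.Cl (A ∪ h55_St d n m xs) e) ⊆
      Fintype.piFinset (fun _ : Fin m => (h55_Pi Q n A e)ᶜ) := by
    intro xs hxs
    rw [mem_filter] at hxs
    rw [Fintype.mem_piFinset]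
    intro i
    rw [mem_compl]
    intro hi
    unfold h55_Pi at hi
    rw [mem_filter] at hi
    apply hxs.2
    refine h55_cl_mono Q.toRankFn _ _ ?_ _ hi.2
    refine union_subset_union (Finset.Subset.refl _) ?_
    unfold h55_St
    exact subset_biUnion_of_mem (fun i => h55_star d n ((xs i : Fin n) : ℕ)) (mem_univ i)
  have h1 := card_le_card hsub
  rw [Fintype.card_piFinset] at h1
  simp only [prod_const, card_univ, Fintype.card_fin, card_compl] at h1
  have hle : (h55_Pi Q n A e).card ≤ n := by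
    have := card_le_univ (h55_Pi Q n A e)
    simpa using this
  have h2 : ((univ.filter (fun xs : Fin m → Fin n =>
      ¬ Q.Cl (A ∪ h55_St d n m xs) e)).card : ℝ) ≤
      ((n : ℝ) - ((h55_Pi Q n A e).card : ℝ)) ^ m := by
    have h3 : (((n - (h55_Pi Q n A e).card : ℕ)) : ℝ) = (n : ℝ) - ((h55_Pi Q n A e).card : ℝ) := by
      rw [Nat.cast_sub hle]
    rw [← h3]
    exact_mod_cast h1
  refine h2.trans ?_
  have h4 : (n : ℝ) - ((h55_Pi Q n A e).card : ℝ) =
      n * (1 - ((h55_Pi Q n A e).card : ℝ) / n) := by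
    field_simp
  rw [h4, mul_pow]
  refine mul_le_mul_of_nonneg_left ?_ (by positivity)
  refine h55_pow m hm _ (by positivity) ?_
  rw [div_le_one hnpos]
  exact_mod_cast hle

open Classical in
/-- averaging over the tuples for a fixed set -/
theorem h55_avg {d : ℕ} (Q : ERank d) (n m : ℕ) (hn : 1 ≤ n) (hm : 1 ≤ m)
    (A : Finset (Finset ℕ)) :
    ∑ xs : Fin m → Fin n, (((rg d n).filter
        (fun e => ¬ Q.Cl (A ∪ h55_St d n m xs) e)).card : ℝ) ≤
      (n : ℝ) ^ m * ((1 + 1 / (2 * m)) * (((rg d n).card : ℝ) -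
        ((wset Q.toRankFn (rg d n) A).card : ℝ)) -
        (∑ e ∈ (rg d n).filter (fun e => ¬ Q.Cl A e), ((h55_Pi Q n A e).card : ℝ)) /
          (2 * n)) := by
  have hmpos : (0:ℝ) < m := by exact_mod_cast hm
  have hnpos : (0:ℝ) < n := by exact_mod_cast hn
  have hsw : ∑ xs : Fin m → Fin n, (((rg d n).filter
        (fun e => ¬ Q.Cl (A ∪ h55_St d n m xs) e)).card : ℝ) =
      ∑ e ∈ rg d n, ((univ.filter (fun xs : Fin m → Fin n =>
        ¬ Q.Cl (A ∪ h55_St d n m xs) e)).card : ℝ) := by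
    simp only [card_filter, Nat.cast_sum]
    rw [sum_comm]
  rw [hsw]
  have hsplit : ∑ e ∈ rg d n, ((univ.filter (fun xs : Fin m → Fin n =>
        ¬ Q.Cl (A ∪ h55_St d n m xs) e)).card : ℝ) =
      ∑ e ∈ (rg d n).filter (fun e => ¬ Q.Cl A e), ((univ.filter (fun xs : Fin m → Fin n =>
        ¬ Q.Cl (A ∪ h55_St d n m xs) e)).card : ℝ) := by
    symm
    refine sum_subset (filter_subset _ _) ?_
    intro e he hne
    have hcl : Q.Cl A e := by
      by_contra hc
      exact hne (mem_filter.2 ⟨he, hc⟩)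
    have h0 : univ.filter (fun xs : Fin m → Fin n => ¬ Q.Cl (A ∪ h55_St d n m xs) e) = ∅ := by
      rw [filter_eq_empty_iff]
      intro xs _ hnc
      exact hnc (h55_cl_mono Q.toRankFn _ _ subset_union_left _ hcl)
    rw [h0]
    simp
  rw [hsplit]
  refine (sum_le_sum (fun e _ => h55_tuples Q n m hn hm A e)).trans ?_
  have hcard : (((rg d n).filter (fun e => ¬ Q.Cl A e)).card : ℝ) =
      ((rg d n).card : ℝ) - ((wset Q.toRankFn (rg d n) A).card : ℝ) := by
    have h := card_filter_add_card_filter_not (s := rg d n) (fun e => Q.Cl A e)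
    unfold wset
    have h' : (((rg d n).filter (fun e => Q.Cl A e)).card : ℝ) +
      (((rg d n).filter (fun e => ¬ Q.Cl A e)).card : ℝ) = ((rg d n).card : ℝ) := by
      exact_mod_cast h
    linarith
  rw [← hcard, ← mul_sum]
  refine mul_le_mul_of_nonneg_left ?_ (by positivity)
  have hexp : ∑ e ∈ (rg d n).filter (fun e => ¬ Q.Cl A e),
      (1 - (((h55_Pi Q n A e).card : ℝ) / n - 1 / m) / 2) =
      (1 + 1 / (2 * m)) * (((rg d n).filter (fun e => ¬ Q.Cl A e)).card : ℝ) -
        (∑ e ∈ (rg d n).filter (fun e => ¬ Q.Cl A e), ((h55_Pi Q n A e).card : ℝ)) /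
          (2 * n) := by
    have : ∀ e, (1 - (((h55_Pi Q n A e).card : ℝ) / n - 1 / m) / 2) =
      (1 + 1 / (2 * (m : ℝ))) - ((h55_Pi Q n A e).card : ℝ) / (2 * n) := by
      intro e
      field_simp
      ring
    simp only [this]
    rw [sum_sub_distrib, sum_const, nsmul_eq_mul, sum_div]
    ring
  rw [hexp]

open Classical in
/-- the gain bound for a fixed tuple -/
theorem h55_gain {d : ℕ} (Q : ERank d) (n m : ℕ) (y : ℝ)
    (hy0 : 0 < y) (hy1 : y ≤ 1) (A : Finset (Finset ℕ)) (xs : Fin m → Fin n) :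
    Ev (rg d n) (fun _ => y) (fun P => (Q.r (A ∪ P) : ℝ) - Q.r A) ≤
      m * ((n - 1).choose (d - 1) : ℝ) + y * (((rg d n).filter
        (fun e => ¬ Q.Cl (A ∪ h55_St d n m xs) e)).card : ℝ) := by
  have h1 : ∀ P ⊆ rg d n, (Q.r (A ∪ P) : ℝ) - Q.r A ≤
      m * ((n - 1).choose (d - 1) : ℝ) + ∑ e ∈ (rg d n).filter
        (fun e => ¬ Q.Cl (A ∪ h55_St d n m xs) e), ind (e ∈ P) := by
    intro P hP
    have h2 := h55_rank_union Q.toRankFn (A ∪ h55_St d n m xs) P
    have h3 := h55_rank_card Q.toRankFn A (h55_St d n m xs)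
    have h4 := h55_St_card d n m xs
    have h5 : Q.r (A ∪ P) ≤ Q.r (A ∪ h55_St d n m xs ∪ P) :=
      Q.mono _ _ (union_subset_union subset_union_left (Finset.Subset.refl _))
    have h6 : ((P.filter (fun e => ¬ Q.Cl (A ∪ h55_St d n m xs) e)).card : ℝ) =
        ∑ e ∈ (rg d n).filter (fun e => ¬ Q.Cl (A ∪ h55_St d n m xs) e), ind (e ∈ P) := by
      have h9 : ∀ e : Finset ℕ, ind (e ∈ P) = if e ∈ P then (1:ℝ) else 0 := by
        intro e
        unfold ind
        by_cases he : e ∈ P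
        · rw [if_pos he, if_pos he]
        · rw [if_neg he, if_neg he]
      rw [Finset.sum_congr rfl (fun e _ => h9 e), ← Finset.sum_filter, sum_const, nsmul_eq_mul,
        mul_one]
      congr 2
      ext e
      simp only [mem_filter]
      constructor
      · rintro ⟨h7, h8⟩
        exact ⟨⟨hP h7, h8⟩, h7⟩
      · rintro ⟨⟨h7, h8⟩, h9⟩
        exact ⟨h9, h8⟩
    rw [← h6]
    have h7 : Q.r (A ∪ P) ≤ Q.r A + m * (n - 1).choose (d - 1) +
        (P.filter (fun e => ¬ Q.Cl (A ∪ h55_St d n m xs) e)).card := by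
      have h2' : Q.r (A ∪ h55_St d n m xs ∪ P) ≤ Q.r (A ∪ h55_St d n m xs) +
        (P.filter (fun e => ¬ Q.Cl (A ∪ h55_St d n m xs) e)).card := h2
      have h3' : Q.r (A ∪ h55_St d n m xs) ≤ Q.r A + (h55_St d n m xs).card := h3
      omega
    have h8 : (Q.r (A ∪ P) : ℝ) ≤ Q.r A + m * ((n - 1).choose (d - 1) : ℝ) +
        ((P.filter (fun e => ¬ Q.Cl (A ∪ h55_St d n m xs) e)).card : ℝ) := by
      exact_mod_cast h7
    linarith
  refine (Ev_mono (rg d n) (fun _ => y) (fun _ _ => hy0.le) (fun _ _ => hy1) _ _ h1).trans ?_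
  rw [Ev_add, Ev_const, Ev_sum]
  refine add_le_add (le_refl _) (le_of_eq ?_)
  rw [Finset.sum_congr rfl (fun e he => Ev_mem (rg d n) (fun _ => y) e (mem_filter.1 he).1)]
  rw [sum_const, nsmul_eq_mul, mul_comm]

theorem h55_dn (d : ℕ) (q p : ℝ) (hq0 : 0 ≤ q) (hq1 : q ≤ 1) (hp0 : 0 ≤ p) (hp1 : p ≤ 1)
    (τ : Finset ℕ) : 0 ≤ dn d q p τ ∧ dn d q p τ ≤ 1 := by
  unfold dn
  split_ifs
  · exact ⟨hq0, hq1⟩
  · exact ⟨hp0, hp1⟩

open Classical in
theorem noise {d : ℕ} (Q : ERank d) (hd : 2 ≤ d) (n m : ℕ) (hn : d + 1 ≤ n) (hm : 1 ≤ m) (q p y : ℝ)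
    (hq0 : 0 ≤ q) (hq1 : q ≤ 1) (hp0 : 0 ≤ p) (hp1 : p ≤ 1) (hy0 : 0 < y) (hy1 : y ≤ 1) :
    E2 d n q p (fun A => (((fc d n).filter (fun σ => Q.Cl A σ ∧
      ¬ ∀ x ∈ σ, Q.Cl A (σ.erase x))).card : ℝ)) ≤
    n * (n.choose d : ℝ) * (1 / m + 2 * (Wf Q n q (p + y - p * y) - Wf Q n q p) +
      2 * m * d / (n * y)) := by
  have hmpos : (0:ℝ) < m := by exact_mod_cast hm
  have hnpos : (0:ℝ) < n := by
    have : 0 < n := by omega
    exact_mod_cast this
  have hM : (0:ℝ) < (n.choose d : ℝ) := by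
    exact_mod_cast Nat.choose_pos (by omega : d ≤ n)
  have hMc : ((rg d n).card : ℝ) = (n.choose d : ℝ) := by
    unfold rg
    rw [card_powersetCard, card_range]
  have hdn := h55_dn d q p hq0 hq1 hp0 hp1
  have h0 : ∀ i ∈ gd d n, 0 ≤ dn d q p i := fun i _ => (hdn i).1
  have h1 : ∀ i ∈ gd d n, dn d q p i ≤ 1 := fun i _ => (hdn i).2
  set w := Wf Q n q p with hw
  set w' := Wf Q n q (p + y - p * y) with hw'
  have hwE : E2 d n q p (fun A => ((wset Q.toRankFn (rg d n) A).card : ℝ)) =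
      w * (n.choose d : ℝ) := by
    rw [hw]
    unfold Wf
    field_simp
  set F := E2 d n q p (fun A => ∑ e ∈ (rg d n).filter (fun e => ¬ Q.Cl A e),
    ((h55_Pi Q n A e).card : ℝ)) with hF
  -- the left hand side is at most `F`
  have hleft : E2 d n q p (fun A => (((fc d n).filter (fun σ => Q.Cl A σ ∧
      ¬ ∀ x ∈ σ, Q.Cl A (σ.erase x))).card : ℝ)) ≤ F := by
    rw [hF]
    unfold E2
    refine Ev_mono _ _ h0 h1 _ _ ?_
    intro A _
    have := h55_count Q n A
    exact_mod_cast this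
  refine hleft.trans ?_
  -- the gain inequality
  have hinc := incr Q n q p y (fun _ => y) hq0 hq1 hp0 hp1 (fun _ _ => hy0.le)
    (fun _ _ => le_refl y) hy1
  rw [← hw', sum_const, nsmul_eq_mul, hMc] at hinc
  have hgain : ∀ xs : Fin m → Fin n, E2 d n q p (fun A => Ev (rg d n) (fun _ => y)
      (fun P => (Q.r (A ∪ P) : ℝ) - Q.r A)) ≤
      m * ((n - 1).choose (d - 1) : ℝ) + y * E2 d n q p (fun A => (((rg d n).filter
        (fun e => ¬ Q.Cl (A ∪ h55_St d n m xs) e)).card : ℝ)) := by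
    intro xs
    have h2 : E2 d n q p (fun A => Ev (rg d n) (fun _ => y)
      (fun P => (Q.r (A ∪ P) : ℝ) - Q.r A)) ≤ E2 d n q p (fun A =>
        m * ((n - 1).choose (d - 1) : ℝ) + y * (((rg d n).filter
        (fun e => ¬ Q.Cl (A ∪ h55_St d n m xs) e)).card : ℝ)) := by
      unfold E2
      refine Ev_mono _ _ h0 h1 _ _ ?_
      intro A _
      exact h55_gain Q n m y hy0 hy1 A xs
    refine h2.trans (le_of_eq ?_)
    unfold E2
    rw [Ev_add, Ev_const, Ev_mul]
  have hsum : ∑ _xs : Fin m → Fin n, (1 - w') * ((n.choose d : ℝ) * y) ≤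
      ∑ xs : Fin m → Fin n, (m * ((n - 1).choose (d - 1) : ℝ) +
        y * E2 d n q p (fun A => (((rg d n).filter
        (fun e => ¬ Q.Cl (A ∪ h55_St d n m xs) e)).card : ℝ))) :=
    sum_le_sum (fun xs _ => hinc.trans (hgain xs))
  rw [sum_const, sum_add_distrib, sum_const, ← mul_sum, card_univ, Fintype.card_fun,
    Fintype.card_fin, Fintype.card_fin, nsmul_eq_mul, nsmul_eq_mul] at hsum
  have hexch : ∑ xs : Fin m → Fin n, E2 d n q p (fun A => (((rg d n).filter
        (fun e => ¬ Q.Cl (A ∪ h55_St d n m xs) e)).card : ℝ)) ≤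
      (n : ℝ) ^ m * ((1 + 1 / (2 * m)) * ((n.choose d : ℝ) - w * (n.choose d : ℝ)) -
        F / (2 * n)) := by
    have h2 : ∑ xs : Fin m → Fin n, E2 d n q p (fun A => (((rg d n).filter
        (fun e => ¬ Q.Cl (A ∪ h55_St d n m xs) e)).card : ℝ)) =
        E2 d n q p (fun A => ∑ xs : Fin m → Fin n, (((rg d n).filter
        (fun e => ¬ Q.Cl (A ∪ h55_St d n m xs) e)).card : ℝ)) := by
      unfold E2
      rw [Ev_sum]
    rw [h2]
    have h3 : E2 d n q p (fun A => ∑ xs : Fin m → Fin n, (((rg d n).filter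
        (fun e => ¬ Q.Cl (A ∪ h55_St d n m xs) e)).card : ℝ)) ≤
        E2 d n q p (fun A => (n : ℝ) ^ m * ((1 + 1 / (2 * m)) * (((rg d n).card : ℝ) -
        ((wset Q.toRankFn (rg d n) A).card : ℝ)) -
        (2 * (n : ℝ))⁻¹ * (∑ e ∈ (rg d n).filter (fun e => ¬ Q.Cl A e),
          ((h55_Pi Q n A e).card : ℝ)))) := by
      unfold E2
      refine Ev_mono _ _ h0 h1 _ _ ?_
      intro A _
      refine (h55_avg Q n m (by omega) hm A).trans (le_of_eq ?_)
      rw [div_eq_inv_mul (∑ e ∈ (rg d n).filter (fun e => ¬ Q.Cl A e),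
          ((h55_Pi Q n A e).card : ℝ)) (2 * (n : ℝ))]
    refine h3.trans (le_of_eq ?_)
    unfold E2 at hF hwE ⊢
    rw [Ev_mul, Ev_sub, Ev_mul, Ev_sub, Ev_const, Ev_mul, hwE, ← hF, hMc]
    ring
  have hNpos : (0:ℝ) < (n : ℝ) ^ m := by positivity
  have hsum' : (n : ℝ) ^ m * ((1 - w') * ((n.choose d : ℝ) * y)) ≤
      (n : ℝ) ^ m * (m * ((n - 1).choose (d - 1) : ℝ) + y *
        ((1 + 1 / (2 * m)) * ((n.choose d : ℝ) - w * (n.choose d : ℝ)) - F / (2 * n))) := by
    have h2 := mul_le_mul_of_nonneg_left hexch hy0.le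
    have h3 : (((n ^ m : ℕ)) : ℝ) = (n : ℝ) ^ m := by push_cast; ring
    rw [h3] at hsum
    nlinarith [hsum, h2]
  have hfin := le_of_mul_le_mul_left hsum' hNpos
  have hch := h55_choose d n (by omega) (by omega)
  have hC : ((n - 1).choose (d - 1) : ℝ) = (d : ℝ) * (n.choose d : ℝ) / n := by
    rw [← hch]
    field_simp
  rw [hC] at hfin
  have hw1 : 0 ≤ w := by
    rw [hw]
    unfold Wf E2
    exact div_nonneg (Ev_nonneg _ _ h0 h1 _ (fun _ _ => Nat.cast_nonneg _)) hM.le
  -- solve for `F`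
  have h5 : y * F / (2 * n) ≤ (n.choose d : ℝ) * (m * d / n + y / (2 * m) + y * (w' - w)) := by
    have h6 : y * (1 / (2 * (m:ℝ))) * (w * (n.choose d : ℝ)) ≥ 0 := by positivity
    have h7 : y * ((1 + 1 / (2 * m)) * ((n.choose d : ℝ) - w * (n.choose d : ℝ)) - F / (2 * n)) =
      y * (n.choose d : ℝ) - y * w * (n.choose d : ℝ) + y / (2 * m) * (n.choose d : ℝ) -
        y * (1 / (2 * (m:ℝ))) * (w * (n.choose d : ℝ)) - y * F / (2 * n) := by
      ring
    rw [h7] at hfin
    have h8 : (n.choose d : ℝ) * (m * d / n + y / (2 * m) + y * (w' - w)) =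
      m * (d * (n.choose d : ℝ) / n) + y / (2 * m) * (n.choose d : ℝ) +
        y * w' * (n.choose d : ℝ) - y * w * (n.choose d : ℝ) := by
      ring
    rw [h8]
    linarith
  have h9 : F = (2 * n / y) * (y * F / (2 * n)) := by
    field_simp
  rw [h9]
  refine (mul_le_mul_of_nonneg_left h5 (by positivity)).trans (le_of_eq ?_)
  field_simp
  ring

end FC
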