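import Pool.Agent.H18.FC2.AfW
import Pool.Agent.H18.FC2.Mono
import Pool.Agent.H18.FC2.Noise
import Pool.Agent.H18.FC2.ConcW

/-!
# First emerging cycle: the micro point
-/

namespace FC

open Finset

variable {d : ℕ}

theorem h15_rt_add (a b : ℝ) : rt a + rt b - rt a * rt b = rt (a + b) := by
  unfold rt
  rw [neg_add, Real.exp_add]; ring

theorem h15_pigeon (w : ℕ → ℝ) (L : ℕ) (hL : 1 ≤ L) (h0 : 0 ≤ w 0) (h1 : w L ≤ 1) :
    ∃ i < L, w (i + 1) - w i ≤ 1 / L := by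
  by_contra h
  push Not at h
  have hL0 : (L : ℝ) ≠ 0 := by
    have : L ≠ 0 := by omega
    exact_mod_cast this
  have : ∑ i ∈ range L, (1 / (L : ℝ)) < ∑ i ∈ range L, (w (i + 1) - w i) :=
    sum_lt_sum_of_nonempty ⟨0, mem_range.2 (by omega)⟩ (fun i hi => h i (mem_range.1 hi))
  rw [sum_range_sub, sum_const, card_range, nsmul_eq_mul, mul_one_div_cancel hL0] at this
  linarith

open Classical in
theorem h15_TA (Q : ERank d) (n : ℕ) (q p : ℝ) (hq0 : 0 ≤ q) (hq1 : q ≤ 1) (hp0 : 0 ≤ p)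
    (hp1 : p ≤ 1) : Tf Q n q p ≤ Af Q n q p +
      E2 d n q p (fun A => (((fc d n).filter (fun σ => Q.Cl A σ ∧
        ¬ ∀ x ∈ σ, Q.Cl A (σ.erase x))).card : ℝ)) / (n.choose (d + 1) : ℝ) := by
  unfold Tf Af
  rw [← add_div]
  refine div_le_div_of_nonneg_right ?_ (Nat.cast_nonneg _)
  unfold E2
  rw [← Ev_add]
  refine Ev_mono _ _ (fun i _ => h15_dn0 hq0 hp0 i) (fun i _ => h15_dn1 hq1 hp1 i) _ _ ?_
  intro A _
  have hsub : wset Q.toRankFn (fc d n) A ⊆
      ((fc d n).filter (fun σ => ∀ x ∈ σ, σ.erase x ∈ wset Q.toRankFn (rg d n) A)) ∪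
      ((fc d n).filter (fun σ => Q.Cl A σ ∧ ¬ ∀ x ∈ σ, Q.Cl A (σ.erase x))) := by
    intro σ hσ
    obtain ⟨h1, h2⟩ := mem_filter.1 hσ
    by_cases h : ∀ x ∈ σ, Q.Cl A (σ.erase x)
    · refine mem_union_left _ (mem_filter.2 ⟨h1, fun x hx => mem_filter.2 ⟨?_, h x hx⟩⟩)
      have h3 := mem_powersetCard.1 h1
      refine mem_powersetCard.2 ⟨(erase_subset _ _).trans h3.1, ?_⟩
      rw [card_erase_of_mem hx, h3.2]; rfl
    · exact mem_union_right _ (mem_filter.2 ⟨h1, h2, h⟩)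
  have := (card_le_card hsub).trans (card_union_le _ _)
  exact_mod_cast this

theorem h15_micro (d : ℕ) (hd : 2 ≤ d) (C ε : ℝ) (hC : 1 ≤ C) (hε : 0 < ε) (hε1 : ε ≤ 1) :
    ∃ K > (0:ℝ), ∃ n0 : ℕ, ∀ n ≥ n0, ∀ (Q : ERank d) (q : ℝ), 0 ≤ q → q ≤ C / n →
      q ≤ 1 ∧ ∃ o, 0 ≤ o ∧ o ≤ K / n ∧ Tf Q n q (rt o) ≤ Af Q n q (rt o) + ε ∧
        E2 d n q (rt o) (fun A => ind ((Wf Q n q (rt o) + ε) * (n.choose d : ℝ) ≤
          ((wset Q.toRankFn (rg d n) A).card : ℝ))) ≤ ε := by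
  classical
  have hd0 : (0 : ℝ) < (d : ℝ) + 1 := by positivity
  have hd1 : (1 : ℝ) ≤ (d : ℝ) + 1 := by
    have : (0 : ℝ) ≤ d := Nat.cast_nonneg d
    linarith
  obtain ⟨m, hm⟩ := exists_nat_gt (6 * ((d : ℝ) + 1) / ε)
  obtain ⟨L, hL⟩ := exists_nat_gt (12 * ((d : ℝ) + 1) / ε)
  have hm0 : (0 : ℝ) < m := lt_of_le_of_lt (by positivity) hm
  have hL0 : (0 : ℝ) < L := lt_of_le_of_lt (by positivity) hL
  have hm1 : 1 ≤ m := by
    have : 0 < m := by exact_mod_cast hm0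
    omega
  have hL1 : 1 ≤ L := by
    have : 0 < L := by exact_mod_cast hL0
    omega
  rw [div_lt_iff₀ hε] at hm hL
  set E1 : ℝ := 24 * ((d : ℝ) + 1) * m * d / ε with hE1
  set E3 : ℝ := 3456 * C * (2 ^ d * (d.factorial : ℝ)) / ε ^ 3 with hE3
  have hE1' : 0 ≤ E1 := by positivity
  have hE3' : 0 ≤ E3 := by positivity
  set A : ℝ := 1 + E1 + E3 with hA
  have hA1 : 1 ≤ A := by linarith
  have hA0 : 0 < A := by linarith
  refine ⟨L * A, by positivity, ⌈L * A + A + C⌉₊ + 2 * d + 2, ?_⟩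
  intro n hn Q q hq0 hqC
  have hnR : (L * A + A + C) ≤ (n : ℝ) := by
    refine (Nat.le_ceil _).trans ?_
    exact_mod_cast (by omega : ⌈L * A + A + C⌉₊ ≤ n)
  have hn2d : 2 * d ≤ n := by omega
  have hLA : 0 ≤ L * A := by positivity
  have hn0 : (0 : ℝ) < n := by linarith
  have hnA : A ≤ n := by linarith
  have hq1 : q ≤ 1 := hqC.trans (by rw [div_le_one hn0]; linarith)
  refine ⟨hq1, ?_⟩
  set a : ℝ := A / n with ha
  have ha0 : 0 < a := by positivity
  have ha1 : a ≤ 1 := by rw [ha, div_le_one hn0]; exact hnA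
  set y : ℝ := rt a with hy
  have hya : y ≤ a := rt_le a
  have hy1 : y ≤ 1 := hya.trans ha1
  have hyl : a / 2 ≤ y := by
    have h1 := le_rt ha0.le
    have h2 : a ^ 2 ≤ a := by rw [sq]; exact mul_le_of_le_one_right ha0.le ha1
    linarith
  have hy0 : 0 < y := by linarith
  obtain ⟨i, hi, hpi⟩ := h15_pigeon (fun i => Wf Q n q (rt ((i : ℝ) * a))) L hL1
    (Wf_nonneg Q n q _ hq0 hq1 (rt_nonneg (by positivity)) (rt_lt_one _).le)
    (Wf_le_one Q n q _ hq0 hq1 (rt_nonneg (by positivity)) (rt_lt_one _).le)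
  set o : ℝ := (i : ℝ) * a with ho
  have ho0 : 0 ≤ o := by positivity
  have hp0 : 0 ≤ rt o := rt_nonneg ho0
  have hp1 : rt o ≤ 1 := (rt_lt_one _).le
  have hrt : rt o + y - rt o * y = rt (((i + 1 : ℕ) : ℝ) * a) := by
    rw [hy, h15_rt_add, ho]; congr 1; push_cast; ring
  have hpi' : Wf Q n q (rt o + y - rt o * y) - Wf Q n q (rt o) ≤ 1 / L := by
    rw [hrt]; exact hpi
  have hoK : o ≤ L * A / n := by
    rw [ho, ha, ← mul_div_assoc]
    refine div_le_div_of_nonneg_right (mul_le_mul_of_nonneg_right ?_ hA0.le) hn0.le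
    exact_mod_cast hi.le
  set M : ℝ := (n.choose d : ℝ) with hM
  set N : ℝ := (n.choose (d + 1) : ℝ) with hN
  have hM0 : 0 < M := by rw [hM]; exact_mod_cast Nat.choose_pos (by omega)
  have hN0 : 0 < N := by rw [hN]; exact_mod_cast Nat.choose_pos (by omega)
  have hNM : N * ((d : ℝ) + 1) = M * ((n : ℝ) - d) := choose_mul d n (by omega)
  have hn2 : 2 * (d : ℝ) ≤ n := by exact_mod_cast hn2d
  have hdd : (0 : ℝ) ≤ d := Nat.cast_nonneg d
  refine ⟨o, ho0, hoK, ?_, ?_⟩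
  · -- noise
    have hno := noise Q hd n m (by omega) hm1 q (rt o) y hq0 hq1 hp0 hp1 hy0 hy1
    refine (h15_TA Q n q (rt o) hq0 hq1 hp0 hp1).trans ?_
    refine add_le_add le_rfl ?_
    rw [div_le_iff₀ hN0]
    refine hno.trans ?_
    have hny : A / 2 ≤ n * y := by
      have : n * (a / 2) ≤ n * y := mul_le_mul_of_nonneg_left hyl hn0.le
      have h2 : n * (a / 2) = A / 2 := by rw [ha]; field_simp
      linarith
    have hB1 : 1 / (m : ℝ) ≤ ε / (6 * ((d : ℝ) + 1)) := by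
      rw [div_le_div_iff₀ hm0 (by positivity)]; linarith
    have hB2 : 1 / (L : ℝ) ≤ ε / (12 * ((d : ℝ) + 1)) := by
      rw [div_le_div_iff₀ hL0 (by positivity)]; linarith
    have hB3 : 2 * (m : ℝ) * d / (n * y) ≤ ε / (6 * ((d : ℝ) + 1)) := by
      rw [div_le_div_iff₀ (by positivity) (by positivity)]
      have h3 : 24 * ((d : ℝ) + 1) * m * d = E1 * ε := by rw [hE1]; field_simp
      have h4 : E1 * ε ≤ A * ε := mul_le_mul_of_nonneg_right (by linarith) hε.le
      have h5 : ε * (A / 2) ≤ ε * (n * y) := mul_le_mul_of_nonneg_left hny hε.le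
      linarith
    have hB : 1 / (m : ℝ) + 2 * (Wf Q n q (rt o + y - rt o * y) - Wf Q n q (rt o)) +
        2 * m * d / (n * y) ≤ ε / (2 * ((d : ℝ) + 1)) := by
      have h6 : ε / (2 * ((d : ℝ) + 1)) = ε / (6 * ((d : ℝ) + 1)) +
          2 * (ε / (12 * ((d : ℝ) + 1))) + ε / (6 * ((d : ℝ) + 1)) := by
        field_simp; ring
      rw [h6]
      linarith
    have hnM : n * M ≤ 2 * ((d : ℝ) + 1) * N := by
      have h7 : 2 * ((d : ℝ) + 1) * N = 2 * (M * ((n : ℝ) - d)) := by rw [← hNM]; ring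
      rw [h7]
      have h8 := mul_le_mul_of_nonneg_left hn2 hM0.le
      linarith
    calc n * M * (1 / (m : ℝ) + 2 * (Wf Q n q (rt o + y - rt o * y) - Wf Q n q (rt o)) +
          2 * m * d / (n * y)) ≤ n * M * (ε / (2 * ((d : ℝ) + 1))) :=
          mul_le_mul_of_nonneg_left hB (by positivity)
      _ ≤ (2 * ((d : ℝ) + 1) * N) * (ε / (2 * ((d : ℝ) + 1))) :=
          mul_le_mul_of_nonneg_right hnM (by positivity)
      _ = ε * N := by field_simp
  · -- concentration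
    have hNn : N ≤ M * n := by
      have h1 : N ≤ N * ((d : ℝ) + 1) := le_mul_of_one_le_right hN0.le hd1
      rw [hNM] at h1
      refine h1.trans (mul_le_mul_of_nonneg_left (by linarith) hM0.le)
    have hpo : rt o + y ≤ 1 := by
      have h1 : rt o ≤ L * A / n := (rt_le o).trans hoK
      have h2 : L * A / n + A / n ≤ 1 := by
        rw [← add_div, div_le_one hn0]; linarith
      linarith
    have hS : N * q + M * (rt o + y) ≤ 2 * C * M := by
      have h1 : N * q ≤ M * C := by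
        calc N * q ≤ (M * n) * (C / n) := mul_le_mul hNn hqC hq0 (by positivity)
          _ = M * C := by field_simp
      have h2 : M * (rt o + y) ≤ M * 1 := mul_le_mul_of_nonneg_left hpo hM0.le
      have h3 := mul_le_mul_of_nonneg_left hC hM0.le
      linarith
    have hx0 : 0 ≤ y * ε * M / 6 := by positivity
    have hx : y * ε * M / 6 ≤ 2 * (2 * C * M) := by
      have h1 : y * ε ≤ 1 := mul_le_one₀ hy1 hε.le hε1
      have h2 : y * ε * M ≤ 1 * M := mul_le_mul_of_nonneg_right h1 hM0.le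
      have h3 := mul_le_mul_of_nonneg_left hC hM0.le
      linarith
    have hco := conc_w Q n q (rt o) y (fun _ => y) hq0 hq1 hp0 hp1 (fun _ _ => hy0.le)
      (fun _ _ => le_rfl) hy1 (y * ε * M / 6) (2 * C * M) hS hx0 hx
    have hcard : ((rg d n).card : ℝ) = M := by
      rw [rg, card_powersetCard, card_range]
    have hLe : 1 / (L : ℝ) ≤ ε / 2 := by
      rw [div_le_div_iff₀ hL0 (by norm_num)]
      linarith
    have hmono : E2 d n q (rt o) (fun A => ind ((Wf Q n q (rt o) + ε) * M ≤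
        ((wset Q.toRankFn (rg d n) A).card : ℝ))) ≤
        E2 d n q (rt o) (fun A => ind (Wf Q n q (rt o + y - rt o * y) * ∑ e ∈ rg d n, y +
          3 * (y * ε * M / 6) ≤ ∑ e ∈ wset Q.toRankFn (rg d n) A, y)) := by
      refine Ev_mono _ _ (fun i _ => h15_dn0 hq0 hp0 i) (fun i _ => h15_dn1 hq1 hp1 i) _ _ ?_
      intro X _
      refine ind_mono fun h => ?_
      rw [sum_const, sum_const, nsmul_eq_mul, nsmul_eq_mul, hcard]
      have h1 : (Wf Q n q (rt o) + ε) * M * y ≤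
          ((wset Q.toRankFn (rg d n) X).card : ℝ) * y := mul_le_mul_of_nonneg_right h hy0.le
      have h2 : Wf Q n q (rt o + y - rt o * y) ≤ Wf Q n q (rt o) + ε / 2 := by linarith
      have h3 : Wf Q n q (rt o + y - rt o * y) * (M * y) ≤ (Wf Q n q (rt o) + ε / 2) * (M * y) :=
        mul_le_mul_of_nonneg_right h2 (by positivity)
      calc Wf Q n q (rt o + y - rt o * y) * (M * y) + 3 * (y * ε * M / 6) ≤
            (Wf Q n q (rt o) + ε / 2) * (M * y) + 3 * (y * ε * M / 6) := by linarith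
        _ = (Wf Q n q (rt o) + ε) * M * y := by ring
        _ ≤ _ := h1
    refine hmono.trans (hco.trans ?_)
    have hexp : 3 / ε ≤ (y * ε * M / 6) ^ 2 / (4 * (2 * C * M)) := by
      have h1 : (y * ε * M / 6) ^ 2 / (4 * (2 * C * M)) = y ^ 2 * ε ^ 2 * M / (288 * C) := by
        field_simp; ring
      rw [h1]
      have h2 : (n : ℝ) ^ d / (2 ^ d * (d.factorial : ℝ)) ≤ M := choose_low d n (by omega) hn2d
      have h3 : (n : ℝ) ^ 2 ≤ (n : ℝ) ^ d := by
        refine pow_le_pow_right₀ ?_ hd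
        have : 1 ≤ n := by omega
        exact_mod_cast this
      have hf0 : (0 : ℝ) < 2 ^ d * (d.factorial : ℝ) := by positivity
      have h4 : (n : ℝ) ^ 2 ≤ M * (2 ^ d * (d.factorial : ℝ)) := by
        rw [div_le_iff₀ hf0] at h2
        exact h3.trans h2
      have h5 : A / 2 ≤ n * y := by
        have : n * (a / 2) ≤ n * y := mul_le_mul_of_nonneg_left hyl hn0.le
        have h2 : n * (a / 2) = A / 2 := by rw [ha]; field_simp
        linarith
      have h6 : (A / 2) ^ 2 ≤ (n * y) ^ 2 := pow_le_pow_left₀ (by positivity) h5 2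
      have h7 : A ≤ A ^ 2 := by rw [sq]; exact le_mul_of_one_le_left hA0.le hA1
      have h8 : (A / 2) ^ 2 ≤ y ^ 2 * (M * (2 ^ d * (d.factorial : ℝ))) := by
        calc (A / 2) ^ 2 ≤ (n * y) ^ 2 := h6
          _ = y ^ 2 * (n : ℝ) ^ 2 := by ring
          _ ≤ _ := mul_le_mul_of_nonneg_left h4 (by positivity)
      have h9 : 3456 * C * (2 ^ d * (d.factorial : ℝ)) ≤ A * ε ^ 3 := by
        have : 3456 * C * (2 ^ d * (d.factorial : ℝ)) = E3 * ε ^ 3 := by
          rw [hE3]; field_simp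
        rw [this]
        exact mul_le_mul_of_nonneg_right (by linarith) (by positivity)
      rw [div_le_div_iff₀ hε (by positivity)]
      refine le_of_mul_le_mul_right ?_ hf0
      calc 3 * (288 * C) * (2 ^ d * (d.factorial : ℝ)) =
            (3456 * C * (2 ^ d * (d.factorial : ℝ))) / 4 := by ring
        _ ≤ (A * ε ^ 3) / 4 := by linarith
        _ ≤ (A ^ 2 * ε ^ 3) / 4 := by
            have := mul_le_mul_of_nonneg_right h7 (by positivity : (0 : ℝ) ≤ ε ^ 3)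
            linarith
        _ = (A / 2) ^ 2 * ε ^ 3 := by ring
        _ ≤ (y ^ 2 * (M * (2 ^ d * (d.factorial : ℝ)))) * ε ^ 3 :=
            mul_le_mul_of_nonneg_right h8 (by positivity)
        _ = _ := by ring
    set t : ℝ := (y * ε * M / 6) ^ 2 / (4 * (2 * C * M)) with ht
    have ht0 : 0 < t := lt_of_lt_of_le (by positivity) hexp
    have h10 : Real.exp (-t) ≤ 1 / t := by
      rw [le_div_iff₀ ht0]
      have h11 : t ≤ Real.exp t := by have := Real.add_one_le_exp t; linarith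
      calc Real.exp (-t) * t ≤ Real.exp (-t) * Real.exp t :=
            mul_le_mul_of_nonneg_left h11 (Real.exp_pos _).le
        _ = 1 := by rw [← Real.exp_add]; simp
    have h12 : 1 / t ≤ ε / 3 := by
      rw [div_le_div_iff₀ ht0 (by norm_num)]
      rw [div_le_iff₀ hε] at hexp
      linarith
    linarith

theorem micro_pt (d : ℕ) (hd : 2 ≤ d) (C ε : ℝ) (hC : 1 ≤ C) (hε : 0 < ε) :
    ∃ K > (0:ℝ), ∃ n0 : ℕ, ∀ n ≥ n0, ∀ (Q : ERank d) (q : ℝ), 0 ≤ q → q ≤ C / n →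
      ∃ o, 0 ≤ o ∧ o ≤ K / n ∧ Tf Q n q (rt o) ≤ Af Q n q (rt o) + ε ∧
        E2 d n q (rt o) (fun A => ind ((Wf Q n q (rt o) + ε) * (n.choose d : ℝ) ≤
          ((wset Q.toRankFn (rg d n) A).card : ℝ))) ≤ ε := by
  obtain ⟨K, hK, n0, h⟩ := h15_micro d hd C (min ε 1) hC (lt_min hε one_pos) (min_le_right _ _)
  refine ⟨K, hK, n0, fun n hn Q q hq0 hqC => ?_⟩
  obtain ⟨hq1, o, ho0, hoK, h1, h2⟩ := h n hn Q q hq0 hqC
  refine ⟨o, ho0, hoK, h1.trans (add_le_add le_rfl (min_le_left _ _)), ?_⟩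
  refine le_trans ?_ (h2.trans (min_le_left _ _))
  refine Ev_mono _ _ (fun i _ => h15_dn0 hq0 (rt_nonneg ho0) i)
    (fun i _ => h15_dn1 hq1 (rt_lt_one _).le i) _ _ ?_
  intro X _
  refine ind_mono fun h3 => le_trans ?_ h3
  exact mul_le_mul_of_nonneg_right (add_le_add le_rfl (min_le_left _ _)) (Nat.cast_nonneg _)

end FC
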