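import Pool.Agent.H18.FC2.Step5Of
import Pool.Agent.H18.FC2.Mono
import Pool.Agent.H18.FC2.Dich
import Pool.Agent.H18.FC2.Cnt

/-!
# If the density of the ridges in the closure can be computed from the faces, it does not grow
-/

namespace FC

open Finset

theorem step5 (d : ℕ) (hd : 2 ≤ d) (s ε : ℝ) (hs : 0 < s) (hε : 0 < ε) :
    ∃ δ > (0:ℝ), ∃ n0 : ℕ, ∀ n ≥ n0, ∀ (Q : ERank d) (q o l : ℝ), 0 ≤ q → q ≤ 1 → 0 ≤ o →
      o ≤ l → s ≤ Wf Q n q (rt o) →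
      E2 d n q (rt o) (fun A => ind ((Wf Q n q (rt o) + δ) * (n.choose d : ℝ) ≤
          ((wset Q.toRankFn (rg d n) A).card : ℝ))) ≤ δ →
      E2 d n q (rt l) (fun A => ind (¬ Disc n d (bf n (wset Q.toRankFn (rg d n) A))
          (Wf Q n q (rt l)) δ)) ≤ δ →
      Wf Q n q (rt l) ^ d * Wf Q n q (rt o) ≤ Af Q n q (rt o) + δ →
      Wf Q n q (rt l) - ε ≤ Wf Q n q (rt o) :=
  step5_of d (fun s ε hs hε => dich d hd s ε hs hε) (fun n W hW => cnt1 d n W hW)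
    (fun n W hW => cnt2 d n hd W hW)
    (fun Q n q p h1 h2 h3 h4 => Wf_le_one Q n q p h1 h2 h3 h4)
    (fun Q n q p q' p' h1 h2 h3 h4 h5 h6 => Wf_mono Q n q p q' p' h1 h2 h3 h4 h5 h6)
    (fun n q p y f => E2_union d n q p y f) s ε hs hε

end FC
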