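import Pool.Agent.H18.FC2.State
import Pool.Agent.H18.FC2.Micro
import Pool.Agent.H18.FC2.Step5
import Pool.Agent.H18.FC2.Link
import Pool.Agent.H18.FC2.AfW
import Pool.Agent.H18.FC2.Calc
import Pool.Agent.H18.FC2.G2
import Pool.Agent.H92.FC.FF6

/-!
# The drop of the expected nullity at the threshold
-/

namespace FC

open Finset

variable {d : ℕ}

theorem h18_rt_log {q : ℝ} (hq : q < 1) : rt (-Real.log (1 - q)) = q := by
  unfold rt
  rw [neg_neg, Real.exp_log (by linarith)]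
  ring

theorem h18_log_le {q : ℝ} (hq0 : 0 ≤ q) (hq : q ≤ 1 / 2) : -Real.log (1 - q) ≤ 2 * q := by
  have h0 : 0 < 1 - q := by linarith
  have h1 := Real.log_le_sub_one_of_pos (inv_pos.2 h0)
  rw [Real.log_inv] at h1
  refine h1.trans ?_
  rw [sub_le_iff_le_add, inv_le_comm₀ h0 (by linarith)]
  rw [inv_le_iff_one_le_mul₀ (by linarith)]
  linarith [mul_nonneg hq0 (by linarith : 0 ≤ 1 - 2 * q)]

theorem h18_log_nonneg {q : ℝ} (hq0 : 0 ≤ q) (hq : q < 1) : 0 ≤ -Real.log (1 - q) := by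
  have := Real.log_nonpos (by linarith : 0 ≤ 1 - q) (by linarith)
  linarith

theorem h18_pow_le (d : ℕ) {x y t : ℝ} (hx0 : 0 ≤ x) (hx1 : x ≤ 1) (hy0 : 0 ≤ y) (hy1 : y ≤ 1)
    (ht : 0 ≤ t) (h : x ≤ y + t) : x ^ d ≤ y ^ d + d * t := by
  induction d with
  | zero => simp
  | succ d ih =>
    have h1 : x ^ (d + 1) = x ^ d * x := pow_succ _ _
    have h2 : y ^ (d + 1) = y ^ d * y := pow_succ _ _
    have h3 : x ^ d ≤ 1 := pow_le_one₀ hx0 hx1
    have h4 : 0 ≤ y ^ d := pow_nonneg hy0 d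
    have h5 : 0 ≤ x ^ d := pow_nonneg hx0 d
    have h6 : (0:ℝ) ≤ d := Nat.cast_nonneg d
    rw [h1, h2]
    push_cast
    calc x ^ d * x ≤ x ^ d * (y + t) := mul_le_mul_of_nonneg_left h h5
      _ = x ^ d * y + x ^ d * t := by ring
      _ ≤ (y ^ d + d * t) * y + 1 * t := by
        refine add_le_add (mul_le_mul_of_nonneg_right ih hy0) (mul_le_mul_of_nonneg_right h3 ht)
      _ ≤ y ^ d * y + (d + 1) * t := by
        linarith [mul_nonneg (mul_nonneg h6 ht) (sub_nonneg.2 hy1)]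

theorem kprime (d : ℕ) (hd : 2 ≤ d) (e0 : ℝ) (he0 : 0 < e0) (Q : ERank d) (R : CRank d)
    (h : ∀ S : Finset (Finset ℕ), (∀ τ ∈ S, τ.card = d + 1) → Q.r S = R.r S) :
    ∃ ζ > (0:ℝ), ∃ J ≥ 1, ∃ n0 : ℕ, ∀ n ≥ n0, ∀ q : ℝ, 0 < q → q ≤ ((d : ℝ) + 3) / n →
      (n : ℝ) ^ ((d : ℝ) / 2 + e0) ≤ beta R n q → beta R n q ≤ (n : ℝ) ^ ((d : ℝ) - 1 / 4) →
      ζ * J * (n : ℝ) ^ (d - 1) ≤ beta R (n + J) q - beta R n q := by
  obtain ⟨m0, s, _, hAN⟩ := h63_ANe_of hd e0 he0 R
  obtain ⟨c, v, hc, hv0, hv1, hE, hcv, f1, f2, f3⟩ := fstar d hd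
  have hs := hAN.spos
  have hd0 : (0:ℝ) < (d : ℝ) + 1 := by positivity
  have hdn : (0:ℝ) ≤ d := Nat.cast_nonneg d
  set C : ℝ := 2 * ((d : ℝ) + 3) with hC
  have hC1 : 1 ≤ C := by rw [hC]; linarith
  set ε4 : ℝ := Ef v / (8 * (c + 1)) with hε4
  have hε40 : 0 < ε4 := by positivity
  obtain ⟨δ5, hδ5, n5, S5⟩ := step5 d hd (s / 2) (ε4 / 2) (by linarith) (by linarith)
  set εm : ℝ := min (δ5 / 2) (s / 2) with hεm
  have hεm0 : 0 < εm := lt_min (by linarith) (by linarith)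
  obtain ⟨K, hK, n6, M6⟩ := micro_pt d hd C εm hC1 hεm0
  set εs : ℝ := min (δ5 / (2 * ((d : ℝ) + 1))) (min (ε4 / 2) (Ef v / 8)) with hεs
  have hεs0 : 0 < εs := lt_min (by positivity) (lt_min (by linarith) (by linarith))
  have hεs1 : εs ≤ δ5 / (2 * ((d : ℝ) + 1)) := min_le_left _ _
  have hεs2 : εs ≤ ε4 / 2 := (min_le_right _ _).trans (min_le_left _ _)
  have hεs3 : εs ≤ Ef v / 8 := (min_le_right _ _).trans (min_le_right _ _)
  obtain ⟨n7, S7⟩ := state d hd c v hc hv0 hv1 hcv f1 f2 f3 C (s / 2) εs K hC1 (by linarith)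
    hεs0 hK
  obtain ⟨n8, S8⟩ := h18_tend 0 (C ^ 2) 0 (Ef v / 8) (by linarith)
  set J : ℕ := ⌈4 * K / Ef v⌉₊ + 1 with hJ
  have hJK : 4 * K ≤ J * Ef v := by
    have h1 : 4 * K / Ef v ≤ (⌈4 * K / Ef v⌉₊ : ℝ) := Nat.le_ceil _
    have h2 : 4 * K / Ef v ≤ J := by rw [hJ]; push_cast; linarith
    rwa [div_le_iff₀ hE] at h2
  refine ⟨Ef v / (4 * (2 ^ d * (d.factorial : ℝ))), by positivity, J, by omega,
    max (max m0 n5) (max (max n6 n7) (max n8 (2 * d + 6))), fun n hn q hq0 hq hb1 hb2 => ?_⟩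
  have hm0 : m0 ≤ n := (le_max_left _ _).trans ((le_max_left _ _).trans hn)
  have hn5 : n5 ≤ n := (le_max_right _ _).trans ((le_max_left _ _).trans hn)
  have hn6 : n6 ≤ n := (le_max_left _ _).trans ((le_max_left _ _).trans ((le_max_right _ _).trans hn))
  have hn7 : n7 ≤ n := (le_max_right _ _).trans ((le_max_left _ _).trans ((le_max_right _ _).trans hn))
  have hn8 : n8 ≤ n := (le_max_left _ _).trans ((le_max_right _ _).trans ((le_max_right _ _).trans hn))
  have hn9 : 2 * d + 6 ≤ n := (le_max_right _ _).trans ((le_max_right _ _).trans ((le_max_right _ _).trans hn))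
  obtain ⟨_, hC8, _⟩ := S8 n hn8
  have hnR : (2:ℝ) * d + 6 ≤ n := by exact_mod_cast hn9
  have hn0 : (0:ℝ) < n := by linarith
  have hnd : (0:ℝ) < (n : ℝ) - d := by linarith
  have hq12 : q ≤ 1 / 2 := by
    refine hq.trans ?_
    rw [div_le_div_iff₀ hn0 (by norm_num)]
    linarith
  have hq1 : q < 1 := by linarith
  set μ : ℝ := -Real.log (1 - q) with hμ
  have hμ0 : 0 ≤ μ := h18_log_nonneg hq0.le hq1
  have hμq : rt μ = q := h18_rt_log hq1
  have hμC : μ ≤ C / n := by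
    refine (h18_log_le hq0.le hq12).trans ?_
    have : 2 * q ≤ 2 * (((d : ℝ) + 3) / n) := by linarith
    refine this.trans (le_of_eq ?_)
    rw [hC]; ring
  have hM : (0:ℝ) < (n.choose d : ℝ) := by exact_mod_cast Nat.choose_pos (by omega)
  -- the density of faces in the closure
  have hT0 : s ≤ Tf Q n q 0 := by
    have h1 := hAN.big n hm0 q hq0 hq hb1
    have h2 := Tm_le_Tf Q R h n q hq0.le hq1.le
    have h3 : (n.choose (d + 1) : ℝ) ≤ (n : ℝ) ^ (d + 1) := by
      exact_mod_cast Nat.choose_le_pow n (d + 1)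
    have hT : 0 ≤ Tf Q n q 0 := by
      unfold Tf
      refine div_nonneg (Ev_nonneg _ _ ?_ ?_ _ fun X _ => by positivity) (by positivity)
      · intro i _; unfold dn; split_ifs <;> linarith
      · intro i _; unfold dn; split_ifs <;> linarith
    have h4 : (n : ℝ) ^ (d + 1) * s ≤ (n : ℝ) ^ (d + 1) * Tf Q n q 0 := by
      have := mul_le_mul_of_nonneg_right h3 hT
      linarith
    exact le_of_mul_le_mul_left h4 (by positivity)
  -- the microscopic point
  obtain ⟨o, ho0, hoK, hTA, hconc⟩ := M6 n hn6 Q q hq0.le (by rw [← hμq]; exact (rt_le μ).trans hμC)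
  have hrto0 : 0 ≤ rt o := rt_nonneg ho0
  have hTo : s ≤ Tf Q n q (rt o) := hT0.trans
    (Tf_mono Q n _ _ _ _ hq0.le le_rfl hq1.le le_rfl hrto0 (rt_lt_one o).le)
  have hAW := Af_le_Wf Q n (by omega) q (rt o) hq0.le hq1.le hrto0 (rt_lt_one o).le
  have hεms : εm ≤ s / 2 := min_le_right _ _
  have hεmδ : εm ≤ δ5 / 2 := min_le_left _ _
  have hW0 : s / 2 ≤ Wf Q n q (rt o) := by linarith
  have hW01 : Wf Q n q (rt o) ≤ 1 := Wf_le_one Q n q _ hq0.le hq1.le hrto0 (rt_lt_one o).le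
  obtain ⟨g1, g2', l, g3, g4, g5, g6⟩ := S7 n hn7 Q μ o hμ0 hμC ho0 hoK
    (by rw [hμq, ← beta_eq_Rf Q R h n q]; exact hb2) (by rw [hμq]; exact hW0)
  rw [hμq] at g2' g5 g6
  have hl0 : 0 ≤ l := ho0.trans g3
  have hWl0 : 0 ≤ Wf Q n q (rt l) := Wf_nonneg Q n q _ hq0.le hq1.le (rt_nonneg hl0)
    (rt_lt_one l).le
  have hWl1 : Wf Q n q (rt l) ≤ 1 := Wf_le_one Q n q _ hq0.le hq1.le (rt_nonneg hl0)
    (rt_lt_one l).le
  have hdens : ∀ p : ℝ, 0 ≤ p → p ≤ 1 → (∀ i ∈ gd d n, 0 ≤ dn d q p i) ∧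
      (∀ i ∈ gd d n, dn d q p i ≤ 1) := by
    intro p hp0 hp1
    constructor
    · intro i _; unfold dn; split_ifs <;> linarith
    · intro i _; unfold dn; split_ifs <;> linarith
  have hεsδ : εs ≤ δ5 / 2 := by
    refine hεs1.trans ?_
    exact div_le_div_of_nonneg_left hδ5.le (by norm_num) (by linarith)
  -- step 5
  have k5 : Wf Q n q (rt l) - ε4 / 2 ≤ Wf Q n q (rt o) := by
    refine S5 n hn5 Q q o l hq0.le hq1.le ho0 g3 hW0 ?_ ?_ ?_
    · obtain ⟨a1, a2⟩ := hdens (rt o) hrto0 (rt_lt_one o).le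
      refine le_trans ?_ (hconc.trans (by linarith))
      refine Ev_mono _ _ a1 a2 _ _ fun X _ => ind_mono fun hX => ?_
      refine le_trans ?_ hX
      exact mul_le_mul_of_nonneg_right (by linarith) hM.le
    · obtain ⟨a1, a2⟩ := hdens (rt l) (rt_nonneg hl0) (rt_lt_one l).le
      refine le_trans ?_ (g6.trans (by linarith))
      refine Ev_mono _ _ a1 a2 _ _ fun X _ => ind_mono fun hX hX' => hX ?_
      intro u hu
      exact (hX' u hu).trans (mul_le_mul_of_nonneg_right (by linarith) (by positivity))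
    · have h1 : Wf Q n q (rt l) ≤ v + εs := by linarith [(abs_le.1 g5).2]
      have h2 := h18_pow_le d hWl0 hWl1 hv0.le hv1.le hεs0.le h1
      have h3 : Wf Q n q (rt l) ^ d * Wf Q n q (rt o) ≤
          (v ^ d + d * εs) * Wf Q n q (rt o) := mul_le_mul_of_nonneg_right h2 (by linarith)
      have h4 : d * εs * Wf Q n q (rt o) ≤ d * εs :=
        mul_le_of_le_one_right (by positivity) hW01
      have h5 : (d : ℝ) * εs + εs ≤ δ5 / 2 := by
        rw [le_div_iff₀ (by positivity)] at hεs1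
        linarith
      linarith
  have hWv : v - ε4 ≤ Wf Q n q (rt o) := by
    have := (abs_le.1 g5).1
    linarith
  -- the link inequality
  have k9 := link Q R hd h n J μ (rt o) v hμ0 hrto0 (rt_lt_one o).le hv0.le hv1
  rw [hμq] at k9
  refine le_trans ?_ k9
  have hrtoK : rt o ≤ K / n := (rt_le o).trans hoK
  have hμsq : μ - q ≤ μ ^ 2 / 2 := by
    have := le_rt hμ0
    rw [hμq] at this
    linarith
  set W0 := Wf Q n q (rt o) with hW0'
  set M : ℝ := (n.choose d : ℝ) with hM'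
  -- number of (d-1)-sets
  have hch : (n.choose (d - 1) : ℝ) * ((n : ℝ) - d) ≤ M * d := by
    have h1 := choose_mul (d - 1) n (by omega)
    have h2 : ((d - 1 : ℕ) : ℝ) = (d : ℝ) - 1 := by
      rw [Nat.cast_sub (by omega)]; simp
    have h3 : d - 1 + 1 = d := by omega
    rw [h2, h3] at h1
    have h4 : (0:ℝ) ≤ (n.choose (d - 1) : ℝ) := by positivity
    rw [hM']
    linarith
  have hv0d : 0 ≤ v ^ d := by positivity
  have hv1d : v ^ d ≤ 1 := pow_le_one₀ hv0.le hv1.le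
  -- main numerical estimate
  have key : Ef v / 2 ≤ (((n : ℝ) - d) * μ) * W0 * v ^ d - d * Ef v -
      ((n : ℝ) - d) * (μ - q) := by
    have h1 : (c - εs) * (v - ε4) * v ^ d ≤ (((n : ℝ) - d) * μ) * W0 * v ^ d := by
      refine mul_le_mul_of_nonneg_right ?_ hv0d
      have h2 : 0 ≤ ((n : ℝ) - d) * μ := by positivity
      rcases le_total (v - ε4) 0 with hneg | hpos
      · rcases le_total 0 (c - εs) with hp | hp
        · have := mul_nonpos_of_nonneg_of_nonpos hp hneg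
          have : 0 ≤ (((n : ℝ) - d) * μ) * W0 := mul_nonneg h2 (by linarith)
          linarith
        · -- impossible as `εs ≤ Ef v / 8` is small; use a direct bound
          have hE1 : Ef v ≤ c := by
            have h5 : ((d : ℝ) + 1) * Ef v ≤ c := by
              rw [← hcv]
              exact mul_le_of_le_one_right hc.le (pow_le_one₀ hv0.le hv1.le)
            linarith [mul_nonneg hdn hE.le]
          linarith
      · calc (c - εs) * (v - ε4) ≤ (((n : ℝ) - d) * μ) * (v - ε4) :=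
              mul_le_mul_of_nonneg_right g1 hpos
          _ ≤ _ := mul_le_mul_of_nonneg_left hWv h2
    have h2 : c * v ^ (d + 1) - εs - c * ε4 ≤ (c - εs) * (v - ε4) * v ^ d := by
      have e1 : (c - εs) * (v - ε4) * v ^ d =
          c * v ^ (d + 1) - εs * v * v ^ d - c * ε4 * v ^ d + εs * ε4 * v ^ d := by
        rw [pow_succ]; ring
      have e2 : εs * v * v ^ d ≤ εs := by
        have : εs * (v * v ^ d) ≤ εs * 1 := mul_le_mul_of_nonneg_left
          (mul_le_one₀ hv1.le hv0d hv1d) hεs0.le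
        linarith
      have e3 : c * ε4 * v ^ d ≤ c * ε4 := mul_le_of_le_one_right (by positivity) hv1d
      have e4 : 0 ≤ εs * ε4 * v ^ d := by positivity
      linarith
    have h3 : c * ε4 ≤ Ef v / 8 := by
      rw [hε4, ← mul_div_assoc, div_le_div_iff₀ (by positivity) (by norm_num)]
      linarith
    have h4 : ((n : ℝ) - d) * (μ - q) ≤ Ef v / 8 := by
      have h5 : ((n : ℝ) - d) * (μ - q) ≤ n * μ ^ 2 := by
        calc ((n : ℝ) - d) * (μ - q) ≤ ((n : ℝ) - d) * (μ ^ 2 / 2) :=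
              mul_le_mul_of_nonneg_left hμsq hnd.le
          _ ≤ n * μ ^ 2 := by
            linarith [mul_nonneg hdn (sq_nonneg μ), mul_nonneg hn0.le (sq_nonneg μ)]
      have h6 : (n : ℝ) * μ ^ 2 ≤ C ^ 2 / n := by
        rw [le_div_iff₀ hn0]
        have h7 : μ * n ≤ C := by rwa [le_div_iff₀ hn0] at hμC
        have : (μ * n) ^ 2 ≤ C ^ 2 := pow_le_pow_left₀ (by positivity) h7 2
        linarith
      linarith
    have h5 : c * v ^ (d + 1) = d * Ef v + Ef v := by rw [hcv]; ring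
    linarith
  -- assemble
  have hJ0 : (0:ℝ) ≤ J := Nat.cast_nonneg J
  have h1 : M / ((n : ℝ) - d) * (Ef v / 2) ≤ μ * (W0 * M) * v ^ d -
      (n.choose (d - 1) : ℝ) * Ef v - (μ - q) * M := by
    have e1 : (n.choose (d - 1) : ℝ) * Ef v ≤ M / ((n : ℝ) - d) * (d * Ef v) := by
      have : (n.choose (d - 1) : ℝ) ≤ M / ((n : ℝ) - d) * d := by
        rw [div_mul_eq_mul_div, le_div_iff₀ hnd]
        exact hch
      have := mul_le_mul_of_nonneg_right this hE.le
      linarith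
    have e2 : μ * (W0 * M) * v ^ d = M / ((n : ℝ) - d) * ((((n : ℝ) - d) * μ) * W0 * v ^ d) := by
      field_simp
    have e3 : (μ - q) * M = M / ((n : ℝ) - d) * (((n : ℝ) - d) * (μ - q)) := by
      field_simp
    rw [e2, e3]
    have e4 := mul_le_mul_of_nonneg_left key (div_pos hM hnd).le
    have e5 : M / ((n : ℝ) - d) * ((((n : ℝ) - d) * μ) * W0 * v ^ d - d * Ef v -
        ((n : ℝ) - d) * (μ - q)) = M / ((n : ℝ) - d) * ((((n : ℝ) - d) * μ) * W0 * v ^ d) -
        M / ((n : ℝ) - d) * (d * Ef v) - M / ((n : ℝ) - d) * (((n : ℝ) - d) * (μ - q)) := by ring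
    rw [e5] at e4
    linarith
  have h2 : M / n ≤ M / ((n : ℝ) - d) := div_le_div_of_nonneg_left hM.le hnd (by linarith)
  have h3 : (J : ℝ) * (M / n * (Ef v / 2)) ≤ (J : ℝ) * (μ * (W0 * M) * v ^ d -
      (n.choose (d - 1) : ℝ) * Ef v - (μ - q) * M) := by
    refine mul_le_mul_of_nonneg_left (le_trans ?_ h1) hJ0
    exact mul_le_mul_of_nonneg_right h2 (by linarith)
  have h4 : rt o * M ≤ K * (M / n) := by
    have := mul_le_mul_of_nonneg_right hrtoK hM.le
    refine this.trans (le_of_eq ?_)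
    ring
  have h5 : (n : ℝ) ^ (d - 1) / (2 ^ d * (d.factorial : ℝ)) ≤ M / n := by
    have h6 := choose_low d n (by omega) (by omega)
    rw [le_div_iff₀ hn0]
    refine le_trans (le_of_eq ?_) h6
    have h7 : (n : ℝ) ^ d = (n : ℝ) ^ (d - 1) * n := by
      rw [← pow_succ]; congr 1; omega
    rw [h7]; ring
  have h6 : Ef v / (4 * (2 ^ d * (d.factorial : ℝ))) * J * (n : ℝ) ^ (d - 1) ≤
      J * Ef v / 4 * (M / n) := by
    have h7 := mul_le_mul_of_nonneg_left h5 (by positivity : 0 ≤ (J : ℝ) * Ef v / 4)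
    refine le_trans (le_of_eq ?_) h7
    field_simp
  have h7 : K * (M / n) ≤ J * Ef v / 4 * (M / n) :=
    mul_le_mul_of_nonneg_right (by linarith) (by positivity)
  have h8 : (J : ℝ) * (M / n * (Ef v / 2)) = J * Ef v / 4 * (M / n) + J * Ef v / 4 * (M / n) := by
    ring
  linarith

end FC
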