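import Pool.Agent.H92.FC.Main
import Pool.Agent.H92.FC.LinRank

/-!
# The first emerging cycle: from the fraction of bad orders to the limit law
-/

namespace FC

open Finset

/-- For the order `e` of all `d`-faces on the vertex set `{0,…,n-1}`: there is a first time `t`
at which there is a nonzero `d`-cycle, and the support of every nonzero cycle at this time is the
boundary of a `(d+1)`-simplex or covers all vertices. -/
def FirstSpan (F : Type*) [Field F] (d n : ℕ) (e : Ord (fc d n)) : Prop :=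
  ∃ t : ℕ, (∀ s < t, ∀ z : Finset ℕ → F, IsCyc F d n (pre e s) z → z = 0) ∧
    (∃ z : Finset ℕ → F, z ≠ 0 ∧ IsCyc F d n (pre e t) z) ∧
    ∀ z : Finset ℕ → F, z ≠ 0 → IsCyc F d n (pre e t) z →
      (∃ W ⊆ range n, W.card = d + 2 ∧ ∀ σ, z σ ≠ 0 ↔ σ ∈ W.powersetCard (d + 1)) ∨
      ∀ v ∈ range n, ∃ σ, z σ ≠ 0 ∧ v ∈ σ

theorem h92_pre_all {α : Type*} [DecidableEq α] {G : Finset α} (e : Ord G) : pre e G.card = G := by
  ext a
  unfold pre
  rw [Finset.mem_image]
  constructor
  · rintro ⟨i, _, rfl⟩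
    exact (e i).2
  · intro ha
    refine ⟨e.symm ⟨a, ha⟩, ?_, by simp⟩
    simp

theorem h92_exists_cycle (F : Type*) [Field F] (d n : ℕ) (hn : d + 2 ≤ n) :
    ∃ z : Finset ℕ → F, z ≠ 0 ∧ IsCyc F d n (fc d n) z := by
  have hW : (range (d + 2)).card = d + 2 := card_range _
  have hsub : (range (d + 2)).powersetCard (d + 1) ⊆ fc d n := by
    unfold fc faces
    exact Finset.powersetCard_mono (Finset.range_mono hn)
  have hcard : ((range (d + 2)).powersetCard (d + 1)).card = d + 2 := by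
    rw [Finset.card_powersetCard, card_range, Nat.choose_succ_self_right]
  have h1 := (h23_R F d).simp (range (d + 2)) hW
  have h2 : 0 < (h23_R F d).nul ((range (d + 2)).powersetCard (d + 1)) := by
    unfold RankFn.nul
    rw [hcard]; omega
  obtain ⟨z, hz, hcyc⟩ := ((h23_main F d).1 n _ hsub).2 h2
  exact ⟨z, hz, fun σ hσ => hsub (hcyc.1 σ hσ), hcyc.2⟩

theorem h92_span_of_good (F : Type*) [Field F] (d n : ℕ) (hn : d + 2 ≤ n) (e : Ord (fc d n))
    (h : FirstGood F d n 1 e) : FirstSpan F d n e := by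
  classical
  have hex : ∃ t : ℕ, ∃ z : Finset ℕ → F, z ≠ 0 ∧ IsCyc F d n (pre e t) z := by
    refine ⟨(fc d n).card, ?_⟩
    rw [h92_pre_all]
    exact h92_exists_cycle F d n hn
  have hlt : ∀ s < Nat.find hex, ∀ z : Finset ℕ → F, IsCyc F d n (pre e s) z → z = 0 := by
    intro s hs z hz
    by_contra h0
    exact Nat.find_min hex hs ⟨z, h0, hz⟩
  refine ⟨Nat.find hex, hlt, Nat.find_spec hex, fun z hz hcyc => ?_⟩
  rcases h (Nat.find hex) z hlt hz hcyc with h1 | h1
  · exact Or.inl h1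
  · refine Or.inr fun v hv => ?_
    by_contra h2
    push Not at h2
    have h3 := h1 {v} (Finset.singleton_subset_iff.2 hv) (fun σ hσ w hw => by
      rw [Finset.mem_singleton] at hw
      subst hw
      exact h2 σ hσ)
    simp at h3

open Classical in
theorem tendsto_of_bad (F : Type*) [Field F] (d : ℕ)
    (h : ∀ ε : ℝ, 0 < ε → ∃ n0 : ℕ, ∀ n ≥ n0, badFrac F d n 1 ≤ ε) :
    Filter.Tendsto (fun n : ℕ =>
      ((univ.filter (fun e : Ord (fc d n) => FirstSpan F d n e)).card : ℝ) /
        (Fintype.card (Ord (fc d n)) : ℝ)) Filter.atTop (nhds 1) := by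
  rw [Metric.tendsto_atTop]
  intro ε hε
  obtain ⟨n0, hn0⟩ := h (ε / 2) (by linarith)
  refine ⟨max n0 (d + 2), fun n hn => ?_⟩
  have h1 := hn0 n ((le_max_left _ _).trans hn)
  have h2 : d + 2 ≤ n := (le_max_right _ _).trans hn
  have hpos : (0:ℝ) < (Fintype.card (Ord (fc d n)) : ℝ) := by exact_mod_cast ord_pos (fc d n)
  have hc := Finset.card_filter_add_card_filter_not (s := (univ : Finset (Ord (fc d n))))
    (fun e => FirstSpan F d n e)
  have hc' : ((univ.filter (fun e : Ord (fc d n) => FirstSpan F d n e)).card : ℝ) +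
      ((univ.filter (fun e : Ord (fc d n) => ¬ FirstSpan F d n e)).card : ℝ) =
      (Fintype.card (Ord (fc d n)) : ℝ) := by
    exact_mod_cast hc
  have hle : ((univ.filter (fun e : Ord (fc d n) => ¬ FirstSpan F d n e)).card : ℝ) ≤
      ((univ.filter (fun e : Ord (fc d n) => ¬ FirstGood F d n 1 e)).card : ℝ) := by
    have : (univ.filter (fun e : Ord (fc d n) => ¬ FirstSpan F d n e)).card ≤
        (univ.filter (fun e : Ord (fc d n) => ¬ FirstGood F d n 1 e)).card := by
      refine Finset.card_le_card fun e he => ?_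
      rw [Finset.mem_filter] at he ⊢
      exact ⟨he.1, fun hg => he.2 (h92_span_of_good F d n h2 e hg)⟩
    exact_mod_cast this
  unfold badFrac at h1
  rw [div_le_iff₀ hpos] at h1
  rw [Real.dist_eq, abs_lt]
  have h0 : (0:ℝ) ≤ ((univ.filter (fun e : Ord (fc d n) => ¬ FirstSpan F d n e)).card : ℝ) :=
    Nat.cast_nonneg _
  constructor
  · rw [lt_sub_iff_add_lt, lt_div_iff₀ hpos]
    nlinarith
  · rw [sub_lt_iff_lt_add, div_lt_iff₀ hpos]
    nlinarith

end FC
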