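import Pool.Agent.H18.FC2.MacroOf
import Pool.Agent.H18.FC2.Mono
import Pool.Agent.H18.FC2.Noise
import Pool.Agent.H18.FC2.Disc

namespace FC

open Finset

theorem macro_pt (d : ℕ) (hd : 2 ≤ d) (C ε a b : ℝ) (hC : 1 ≤ C) (hε : 0 < ε) (ha : 0 < a)
    (hab : a < b) : ∃ n0 : ℕ, ∀ n ≥ n0, ∀ (Q : ERank d) (q : ℝ), 0 ≤ q → q ≤ C / n →
      ∃ l, a ≤ l ∧ l ≤ b ∧ Tf Q n q (rt l) ≤ Wf Q n q (rt l) ^ (d + 1) + ε ∧
        E2 d n q (rt l) (fun A => ind (¬ Disc n d (bf n (wset Q.toRankFn (rg d n) A))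
          (Wf Q n q (rt l)) ε)) ≤ ε :=
  macro_pt_of d hd (fun Q n q p => Wf_nonneg Q n q p) (fun Q n q p => Wf_le_one Q n q p)
    (fun Q n q p q' p' => Wf_mono Q n q p q' p')
    (fun Q n m h1 h2 q p y a1 a2 a3 a4 a5 a6 => noise Q hd n m h1 h2 q p y a1 a2 a3 a4 a5 a6)
    (fun C ε h1 h2 => disc d hd C ε h1 h2) C ε a b hC hε ha hab

end FC
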