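import Pool.Agent.H18.FC2.Defs

/-!
# Telescoping with a quasi-random set of ridges
-/

namespace FC

open Finset

theorem h97_del_update {k n : ℕ} (x : Fin (k + 1) → Fin n) (i : Fin (k + 1)) (z : Fin n) :
    del (Function.update x i z) i = del x i := by
  funext j
  simp [del]

theorem h97_prod_erase {k : ℕ} (j : Fin (k + 1)) (f : Fin (k + 1) → ℝ) :
    ∏ i ∈ univ.erase j, f i = ∏ i : Fin k, f (j.succAbove i) := by
  have h : (univ.erase j : Finset (Fin (k + 1))) = univ.image j.succAbove := by
    rw [Fin.image_succAbove_univ]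
    ext i
    simp
  rw [h, Finset.prod_image (fun a _ b _ hab => Fin.succAbove_right_injective hab)]

theorem h97_insert_update {k n : ℕ} (j : Fin (k + 1)) (z : Fin n) (y : Fin k → Fin n)
    (i : Fin k) (z' : Fin n) :
    (j.insertNth z (Function.update y i z') : Fin (k + 1) → Fin n) =
      Function.update (j.insertNth z y) (j.succAbove i) z' := by
  funext l
  rcases Fin.eq_self_or_eq_succAbove j l with h | ⟨l', h⟩
  · subst h
    rw [Function.update_of_ne (Fin.succAbove_ne l i).symm]
    simp
  · subst h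
    by_cases hl : l' = i
    · subst hl
      simp
    · rw [Function.update_of_ne (fun hh => hl (Fin.succAbove_right_injective hh))]
      simp [hl]

theorem h97_step (n k : ℕ) (b : (Fin k → Fin n) → ℝ) (w ε : ℝ) (hD : Disc n k b w ε)
    (j : Fin (k + 1)) (φ : Fin (k + 1) → (Fin k → Fin n) → ℝ)
    (hφ : ∀ i x, φ i x = 0 ∨ φ i x = 1) :
    |∑ x : Fin (k + 1) → Fin n, (b (del x j) - w) * ∏ i ∈ univ.erase j, φ i (del x i)| ≤
      ε * (n : ℝ) ^ (k + 1) := by
  have h1 : ∑ x : Fin (k + 1) → Fin n, (b (del x j) - w) * ∏ i ∈ univ.erase j, φ i (del x i) =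
      ∑ z : Fin n, ∑ y : Fin k → Fin n, (b y - w) *
        ∏ i : Fin k, φ (j.succAbove i)
          (del (j.insertNth z y : Fin (k + 1) → Fin n) (j.succAbove i)) := by
    rw [← Equiv.sum_comp (Fin.insertNthEquiv (fun _ => Fin n) j), Fintype.sum_prod_type]
    refine Finset.sum_congr rfl fun z _ => Finset.sum_congr rfl fun y _ => ?_
    have hd : del (j.insertNth z y : Fin (k + 1) → Fin n) j = y := by
      funext l
      simp [del]
    show (b (del (j.insertNth z y : Fin (k + 1) → Fin n) j) - w) *
      ∏ i ∈ univ.erase j, φ i (del (j.insertNth z y : Fin (k + 1) → Fin n) i) = _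
    rw [hd, h97_prod_erase j (fun i => φ i (del (j.insertNth z y : Fin (k + 1) → Fin n) i))]
  have h2 : ∀ z : Fin n, |∑ y : Fin k → Fin n, (b y - w) *
        ∏ i : Fin k, φ (j.succAbove i)
          (del (j.insertNth z y : Fin (k + 1) → Fin n) (j.succAbove i))| ≤ ε * (n : ℝ) ^ k := by
    intro z
    refine hD (fun i y => φ (j.succAbove i)
          (del (j.insertNth z y : Fin (k + 1) → Fin n) (j.succAbove i))) fun i => ⟨fun y => ?_, ?_⟩
    · exact hφ _ _
    · intro y z'
      show φ (j.succAbove i) (del (j.insertNth z (Function.update y i z') :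
        Fin (k + 1) → Fin n) (j.succAbove i)) = _
      rw [h97_insert_update, h97_del_update]
  rw [h1]
  calc _ ≤ ∑ z : Fin n, |∑ y : Fin k → Fin n, (b y - w) *
        ∏ i : Fin k, φ (j.succAbove i)
          (del (j.insertNth z y : Fin (k + 1) → Fin n) (j.succAbove i))| :=
        Finset.abs_sum_le_sum_abs _ _
    _ ≤ ∑ z : Fin n, ε * (n : ℝ) ^ k := Finset.sum_le_sum fun z _ => h2 z
    _ = ε * (n : ℝ) ^ (k + 1) := by
        rw [Finset.sum_const, Finset.card_univ, Fintype.card_fin, nsmul_eq_mul]
        ring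

theorem tele (n k : ℕ) (b : (Fin k → Fin n) → ℝ) (w ε : ℝ) (hb : ∀ x, b x = 0 ∨ b x = 1)
    (hw0 : 0 ≤ w) (hw1 : w ≤ 1) (hD : Disc n k b w ε) (S : Finset (Fin (k + 1)))
    (ψ : Fin (k + 1) → (Fin k → Fin n) → ℝ) (hψ : ∀ i x, ψ i x = 0 ∨ ψ i x = 1) :
    |∑ x : Fin (k + 1) → Fin n, (∏ i ∈ S, b (del x i)) * (∏ i ∈ Sᶜ, ψ i (del x i)) -
      w ^ S.card * ∑ x : Fin (k + 1) → Fin n, ∏ i ∈ Sᶜ, ψ i (del x i)| ≤
    S.card * ε * (n : ℝ) ^ (k + 1) := by
  induction S using Finset.induction_on generalizing ψ with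
  | empty => simp
  | insert j S hj ih =>
    -- the functions with the coordinate `j` erased
    set ψ' : Fin (k + 1) → (Fin k → Fin n) → ℝ := Function.update ψ j (fun _ => 1) with hψ'
    have hψ'1 : ∀ i x, ψ' i x = 0 ∨ ψ' i x = 1 := by
      intro i x
      by_cases hi : i = j
      · subst hi
        right
        simp [hψ']
      · rw [hψ', Function.update_of_ne hi]
        exact hψ i x
    have hS : (Sᶜ : Finset (Fin (k + 1))) = insert j (insert j S)ᶜ := by
      ext i
      simp only [mem_compl, mem_insert, not_or]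
      by_cases hi : i = j
      · subst hi; simp [hj]
      · simp [hi]
    have hjn : j ∉ (insert j S)ᶜ := by simp
    have hprod : ∀ x : Fin (k + 1) → Fin n, ∏ i ∈ Sᶜ, ψ' i (del x i) =
        ∏ i ∈ (insert j S)ᶜ, ψ i (del x i) := by
      intro x
      rw [hS, Finset.prod_insert hjn]
      rw [show ψ' j (del x j) = 1 by simp [hψ'], one_mul]
      refine Finset.prod_congr rfl fun i hi => ?_
      have hij : i ≠ j := by
        rintro rfl
        exact hjn hi
      rw [hψ', Function.update_of_ne hij]
    have h1 := ih ψ' hψ'1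
    simp only [hprod] at h1
    set φ : Fin (k + 1) → (Fin k → Fin n) → ℝ := fun i x => if i ∈ S then b x else ψ i x with hφ
    have h2 := h97_step n k b w ε hD j φ (by
      intro i x
      simp only [hφ]
      split_ifs
      · exact hb x
      · exact hψ i x)
    have hφp : ∀ x : Fin (k + 1) → Fin n, ∏ i ∈ univ.erase j, φ i (del x i) =
        (∏ i ∈ S, b (del x i)) * ∏ i ∈ (insert j S)ᶜ, ψ i (del x i) := by
      intro x
      have hu : (univ.erase j : Finset (Fin (k + 1))) = S ∪ (insert j S)ᶜ := by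
        ext i
        simp only [mem_erase, mem_univ, and_true, mem_union, mem_compl, mem_insert, not_or]
        constructor
        · intro hi
          by_cases hiS : i ∈ S
          · exact Or.inl hiS
          · exact Or.inr ⟨hi, hiS⟩
        · rintro (hi | hi)
          · rintro rfl; exact hj hi
          · exact hi.1
      have hdis : Disjoint S (insert j S)ᶜ := by
        rw [Finset.disjoint_left]
        intro i hi hi2
        simp [hi] at hi2
      rw [hu, Finset.prod_union hdis]
      congr 1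
      · refine Finset.prod_congr rfl fun i hi => ?_
        simp [hφ, hi]
      · refine Finset.prod_congr rfl fun i hi => ?_
        have : i ∉ S := by
          intro hiS
          simp [hiS] at hi
        simp [hφ, this]
    simp only [hφp] at h2
    have h3 : ∑ x : Fin (k + 1) → Fin n, (b (del x j) - w) *
        ((∏ i ∈ S, b (del x i)) * ∏ i ∈ (insert j S)ᶜ, ψ i (del x i)) =
        ∑ x : Fin (k + 1) → Fin n, (∏ i ∈ insert j S, b (del x i)) *
          (∏ i ∈ (insert j S)ᶜ, ψ i (del x i)) -
        w * ∑ x : Fin (k + 1) → Fin n, (∏ i ∈ S, b (del x i)) *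
          (∏ i ∈ (insert j S)ᶜ, ψ i (del x i)) := by
      rw [Finset.mul_sum, ← Finset.sum_sub_distrib]
      refine Finset.sum_congr rfl fun x _ => ?_
      rw [Finset.prod_insert hj]
      ring
    rw [h3] at h2
    rw [Finset.card_insert_of_notMem hj]
    set A := ∑ x : Fin (k + 1) → Fin n, (∏ i ∈ insert j S, b (del x i)) *
          (∏ i ∈ (insert j S)ᶜ, ψ i (del x i))
    set B := ∑ x : Fin (k + 1) → Fin n, (∏ i ∈ S, b (del x i)) *
          (∏ i ∈ (insert j S)ᶜ, ψ i (del x i))
    set C := ∑ x : Fin (k + 1) → Fin n, ∏ i ∈ (insert j S)ᶜ, ψ i (del x i)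
    have e1 : A - w ^ (S.card + 1) * C = (A - w * B) + w * (B - w ^ S.card * C) := by ring
    rw [e1]
    have h4 : |w * (B - w ^ S.card * C)| ≤ |B - w ^ S.card * C| := by
      rw [abs_mul, abs_of_nonneg hw0]
      exact mul_le_of_le_one_left (abs_nonneg _) hw1
    calc |(A - w * B) + w * (B - w ^ S.card * C)|
        ≤ |A - w * B| + |w * (B - w ^ S.card * C)| := abs_add_le _ _
      _ ≤ ε * (n : ℝ) ^ (k + 1) + S.card * ε * (n : ℝ) ^ (k + 1) :=
          add_le_add h2 (h4.trans h1)
      _ = _ := by push_cast; ring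

end FC
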