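import Pool.Agent.H18.FC2.Ev
import Pool.Agent.H18.FC2.Tele
import Pool.Agent.H18.FC2.Cnt

/-!
# First emerging cycle: macroscopic points
-/

namespace FC

open Finset

theorem h46_rt_nonneg {x : ℝ} (hx : 0 ≤ x) : 0 ≤ rt x := by
  unfold rt
  have := Real.exp_le_one_iff.mpr (neg_nonpos.mpr hx)
  linarith

theorem h46_rt_le_one (x : ℝ) : rt x ≤ 1 := by
  unfold rt
  have := Real.exp_pos (-x)
  linarith

theorem h46_rt_pos {x : ℝ} (hx : 0 < x) : 0 < rt x := by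
  unfold rt
  have : Real.exp (-x) < Real.exp 0 := Real.exp_lt_exp.mpr (by linarith)
  rw [Real.exp_zero] at this
  linarith

theorem h46_rt_mono {x y : ℝ} (h : x ≤ y) : rt x ≤ rt y := by
  unfold rt
  have := Real.exp_le_exp.mpr (neg_le_neg h)
  linarith

theorem h46_rt_add (x y : ℝ) : rt (x + y) = rt x + rt y - rt x * rt y := by
  unfold rt
  rw [neg_add, Real.exp_add]
  ring

theorem h46_dn0 {d : ℕ} {q p : ℝ} (hq : 0 ≤ q) (hp : 0 ≤ p) (τ : Finset ℕ) :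
    0 ≤ dn d q p τ := by
  unfold dn
  split_ifs <;> assumption

theorem h46_dn1 {d : ℕ} {q p : ℝ} (hq : q ≤ 1) (hp : p ≤ 1) (τ : Finset ℕ) :
    dn d q p τ ≤ 1 := by
  unfold dn
  split_ifs <;> assumption

theorem h46_pigeon (L : ℕ) (hL : 0 < L) (g : ℕ → ℝ) (h0 : 0 ≤ g 0) (h1 : g L ≤ 1) :
    ∃ i < L, g (i + 1) - g i ≤ 1 / L := by
  by_contra hcon
  push Not at hcon
  have hs : ∑ i ∈ range L, (g (i + 1) - g i) = g L - g 0 := sum_range_sub g L
  have hlt : ∑ _i ∈ range L, (1 / (L : ℝ)) < ∑ i ∈ range L, (g (i + 1) - g i) :=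
    sum_lt_sum_of_nonempty ⟨0, by simpa using hL⟩ (fun i hi => hcon i (by simpa using hi))
  rw [sum_const, card_range, nsmul_eq_mul, hs] at hlt
  have hL' : (L : ℝ) ≠ 0 := by exact_mod_cast hL.ne'
  rw [mul_one_div_cancel hL'] at hlt
  linarith

theorem h46_desc (d n : ℕ) (hn : d + 1 ≤ n) :
    (n : ℝ) ^ (d + 1) * (1 - (d : ℝ) * (d + 1) / n) ≤
      ((d + 1).factorial : ℝ) * (n.choose (d + 1) : ℝ) := by
  have h1 : (n + 1 - (d + 1)) ^ (d + 1) ≤ (d + 1).factorial * n.choose (d + 1) := by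
    rw [← Nat.descFactorial_eq_factorial_mul_choose]
    exact Nat.pow_sub_le_descFactorial n (d + 1)
  have h2 : ((n : ℝ) - d) ^ (d + 1) ≤ ((d + 1).factorial : ℝ) * (n.choose (d + 1) : ℝ) := by
    have h3 : ((n + 1 - (d + 1) : ℕ) : ℝ) = (n : ℝ) - d := by
      rw [Nat.add_sub_add_right, Nat.cast_sub (by omega)]
    rw [← h3]
    exact_mod_cast h1
  refine le_trans ?_ h2
  have hn0 : (0 : ℝ) < n := by
    have : 0 < n := by omega
    exact_mod_cast this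
  have hdn : (d : ℝ) / n ≤ 1 := by
    rw [div_le_one hn0]
    have : d ≤ n := by omega
    exact_mod_cast this
  have hb := one_add_mul_le_pow (a := -((d : ℝ) / n)) (by linarith) (d + 1)
  have h4 : ((n : ℝ) - d) ^ (d + 1) = (n : ℝ) ^ (d + 1) * (1 + -((d : ℝ) / n)) ^ (d + 1) := by
    rw [← mul_pow]
    congr 1
    field_simp
    ring
  rw [h4]
  refine mul_le_mul_of_nonneg_left ?_ (by positivity)
  refine le_trans (le_of_eq ?_) hb
  push_cast
  ring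

theorem h46_disc_mono {n k : ℕ} {b : (Fin k → Fin n) → ℝ} {w e e' : ℝ} (h : e ≤ e')
    (hD : Disc n k b w e) : Disc n k b w e' := by
  intro u hu
  exact (hD u hu).trans (mul_le_mul_of_nonneg_right h (by positivity))

variable {d : ℕ}

open Classical in
/-- faces all of whose ridges are in the closure -/
noncomputable def h46_good (Q : ERank d) (n : ℕ) (A : Finset (Finset ℕ)) : Finset (Finset ℕ) :=
  (fc d n).filter (fun σ => ∀ y ∈ σ, σ.erase y ∈ wset Q.toRankFn (rg d n) A)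

open Classical in
/-- faces in the closure not all of whose ridges are in the closure -/
noncomputable def h46_bad (Q : ERank d) (n : ℕ) (A : Finset (Finset ℕ)) : Finset (Finset ℕ) :=
  (fc d n).filter (fun σ => Q.Cl A σ ∧ ¬ ∀ x ∈ σ, Q.Cl A (σ.erase x))

theorem h46_card_fc (d n : ℕ) : (fc d n).card = n.choose (d + 1) := by
  unfold fc faces
  rw [card_powersetCard, card_range]

theorem h46_wset_sub (Q : ERank d) (n : ℕ) (A : Finset (Finset ℕ)) :
    wset Q.toRankFn (fc d n) A ⊆ h46_good Q n A ∪ h46_bad Q n A := by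
  classical
  intro σ hσ
  unfold wset at hσ
  rw [mem_filter] at hσ
  rw [mem_union]
  by_cases h : ∀ x ∈ σ, Q.Cl A (σ.erase x)
  · left
    unfold h46_good
    rw [mem_filter]
    refine ⟨hσ.1, fun y hy => ?_⟩
    unfold wset
    rw [mem_filter]
    refine ⟨?_, h y hy⟩
    have h1 := hσ.1
    unfold fc faces at h1
    rw [mem_powersetCard] at h1
    unfold rg
    rw [mem_powersetCard, card_erase_of_mem hy, h1.2]
    exact ⟨(erase_subset _ _).trans h1.1, by omega⟩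
  · right
    unfold h46_bad
    rw [mem_filter]
    exact ⟨hσ.1, hσ.2, h⟩

theorem h46_bf01 {k : ℕ} (n : ℕ) (W : Finset (Finset ℕ)) (x : Fin k → Fin n) :
    bf n W x = 0 ∨ bf n W x = 1 := by
  unfold bf ind
  split_ifs
  · right; rfl
  · left; rfl

theorem h46_good_le (Q : ERank d) (hd : 2 ≤ d) (n : ℕ) (hn : d + 1 ≤ n) (w e δ : ℝ) (hw0 : 0 ≤ w)
    (hw1 : w ≤ 1) (he : 0 ≤ e) (hδ : 0 < δ)
    (hκ : (d : ℝ) * (d + 1) / n ≤ 1 / 2) (hκ' : (d : ℝ) * (d + 1) / n * (1 + δ) ≤ δ)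
    (A : Finset (Finset ℕ))
    (hD : Disc n d (bf n (wset Q.toRankFn (rg d n) A)) w e) :
    ((h46_good Q n A).card : ℝ) ≤
      (w ^ (d + 1) + δ + 2 * (d + 1) * e) * (n.choose (d + 1) : ℝ) := by
  classical
  have ht := tele n d (bf n (wset Q.toRankFn (rg d n) A)) w e (h46_bf01 n _) hw0 hw1 hD univ
    (fun _ _ => 0) (fun _ _ => Or.inl rfl)
  have hc := cnt2 d n hd (wset Q.toRankFn (rg d n) A) (by unfold wset; exact filter_subset _ _)
  rw [compl_univ] at ht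
  simp only [prod_empty, mul_one, sum_const, card_univ, Fintype.card_fun, Fintype.card_fin,
    nsmul_eq_mul] at ht
  rw [hc] at ht
  have hg : (((fc d n).filter (fun σ => ∀ y ∈ σ, σ.erase y ∈ wset Q.toRankFn (rg d n) A)).card :
      ℝ) = ((h46_good Q n A).card : ℝ) := by
    unfold h46_good
    congr
  rw [hg] at ht
  have h1 := (abs_le.mp ht).2
  push_cast at h1
  have hde := h46_desc d n hn
  set F : ℝ := ((d + 1).factorial : ℝ) with hF
  have hF0 : 0 < F := by rw [hF]; exact_mod_cast Nat.factorial_pos _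
  set N : ℝ := (n : ℝ) ^ (d + 1) with hN
  have hN0 : 0 ≤ N := by positivity
  set κ : ℝ := (d : ℝ) * (d + 1) / n with hκd
  have hκ0 : 0 ≤ κ := by positivity
  have hW1 : w ^ (d + 1) ≤ 1 := pow_le_one₀ hw0 hw1
  have hW0 : 0 ≤ w ^ (d + 1) := pow_nonneg hw0 _
  have key : w ^ (d + 1) + (d + 1) * e ≤ (w ^ (d + 1) + δ + 2 * (d + 1) * e) * (1 - κ) := by
    have a1 : w ^ (d + 1) ≤ (w ^ (d + 1) + δ) * (1 - κ) := by
      have : κ * (w ^ (d + 1) + δ) ≤ κ * (1 + δ) := mul_le_mul_of_nonneg_left (by linarith) hκ0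
      nlinarith
    have a2 : (d + 1) * e ≤ 2 * (d + 1) * e * (1 - κ) := by
      have : 0 ≤ ((d : ℝ) + 1) * e := by positivity
      nlinarith
    nlinarith
  have h2 : F * ((h46_good Q n A).card : ℝ) ≤
      F * ((w ^ (d + 1) + δ + 2 * (d + 1) * e) * (n.choose (d + 1) : ℝ)) := by
    calc F * ((h46_good Q n A).card : ℝ) ≤ N * (w ^ (d + 1) + (d + 1) * e) := by nlinarith
      _ ≤ N * ((w ^ (d + 1) + δ + 2 * (d + 1) * e) * (1 - κ)) :=
          mul_le_mul_of_nonneg_left key hN0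
      _ = (w ^ (d + 1) + δ + 2 * (d + 1) * e) * (N * (1 - κ)) := by ring
      _ ≤ (w ^ (d + 1) + δ + 2 * (d + 1) * e) * (F * (n.choose (d + 1) : ℝ)) :=
          mul_le_mul_of_nonneg_left hde (by positivity)
      _ = _ := by ring
  exact le_of_mul_le_mul_left h2 hF0

open Classical in
theorem h46_tf_le (hd : 2 ≤ d)
    (hW0 : ∀ (Q : ERank d) (n : ℕ) (q p : ℝ), 0 ≤ q → q ≤ 1 → 0 ≤ p → p ≤ 1 → 0 ≤ Wf Q n q p)
    (hW1 : ∀ (Q : ERank d) (n : ℕ) (q p : ℝ), 0 ≤ q → q ≤ 1 → 0 ≤ p → p ≤ 1 → Wf Q n q p ≤ 1)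
    (hWm : ∀ (Q : ERank d) (n : ℕ) (q p q' p' : ℝ), 0 ≤ q → q ≤ q' → q' ≤ 1 → 0 ≤ p → p ≤ p' →
      p' ≤ 1 → Wf Q n q p ≤ Wf Q n q' p')
    (hnoise : ∀ (Q : ERank d) (n m : ℕ), d + 1 ≤ n → 1 ≤ m → ∀ (q p y : ℝ), 0 ≤ q → q ≤ 1 →
      0 ≤ p → p ≤ 1 → 0 < y → y ≤ 1 →
      E2 d n q p (fun A => (((fc d n).filter (fun σ => Q.Cl A σ ∧
        ¬ ∀ x ∈ σ, Q.Cl A (σ.erase x))).card : ℝ)) ≤
      n * (n.choose d : ℝ) * (1 / m + 2 * (Wf Q n q (p + y - p * y) - Wf Q n q p) +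
        2 * m * d / (n * y)))
    (Q : ERank d) (n m : ℕ) (hn : 2 * d + 2 ≤ n) (hm : 1 ≤ m)
    (q p y e δ θ : ℝ) (hq0 : 0 ≤ q) (hq1 : q ≤ 1) (hp0 : 0 ≤ p) (hp1 : p ≤ 1) (hy0 : 0 < y)
    (hy1 : y ≤ 1) (he : 0 ≤ e) (hδ : 0 < δ)
    (hκ : (d : ℝ) * (d + 1) / n ≤ 1 / 2) (hκ' : (d : ℝ) * (d + 1) / n * (1 + δ) ≤ δ)
    (hθ : Wf Q n q (p + y - p * y) - Wf Q n q p ≤ θ)
    (hD : E2 d n q p (fun A => ind (¬ Disc n d (bf n (wset Q.toRankFn (rg d n) A))
        (Wf Q n q p) e)) ≤ e) :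
    Tf Q n q p ≤ Wf Q n q p ^ (d + 1) + δ + 2 * (d + 1) * e + e +
      2 * (d + 1) * (1 / m + 2 * θ + 2 * m * d / (n * y)) := by
  have hw0 := hW0 Q n q p hq0 hq1 hp0 hp1
  have hw1 := hW1 Q n q p hq0 hq1 hp0 hp1
  set w := Wf Q n q p with hw
  have hn1 : d + 1 ≤ n := by omega
  have hC0 : (0 : ℝ) < (n.choose (d + 1) : ℝ) := by
    exact_mod_cast Nat.choose_pos hn1
  have hno := hnoise Q n m hn1 hm q p y hq0 hq1 hp0 hp1 hy0 hy1
  have hno' : E2 d n q p (fun A => ((h46_bad Q n A).card : ℝ)) ≤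
      n * (n.choose d : ℝ) * (1 / m + 2 * θ + 2 * m * d / (n * y)) := by
    refine le_trans hno ?_
    refine mul_le_mul_of_nonneg_left (by linarith) (by positivity)
  have hnC : (n : ℝ) * (n.choose d : ℝ) ≤ 2 * (d + 1) * (n.choose (d + 1) : ℝ) := by
    have h1 : n.choose (d + 1) * (d + 1) = n.choose d * (n - d) := Nat.choose_succ_right_eq n d
    have h2 : (n.choose (d + 1) : ℝ) * (d + 1) = (n.choose d : ℝ) * ((n : ℝ) - d) := by
      have h3 : ((n - d : ℕ) : ℝ) = (n : ℝ) - d := Nat.cast_sub (by omega)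
      rw [← h3]
      exact_mod_cast h1
    have h4 : (n : ℝ) ≤ 2 * ((n : ℝ) - d) := by
      have : (2 * d + 2 : ℝ) ≤ n := by exact_mod_cast hn
      linarith
    have h5 : (0 : ℝ) ≤ (n.choose d : ℝ) := by positivity
    nlinarith
  have hth : 0 ≤ (1 / (m : ℝ) + 2 * θ + 2 * m * d / (n * y)) := by
    have h1 : 0 ≤ θ := by
      have h2 : p + y - p * y ≤ 1 := by nlinarith
      have h3 : p ≤ p + y - p * y := by nlinarith
      have := hWm Q n q p q (p + y - p * y) hq0 le_rfl hq1 hp0 h3 h2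
      linarith
    positivity
  have hgood : E2 d n q p (fun A => ((h46_good Q n A).card : ℝ)) ≤
      (w ^ (d + 1) + δ + 2 * (d + 1) * e + e) * (n.choose (d + 1) : ℝ) := by
    have h1 : E2 d n q p (fun A => ((h46_good Q n A).card : ℝ)) ≤
        E2 d n q p (fun A => (w ^ (d + 1) + δ + 2 * (d + 1) * e) * (n.choose (d + 1) : ℝ) +
          (n.choose (d + 1) : ℝ) * ind (¬ Disc n d (bf n (wset Q.toRankFn (rg d n) A)) w e)) := by
      unfold E2
      refine Ev_mono _ _ (fun i _ => h46_dn0 hq0 hp0 i) (fun i _ => h46_dn1 hq1 hp1 i) _ _ ?_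
      intro A _
      by_cases hA : Disc n d (bf n (wset Q.toRankFn (rg d n) A)) w e
      · have h3 := h46_good_le Q hd n hn1 w e δ hw0 hw1 he hδ hκ hκ' A hA
        have h4 : ind (¬ Disc n d (bf n (wset Q.toRankFn (rg d n) A)) w e) = 0 := by
          unfold ind
          rw [if_neg (by simpa using hA)]
        rw [h4]
        linarith
      · have h4 : ind (¬ Disc n d (bf n (wset Q.toRankFn (rg d n) A)) w e) = 1 := by
          unfold ind
          rw [if_pos hA]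
        rw [h4]
        have h5 : ((h46_good Q n A).card : ℝ) ≤ (n.choose (d + 1) : ℝ) := by
          rw [← h46_card_fc]
          unfold h46_good
          exact_mod_cast card_le_card (filter_subset _ _)
        have h6 : 0 ≤ (w ^ (d + 1) + δ + 2 * (d + 1) * e) * (n.choose (d + 1) : ℝ) := by
          positivity
        linarith
    refine h1.trans ?_
    have h7 : E2 d n q p (fun A => (w ^ (d + 1) + δ + 2 * (d + 1) * e) *
          (n.choose (d + 1) : ℝ) +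
          (n.choose (d + 1) : ℝ) * ind (¬ Disc n d (bf n (wset Q.toRankFn (rg d n) A)) w e)) =
        (w ^ (d + 1) + δ + 2 * (d + 1) * e) * (n.choose (d + 1) : ℝ) +
          (n.choose (d + 1) : ℝ) * E2 d n q p (fun A =>
            ind (¬ Disc n d (bf n (wset Q.toRankFn (rg d n) A)) w e)) := by
      unfold E2
      rw [Ev_add, Ev_const, Ev_mul]
    rw [h7]
    nlinarith
  have htot : E2 d n q p (fun A => ((wset Q.toRankFn (fc d n) A).card : ℝ)) ≤
      E2 d n q p (fun A => ((h46_good Q n A).card : ℝ)) +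
        E2 d n q p (fun A => ((h46_bad Q n A).card : ℝ)) := by
    unfold E2
    rw [← Ev_add]
    refine Ev_mono _ _ (fun i _ => h46_dn0 hq0 hp0 i) (fun i _ => h46_dn1 hq1 hp1 i) _ _ ?_
    intro A _
    have h1 := (card_le_card (h46_wset_sub Q n A)).trans (card_union_le _ _)
    exact_mod_cast h1
  unfold Tf
  rw [div_le_iff₀ hC0]
  refine htot.trans ?_
  have h8 : n * (n.choose d : ℝ) * (1 / m + 2 * θ + 2 * m * d / (n * y)) ≤
      2 * (d + 1) * (n.choose (d + 1) : ℝ) * (1 / m + 2 * θ + 2 * m * d / (n * y)) :=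
    mul_le_mul_of_nonneg_right hnC hth
  have h9 := hno'.trans h8
  nlinarith

open Classical in
theorem macro_pt_of (d : ℕ) (hd : 2 ≤ d)
    (hW0 : ∀ (Q : ERank d) (n : ℕ) (q p : ℝ), 0 ≤ q → q ≤ 1 → 0 ≤ p → p ≤ 1 → 0 ≤ Wf Q n q p)
    (hW1 : ∀ (Q : ERank d) (n : ℕ) (q p : ℝ), 0 ≤ q → q ≤ 1 → 0 ≤ p → p ≤ 1 → Wf Q n q p ≤ 1)
    (hWm : ∀ (Q : ERank d) (n : ℕ) (q p q' p' : ℝ), 0 ≤ q → q ≤ q' → q' ≤ 1 → 0 ≤ p → p ≤ p' →
      p' ≤ 1 → Wf Q n q p ≤ Wf Q n q' p')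
    (hnoise : ∀ (Q : ERank d) (n m : ℕ), d + 1 ≤ n → 1 ≤ m → ∀ (q p y : ℝ), 0 ≤ q → q ≤ 1 →
      0 ≤ p → p ≤ 1 → 0 < y → y ≤ 1 →
      E2 d n q p (fun A => (((fc d n).filter (fun σ => Q.Cl A σ ∧
        ¬ ∀ x ∈ σ, Q.Cl A (σ.erase x))).card : ℝ)) ≤
      n * (n.choose d : ℝ) * (1 / m + 2 * (Wf Q n q (p + y - p * y) - Wf Q n q p) +
        2 * m * d / (n * y)))
    (hdisc : ∀ C ε : ℝ, 1 ≤ C → 0 < ε → ∃ ε1 > (0:ℝ),
      ∀ η > (0:ℝ), ∃ n0 : ℕ, ∀ n ≥ n0, ∀ (Q : ERank d) (q p y : ℝ), 0 ≤ q → q ≤ C / n → 0 ≤ p →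
        p ≤ 1 → η ≤ y → y ≤ 1 → Wf Q n q (p + y - p * y) ≤ Wf Q n q p + ε1 →
        E2 d n q p (fun A => ind (¬ Disc n d (bf n (wset Q.toRankFn (rg d n) A))
          (Wf Q n q p) ε)) ≤ ε)
    (C ε a b : ℝ) (hC : 1 ≤ C) (hε : 0 < ε) (ha : 0 < a)
    (hab : a < b) : ∃ n0 : ℕ, ∀ n ≥ n0, ∀ (Q : ERank d) (q : ℝ), 0 ≤ q → q ≤ C / n →
      ∃ l, a ≤ l ∧ l ≤ b ∧ Tf Q n q (rt l) ≤ Wf Q n q (rt l) ^ (d + 1) + ε ∧
        E2 d n q (rt l) (fun A => ind (¬ Disc n d (bf n (wset Q.toRankFn (rg d n) A))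
          (Wf Q n q (rt l)) ε)) ≤ ε := by
  set e : ℝ := ε / (5 * (2 * d + 3)) with he
  have hd0 : (0 : ℝ) ≤ d := by positivity
  have he0 : 0 < e := by rw [he]; positivity
  have hee : (2 * (d : ℝ) + 3) * e = ε / 5 := by
    rw [he]
    field_simp
  have heε : e ≤ ε := by
    have : (1 : ℝ) * e ≤ (2 * (d : ℝ) + 3) * e :=
      mul_le_mul_of_nonneg_right (by linarith) he0.le
    linarith
  obtain ⟨ε1, hε1, hdisc⟩ := hdisc C e hC he0
  -- number of grid intervals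
  obtain ⟨L, hL⟩ := exists_nat_gt (max (1 / ε1) (20 * ((d : ℝ) + 1) / ε))
  have hL1 : 1 / ε1 < L := (le_max_left _ _).trans_lt hL
  have hL2 : 20 * ((d : ℝ) + 1) / ε < L := (le_max_right _ _).trans_lt hL
  have hLpos : (0 : ℝ) < L := lt_trans (by positivity) hL1
  have hLn : 0 < L := by exact_mod_cast hLpos
  have hLe1 : 1 / (L : ℝ) ≤ ε1 := by
    rw [div_lt_iff₀ hε1] at hL1
    rw [div_le_iff₀ hLpos]
    linarith
  have hLe2 : 4 * ((d : ℝ) + 1) * (1 / L) ≤ ε / 5 := by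
    rw [div_lt_iff₀ hε] at hL2
    rw [mul_one_div, div_le_iff₀ hLpos]
    linarith
  -- depth of the noise
  obtain ⟨m, hm⟩ := exists_nat_gt (10 * ((d : ℝ) + 1) / ε)
  have hmpos : (0 : ℝ) < m := lt_of_le_of_lt (by positivity) hm
  have hm1 : 1 ≤ m := by
    have : 0 < m := by exact_mod_cast hmpos
    omega
  have hme : 2 * ((d : ℝ) + 1) * (1 / m) ≤ ε / 5 := by
    rw [div_lt_iff₀ hε] at hm
    rw [mul_one_div, div_le_iff₀ hmpos]
    linarith
  set h : ℝ := (b - a) / L with hh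
  have hh0 : 0 < h := by
    rw [hh]
    exact div_pos (by linarith) hLpos
  set y : ℝ := rt h with hy
  have hy0 : 0 < y := h46_rt_pos hh0
  have hy1 : y ≤ 1 := h46_rt_le_one h
  obtain ⟨n1, hn1⟩ := hdisc y hy0
  obtain ⟨n2, hn2⟩ := exists_nat_gt (20 * ((d : ℝ) + 1) * m * d / (ε * y))
  obtain ⟨n3, hn3⟩ := exists_nat_gt ((d : ℝ) * (d + 1) * (1 + ε / 5) / (ε / 5))
  obtain ⟨n4, hn4⟩ := exists_nat_gt C
  refine ⟨n1 + n2 + n3 + n4 + (2 * d + 2) + 2 * (d * (d + 1)), fun n hn Q q hq0 hqC => ?_⟩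
  have hnn1 : n1 ≤ n := by omega
  have hnn2 : n2 ≤ n := by omega
  have hnn3 : n3 ≤ n := by omega
  have hnn4 : n4 ≤ n := by omega
  have hnn5 : 2 * d + 2 ≤ n := by omega
  have hnn6 : 2 * (d * (d + 1)) ≤ n := by omega
  have hnpos : (0 : ℝ) < n := by
    have : 0 < n := by omega
    exact_mod_cast this
  have hq1 : q ≤ 1 := by
    refine hqC.trans ?_
    rw [div_le_one hnpos]
    have : (n4 : ℝ) ≤ n := by exact_mod_cast hnn4
    linarith
  have hκ : (d : ℝ) * (d + 1) / n ≤ 1 / 2 := by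
    rw [div_le_iff₀ hnpos]
    have : (2 * (d * (d + 1)) : ℝ) ≤ n := by exact_mod_cast hnn6
    linarith
  have hκ' : (d : ℝ) * (d + 1) / n * (1 + ε / 5) ≤ ε / 5 := by
    rw [div_mul_eq_mul_div, div_le_iff₀ hnpos]
    have h1 : ((d : ℝ) * (d + 1) * (1 + ε / 5)) / (ε / 5) < n :=
      lt_of_lt_of_le hn3 (by exact_mod_cast hnn3)
    rw [div_lt_iff₀ (by positivity)] at h1
    linarith
  have hny : 4 * ((d : ℝ) + 1) * (m * d / (n * y)) ≤ ε / 5 := by
    have h1 : 20 * ((d : ℝ) + 1) * m * d / (ε * y) < n :=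
      lt_of_lt_of_le hn2 (by exact_mod_cast hnn2)
    rw [div_lt_iff₀ (by positivity)] at h1
    rw [← mul_div_assoc, div_le_iff₀ (by positivity)]
    nlinarith
  -- grid
  set g : ℕ → ℝ := fun i => Wf Q n q (rt (a + i * h)) with hg
  have hrt0 : ∀ i : ℕ, 0 ≤ rt (a + i * h) := fun i => h46_rt_nonneg (by positivity)
  obtain ⟨i, hiL, hgi⟩ := h46_pigeon L hLn g
    (hW0 Q n q _ hq0 hq1 (hrt0 0) (h46_rt_le_one _))
    (hW1 Q n q _ hq0 hq1 (hrt0 L) (h46_rt_le_one _))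
  set l : ℝ := a + i * h with hl
  set p : ℝ := rt l with hp
  have hpy : rt (a + ((i + 1 : ℕ) : ℝ) * h) = p + y - p * y := by
    rw [hp, hy, ← h46_rt_add, hl]
    congr 1
    push_cast
    ring
  have hinc : Wf Q n q (p + y - p * y) - Wf Q n q p ≤ 1 / L := by
    have := hgi
    simp only [hg] at this
    rw [hpy] at this
    exact this
  have hp0 : 0 ≤ p := hrt0 i
  have hp1 : p ≤ 1 := h46_rt_le_one _
  have hD := hn1 n hnn1 Q q p y hq0 hqC hp0 hp1 le_rfl hy1 (by linarith)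
  have hT := h46_tf_le hd hW0 hW1 hWm hnoise Q n m hnn5 hm1 q p y e (ε / 5) (1 / L) hq0 hq1 hp0 hp1 hy0 hy1 he0.le
    (by positivity) hκ hκ' hinc hD
  have hab' : l ≤ b := by
    rw [hl, hh]
    have h1 : (i : ℝ) ≤ L := by exact_mod_cast hiL.le
    have h2 : (i : ℝ) * ((b - a) / L) ≤ L * ((b - a) / L) :=
      mul_le_mul_of_nonneg_right h1 (by positivity)
    have h3 : (L : ℝ) * ((b - a) / L) = b - a := by
      field_simp
    linarith
  refine ⟨l, ?_, hab', ?_, ?_⟩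
  · rw [hl]
    have : 0 ≤ (i : ℝ) * h := by positivity
    linarith
  · have hsum : 2 * ((d : ℝ) + 1) * (1 / m + 2 * (1 / L) + 2 * m * d / (n * y)) =
        2 * ((d : ℝ) + 1) * (1 / m) + 4 * ((d : ℝ) + 1) * (1 / L) +
          4 * ((d : ℝ) + 1) * (m * d / (n * y)) := by ring
    rw [hsum] at hT
    linarith
  · refine le_trans ?_ (hD.trans heε)
    unfold E2
    refine Ev_mono _ _ (fun i _ => h46_dn0 hq0 hp0 i) (fun i _ => h46_dn1 hq1 hp1 i) _ _ ?_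
    intro A _
    by_cases h2 : Disc n d (bf n (wset Q.toRankFn (rg d n) A)) (Wf Q n q p) e
    · have h1 := h46_disc_mono heε h2
      unfold ind
      rw [if_neg (not_not.mpr h1), if_neg (not_not.mpr h2)]
    · unfold ind
      rw [if_pos h2]
      split_ifs
      · exact zero_le_one
      · exact le_refl (1 : ℝ)

end FC
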