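import Pool.Agent.H92.FC.AsmD
import Pool.Agent.H18.FC2.AllN

/-!
# The first cycle spans for all `n`, all dimensions `d ≥ 2`
-/

namespace FC

open Finset Filter

theorem main_U (F : Type*) [Field F] (d : ℕ) (hd : 2 ≤ d) (R : CRank d) (hL : LinkF F d R)
    (hsw : SwapInv R) (hKP : KP R) (ε : ℝ) (hε : 0 < ε) :
    ∃ n0 : ℕ, ∀ n ≥ n0, badFrac F d n 1 ≤ ε := by
  obtain ⟨ρ, hρ, K, hK, n1, hgi⟩ := giantProp d hd
  have hd2 : (2:ℝ) ≤ d := by exact_mod_cast hd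
  set D : ℝ := (d : ℝ) + 3 with hD
  have hDpos : 0 < D := by rw [hD]; linarith
  set r1 : ℝ := ρ / (4 * D) with hr1
  have hr1pos : 0 < r1 := by rw [hr1]; positivity
  set s : ℝ := r1 / 32 with hs
  have hs0 : 0 < s := by rw [hs]; positivity
  obtain ⟨j, hj⟩ := exists_nat_ge (2 / s ^ 2)
  obtain ⟨lam, hlam⟩ := exists_nat_ge (64 / s ^ 2)
  rw [div_le_iff₀ (by positivity)] at hj hlam
  set kk : ℕ := 2 + lam with hkk
  set η : ℝ := 1 / (4 * ((kk : ℝ) + 3)) with hη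
  have hkk0 : (0:ℝ) ≤ kk := Nat.cast_nonneg _
  have hη0 : 0 < η := by rw [hη]; positivity
  have hη4 : η * ((kk : ℝ) + 3) = 1 / 4 := by rw [hη]; field_simp
  have hη1 : η ≤ 1 / 4 := by
    have : η * 1 ≤ η * ((kk : ℝ) + 3) := mul_le_mul_of_nonneg_left (by linarith) hη0.le
    linarith
  have hη5 : 2 * η + η * kk < 1 / 2 := by nlinarith
  set ε1 : ℝ := ε / 16 with hε1
  have hε10 : 0 < ε1 := by rw [hε1]; positivity
  obtain ⟨n0, hn0⟩ := ff_all hd R hKP η hη0 hη1 ε1 hε10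
  obtain ⟨L, hL1⟩ := exists_nat_ge (D ^ (d + 2) / ε1 + 1)
  have hDL : 0 ≤ D ^ (d + 2) / ε1 := by positivity
  have hLpos : (1:ℝ) ≤ L := by linarith
  have hLε : D ^ (d + 2) / L ≤ ε1 := by
    have h1 : D ^ (d + 2) / ε1 ≤ L := by linarith
    rw [div_le_iff₀ hε10] at h1
    rw [div_le_iff₀ (by linarith)]; linarith
  set b : ℝ := ((d : ℝ) - 1) / 2 with hb
  have hb0 : 1 / 2 ≤ b := by rw [hb]; linarith
  have hcast : Tendsto (fun n : ℕ => (n : ℝ)) atTop atTop := tendsto_natCast_atTop_atTop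
  have hev : ∀ᶠ n : ℕ in atTop, (n0 ≤ n ∧ n1 ≤ n ∧ 1 ≤ n) ∧
      (4 * D ≤ n ∧ 4 * D / s ^ 2 ≤ n ∧ K / ε1 ≤ n ∧ 4 / ρ ≤ n) ∧
      ((j : ℝ) * (n : ℝ) ^ η ≤ (n : ℝ) ^ (1:ℝ)) ∧
      ((2 * ((L : ℝ) + 2) / r1) * (n : ℝ) ^ (b + η / 2) ≤ (n : ℝ) ^ (b + 2 * η)) ∧
      ((L : ℝ) * (n : ℝ) ^ (0:ℝ) ≤ (n : ℝ) ^ (b + 2 * η)) ∧
      (8 * (n : ℝ) ^ (η * kk + (b + 2 * η)) ≤ (n : ℝ) ^ ((d : ℝ) / 2)) ∧
      ((8 / (16 * D * r1)) * (n : ℝ) ^ η ≤ (n : ℝ) ^ (b + 2 * η)) ∧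
      ((64 / (16 * D * s ^ 2)) * (n : ℝ) ^ η ≤ (n : ℝ) ^ (b + 2 * η)) ∧
      (n : ℝ) ^ ((3 * (d + 1) + 2 : ℕ) : ℝ) * Real.exp (-(1 / (16 * D) * (n : ℝ) ^ η)) ≤
      (ε / 2) / (32 * (1 + j + j + 1 + (j : ℝ) ^ 3)) := by
    refine ((eventually_ge_atTop n0).and ((eventually_ge_atTop n1).and
      (eventually_ge_atTop 1))).and (((hcast.eventually_ge_atTop _).and
      ((hcast.eventually_ge_atTop _).and ((hcast.eventually_ge_atTop _).and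
      (hcast.eventually_ge_atTop _)))).and ((ev_rpow _ _ _ ?_).and ((ev_rpow _ _ _ ?_).and
      ((ev_rpow _ _ _ ?_).and ((ev_rpow _ _ _ ?_).and ((ev_rpow _ _ _ ?_).and
      ((ev_rpow _ _ _ ?_).and (ev_exp _ _ _ _ ?_ ?_ ?_))))))))
    · linarith
    · linarith
    · linarith
    · rw [hb]; linarith
    · linarith
    · linarith
    · positivity
    · exact hη0
    · positivity
  obtain ⟨n2, hn2⟩ := hev.exists_forall_of_atTop
  refine ⟨n2, fun n hn => ?_⟩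
  obtain ⟨⟨c1, c2, c3⟩, ⟨c4, c5, c6, c7⟩, c8, c9, c10, c11, c12, c13, c14⟩ := hn2 n hn
  obtain ⟨I, q1, q2, i1, i2, i3, i4, i5, i6, i7, i8⟩ := hn0 n c1
  have hnr : (1:ℝ) ≤ n := by exact_mod_cast c3
  have hnpos : (0:ℝ) < n := by linarith
  set Y : ℝ := (n : ℝ) ^ (b + 2 * η) with hY
  set y0 : ℕ := ⌈Y⌉₊ with hy0
  have hY1 : 1 ≤ Y := Real.one_le_rpow hnr (by linarith)
  have hYy : Y ≤ y0 := Nat.le_ceil Y
  have hyY : (y0 : ℝ) ≤ 2 * Y := by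
    have h1 := (Nat.ceil_lt_add_one (a := Y) (zero_le_one.trans hY1)).le
    have h2 : Y + 1 ≤ 2 * Y := by rw [two_mul]; exact add_le_add_right hY1 Y
    exact h1.trans h2
  set x : ℝ := (n : ℝ) ^ (b + η / 2) with hx
  have hx1 : 1 ≤ x := Real.one_le_rpow hnr (by linarith)
  set A0 : ℕ := ⌊r1 * y0 / 2⌋₊ with hA0
  set g : ℕ := ⌊ρ * (n : ℝ) ^ d / 2⌋₊ with hg
  have hnd : (n : ℝ) ≤ (n : ℝ) ^ d := by
    calc (n : ℝ) = (n : ℝ) ^ 1 := (pow_one _).symm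
      _ ≤ (n : ℝ) ^ d := pow_le_pow_right₀ hnr (by omega)
  have hmain := asm_n F R hL hsw hd n j I y0 lam L A0 g q1 q2 x s ρ r1
    ((n : ℝ) * (4 * Real.exp (-(1 / (16 * D) * (n : ℝ) ^ η)))) ε1 c3 i3 i4 i5 ?_ i6 i7 i8
    ?_ ?_ ?_ hr1pos hs (by linarith) (by linarith) ?_ ?_ ?_ ?_ ?_ ?_ ?_ ?_ ?_ ?_ ?_ ?_ ?_ ?_
  · have h1 := tail_bound d n j I η D (ε / 2) c3 i2 (by linarith) c14
    have h2 : 8 * ε1 = ε / 2 := by rw [hε1]; ring
    linarith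
  · show D / n ≤ 1 / 4
    rw [div_le_iff₀ hnpos]; linarith
  · refine (hgi n c2 q2 (i3.trans i4) i5).trans ?_
    rw [div_le_iff₀ hε10] at c6
    rw [div_le_iff₀ hnpos]; linarith
  · have hq21 : q2 ≤ 1 := by
      refine i5.trans ?_
      rw [div_le_iff₀ hnpos]; linarith
    have h1 := Ex_markov (fc d n) q2 (i3.trans i4) hq21 (fun X => (nb d n X : ℝ))
      (fun _ _ => Nat.cast_nonneg _) (L : ℝ) (by linarith)
    simp only [Nat.cast_le] at h1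
    refine h1.trans (le_trans ?_ hLε)
    refine div_le_div_of_nonneg_right ?_ (by linarith)
    exact Ex_nb_le n c3 D q2 (i3.trans i4) hDpos.le i5
  · have h1 : ((kk : ℕ) : ℝ) ≤ (2:ℝ) ^ kk := by exact_mod_cast (Nat.lt_two_pow_self (n := kk)).le
    have h2 : ((kk : ℕ) : ℝ) ^ I ≤ (n : ℝ) ^ (η * kk) := by
      calc ((kk : ℕ) : ℝ) ^ I ≤ ((2:ℝ) ^ kk) ^ I := pow_le_pow_left₀ hkk0 h1 I
        _ = ((2:ℝ) ^ I) ^ kk := by rw [← pow_mul, ← pow_mul, mul_comm]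
        _ ≤ ((n : ℝ) ^ η) ^ kk := pow_le_pow_left₀ (by positivity) i2 kk
        _ = (n : ℝ) ^ (η * kk) := by rw [Real.rpow_mul hnpos.le, Real.rpow_natCast]
    have h3 : (Bst (2 + lam) y0 I : ℝ) = ((kk : ℕ) : ℝ) ^ I * (2 * y0) := by
      unfold Bst; rw [← hkk]; push_cast; ring
    rw [h3]
    have h4 : ((kk : ℕ) : ℝ) ^ I * (2 * y0) ≤ (n : ℝ) ^ (η * kk) * (2 * (2 * Y)) :=
      mul_le_mul h2 (by linarith) (by positivity) (by positivity)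
    refine lt_of_le_of_lt h4 (lt_of_lt_of_le ?_ c11)
    have h5 : (n : ℝ) ^ (η * kk + (b + 2 * η)) = (n : ℝ) ^ (η * kk) * Y := by
      rw [hY, Real.rpow_add hnpos]
    rw [h5]
    have h6 : 0 < (n : ℝ) ^ (η * kk) * Y := by positivity
    linarith
  · show D / n ≤ s ^ 2 / 4
    rw [div_le_iff₀ (by positivity)] at c5
    rw [div_le_iff₀ hnpos]; linarith
  · show r1 * (D * (n : ℝ) ^ d) ≤ g
    have h1 : r1 * (D * (n : ℝ) ^ d) = ρ * (n : ℝ) ^ d / 4 := by rw [hr1]; field_simp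
    have h2 := (Nat.lt_floor_add_one (ρ * (n : ℝ) ^ d / 2)).le
    rw [div_le_iff₀ hρ] at c7
    have h3 : 4 ≤ ρ * (n : ℝ) ^ d := by
      calc 4 ≤ (n : ℝ) * ρ := c7
        _ ≤ (n : ℝ) ^ d * ρ := mul_le_mul_of_nonneg_right hnd hρ.le
        _ = _ := mul_comm _ _
    rw [h1]
    linarith
  · have h1 := Nat.floor_le (a := ρ * (n : ℝ) ^ d / 2) (by positivity)
    linarith
  · have h1 : (j : ℝ) * (2:ℝ) ^ I ≤ n := by
      calc (j : ℝ) * (2:ℝ) ^ I ≤ j * (n : ℝ) ^ η :=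
            mul_le_mul_of_nonneg_left i2 (Nat.cast_nonneg _)
        _ ≤ (n : ℝ) ^ (1:ℝ) := c8
        _ = n := Real.rpow_one _
    exact_mod_cast h1
  · have h1 : (1:ℝ) ≤ y0 := hY1.trans hYy
    exact_mod_cast h1
  · exact Nat.floor_le (by positivity)
  · have h1 := (Nat.lt_floor_add_one (r1 * y0 / 2)).le
    rw [div_mul_eq_mul_div, div_le_iff₀ hr1pos] at c9
    have h2 : Y * r1 ≤ y0 * r1 := mul_le_mul_of_nonneg_right hYy hr1pos.le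
    have h3 : ((L : ℝ) + 1) * 1 ≤ ((L : ℝ) + 1) * x :=
      mul_le_mul_of_nonneg_left hx1 (by linarith)
    have h4 : 2 * ((L : ℝ) + 2) * x = 2 * (((L : ℝ) + 1) * x) + 2 * x := by ring
    rw [h4] at c9
    have h5 : (A0 : ℝ) = ((⌊r1 * y0 / 2⌋₊ : ℕ) : ℝ) := by rw [hA0]
    rw [h5]
    linarith
  · rw [Real.rpow_zero, mul_one] at c10
    have h1 : (L : ℝ) ≤ y0 := c10.trans hYy
    exact_mod_cast h1
  · positivity
  · calc (2:ℝ) ^ I * x ≤ (n : ℝ) ^ η * x := mul_le_mul_of_nonneg_right i2 (by positivity)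
      _ = (n : ℝ) ^ (η + (b + η / 2)) := by rw [hx, ← Real.rpow_add hnpos]
      _ ≤ Y := Real.rpow_le_rpow_of_exponent_le hnr (by linarith)
      _ ≤ y0 := hYy
  · have h1 : x ≤ (n : ℝ) ^ ((d - 1 : ℕ) : ℝ) := by
      refine Real.rpow_le_rpow_of_exponent_le hnr ?_
      rw [Nat.cast_sub (by omega), Nat.cast_one, hb]
      linarith
    rw [Real.rpow_natCast] at h1
    have h2 : (0:ℝ) ≤ (n : ℝ) ^ (d - 1) := by positivity
    have h3 : 1 * (n : ℝ) ^ (d - 1) ≤ 4 * ((d : ℝ) + 3) * (n : ℝ) ^ (d - 1) :=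
      mul_le_mul_of_nonneg_right (by linarith) h2
    linarith
  · have h1 : 1 / (16 * D) * (n : ℝ) ^ η ≤ r1 * y0 / 8 := by
      have h2 : 8 / (16 * D * r1) * (n : ℝ) ^ η = (8 / r1) * (1 / (16 * D) * (n : ℝ) ^ η) := by
        field_simp
      rw [h2] at c12
      have h3 := c12.trans hYy
      rw [div_mul_eq_mul_div, div_le_iff₀ hr1pos] at h3
      linarith
    have h4 : Real.exp (-(r1 * y0 / 8)) ≤ Real.exp (-(1 / (16 * D) * (n : ℝ) ^ η)) :=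
      Real.exp_le_exp.2 (by linarith)
    have h5 := Real.exp_pos (-(1 / (16 * D) * (n : ℝ) ^ η))
    have h6 : 1 * (4 * Real.exp (-(1 / (16 * D) * (n : ℝ) ^ η))) ≤
      n * (4 * Real.exp (-(1 / (16 * D) * (n : ℝ) ^ η))) :=
      mul_le_mul_of_nonneg_right hnr (by positivity)
    linarith
  · have h1 : 1 / (16 * D) * (n : ℝ) ^ η ≤ s ^ 2 * y0 / 64 := by
      have h2 : 64 / (16 * D * s ^ 2) * (n : ℝ) ^ η =
          (64 / s ^ 2) * (1 / (16 * D) * (n : ℝ) ^ η) := by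
        field_simp
      rw [h2] at c13
      have h3 := c13.trans hYy
      rw [div_mul_eq_mul_div, div_le_iff₀ (by positivity)] at h3
      linarith
    have h4 : Real.exp (-(s ^ 2 * y0 / 64)) ≤ Real.exp (-(1 / (16 * D) * (n : ℝ) ^ η)) :=
      Real.exp_le_exp.2 (by linarith)
    have h5 := Real.exp_pos (-(1 / (16 * D) * (n : ℝ) ^ η))
    have h6 : 1 * (4 * Real.exp (-(1 / (16 * D) * (n : ℝ) ^ η))) ≤
      n * (4 * Real.exp (-(1 / (16 * D) * (n : ℝ) ^ η))) :=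
      mul_le_mul_of_nonneg_right hnr (by positivity)
    linarith
  · have h1 : x ^ 2 = (n : ℝ) ^ (d - 1) * (n : ℝ) ^ η := by
      rw [hx, ← Real.rpow_natCast, ← Real.rpow_mul hnpos.le, ← Real.rpow_natCast,
        ← Real.rpow_add hnpos]
      congr 1
      rw [Nat.cast_sub (by omega), hb]
      push_cast; ring
    have h2 : x ^ 2 / (16 * ((d : ℝ) + 3) * (n : ℝ) ^ (d - 1)) =
        1 / (16 * D) * (n : ℝ) ^ η := by
      rw [h1, hD]; field_simp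
    rw [h2]

end FC
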