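import Pool.Agent.H18.FC2.UF
import Pool.Agent.H18.FC2.Mono
import Pool.Agent.H18.FC2.Macro
import Pool.Agent.H18.FC2.Rt

/-!
# The state at the threshold
-/

namespace FC

open Finset

variable {d : ℕ}

/-- the value of `uf` without pins -/
theorem uf_zero_le (Q : ERank d) (hd : 1 ≤ d) (n : ℕ) (hn : 2 * d ≤ n) (hn1 : d + 1 ≤ n)
    (C μ : ℝ) (hμ : 0 ≤ μ) (hC : μ ≤ C / n)
    (hb : (n.choose (d + 1) : ℝ) * rt μ - Rf Q n (rt μ) 0 ≤ (n : ℝ) ^ ((d : ℝ) - 1 / 4)) :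
    uf Q n (((n : ℝ) - d) * μ) 0 ≤
      C ^ 2 / n + (2 ^ d * (d.factorial : ℝ)) * (n : ℝ) ^ (-(1:ℝ) / 4) := by
  have hn0 : (0:ℝ) < n := by exact_mod_cast (by omega : 0 < n)
  have hnd : (0:ℝ) < (n : ℝ) - d := by
    have : (d : ℝ) + 1 ≤ n := by exact_mod_cast hn1
    linarith
  have hM : (0:ℝ) < (n.choose d : ℝ) := by exact_mod_cast Nat.choose_pos (by omega)
  have hM2 := choose_low d n hd hn
  have hNM := choose_mul d n (by omega)
  have e1 : ((n : ℝ) - d) * μ / ((n : ℝ) - d) = μ := by field_simp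
  unfold uf
  rw [e1, rt_zero, add_zero]
  have hμ2 := le_rt hμ
  have hd1 : (0:ℝ) < (d : ℝ) + 1 := by positivity
  have e2 : ((n : ℝ) - d) * μ / ((d : ℝ) + 1) = (n.choose (d + 1) : ℝ) * μ / (n.choose d : ℝ) := by
    rw [div_eq_div_iff hd1.ne' hM.ne']
    linear_combination -μ * hNM
  rw [e2, ← sub_div, div_le_iff₀ hM]
  have e3 : (n.choose (d + 1) : ℝ) * μ - Rf Q n (rt μ) 0 =
      (n.choose (d + 1) : ℝ) * (μ - rt μ) +
        ((n.choose (d + 1) : ℝ) * rt μ - Rf Q n (rt μ) 0) := by ring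
  rw [e3]
  have hC0 : 0 ≤ C := by
    have := mul_le_mul_of_nonneg_right (hμ.trans hC) hn0.le
    rwa [zero_mul, div_mul_cancel₀ _ hn0.ne'] at this
  have hμn : μ * n ≤ C := by rwa [le_div_iff₀ hn0] at hC
  have t1 : (n.choose (d + 1) : ℝ) * (μ - rt μ) ≤ C ^ 2 / n * (n.choose d : ℝ) := by
    have h1 : (n.choose (d + 1) : ℝ) * (μ - rt μ) ≤ (n.choose (d + 1) : ℝ) * μ ^ 2 :=
      mul_le_mul_of_nonneg_left (by linarith [sq_nonneg μ]) (by positivity)
    have h2 : (n.choose (d + 1) : ℝ) ≤ (n.choose d : ℝ) * n := by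
      have h3 : (n.choose (d + 1) : ℝ) ≤ (n.choose (d + 1) : ℝ) * ((d : ℝ) + 1) := by
        have : (1:ℝ) ≤ (d : ℝ) + 1 := by linarith [(Nat.cast_nonneg d : (0:ℝ) ≤ d)]
        exact le_mul_of_one_le_right (by positivity) this
      have h4 : (n.choose d : ℝ) * ((n : ℝ) - d) ≤ (n.choose d : ℝ) * n :=
        mul_le_mul_of_nonneg_left (by linarith [(Nat.cast_nonneg d : (0:ℝ) ≤ d)]) hM.le
      linarith
    have h5 : (n.choose (d + 1) : ℝ) * μ ^ 2 ≤ (n.choose d : ℝ) * n * μ ^ 2 :=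
      mul_le_mul_of_nonneg_right h2 (sq_nonneg μ)
    have h6 : (n : ℝ) * μ ^ 2 ≤ C ^ 2 / n := by
      rw [le_div_iff₀ hn0]
      have : (μ * n) ^ 2 ≤ C ^ 2 := pow_le_pow_left₀ (by positivity) hμn 2
      linarith
    have h7 := mul_le_mul_of_nonneg_left h6 hM.le
    linarith
  have t2 : (n : ℝ) ^ ((d : ℝ) - 1 / 4) ≤
      (2 ^ d * (d.factorial : ℝ)) * (n : ℝ) ^ (-(1:ℝ) / 4) * (n.choose d : ℝ) := by
    have hpos : (0:ℝ) < 2 ^ d * (d.factorial : ℝ) := by positivity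
    rw [div_le_iff₀ hpos] at hM2
    have h1 : (n : ℝ) ^ ((d : ℝ) - 1 / 4) = (n : ℝ) ^ d * (n : ℝ) ^ (-(1:ℝ) / 4) := by
      rw [← Real.rpow_natCast (n : ℝ) d, ← Real.rpow_add hn0]
      congr 1; ring
    rw [h1]
    have h2 := mul_le_mul_of_nonneg_right hM2 (Real.rpow_nonneg hn0.le (-(1:ℝ) / 4))
    linarith
  have := add_le_add t1 (hb.trans t2)
  linarith

theorem h18_tend (C A B t : ℝ) (ht : 0 < t) :
    ∃ n0 : ℕ, ∀ n ≥ n0, 1 ≤ n ∧ A / (n : ℝ) ≤ t ∧ C ^ 2 / n + B * (n : ℝ) ^ (-(1:ℝ) / 4) ≤ t := by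
  have hN : Filter.Tendsto (fun n : ℕ => (n : ℝ)) Filter.atTop Filter.atTop :=
    tendsto_natCast_atTop_atTop
  have h1 : Filter.Tendsto (fun n : ℕ => A / (n : ℝ)) Filter.atTop (nhds 0) :=
    tendsto_const_nhds.div_atTop hN
  have h2 : Filter.Tendsto (fun n : ℕ => C ^ 2 / (n : ℝ) + B * (n : ℝ) ^ (-(1:ℝ) / 4))
      Filter.atTop (nhds 0) := by
    have h3 : Filter.Tendsto (fun n : ℕ => (n : ℝ) ^ (-(1:ℝ) / 4)) Filter.atTop (nhds 0) := by
      have := (tendsto_rpow_neg_atTop (by norm_num : (0:ℝ) < 1 / 4)).comp hN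
      refine this.congr fun n => ?_
      simp only [Function.comp]
      congr 1; ring
    have h4 := (tendsto_const_nhds (x := C ^ 2)).div_atTop hN
    have h5 := h4.add (h3.const_mul B)
    simpa using h5
  have e := ((Filter.eventually_ge_atTop 1).and ((h1.eventually_le_const ht).and
    (h2.eventually_le_const ht)))
  obtain ⟨n0, hn0⟩ := e.exists_forall_of_atTop
  exact ⟨n0, fun n hn => ⟨(hn0 n hn).1, (hn0 n hn).2.1, (hn0 n hn).2.2⟩⟩

theorem state (d : ℕ) (hd : 2 ≤ d) (c v : ℝ) (hc : 0 < c) (hv0 : 0 < v) (hv1 : v < 1)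
    (hcv : c * v ^ (d + 1) = ((d : ℝ) + 1) * Ef v)
    (h1 : ∀ x, 0 ≤ x → x < 1 → c * x ^ (d + 1) / ((d : ℝ) + 1) ≤ Ef x)
    (h2 : ∀ η > (0:ℝ), ∃ κ > (0:ℝ), ∀ x, 0 ≤ x → x ≤ v - η →
      c * x ^ (d + 1) / ((d : ℝ) + 1) ≤ Ef x - κ * x ^ 2)
    (h3 : ∀ η > (0:ℝ), ∀ ρ > (0:ℝ), ∃ κ > (0:ℝ), ∀ x, ρ ≤ x → x < 1 → η ≤ |x - v| →
      c * x ^ (d + 1) / ((d : ℝ) + 1) ≤ Ef x - κ)
    (C s ε K : ℝ) (hC : 1 ≤ C) (hs : 0 < s) (hε : 0 < ε) (hK : 0 < K) :
    ∃ n0 : ℕ, ∀ n ≥ n0, ∀ (Q : ERank d) (μ o : ℝ), 0 ≤ μ → μ ≤ C / n → 0 ≤ o → o ≤ K / n →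
      (n.choose (d + 1) : ℝ) * rt μ - Rf Q n (rt μ) 0 ≤ (n : ℝ) ^ ((d : ℝ) - 1 / 4) →
      s ≤ Wf Q n (rt μ) (rt o) →
      c - ε ≤ ((n : ℝ) - d) * μ ∧
      v ^ d * Wf Q n (rt μ) (rt o) - ε ≤ Tf Q n (rt μ) (rt o) ∧
      ∃ l, o ≤ l ∧ l ≤ 1 ∧ |Wf Q n (rt μ) (rt l) - v| ≤ ε ∧
        E2 d n (rt μ) (rt l) (fun A => ind (¬ Disc n d (bf n (wset Q.toRankFn (rg d n) A))
          (Wf Q n (rt μ) (rt l)) ε)) ≤ ε := by
  have hd0 : (0:ℝ) < (d : ℝ) + 1 := by positivity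
  have hd1 : (1:ℝ) ≤ (d : ℝ) + 1 := by linarith [(Nat.cast_nonneg d : (0:ℝ) ≤ d)]
  have hvp : 0 < v ^ (d + 1) := by positivity
  have hsp : 0 < s ^ (d + 1) := by positivity
  -- constants for the macroscopic point
  obtain ⟨κ0, hκ0, H3⟩ := h3 ε hε s hs
  set ε' : ℝ := min ε (c / 2) with hε'
  have hε'0 : 0 < ε' := lt_min hε (by linarith)
  set δ : ℝ := min 1 (min (κ0 / 8) (ε' * s ^ (d + 1) / (4 * ((d : ℝ) + 1)))) with hδ
  have hδ0 : 0 < δ := lt_min one_pos (lt_min (by positivity) (by positivity))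
  have hδ1 : δ ≤ 1 := min_le_left _ _
  have hδ2 : δ ≤ κ0 / 8 := (min_le_right _ _).trans (min_le_left _ _)
  have hδ3 : δ ≤ ε' * s ^ (d + 1) / (4 * ((d : ℝ) + 1)) := (min_le_right _ _).trans (min_le_right _ _)
  -- constants for the comparison point
  obtain ⟨v2, hv20, hv2v, hv2d⟩ : ∃ v2, 0 < v2 ∧ v2 < v ∧ v ^ d - v2 ^ d ≤ ε / 3 := by
    have hcont : Filter.Tendsto (fun x : ℝ => v ^ d - x ^ d) (nhdsWithin v (Set.Iio v))
        (nhds (v ^ d - v ^ d)) :=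
      ((continuous_const.sub (continuous_pow d)).tendsto v).mono_left nhdsWithin_le_nhds
    rw [sub_self] at hcont
    have e1 := hcont.eventually_le_const (by positivity : (0:ℝ) < ε / 3)
    have e2 : ∀ᶠ x in nhdsWithin v (Set.Iio v), 0 < x := by
      have : ∀ᶠ x in nhds v, 0 < x := lt_mem_nhds hv0
      exact this.filter_mono nhdsWithin_le_nhds
    have e3 : ∀ᶠ x in nhdsWithin v (Set.Iio v), x < v := self_mem_nhdsWithin
    obtain ⟨x, hx⟩ := (e1.and (e2.and e3)).exists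
    exact ⟨x, hx.2.1, hx.2.2, hx.1⟩
  set v1 : ℝ := (v + v2) / 2 with hv1'
  have hv1v : v1 < v := by rw [hv1']; linarith
  have hv21 : v2 < v1 := by rw [hv1']; linarith
  have hv10 : 0 < v1 := by linarith
  obtain ⟨κ, hκ, H2⟩ := h2 (v - v1) (by linarith)
  set m : ℝ := v1 ^ d / ((d : ℝ) + 1) with hm
  set m' : ℝ := v2 ^ d / ((d : ℝ) + 1) with hm'
  have hm'0 : 0 < m' := by rw [hm']; positivity
  have hdne : d ≠ 0 := by omega
  have hmm : m' < m := by
    rw [hm, hm']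
    exact div_lt_div_of_pos_right (pow_lt_pow_left₀ hv21 hv20.le hdne) hd0
  have hm1 : m ≤ 1 := by
    rw [hm, div_le_one hd0]
    exact (pow_le_one₀ hv10.le (by linarith)).trans hd1
  set t : ℝ := min (c / 4) (ε * κ / (3 * ((d : ℝ) + 1))) with ht
  have ht0 : 0 < t := lt_min (by linarith) (by positivity)
  have htc : t ≤ c / 4 := min_le_left _ _
  have htκ : t ≤ ε * κ / (3 * ((d : ℝ) + 1)) := min_le_right _ _
  -- the small parameter
  set θ : ℝ := min (min (κ0 / 8) (ε' * s ^ (d + 1) / (4 * ((d : ℝ) + 1))))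
    (ε * t / (9 * ((d : ℝ) + 1))) with hθ
  have hθ0 : 0 < θ := lt_min (lt_min (by positivity) (by positivity)) (by positivity)
  have hθ1 : θ ≤ κ0 / 8 := (min_le_left _ _).trans (min_le_left _ _)
  have hθ2 : θ ≤ ε' * s ^ (d + 1) / (4 * ((d : ℝ) + 1)) := (min_le_left _ _).trans (min_le_right _ _)
  have hθ3 : θ ≤ ε * t / (9 * ((d : ℝ) + 1)) := min_le_right _ _
  set ε1 : ℝ := min ε (θ / C) with hε1
  have hC0 : 0 < C := by linarith
  have hε10 : 0 < ε1 := lt_min hε (by positivity)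
  have hε1C : C * ε1 ≤ θ := by
    have : ε1 ≤ θ / C := min_le_right _ _
    rw [le_div_iff₀ hC0] at this
    linarith
  have hε1ε : ε1 ≤ ε := min_le_left _ _
  obtain ⟨n1, H4⟩ := macro_pt d hd C ε1 (δ / 2) δ hC hε10 (by linarith) (by linarith)
  obtain ⟨n2, H5⟩ := macro_pt d hd C ε1 (m' * t) (m * t) hC hε10 (by positivity)
    (mul_lt_mul_of_pos_right hmm ht0)
  obtain ⟨n3, H6⟩ := h18_tend C K (2 ^ d * (d.factorial : ℝ))
    (min (min θ (v ^ (d + 1) * θ / ((d : ℝ) + 1))) (δ / 2)) (by positivity)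
  refine ⟨max (max n1 n2) (max n3 (2 * d + 1)), fun n hn Q μ o hμ hμC ho hoK hb hsW => ?_⟩
  have hn1 : n1 ≤ n := (le_max_left _ _).trans ((le_max_left _ _).trans hn)
  have hn2 : n2 ≤ n := (le_max_right _ _).trans ((le_max_left _ _).trans hn)
  have hn3 : n3 ≤ n := (le_max_left _ _).trans ((le_max_right _ _).trans hn)
  have hn4 : 2 * d + 1 ≤ n := (le_max_right _ _).trans ((le_max_right _ _).trans hn)
  obtain ⟨_, ha1, ha2⟩ := H6 n hn3
  have hα1 : C ^ 2 / n + 2 ^ d * (d.factorial : ℝ) * (n : ℝ) ^ (-(1:ℝ) / 4) ≤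
      v ^ (d + 1) * θ / ((d : ℝ) + 1) := ha2.trans ((min_le_left _ _).trans (min_le_right _ _))
  have hoθ : o ≤ θ := hoK.trans (ha1.trans ((min_le_left _ _).trans (min_le_left _ _)))
  have hoδ : o ≤ δ / 2 := hoK.trans (ha1.trans (min_le_right _ _))
  have hn0 : (0:ℝ) < n := by exact_mod_cast (by omega : 0 < n)
  have hnd : (0:ℝ) < (n : ℝ) - d := by
    have : (2 * (d:ℝ)) + 1 ≤ n := by exact_mod_cast hn4
    have h0 : (0:ℝ) ≤ d := Nat.cast_nonneg d
    linarith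
  set cb : ℝ := ((n : ℝ) - d) * μ with hcb
  have hcb0 : 0 ≤ cb := by positivity
  have hcbμ : cb / ((n : ℝ) - d) = μ := by rw [hcb]; field_simp
  have hcbC : cb ≤ C := by
    have h5 : μ * n ≤ C := by rwa [le_div_iff₀ hn0] at hμC
    have h6 : cb ≤ n * μ := mul_le_mul_of_nonneg_right
      (by linarith [(Nat.cast_nonneg d : (0:ℝ) ≤ d)]) hμ
    linarith
  have hu0 : uf Q n cb 0 ≤ v ^ (d + 1) * θ / ((d : ℝ) + 1) :=
    (uf_zero_le Q (by omega) n (by omega) (by omega) C μ hμ hμC hb).trans hα1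
  -- step 2
  have hup : cb ≤ c + θ := by
    have h5 := u_lb Q (by omega) n (by omega) cb 0 v hcb0 le_rfl hv0.le hv1
    have h6 : cb * v ^ (d + 1) / ((d : ℝ) + 1) - Ef v ≤ v ^ (d + 1) * θ / ((d : ℝ) + 1) := by
      linarith
    have h7 : Ef v = c * v ^ (d + 1) / ((d : ℝ) + 1) := by
      rw [hcv]; field_simp
    rw [h7, ← sub_div, div_le_div_iff_of_pos_right hd0] at h6
    have h8 : v ^ (d + 1) * cb ≤ v ^ (d + 1) * (c + θ) := by linarith
    exact le_of_mul_le_mul_left h8 hvp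
  -- the macroscopic point
  obtain ⟨l, hl1, hl2, hTl, hDl⟩ := H4 n hn1 Q (rt μ) (rt_nonneg hμ) ((rt_le μ).trans hμC)
  have hol : o ≤ l := hoδ.trans hl1
  have hl0 : 0 ≤ l := ho.trans hol
  have hWW : Wf Q n (rt μ) (rt o) ≤ Wf Q n (rt μ) (rt l) :=
    Wf_mono Q n _ _ _ _ (rt_nonneg hμ) le_rfl (rt_lt_one μ).le (rt_nonneg ho) (rt_mono hol)
      (rt_lt_one l).le
  set w0 : ℝ := Wf Q n (rt μ) (rt o) with hw0
  set w2 : ℝ := Wf Q n (rt μ) (rt l) with hw2
  have hw2s : s ≤ w2 := hsW.trans hWW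
  have hw20 : 0 ≤ w2 := hs.le.trans hw2s
  have hw21 : w2 < 1 := Wf_lt_one Q (by omega) n _ _ (rt_nonneg hμ) (rt_lt_one μ) (rt_nonneg hl0)
    (rt_lt_one l)
  have hw01 : w0 ≤ 1 := hWW.trans hw21.le
  have hub : (0:ℝ) ≤ (cb - c) * w2 ^ (d + 1) / ((d : ℝ) + 1) + θ + δ +
      (c * w2 ^ (d + 1) / ((d : ℝ) + 1) - Ef w2) := by
    have h5 := u_ub Q (by omega) n (by omega) cb l hcb0 hl0
    rw [hcbμ] at h5
    have h6 := u_nonneg Q n (by omega) cb l hcb0 hl0
    have h7 : cb * Tf Q n (rt μ) (rt l) / ((d : ℝ) + 1) ≤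
        cb * w2 ^ (d + 1) / ((d : ℝ) + 1) + θ := by
      have h8 : cb * Tf Q n (rt μ) (rt l) ≤ cb * w2 ^ (d + 1) + θ := by
        have h9 := mul_le_mul_of_nonneg_left hTl hcb0
        have h10 : cb * ε1 ≤ C * ε1 := mul_le_mul_of_nonneg_right hcbC hε10.le
        have h11 : cb * (w2 ^ (d + 1) + ε1) = cb * w2 ^ (d + 1) + cb * ε1 := by ring
        linarith
      calc cb * Tf Q n (rt μ) (rt l) / ((d : ℝ) + 1) ≤
            (cb * w2 ^ (d + 1) + θ) / ((d : ℝ) + 1) := div_le_div_of_nonneg_right h8 hd0.le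
        _ = cb * w2 ^ (d + 1) / ((d : ℝ) + 1) + θ / ((d : ℝ) + 1) := by rw [add_div]
        _ ≤ _ := by
          have : θ / ((d : ℝ) + 1) ≤ θ := div_le_self hθ0.le hd1
          linarith
    have h8 : l * w2 ≤ δ := by
      calc l * w2 ≤ δ * 1 := mul_le_mul hl2 hw21.le hw20 hδ0.le
        _ = δ := mul_one _
    have h9 : cb * w2 ^ (d + 1) / ((d : ℝ) + 1) =
        (cb - c) * w2 ^ (d + 1) / ((d : ℝ) + 1) + c * w2 ^ (d + 1) / ((d : ℝ) + 1) := by
      rw [← add_div]; congr 1; ring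
    rw [← hw2] at h5
    linarith
  have hw2p : w2 ^ (d + 1) ≤ 1 := pow_le_one₀ hw20 hw21.le
  have hw2p0 : s ^ (d + 1) ≤ w2 ^ (d + 1) := pow_le_pow_left₀ hs.le hw2s _
  have hθup : (cb - c) * w2 ^ (d + 1) / ((d : ℝ) + 1) ≤ θ := by
    have h5 : (cb - c) * w2 ^ (d + 1) ≤ θ * 1 := by
      rcases le_total (cb - c) 0 with h | h
      · have := mul_nonpos_of_nonpos_of_nonneg h (pow_nonneg hw20 (d + 1))
        linarith
      · exact mul_le_mul (by linarith) hw2p (pow_nonneg hw20 _) hθ0.le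
    calc (cb - c) * w2 ^ (d + 1) / ((d : ℝ) + 1) ≤ (θ * 1) / ((d : ℝ) + 1) :=
          div_le_div_of_nonneg_right h5 hd0.le
      _ ≤ θ := by rw [mul_one]; exact div_le_self hθ0.le hd1
  have hclose : |w2 - v| < ε := by
    by_contra hcon
    have h5 := H3 w2 hw2s hw21 (not_lt.1 hcon)
    linarith
  have hlow : c - ε' ≤ cb := by
    have h5 := h1 w2 hw20 hw21
    have h6 : (c - cb) * w2 ^ (d + 1) / ((d : ℝ) + 1) ≤ θ + δ := by
      have h7 : (c - cb) * w2 ^ (d + 1) / ((d : ℝ) + 1) =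
          -((cb - c) * w2 ^ (d + 1) / ((d : ℝ) + 1)) := by
        rw [← neg_div]; congr 1; ring
      linarith
    by_contra hcon
    rw [not_le] at hcon
    have h7 : ε' * s ^ (d + 1) < (c - cb) * w2 ^ (d + 1) :=
      mul_lt_mul (by linarith) hw2p0 hsp (by linarith)
    have h8 : ε' * s ^ (d + 1) / ((d : ℝ) + 1) < θ + δ :=
      (div_lt_div_of_pos_right h7 hd0).trans_le h6
    have h9 : θ + δ ≤ ε' * s ^ (d + 1) / ((d : ℝ) + 1) / 2 := by
      have e : ε' * s ^ (d + 1) / (4 * ((d : ℝ) + 1)) =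
          ε' * s ^ (d + 1) / ((d : ℝ) + 1) / 4 := by
        rw [div_div]; congr 1; ring
      rw [e] at hθ2 hδ3
      linarith
    have h10 : 0 < ε' * s ^ (d + 1) / ((d : ℝ) + 1) := by positivity
    linarith
  refine ⟨by linarith [min_le_left ε (c / 2)], ?_, l, hol, hl2.trans hδ1, hclose.le, ?_⟩
  · -- the comparison point
    have hcbt : t ≤ cb := by
      have : ε' ≤ c / 2 := min_le_right _ _
      linarith
    have hq0 : 0 ≤ (cb - t) / ((n : ℝ) - d) := div_nonneg (by linarith) hnd.le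
    have hqμ : (cb - t) / ((n : ℝ) - d) ≤ μ := by
      calc (cb - t) / ((n : ℝ) - d) ≤ cb / ((n : ℝ) - d) :=
            div_le_div_of_nonneg_right (by linarith) hnd.le
        _ = μ := hcbμ
    obtain ⟨ls, hls1, hls2, hTs, _⟩ := H5 n hn2 Q (rt ((cb - t) / ((n : ℝ) - d)))
      (rt_nonneg hq0) ((rt_le _).trans (hqμ.trans hμC))
    have hls0 : 0 ≤ ls := by
      have : 0 < m' * t := by positivity
      linarith
    set ws : ℝ := Wf Q n (rt ((cb - t) / ((n : ℝ) - d))) (rt ls) with hws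
    have hws0 : 0 ≤ ws := Wf_nonneg Q n _ _ (rt_nonneg hq0) (rt_lt_one _).le (rt_nonneg hls0)
      (rt_lt_one _).le
    have hws1 : ws < 1 := Wf_lt_one Q (by omega) n _ _ (rt_nonneg hq0) (rt_lt_one _)
      (rt_nonneg hls0) (rt_lt_one _)
    have g1 := u_grad Q n (by omega) cb o (cb - t) ls hcb0 ho (by linarith) hls0
    rw [hcbμ, ← hw0] at g1
    have g2' := u_nonneg Q n (by omega) cb o hcb0 ho
    have g3 := u_ub Q (by omega) n (by omega) (cb - t) ls (by linarith) hls0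
    rw [← hws] at g3
    have g4 : (cb - t) * Tf Q n (rt ((cb - t) / ((n : ℝ) - d))) (rt ls) / ((d : ℝ) + 1) ≤
        (cb - t) * ws ^ (d + 1) / ((d : ℝ) + 1) + θ := by
      have h8 : (cb - t) * Tf Q n (rt ((cb - t) / ((n : ℝ) - d))) (rt ls) ≤
          (cb - t) * ws ^ (d + 1) + θ := by
        have h9 := mul_le_mul_of_nonneg_left hTs (by linarith : 0 ≤ cb - t)
        have h10 : (cb - t) * ε1 ≤ C * ε1 :=
          mul_le_mul_of_nonneg_right (by linarith) hε10.le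
        have h11 : (cb - t) * (ws ^ (d + 1) + ε1) =
            (cb - t) * ws ^ (d + 1) + (cb - t) * ε1 := by ring
        linarith
      calc _ ≤ ((cb - t) * ws ^ (d + 1) + θ) / ((d : ℝ) + 1) :=
            div_le_div_of_nonneg_right h8 hd0.le
        _ = (cb - t) * ws ^ (d + 1) / ((d : ℝ) + 1) + θ / ((d : ℝ) + 1) := by rw [add_div]
        _ ≤ _ := by
          have : θ / ((d : ℝ) + 1) ≤ θ := div_le_self hθ0.le hd1
          linarith
    have g5 : (cb - t) * ws ^ (d + 1) / ((d : ℝ) + 1) ≤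
        c * ws ^ (d + 1) / ((d : ℝ) + 1) + θ - t * ws ^ (d + 1) / ((d : ℝ) + 1) := by
      have h8 : (cb - t) * ws ^ (d + 1) / ((d : ℝ) + 1) =
          c * ws ^ (d + 1) / ((d : ℝ) + 1) - t * ws ^ (d + 1) / ((d : ℝ) + 1) +
            (cb - c) * ws ^ (d + 1) / ((d : ℝ) + 1) := by
        rw [← sub_div, ← add_div]; congr 1; ring
      have h9 : (cb - c) * ws ^ (d + 1) / ((d : ℝ) + 1) ≤ θ := by
        have h5 : (cb - c) * ws ^ (d + 1) ≤ θ * 1 := by
          rcases le_total (cb - c) 0 with h | h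
          · have := mul_nonpos_of_nonpos_of_nonneg h (pow_nonneg hws0 (d + 1))
            linarith
          · exact mul_le_mul (by linarith) (pow_le_one₀ hws0 hws1.le) (pow_nonneg hws0 _) hθ0.le
        calc (cb - c) * ws ^ (d + 1) / ((d : ℝ) + 1) ≤ (θ * 1) / ((d : ℝ) + 1) :=
              div_le_div_of_nonneg_right h5 hd0.le
          _ ≤ θ := by rw [mul_one]; exact div_le_self hθ0.le hd1
      linarith
    -- the main estimate
    have g6 : c * ws ^ (d + 1) / ((d : ℝ) + 1) - t * ws ^ (d + 1) / ((d : ℝ) + 1) + ls * ws -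
        Ef ws ≤ t ^ 2 / (4 * κ) := by
      have h8 : t * ws ^ (d + 1) / ((d : ℝ) + 1) = t * ws * (ws ^ d / ((d : ℝ) + 1)) := by
        rw [pow_succ]; ring
      have h9 : ls * ws ≤ m * t * ws := mul_le_mul_of_nonneg_right hls2 hws0
      rcases le_total v1 ws with h | h
      · have h10 : m ≤ ws ^ d / ((d : ℝ) + 1) := by
          rw [hm]
          exact div_le_div_of_nonneg_right (pow_le_pow_left₀ hv10.le h d) hd0.le
        have h11 : m * t * ws ≤ t * ws * (ws ^ d / ((d : ℝ) + 1)) := by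
          have := mul_le_mul_of_nonneg_left h10 (mul_nonneg ht0.le hws0)
          linarith
        have h12 := h1 ws hws0 hws1
        have h13 : 0 ≤ t ^ 2 / (4 * κ) := by positivity
        linarith
      · have h12 := H2 ws hws0 (by linarith)
        have h10 : 0 ≤ t * ws * (ws ^ d / ((d : ℝ) + 1)) := by positivity
        have h11 : m * t * ws ≤ t * ws := by
          have := mul_le_mul_of_nonneg_right hm1 (mul_nonneg ht0.le hws0)
          linarith
        have h13 : t * ws - κ * ws ^ 2 ≤ t ^ 2 / (4 * κ) := by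
          rw [le_div_iff₀ (by positivity)]
          linarith [sq_nonneg (t - 2 * κ * ws)]
        linarith
    have g7 : ls * w0 - t * Tf Q n (rt μ) (rt o) / ((d : ℝ) + 1) ≤
        t ^ 2 / (4 * κ) + 3 * θ := by
      have h8 : (ls - o) * w0 = ls * w0 - o * w0 := by ring
      have h9 : o * w0 ≤ θ * 1 := mul_le_mul hoθ hw01 (hs.le.trans hsW) hθ0.le
      have h10 : (cb - t - cb) * Tf Q n (rt μ) (rt o) / ((d : ℝ) + 1) =
          -(t * Tf Q n (rt μ) (rt o) / ((d : ℝ) + 1)) := by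
        rw [← neg_div]; congr 1; ring
      rw [h10, h8] at g1
      linarith
    have g8 : m' * t * w0 ≤ ls * w0 := mul_le_mul_of_nonneg_right hls1 (hs.le.trans hsW)
    have g9 : t * (v2 ^ d * w0 - Tf Q n (rt μ) (rt o)) ≤
        t * (2 * ε / 3) := by
      have h8 : m' * t * w0 = t * (v2 ^ d * w0) / ((d : ℝ) + 1) := by rw [hm']; ring
      have h9 : t * (v2 ^ d * w0) / ((d : ℝ) + 1) - t * Tf Q n (rt μ) (rt o) / ((d : ℝ) + 1) ≤
          t ^ 2 / (4 * κ) + 3 * θ := by linarith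
      rw [← sub_div, div_le_iff₀ hd0] at h9
      have h10 : t ^ 2 / (4 * κ) * ((d : ℝ) + 1) ≤ t * (ε / 3) := by
        have h11 : t * (3 * ((d : ℝ) + 1)) ≤ ε * κ := by
          rwa [le_div_iff₀ (by positivity)] at htκ
        rw [div_mul_eq_mul_div, div_le_iff₀ (by positivity)]
        have h12 : t * (t * (3 * ((d : ℝ) + 1))) ≤ t * (ε * κ) :=
          mul_le_mul_of_nonneg_left h11 ht0.le
        linarith [mul_pos ht0 (mul_pos hε hκ)]
      have h11 : 3 * θ * ((d : ℝ) + 1) ≤ t * (ε / 3) := by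
        rw [le_div_iff₀ (by positivity)] at hθ3
        linarith
      linarith
    have g10 : v2 ^ d * w0 - Tf Q n (rt μ) (rt o) ≤ 2 * ε / 3 := le_of_mul_le_mul_left g9 ht0
    have g11 : v ^ d * w0 ≤ v2 ^ d * w0 + ε / 3 := by
      have h8 : (v ^ d - v2 ^ d) * w0 ≤ ε / 3 * 1 :=
        mul_le_mul hv2d hw01 (hs.le.trans hsW) (by positivity)
      linarith
    linarith
  · -- monotonicity of the quasi-randomness in the error
    refine le_trans ?_ (hDl.trans hε1ε)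
    unfold E2
    refine Ev_mono _ _ ?_ ?_ _ _ fun X _ => ind_mono fun h h' => h ?_
    · intro i _
      unfold dn
      split_ifs
      · exact rt_nonneg hμ
      · exact rt_nonneg hl0
    · intro i _
      unfold dn
      split_ifs
      · exact (rt_lt_one μ).le
      · exact (rt_lt_one l).le
    · intro u hu
      exact (h' u hu).trans (mul_le_mul_of_nonneg_right hε1ε (by positivity))

end FC
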