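import Pool.Agent.H18.FC2.Ev
import Pool.Agent.H18.FC2.Tele

/-!
# If the density of the ridges in the closure can be computed from the faces, it does not grow

`step5_of` has the results of the modules `Dich`, `Cnt` and `Mono` as hypotheses.
-/

namespace FC

open Finset

theorem h26_choose_lb (d : ℕ) : ∃ n1 : ℕ, ∀ n ≥ n1,
    (n : ℝ) ^ d ≤ 2 * ((d.factorial : ℝ) * (n.choose d : ℝ)) := by
  refine ⟨2 * d * d + d + 1, fun n hn => ?_⟩
  have hdn : d ≤ n := by nlinarith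
  have hn0 : 0 < (n : ℝ) := by
    have : 0 < n := by omega
    exact_mod_cast this
  have h1 : (n + 1 - d) ^ d ≤ d.factorial * n.choose d := by
    rw [← Nat.descFactorial_eq_factorial_mul_choose]
    exact Nat.pow_sub_le_descFactorial n d
  have h2 : ((n : ℝ) - d) ^ d ≤ (d.factorial : ℝ) * (n.choose d : ℝ) := by
    have h3 : (((n + 1 - d : ℕ) : ℝ)) ^ d ≤ (d.factorial : ℝ) * (n.choose d : ℝ) := by
      exact_mod_cast h1
    refine le_trans ?_ h3
    have h4 : ((n : ℝ) - d) ≤ ((n + 1 - d : ℕ) : ℝ) := by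
      rw [Nat.cast_sub (by omega)]
      push_cast
      linarith
    have h5 : (0 : ℝ) ≤ (n : ℝ) - d := by
      have : (d : ℝ) ≤ n := by exact_mod_cast hdn
      linarith
    exact pow_le_pow_left₀ h5 h4 d
  have h6 : 1 + (d : ℝ) * (-((d : ℝ) / n)) ≤ (1 + (-((d : ℝ) / n))) ^ d := by
    refine one_add_mul_le_pow ?_ d
    have : (d : ℝ) / n ≤ 1 := by
      rw [div_le_one hn0]
      exact_mod_cast hdn
    linarith
  have h7 : (d : ℝ) * ((d : ℝ) / n) ≤ 1 / 2 := by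
    rw [← mul_div_assoc, div_le_iff₀ hn0]
    have : 2 * d * d + d + 1 ≤ n := hn
    have h8 : (2 * d * d + d + 1 : ℝ) ≤ n := by exact_mod_cast this
    have h9 : (0 : ℝ) ≤ d := Nat.cast_nonneg d
    nlinarith
  have h10 : ((n : ℝ) - d) ^ d = (n : ℝ) ^ d * (1 + (-((d : ℝ) / n))) ^ d := by
    rw [← mul_pow]
    congr 1
    field_simp
    ring
  have h11 : (0 : ℝ) < (n : ℝ) ^ d := pow_pos hn0 d
  have h12 : (n : ℝ) ^ d * (1 / 2) ≤ (n : ℝ) ^ d * (1 + (-((d : ℝ) / n))) ^ d := by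
    refine mul_le_mul_of_nonneg_left ?_ h11.le
    linarith
  linarith

theorem h26_choose_ub (d n : ℕ) : (d.factorial : ℝ) * (n.choose d : ℝ) ≤ (n : ℝ) ^ d := by
  have h1 : d.factorial * n.choose d ≤ n ^ d := by
    rw [← Nat.descFactorial_eq_factorial_mul_choose]
    exact Nat.descFactorial_le_pow n d
  exact_mod_cast h1

theorem h26_choose_succ (d n : ℕ) (hn : d ≤ n) :
    ((d + 1).factorial : ℝ) * (n.choose (d + 1) : ℝ) =
      (d.factorial : ℝ) * (n.choose d : ℝ) * ((n : ℝ) - d) := by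
  have h1 : (d + 1).factorial * n.choose (d + 1) = (n - d) * (d.factorial * n.choose d) := by
    rw [← Nat.descFactorial_eq_factorial_mul_choose, ← Nat.descFactorial_eq_factorial_mul_choose,
      Nat.descFactorial_succ]
  have h2 : ((d + 1).factorial : ℝ) * (n.choose (d + 1) : ℝ) =
      ((n - d : ℕ) : ℝ) * ((d.factorial : ℝ) * (n.choose d : ℝ)) := by exact_mod_cast h1
  rw [h2, Nat.cast_sub hn]
  ring

theorem h26_sum_del (n k : ℕ) (f : (Fin k → Fin n) → ℝ) (i : Fin (k + 1)) :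
    ∑ x : Fin (k + 1) → Fin n, f (del x i) = n * ∑ y, f y := by
  rw [← Equiv.sum_comp (Fin.insertNthEquiv (fun _ => Fin n) i), Fintype.sum_prod_type]
  have h : ∀ z : Fin n, ∑ y : Fin k → Fin n,
      f (del (Fin.insertNthEquiv (fun _ => Fin n) i (z, y)) i) = ∑ y, f y := by
    intro z
    refine Finset.sum_congr rfl fun y _ => ?_
    congr 1
    funext l
    simp [del, Fin.insertNthEquiv]
  rw [Finset.sum_congr rfl fun z _ => h z, Finset.sum_const, Finset.card_univ, Fintype.card_fin,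
    nsmul_eq_mul]

theorem h26_disc_mono (n k : ℕ) (b : (Fin k → Fin n) → ℝ) (w ε ε' : ℝ) (h : ε ≤ ε')
    (hD : Disc n k b w ε) : Disc n k b w ε' := fun u hu =>
  (hD u hu).trans (mul_le_mul_of_nonneg_right h (by positivity))

theorem h26_bf_or {k : ℕ} (n : ℕ) (W : Finset (Finset ℕ)) (x : Fin k → Fin n) :
    bf n W x = 0 ∨ bf n W x = 1 := by
  unfold bf
  by_cases h : tset x ∈ W
  · exact Or.inr (ind_pos h)
  · exact Or.inl (ind_neg h)

theorem h26_bf_mono {k : ℕ} (n : ℕ) (W W' : Finset (Finset ℕ)) (h : W ⊆ W')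
    (x : Fin k → Fin n) : bf n W x ≤ bf n W' x := ind_mono fun hx => h hx

theorem h26_bf_perm {k : ℕ} (n : ℕ) (W : Finset (Finset ℕ)) (π : Equiv.Perm (Fin k))
    (x : Fin k → Fin n) : bf n W (x ∘ π) = bf n W x := by
  have h : tset (x ∘ π) = tset x := by
    unfold tset
    ext v
    simp only [mem_image, mem_univ, true_and, Function.comp]
    constructor
    · rintro ⟨i, hi⟩
      exact ⟨π i, hi⟩
    · rintro ⟨i, hi⟩
      exact ⟨π.symm i, by rw [Equiv.apply_symm_apply]; exact hi⟩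
  unfold bf
  rw [h]

theorem h26_Cl_mono {α : Type*} [DecidableEq α] (R : RankFn α) (A B : Finset α) (h : A ⊆ B)
    (i : α) (hA : R.Cl A i) : R.Cl B i := by
  unfold RankFn.Cl at *
  by_cases hi : i ∈ B
  · rw [Finset.insert_eq_of_mem hi]
  have h1 := R.submod (insert i A) B
  have h2 : insert i A ∪ B = insert i B := by
    rw [Finset.insert_union, Finset.union_eq_right.2 h]
  have h3 : insert i A ∩ B = A := by
    rw [Finset.insert_inter_of_notMem hi, Finset.inter_eq_left.2 h]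
  rw [h2, h3, hA] at h1
  have h4 := R.mono B (insert i B) (Finset.subset_insert i B)
  omega

theorem h26_wset_mono {α : Type*} [DecidableEq α] (R : RankFn α) (G A B : Finset α)
    (h : A ⊆ B) : wset R G A ⊆ wset R G B := by
  classical
  intro e he
  unfold wset at *
  rw [Finset.mem_filter] at *
  exact ⟨he.1, h26_Cl_mono R A B h e he.2⟩

theorem h26_wset_sub {α : Type*} [DecidableEq α] (R : RankFn α) (G A : Finset α) :
    wset R G A ⊆ G := by
  classical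
  exact Finset.filter_subset _ _

theorem h26_rg_card (d n : ℕ) : (rg d n).card = n.choose d := by
  unfold rg
  rw [Finset.card_powersetCard, Finset.card_range]

theorem h26_fc_card (d n : ℕ) : (fc d n).card = n.choose (d + 1) := by
  unfold fc faces
  rw [Finset.card_powersetCard, Finset.card_range]

theorem h26_rt_nonneg {x : ℝ} (h : 0 ≤ x) : 0 ≤ rt x := by
  unfold rt
  have : Real.exp (-x) ≤ 1 := Real.exp_le_one_iff.2 (by linarith)
  linarith

theorem h26_rt_le_one (x : ℝ) : rt x ≤ 1 := by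
  unfold rt
  have := Real.exp_pos (-x)
  linarith

theorem h26_rt_mono {x y : ℝ} (h : x ≤ y) : rt x ≤ rt y := by
  unfold rt
  have : Real.exp (-y) ≤ Real.exp (-x) := Real.exp_le_exp.2 (by linarith)
  linarith

theorem h26_rt_add (x y : ℝ) : rt x + rt (y - x) - rt x * rt (y - x) = rt y := by
  unfold rt
  have : Real.exp (-y) = Real.exp (-x) * Real.exp (-(y - x)) := by
    rw [← Real.exp_add]
    congr 1
    ring
  rw [this]
  ring

open Classical in
/-- The pointwise alternative. -/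
theorem h26_pt (d n : ℕ) (hn : 1 ≤ n) (s ε' δ' δ w : ℝ)
    (hcnt1 : ∀ (n : ℕ) (W : Finset (Finset ℕ)), W ⊆ rg d n →
      ∑ x : Fin d → Fin n, bf n W x = (d.factorial : ℝ) * W.card)
    (hcnt2 : ∀ (n : ℕ) (W : Finset (Finset ℕ)), W ⊆ rg d n →
      ∑ x : Fin (d + 1) → Fin n, ∏ i, bf n W (del x i) = ((d + 1).factorial : ℝ) *
        ((fc d n).filter (fun σ => ∀ y ∈ σ, σ.erase y ∈ W)).card)
    (hdich : ∀ n ≥ 1, ∀ (a b : (Fin d → Fin n) → ℝ) (w : ℝ), s ≤ w → w ≤ 1 →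
      (∀ x, a x = 0 ∨ a x = 1) →
      (∀ x, b x = 0 ∨ b x = 1) → (∀ x, a x ≤ b x) →
      (∀ (π : Equiv.Perm (Fin d)) x, a (x ∘ π) = a x) → Disc n d b w δ' →
      (∑ x : Fin (d + 1) → Fin n, a (del x 0) * ∏ i ∈ univ.erase 0, b (del x i) ≤
        ∑ x : Fin (d + 1) → Fin n, ∏ i, a (del x i) + δ' * (n : ℝ) ^ (d + 1)) →
      ∑ x, a x ≤ ε' * (n : ℝ) ^ d ∨ (w - ε') * (n : ℝ) ^ d ≤ ∑ x, a x)
    (hδ : δ ≤ δ') (hs : 0 < s) (hsw : s ≤ w) (hw1 : w ≤ 1) (W0 W1 : Finset (Finset ℕ))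
    (h01 : W0 ⊆ W1) (h1 : W1 ⊆ rg d n) (hD : Disc n d (bf n W1) w δ) :
    ((d + 1).factorial : ℝ) *
        ((fc d n).filter (fun σ => ∀ y ∈ σ, σ.erase y ∈ W0)).card ≤
      w ^ d * (n * ((d.factorial : ℝ) * W0.card)) + d * δ * (n : ℝ) ^ (d + 1) ∧
    ((d.factorial : ℝ) * W0.card ≤ ε' * (n : ℝ) ^ d ∨
      (w - ε') * (n : ℝ) ^ d ≤ (d.factorial : ℝ) * W0.card ∨
      δ' * (n : ℝ) ^ (d + 1) ≤ w ^ d * (n * ((d.factorial : ℝ) * W0.card)) +
        d * δ * (n : ℝ) ^ (d + 1) - ((d + 1).factorial : ℝ) *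
        ((fc d n).filter (fun σ => ∀ y ∈ σ, σ.erase y ∈ W0)).card) := by
  have h0 : W0 ⊆ rg d n := h01.trans h1
  have hT := tele n d (bf n W1) w δ (h26_bf_or n W1) (by linarith) hw1 hD (univ.erase 0)
    (fun _ => bf n W0) (fun _ x => h26_bf_or n W0 x)
  have hc : ((univ.erase 0 : Finset (Fin (d + 1))))ᶜ = {0} := by
    ext i
    simp
  have hcard : (univ.erase 0 : Finset (Fin (d + 1))).card = d := by
    rw [Finset.card_erase_of_mem (Finset.mem_univ _), Finset.card_univ, Fintype.card_fin]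
    simp
  rw [hc, hcard] at hT
  simp only [Finset.prod_singleton] at hT
  have hS := h26_sum_del n d (bf n W0) 0
  have hC1 := hcnt1 n W0 h0
  have hC2 := hcnt2 n W0 h0
  rw [hS, hC1] at hT
  have hcomm : ∑ x : Fin (d + 1) → Fin n, bf n W0 (del x 0) *
      ∏ i ∈ univ.erase 0, bf n W1 (del x i) = ∑ x : Fin (d + 1) → Fin n,
      (∏ i ∈ univ.erase 0, bf n W1 (del x i)) * bf n W0 (del x 0) :=
    Finset.sum_congr rfl fun x _ => mul_comm _ _
  have hT1 := (abs_le.1 hT).2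
  have hle : ∑ x : Fin (d + 1) → Fin n, ∏ i, bf n W0 (del x i) ≤
      ∑ x : Fin (d + 1) → Fin n, (∏ i ∈ univ.erase 0, bf n W1 (del x i)) *
        bf n W0 (del x 0) := by
    refine Finset.sum_le_sum fun x _ => ?_
    rw [← Finset.prod_erase_mul univ (fun i => bf n W0 (del x i)) (Finset.mem_univ 0)]
    refine mul_le_mul_of_nonneg_right ?_ ?_
    · refine Finset.prod_le_prod (fun i _ => ?_) (fun i _ => h26_bf_mono n W0 W1 h01 _)
      unfold bf
      exact ind_nonneg _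
    · unfold bf
      exact ind_nonneg _
  constructor
  · rw [← hC2]
    linarith
  · by_cases h3 : δ' * (n : ℝ) ^ (d + 1) ≤ w ^ d * (n * ((d.factorial : ℝ) * W0.card)) +
        d * δ * (n : ℝ) ^ (d + 1) - ((d + 1).factorial : ℝ) *
        ((fc d n).filter (fun σ => ∀ y ∈ σ, σ.erase y ∈ W0)).card
    · exact Or.inr (Or.inr h3)
    · have h4 := hdich n hn (bf n W0) (bf n W1) w hsw hw1 (h26_bf_or n W0) (h26_bf_or n W1)
        (fun x => h26_bf_mono n W0 W1 h01 x) (fun π x => h26_bf_perm n W0 π x)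
        (h26_disc_mono n d _ w δ δ' hδ hD) (by
          rw [hcomm, hC2]
          push Not at h3
          linarith)
      rw [hC1] at h4
      rcases h4 with h4 | h4
      · exact Or.inl h4
      · exact Or.inr (Or.inl h4)

open Classical in
/-- The pointwise inequality. -/
theorem h26_pw (d n : ℕ) (hn : d + 1 ≤ n) (s ε' δ' δ w w0 : ℝ)
    (hcnt1 : ∀ (n : ℕ) (W : Finset (Finset ℕ)), W ⊆ rg d n →
      ∑ x : Fin d → Fin n, bf n W x = (d.factorial : ℝ) * W.card)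
    (hcnt2 : ∀ (n : ℕ) (W : Finset (Finset ℕ)), W ⊆ rg d n →
      ∑ x : Fin (d + 1) → Fin n, ∏ i, bf n W (del x i) = ((d + 1).factorial : ℝ) *
        ((fc d n).filter (fun σ => ∀ y ∈ σ, σ.erase y ∈ W)).card)
    (hdich : ∀ n ≥ 1, ∀ (a b : (Fin d → Fin n) → ℝ) (w : ℝ), s ≤ w → w ≤ 1 →
      (∀ x, a x = 0 ∨ a x = 1) →
      (∀ x, b x = 0 ∨ b x = 1) → (∀ x, a x ≤ b x) →
      (∀ (π : Equiv.Perm (Fin d)) x, a (x ∘ π) = a x) → Disc n d b w δ' →
      (∑ x : Fin (d + 1) → Fin n, a (del x 0) * ∏ i ∈ univ.erase 0, b (del x i) ≤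
        ∑ x : Fin (d + 1) → Fin n, ∏ i, a (del x i) + δ' * (n : ℝ) ^ (d + 1)) →
      ∑ x, a x ≤ ε' * (n : ℝ) ^ d ∨ (w - ε') * (n : ℝ) ^ d ≤ ∑ x, a x)
    (hδ : δ ≤ δ') (hδ0 : 0 < δ) (hε' : 0 < ε') (hs : 0 < s) (hsw : s ≤ w) (hw1 : w ≤ 1)
    (hw0 : 0 ≤ w0) (hww : w0 + δ ≤ w - ε')
    (W0 W1 : Finset (Finset ℕ)) (h01 : W0 ⊆ W1) (h1 : W1 ⊆ rg d n) :
    (W0.card : ℝ) ≤ ε' * (n : ℝ) ^ d / (d.factorial : ℝ) +
      (n.choose d : ℝ) * ind ((w0 + δ) * (n.choose d : ℝ) ≤ (W0.card : ℝ)) +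
      (n.choose d : ℝ) / (δ' * (n : ℝ) ^ (d + 1)) *
        (w ^ d * (n * ((d.factorial : ℝ) * W0.card)) + d * δ * (n : ℝ) ^ (d + 1) -
          ((d + 1).factorial : ℝ) *
            ((fc d n).filter (fun σ => ∀ y ∈ σ, σ.erase y ∈ W0)).card) +
      ((n.choose d : ℝ) + (n.choose d : ℝ) / δ') *
        ind (¬ Disc n d (bf n W1) w δ) := by
  have hn0 : (0 : ℝ) < n := by
    have : 0 < n := by omega
    exact_mod_cast this
  have hδ' : 0 < δ' := lt_of_lt_of_le hδ0 hδ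
  have hf0 : (0 : ℝ) < d.factorial := by exact_mod_cast Nat.factorial_pos d
  have hM0 : (0 : ℝ) < (n.choose d : ℝ) := by
    exact_mod_cast Nat.choose_pos (by omega)
  have hnd : (0 : ℝ) < (n : ℝ) ^ d := pow_pos hn0 d
  have hnd1 : (0 : ℝ) < (n : ℝ) ^ (d + 1) := pow_pos hn0 _
  have hWM : (W0.card : ℝ) ≤ (n.choose d : ℝ) := by
    rw [← h26_rg_card]
    exact_mod_cast Finset.card_le_card (h01.trans h1)
  have hWn : (0 : ℝ) ≤ (W0.card : ℝ) := Nat.cast_nonneg _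
  have hw : 0 ≤ w := by linarith
  have hF : 0 ≤ ε' * (n : ℝ) ^ d / (d.factorial : ℝ) := by positivity
  have hI : 0 ≤ (n.choose d : ℝ) * ind ((w0 + δ) * (n.choose d : ℝ) ≤ (W0.card : ℝ)) :=
    mul_nonneg hM0.le (ind_nonneg _)
  have hK : 0 < (n.choose d : ℝ) / (δ' * (n : ℝ) ^ (d + 1)) := by positivity
  have hJ : 0 ≤ ((n.choose d : ℝ) + (n.choose d : ℝ) / δ') *
        ind (¬ Disc n d (bf n W1) w δ) :=
    mul_nonneg (by positivity) (ind_nonneg _)
  have hub : ((d + 1).factorial : ℝ) *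
      ((fc d n).filter (fun σ => ∀ y ∈ σ, σ.erase y ∈ W0)).card ≤ (n : ℝ) ^ (d + 1) := by
    refine le_trans ?_ (h26_choose_ub (d + 1) n)
    refine mul_le_mul_of_nonneg_left ?_ (Nat.cast_nonneg _)
    rw [← h26_fc_card]
    exact_mod_cast Finset.card_le_card (Finset.filter_subset _ _)
  by_cases hD : Disc n d (bf n W1) w δ
  · obtain ⟨hA, hB⟩ := h26_pt d n (by omega) s ε' δ' δ w hcnt1 hcnt2 hdich hδ hs hsw hw1 W0 W1 h01 h1 hD
    have hT0 : 0 ≤ (n.choose d : ℝ) / (δ' * (n : ℝ) ^ (d + 1)) *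
        (w ^ d * (n * ((d.factorial : ℝ) * W0.card)) + d * δ * (n : ℝ) ^ (d + 1) -
          ((d + 1).factorial : ℝ) *
            ((fc d n).filter (fun σ => ∀ y ∈ σ, σ.erase y ∈ W0)).card) :=
      mul_nonneg hK.le (by linarith)
    rcases hB with hB | hB | hB
    · have : (W0.card : ℝ) ≤ ε' * (n : ℝ) ^ d / (d.factorial : ℝ) := by
        rw [le_div_iff₀ hf0]
        linarith
      linarith
    · have hE : (w0 + δ) * (n.choose d : ℝ) ≤ (W0.card : ℝ) := by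
        have h2 : (w0 + δ) * ((d.factorial : ℝ) * (n.choose d : ℝ)) ≤
            (d.factorial : ℝ) * W0.card := by
          calc _ ≤ (w0 + δ) * (n : ℝ) ^ d :=
                mul_le_mul_of_nonneg_left (h26_choose_ub d n) (by linarith)
            _ ≤ (w - ε') * (n : ℝ) ^ d := mul_le_mul_of_nonneg_right hww hnd.le
            _ ≤ _ := hB
        have h3 : (d.factorial : ℝ) * ((w0 + δ) * (n.choose d : ℝ)) ≤
            (d.factorial : ℝ) * W0.card := by linarith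
        exact le_of_mul_le_mul_left h3 hf0
      rw [ind_pos hE]
      linarith
    · have h2 : (n.choose d : ℝ) / (δ' * (n : ℝ) ^ (d + 1)) * (δ' * (n : ℝ) ^ (d + 1)) ≤
          (n.choose d : ℝ) / (δ' * (n : ℝ) ^ (d + 1)) *
        (w ^ d * (n * ((d.factorial : ℝ) * W0.card)) + d * δ * (n : ℝ) ^ (d + 1) -
          ((d + 1).factorial : ℝ) *
            ((fc d n).filter (fun σ => ∀ y ∈ σ, σ.erase y ∈ W0)).card) :=
        mul_le_mul_of_nonneg_left hB hK.le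
      rw [div_mul_cancel₀ _ (by positivity)] at h2
      linarith
  · rw [ind_pos hD]
    have h2 : (n.choose d : ℝ) / (δ' * (n : ℝ) ^ (d + 1)) * (-((n : ℝ) ^ (d + 1))) ≤
          (n.choose d : ℝ) / (δ' * (n : ℝ) ^ (d + 1)) *
        (w ^ d * (n * ((d.factorial : ℝ) * W0.card)) + d * δ * (n : ℝ) ^ (d + 1) -
          ((d + 1).factorial : ℝ) *
            ((fc d n).filter (fun σ => ∀ y ∈ σ, σ.erase y ∈ W0)).card) := by
      refine mul_le_mul_of_nonneg_left ?_ hK.le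
      have h3 : 0 ≤ w ^ d * (n * ((d.factorial : ℝ) * W0.card)) := by positivity
      have h4 : 0 ≤ (d : ℝ) * δ * (n : ℝ) ^ (d + 1) := by positivity
      linarith
    have h3 : (n.choose d : ℝ) / (δ' * (n : ℝ) ^ (d + 1)) * (-((n : ℝ) ^ (d + 1))) =
        -((n.choose d : ℝ) / δ') := by
      field_simp
    linarith

theorem h26_dn_nonneg (d : ℕ) (q p : ℝ) (hq : 0 ≤ q) (hp : 0 ≤ p) (τ : Finset ℕ) :
    0 ≤ dn d q p τ := by
  unfold dn
  split_ifs <;> assumption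

theorem h26_dn_le_one (d : ℕ) (q p : ℝ) (hq : q ≤ 1) (hp : p ≤ 1) (τ : Finset ℕ) :
    dn d q p τ ≤ 1 := by
  unfold dn
  split_ifs <;> assumption

open Classical in
theorem step5_of (d : ℕ)
    (dich : ∀ (s ε : ℝ), 0 < s → 0 < ε → ∃ δ > (0:ℝ), ∀ n ≥ 1,
      ∀ (a b : (Fin d → Fin n) → ℝ) (w : ℝ), s ≤ w → w ≤ 1 → (∀ x, a x = 0 ∨ a x = 1) →
      (∀ x, b x = 0 ∨ b x = 1) → (∀ x, a x ≤ b x) →
      (∀ (π : Equiv.Perm (Fin d)) x, a (x ∘ π) = a x) → Disc n d b w δ →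
      (∑ x : Fin (d + 1) → Fin n, a (del x 0) * ∏ i ∈ univ.erase 0, b (del x i) ≤
        ∑ x : Fin (d + 1) → Fin n, ∏ i, a (del x i) + δ * (n : ℝ) ^ (d + 1)) →
      ∑ x, a x ≤ ε * (n : ℝ) ^ d ∨ (w - ε) * (n : ℝ) ^ d ≤ ∑ x, a x)
    (hcnt1 : ∀ (n : ℕ) (W : Finset (Finset ℕ)), W ⊆ rg d n →
      ∑ x : Fin d → Fin n, bf n W x = (d.factorial : ℝ) * W.card)
    (hcnt2 : ∀ (n : ℕ) (W : Finset (Finset ℕ)), W ⊆ rg d n →
      ∑ x : Fin (d + 1) → Fin n, ∏ i, bf n W (del x i) = ((d + 1).factorial : ℝ) *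
        ((fc d n).filter (fun σ => ∀ y ∈ σ, σ.erase y ∈ W)).card)
    (Wf_le_one : ∀ (Q : ERank d) (n : ℕ) (q p : ℝ), 0 ≤ q → q ≤ 1 → 0 ≤ p → p ≤ 1 →
      Wf Q n q p ≤ 1)
    (Wf_mono : ∀ (Q : ERank d) (n : ℕ) (q p q' p' : ℝ), 0 ≤ q → q ≤ q' → q' ≤ 1 → 0 ≤ p →
      p ≤ p' → p' ≤ 1 → Wf Q n q p ≤ Wf Q n q' p')
    (E2_union : ∀ (n : ℕ) (q p y : ℝ) (f : Finset (Finset ℕ) → ℝ),
      E2 d n q p (fun A => Ev (rg d n) (fun _ => y) (fun P => f (A ∪ P))) =
        E2 d n q (p + y - p * y) f)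
    (s ε : ℝ) (hs : 0 < s) (hε : 0 < ε) :
    ∃ δ > (0:ℝ), ∃ n0 : ℕ, ∀ n ≥ n0, ∀ (Q : ERank d) (q o l : ℝ), 0 ≤ q → q ≤ 1 → 0 ≤ o →
      o ≤ l → s ≤ Wf Q n q (rt o) →
      E2 d n q (rt o) (fun A => ind ((Wf Q n q (rt o) + δ) * (n.choose d : ℝ) ≤
          ((wset Q.toRankFn (rg d n) A).card : ℝ))) ≤ δ →
      E2 d n q (rt l) (fun A => ind (¬ Disc n d (bf n (wset Q.toRankFn (rg d n) A))
          (Wf Q n q (rt l)) δ)) ≤ δ →
      Wf Q n q (rt l) ^ d * Wf Q n q (rt o) ≤ Af Q n q (rt o) + δ →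
      Wf Q n q (rt l) - ε ≤ Wf Q n q (rt o) := by
  obtain ⟨δ', hδ', hdich⟩ := dich s (min (ε / 2) (s / 8)) hs (by positivity)
  set ε' := min (ε / 2) (s / 8) with hε'
  have he0 : 0 < ε' := by positivity
  have he1 : ε' ≤ ε / 2 := min_le_left _ _
  have he2 : ε' ≤ s / 8 := min_le_right _ _
  set δ := min (min δ' (ε / 2)) (min (s / 16) (s * δ' / (8 * (d + 3)))) with hδ
  have hd0 : 0 < δ := by positivity
  have hd1 : δ ≤ δ' := (min_le_left _ _).trans (min_le_left _ _)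
  have hd2 : δ ≤ ε / 2 := (min_le_left _ _).trans (min_le_right _ _)
  have hd3 : δ ≤ s / 16 := (min_le_right _ _).trans (min_le_left _ _)
  have hd4 : δ ≤ s * δ' / (8 * (d + 3)) := (min_le_right _ _).trans (min_le_right _ _)
  clear_value ε' δ
  obtain ⟨n1, hn1⟩ := h26_choose_lb d
  obtain ⟨n2, hn2⟩ := exists_nat_gt ((d : ℝ) / δ)
  refine ⟨δ, hd0, max (max n1 n2) (d + 1), ?_⟩
  intro n hn Q q o l hq0 hq1 ho hol hsw hE hDe hA
  have hnn1 : n1 ≤ n := (le_max_left _ _).trans ((le_max_left _ _).trans hn)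
  have hnn2 : n2 ≤ n := (le_max_right _ _).trans ((le_max_left _ _).trans hn)
  have hnd : d + 1 ≤ n := (le_max_right _ _).trans hn
  have hlb := hn1 n hnn1
  have hub := h26_choose_ub d n
  by_contra hcon
  push Not at hcon
  have hro0 := h26_rt_nonneg ho
  have hro1 := h26_rt_le_one o
  have hrl0 := h26_rt_nonneg (ho.trans hol)
  have hrl1 := h26_rt_le_one l
  have hy0 := h26_rt_nonneg (sub_nonneg.2 hol)
  have hy1 := h26_rt_le_one (l - o)
  have hmono : Wf Q n q (rt o) ≤ Wf Q n q (rt l) :=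
    Wf_mono Q n q (rt o) q (rt l) hq0 le_rfl hq1 hro0 (h26_rt_mono hol) hrl1
  have hw1 : Wf Q n q (rt l) ≤ 1 := Wf_le_one Q n q (rt l) hq0 hq1 hrl0 hrl1
  set w0 := Wf Q n q (rt o) with hw0
  set w2 := Wf Q n q (rt l) with hw2
  have hn0 : (0 : ℝ) < n := by
    have : 0 < n := by omega
    exact_mod_cast this
  have hf0 : (0 : ℝ) < d.factorial := by exact_mod_cast Nat.factorial_pos d
  have hM0 : (0 : ℝ) < (n.choose d : ℝ) := by
    exact_mod_cast Nat.choose_pos (by omega)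
  have hM1 : (0 : ℝ) < (n.choose (d + 1) : ℝ) := by
    exact_mod_cast Nat.choose_pos (by omega)
  have hdn : (d : ℝ) ≤ δ * n := by
    have : (d : ℝ) / δ < n := lt_of_lt_of_le hn2 (by exact_mod_cast hnn2)
    rw [div_lt_iff₀ hd0] at this
    linarith
  have hdn0 : ∀ τ ∈ gd d n, 0 ≤ dn d q (rt o) τ := fun τ _ =>
    h26_dn_nonneg d q (rt o) hq0 hro0 τ
  have hdn1 : ∀ τ ∈ gd d n, dn d q (rt o) τ ≤ 1 := fun τ _ =>
    h26_dn_le_one d q (rt o) hq1 hro1 τ
  -- the functions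
  let C : Finset (Finset ℕ) → ℝ := fun A => ((wset Q.toRankFn (rg d n) A).card : ℝ)
  let I : Finset (Finset ℕ) → ℝ := fun A => ind ((w0 + δ) * (n.choose d : ℝ) ≤ C A)
  let N : Finset (Finset ℕ) → ℝ := fun A => (((fc d n).filter (fun σ => ∀ y ∈ σ,
    σ.erase y ∈ wset Q.toRankFn (rg d n) A)).card : ℝ)
  let D : Finset (Finset ℕ) → ℝ := fun B =>
    ind (¬ Disc n d (bf n (wset Q.toRankFn (rg d n) B)) w2 δ)
  set K : ℝ := (n.choose d : ℝ) / (δ' * (n : ℝ) ^ (d + 1)) with hK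
  set L : ℝ := (n.choose d : ℝ) + (n.choose d : ℝ) / δ' with hL
  let F : Finset (Finset ℕ) → ℝ := fun A => ε' * (n : ℝ) ^ d / (d.factorial : ℝ) +
    (n.choose d : ℝ) * I A + K *
        (w2 ^ d * (n * ((d.factorial : ℝ) * C A)) + d * δ * (n : ℝ) ^ (d + 1) -
          ((d + 1).factorial : ℝ) * N A)
  have hpt : ∀ A P : Finset (Finset ℕ), C A ≤ F A + L * D (A ∪ P) := fun A P =>
    h26_pw d n hnd s ε' δ' δ w2 w0 hcnt1 hcnt2 hdich hd1 hd0 he0 hs (hsw.trans hmono) hw1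
      (hs.le.trans hsw) (by linarith) (wset Q.toRankFn (rg d n) A)
      (wset Q.toRankFn (rg d n) (A ∪ P)) (h26_wset_mono _ _ _ _ Finset.subset_union_left)
      (h26_wset_sub _ _ _)
  have hC : E2 d n q (rt o) C = w0 * (n.choose d : ℝ) := by
    rw [hw0]
    unfold Wf
    rw [div_mul_cancel₀ _ hM0.ne']
  have hN : E2 d n q (rt o) N = Af Q n q (rt o) * (n.choose (d + 1) : ℝ) := by
    unfold Af
    rw [div_mul_cancel₀ _ hM1.ne']
  have hAf1 : Af Q n q (rt o) ≤ 1 := by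
    unfold Af
    rw [div_le_one hM1]
    unfold E2
    refine Ev_le_const _ _ hdn0 hdn1 _ _ fun A _ => ?_
    rw [← h26_fc_card]
    exact_mod_cast Finset.card_le_card (Finset.filter_subset _ _)
  have hAf0 : 0 ≤ Af Q n q (rt o) := by
    unfold Af
    refine div_nonneg ?_ hM1.le
    unfold E2
    exact Ev_nonneg _ _ hdn0 hdn1 _ fun A _ => Nat.cast_nonneg _
  have hkey : E2 d n q (rt o) C ≤ E2 d n q (rt o) F + L * E2 d n q (rt l) D := by
    have h1 : E2 d n q (rt o) C ≤ E2 d n q (rt o) (fun A => F A +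
        Ev (rg d n) (fun _ => rt (l - o)) (fun P => L * D (A ∪ P))) := by
      unfold E2
      refine Ev_mono _ _ hdn0 hdn1 _ _ fun A _ => ?_
      have h2 : C A ≤ Ev (rg d n) (fun _ => rt (l - o)) (fun P => F A + L * D (A ∪ P)) := by
        rw [← Ev_const (rg d n) (fun _ => rt (l - o)) (C A)]
        exact Ev_mono _ _ (fun _ _ => hy0) (fun _ _ => hy1) _ _ fun P _ => hpt A P
      rw [Ev_add, Ev_const] at h2
      exact h2
    have h3 : E2 d n q (rt o) (fun A => F A +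
        Ev (rg d n) (fun _ => rt (l - o)) (fun P => L * D (A ∪ P))) =
        E2 d n q (rt o) F + E2 d n q (rt o) (fun A =>
          Ev (rg d n) (fun _ => rt (l - o)) (fun P => L * D (A ∪ P))) := by
      unfold E2
      rw [Ev_add]
    rw [h3, E2_union n q (rt o) (rt (l - o)) (fun B => L * D B), h26_rt_add] at h1
    have h4 : E2 d n q (rt l) (fun B => L * D B) = L * E2 d n q (rt l) D := by
      unfold E2
      rw [Ev_mul]
    rw [h4] at h1
    exact h1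
  have hF : E2 d n q (rt o) F = ε' * (n : ℝ) ^ d / (d.factorial : ℝ) +
    (n.choose d : ℝ) * E2 d n q (rt o) I + K *
        (w2 ^ d * (n * ((d.factorial : ℝ) * (w0 * (n.choose d : ℝ)))) +
          d * δ * (n : ℝ) ^ (d + 1) -
          ((d + 1).factorial : ℝ) * (Af Q n q (rt o) * (n.choose (d + 1) : ℝ))) := by
    rw [← hC, ← hN]
    unfold E2
    simp only [F, Ev_add, Ev_mul, Ev_sub, Ev_const]
  have hI : E2 d n q (rt o) I ≤ δ := hE
  have hDD : E2 d n q (rt l) D ≤ δ := hDe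
  have hK0 : 0 < K := by positivity
  have hL0 : 0 < L := by positivity
  have hch := h26_choose_succ d n (by omega)
  -- the bracket
  have hbr : w2 ^ d * (n * ((d.factorial : ℝ) * (w0 * (n.choose d : ℝ)))) +
          d * δ * (n : ℝ) ^ (d + 1) -
          ((d + 1).factorial : ℝ) * (Af Q n q (rt o) * (n.choose (d + 1) : ℝ)) ≤
      (d + 2) * δ * (n : ℝ) ^ (d + 1) := by
    have e1 : ((d + 1).factorial : ℝ) * (Af Q n q (rt o) * (n.choose (d + 1) : ℝ)) =
        Af Q n q (rt o) * ((d.factorial : ℝ) * (n.choose d : ℝ) * ((n : ℝ) - d)) := by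
      rw [← hch]
      ring
    have e2 : w2 ^ d * (n * ((d.factorial : ℝ) * (w0 * (n.choose d : ℝ)))) ≤
        (Af Q n q (rt o) + δ) * (n * ((d.factorial : ℝ) * (n.choose d : ℝ))) := by
      have : w2 ^ d * (n * ((d.factorial : ℝ) * (w0 * (n.choose d : ℝ)))) =
        (w2 ^ d * w0) * (n * ((d.factorial : ℝ) * (n.choose d : ℝ))) := by ring
      rw [this]
      exact mul_le_mul_of_nonneg_right hA (by positivity)
    set G : ℝ := (d.factorial : ℝ) * (n.choose d : ℝ) with hG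
    have hG0 : 0 < G := by positivity
    set a : ℝ := Af Q n q (rt o)
    have e3 : a * (G * d) ≤ G * (δ * n) := by
      have : a * (G * d) ≤ 1 * (G * d) := mul_le_mul_of_nonneg_right hAf1 (by positivity)
      have h5 : G * d ≤ G * (δ * n) := mul_le_mul_of_nonneg_left hdn hG0.le
      linarith
    have e4 : G * (δ * n) ≤ (n : ℝ) ^ d * (δ * n) :=
      mul_le_mul_of_nonneg_right hub (by positivity)
    have e5 : (n : ℝ) ^ (d + 1) = (n : ℝ) ^ d * n := pow_succ _ _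
    rw [e1]
    have e6 : (a + δ) * (n * G) - a * (G * ((n : ℝ) - d)) = G * (δ * n) + a * (G * d) := by ring
    have e7 : (d + 2) * δ * (n : ℝ) ^ (d + 1) = (d : ℝ) * δ * (n : ℝ) ^ (d + 1) +
        2 * ((n : ℝ) ^ d * (δ * n)) := by
      rw [e5]; ring
    linarith
  have hKbr : K * (w2 ^ d * (n * ((d.factorial : ℝ) * (w0 * (n.choose d : ℝ)))) +
          d * δ * (n : ℝ) ^ (d + 1) -
          ((d + 1).factorial : ℝ) * (Af Q n q (rt o) * (n.choose (d + 1) : ℝ))) ≤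
      (n.choose d : ℝ) * ((d + 2) * δ / δ') := by
    refine (mul_le_mul_of_nonneg_left hbr hK0.le).trans (le_of_eq ?_)
    rw [hK]
    have : (n : ℝ) ^ (d + 1) ≠ 0 := by positivity
    field_simp
  have hfirst : ε' * (n : ℝ) ^ d / (d.factorial : ℝ) ≤ (n.choose d : ℝ) * (2 * ε') := by
    rw [div_le_iff₀ hf0]
    have := mul_le_mul_of_nonneg_left hlb he0.le
    linarith
  have hIM : (n.choose d : ℝ) * E2 d n q (rt o) I ≤ (n.choose d : ℝ) * δ :=
    mul_le_mul_of_nonneg_left hI hM0.le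
  have hLD : L * E2 d n q (rt l) D ≤ (n.choose d : ℝ) * (δ + δ / δ') := by
    refine (mul_le_mul_of_nonneg_left hDD hL0.le).trans (le_of_eq ?_)
    rw [hL]
    ring
  have htot : (n.choose d : ℝ) * w0 ≤ (n.choose d : ℝ) * (2 * ε' + δ + (d + 2) * δ / δ' +
      (δ + δ / δ')) := by
    have h5 := hkey
    rw [hC, hF] at h5
    linarith
  have htot2 : w0 ≤ 2 * ε' + δ + (d + 2) * δ / δ' + (δ + δ / δ') :=
    le_of_mul_le_mul_left htot hM0
  have hfin : (d + 2) * δ / δ' + δ / δ' ≤ s / 8 := by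
    rw [← add_div, div_le_iff₀ hδ']
    have h6 : ((d : ℝ) + 3) * δ ≤ ((d : ℝ) + 3) * (s * δ' / (8 * (d + 3))) :=
      mul_le_mul_of_nonneg_left hd4 (by positivity)
    have h7 : ((d : ℝ) + 3) * (s * δ' / (8 * (d + 3))) = s / 8 * δ' := by
      field_simp
    linarith
  linarith

end FC
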