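import Pool.Agent.H18.FC2.Base
import Pool.Agent.H18.FC2.G2
import Pool.Agent.H18.FC2.Mono

/-!
# First emerging cycle: the function `uf`
-/

namespace FC

open Finset

variable {d : ℕ}

theorem h12_rt_nonneg {x : ℝ} (hx : 0 ≤ x) : 0 ≤ rt x := by
  unfold rt
  have : Real.exp (-x) ≤ 1 := Real.exp_le_one_iff.2 (by linarith)
  linarith

theorem h12_rt_lt_one (x : ℝ) : rt x < 1 := by
  unfold rt
  have := Real.exp_pos (-x)
  linarith

theorem h12_rt_le (x : ℝ) : rt x ≤ x := by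
  unfold rt
  have := Real.add_one_le_exp (-x)
  linarith

theorem h12_rt_zero : rt 0 = 0 := by
  unfold rt
  rw [neg_zero, Real.exp_zero, sub_self]

/-- the rate belonging to the density `v` -/
theorem h12_rt_log {v : ℝ} (hv : v < 1) : rt (-Real.log (1 - v)) = v := by
  unfold rt
  rw [neg_neg, Real.exp_log (by linarith)]
  ring

theorem h12_log_nonneg {v : ℝ} (h0 : 0 ≤ v) (h1 : v < 1) : 0 ≤ -Real.log (1 - v) := by
  have := Real.log_nonpos (by linarith : (0:ℝ) ≤ 1 - v) (by linarith)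
  linarith

theorem h12_nd {n : ℕ} (hn : d + 1 ≤ n) : (0:ℝ) < (n : ℝ) - d := by
  have : ((d : ℝ) + 1) ≤ n := by exact_mod_cast hn
  linarith

theorem h12_M {n : ℕ} (hn : d + 1 ≤ n) : (0:ℝ) < (n.choose d : ℝ) := by
  exact_mod_cast Nat.choose_pos (by omega : d ≤ n)

theorem h12_N {n : ℕ} (hn : d + 1 ≤ n) :
    (n.choose (d + 1) : ℝ) * ((d : ℝ) + 1) = (n.choose d : ℝ) * ((n : ℝ) - d) := by
  have h := Nat.choose_succ_right_eq n d
  have h2 : ((n - d : ℕ) : ℝ) = (n : ℝ) - d := Nat.cast_sub (by omega)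
  rw [← h2]
  exact_mod_cast h

/-- rate times number of faces over number of ridges -/
theorem h12_rate {n : ℕ} (hn : d + 1 ≤ n) (x t : ℝ) :
    (x / ((n : ℝ) - d)) * ((n.choose (d + 1) : ℝ) * t) / (n.choose d : ℝ) =
      x * t / ((d : ℝ) + 1) := by
  have h1 := h12_nd (d := d) hn
  have h2 := h12_M (d := d) hn
  have h3 := h12_N (d := d) hn
  have h4 : (0:ℝ) < (d : ℝ) + 1 := by positivity
  have h5 : (n.choose (d + 1) : ℝ) = (n.choose d : ℝ) * ((n : ℝ) - d) / ((d : ℝ) + 1) := by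
    rw [eq_div_iff h4.ne']; exact h3
  rw [h5]
  field_simp

/-- the basic inequality in terms of an abstract rank bound -/
theorem h12_bound {n : ℕ} (hn : d + 1 ≤ n) (R R' x y T W : ℝ)
    (h : R' ≤ R + (x / ((n : ℝ) - d)) * ((n.choose (d + 1) : ℝ) * (1 - T)) +
      y * ((n.choose d : ℝ) * (1 - W))) :
    R' / (n.choose d : ℝ) ≤ R / (n.choose d : ℝ) + x * (1 - T) / ((d : ℝ) + 1) + y * (1 - W) := by
  have h2 := h12_M (d := d) hn
  rw [← h12_rate hn x (1 - T)]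
  have h3 : y * ((n.choose d : ℝ) * (1 - W)) / (n.choose d : ℝ) = y * (1 - W) := by
    field_simp
  rw [← h3, ← add_div, ← add_div]
  exact div_le_div_of_nonneg_right h h2.le

theorem u_grad (Q : ERank d) (n : ℕ) (hn : d + 1 ≤ n) (c l c' l' : ℝ) (hc : 0 ≤ c) (hl : 0 ≤ l)
    (hc' : 0 ≤ c') (hl' : 0 ≤ l') :
    uf Q n c l + (c' - c) * Tf Q n (rt (c / ((n : ℝ) - d))) (rt l) / ((d : ℝ) + 1) +
      (l' - l) * Wf Q n (rt (c / ((n : ℝ) - d))) (rt l) ≤ uf Q n c' l' := by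
  have h1 := h12_nd (d := d) hn
  have h := g2 Q n (c / ((n : ℝ) - d)) l (c' / ((n : ℝ) - d)) l' (by positivity) hl
    (by positivity) hl'
  rw [← sub_div] at h
  have h2 := h12_bound hn _ _ _ _ _ _ h
  have h4 : (0:ℝ) < (d : ℝ) + 1 := by positivity
  unfold uf
  set T := Tf Q n (rt (c / ((n : ℝ) - d))) (rt l)
  set W := Wf Q n (rt (c / ((n : ℝ) - d))) (rt l)
  have h5 : (c' - c) * (1 - T) / ((d : ℝ) + 1) = c' / ((d : ℝ) + 1) - c / ((d : ℝ) + 1) -
      (c' - c) * T / ((d : ℝ) + 1) := by ring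
  rw [h5] at h2
  linarith

theorem u_nonneg (Q : ERank d) (n : ℕ) (hn : d + 1 ≤ n) (c l : ℝ) (hc : 0 ≤ c) (hl : 0 ≤ l) :
    0 ≤ uf Q n c l := by
  have h1 := h12_nd (d := d) hn
  have hM := h12_M (d := d) hn
  have hμ : 0 ≤ c / ((n : ℝ) - d) := by positivity
  have h := Rf_le Q n (rt (c / ((n : ℝ) - d))) (rt l) (h12_rt_nonneg hμ) (h12_rt_lt_one _).le
    (h12_rt_nonneg hl) (h12_rt_lt_one _).le
  have h2 : Rf Q n (rt (c / ((n : ℝ) - d))) (rt l) ≤
      (c / ((n : ℝ) - d)) * ((n.choose (d + 1) : ℝ) * 1) + l * (n.choose d : ℝ) := by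
    refine h.trans ?_
    have a1 := mul_le_mul_of_nonneg_left (h12_rt_le (c / ((n : ℝ) - d)))
      (Nat.cast_nonneg (α := ℝ) (n.choose (d + 1)))
    have a2 := mul_le_mul_of_nonneg_left (h12_rt_le l) hM.le
    linarith
  have h3 := div_le_div_of_nonneg_right h2 hM.le
  rw [add_div, h12_rate hn, mul_div_cancel_right₀ _ hM.ne', mul_one] at h3
  unfold uf
  linarith

theorem u_lb (Q : ERank d) (hd : 1 ≤ d) (n : ℕ) (hn : d + 1 ≤ n) (c l v : ℝ) (hc : 0 ≤ c)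
    (hl : 0 ≤ l) (hv0 : 0 ≤ v) (hv1 : v < 1) :
    c * v ^ (d + 1) / ((d : ℝ) + 1) + l * v - Ef v ≤ uf Q n c l := by
  have hM := h12_M (d := d) hn
  have hL := h12_log_nonneg hv0 hv1
  have h := u_grad Q n hn 0 (-Real.log (1 - v)) c l le_rfl hL hc hl
  rw [zero_div, h12_rt_zero, h12_rt_log hv1, base_W Q hd n (by omega) v] at h
  have hT := base_T Q hd n hn v hv0 hv1.le
  have h0 : uf Q n 0 (-Real.log (1 - v)) = -Real.log (1 - v) - v := by
    unfold uf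
    rw [zero_div, zero_div, h12_rt_zero, h12_rt_log hv1, base_R Q hd, mul_div_assoc,
      div_self hM.ne']
    ring
  rw [h0, sub_zero] at h
  have h4 : (0:ℝ) < (d : ℝ) + 1 := by positivity
  have h5 : c * v ^ (d + 1) / ((d : ℝ) + 1) ≤ c * Tf Q n 0 v / ((d : ℝ) + 1) :=
    div_le_div_of_nonneg_right (mul_le_mul_of_nonneg_left hT hc) h4.le
  unfold Ef
  have h6 : (l - -Real.log (1 - v)) * v = l * v + Real.log (1 - v) * v := by ring
  rw [h6] at h
  have h7 : v + (1 - v) * Real.log (1 - v) = v + Real.log (1 - v) - Real.log (1 - v) * v := by ring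
  rw [h7]
  linarith

theorem u_ub (Q : ERank d) (hd : 1 ≤ d) (n : ℕ) (hn : d + 1 ≤ n) (c l : ℝ) (hc : 0 ≤ c)
    (hl : 0 ≤ l) : uf Q n c l ≤ c * Tf Q n (rt (c / ((n : ℝ) - d))) (rt l) / ((d : ℝ) + 1) +
      l * Wf Q n (rt (c / ((n : ℝ) - d))) (rt l) -
      Ef (Wf Q n (rt (c / ((n : ℝ) - d))) (rt l)) := by
  have h1 := h12_nd (d := d) hn
  have hM := h12_M (d := d) hn
  have hμ : 0 ≤ c / ((n : ℝ) - d) := by positivity
  have hw0 := Wf_nonneg Q n (rt (c / ((n : ℝ) - d))) (rt l) (h12_rt_nonneg hμ)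
    (h12_rt_lt_one _).le (h12_rt_nonneg hl) (h12_rt_lt_one _).le
  have hw1 := Wf_lt_one Q hd n (rt (c / ((n : ℝ) - d))) (rt l) (h12_rt_nonneg hμ)
    (h12_rt_lt_one _) (h12_rt_nonneg hl) (h12_rt_lt_one _)
  have hL := h12_log_nonneg hw0 hw1
  have h := u_grad Q n hn c l 0 _ hc hl le_rfl hL
  set w := Wf Q n (rt (c / ((n : ℝ) - d))) (rt l)
  have h0 : uf Q n 0 (-Real.log (1 - w)) = -Real.log (1 - w) - w := by
    unfold uf
    rw [zero_div, zero_div, h12_rt_zero, h12_rt_log hw1, base_R Q hd, mul_div_assoc,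
      div_self hM.ne']
    ring
  rw [h0] at h
  unfold Ef
  have h6 : (0 - c) * Tf Q n (rt (c / ((n : ℝ) - d))) (rt l) / ((d : ℝ) + 1) =
      -(c * Tf Q n (rt (c / ((n : ℝ) - d))) (rt l) / ((d : ℝ) + 1)) := by ring
  rw [h6] at h
  have h7 : w + (1 - w) * Real.log (1 - w) = w + Real.log (1 - w) - Real.log (1 - w) * w := by ring
  have h8 : (-Real.log (1 - w) - l) * w = -(Real.log (1 - w) * w) - l * w := by ring
  rw [h8] at h
  rw [h7]
  linarith

end FC
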